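import Pool.Agent.Lib.MP_5fcc10_co.Hall

/-! From step injections and private lists to orthogonal chain decompositions. -/

set_option linter.unusedSectionVars false

namespace Pool.Agent.SK

open Finset

section greedy

variable {V N : Type*} [Fintype V] [DecidableEq V] [DecidableEq N]

theorem greedy_extend (m s : ℕ) (L : Fin m → V → Finset N) (B0 : Finset V) (c0 : Fin m → V → N)
    (h0 : ∀ i v, c0 i v ∈ L i v) (hbig : ∀ i v, v ∉ B0 → m * s < (L i v).card)
    (hcls : ∀ c : Fin m → V → N, (∀ i v, c i v ∈ L i v) →
      ∀ i a, (univ.filter (fun v => c i v = a)).card ≤ s)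
    (horth : ∀ i j, i ≠ j → ∀ x ∈ B0, ∀ y ∈ B0, x ≠ y → c0 i x = c0 i y → c0 j x ≠ c0 j y) :
    ∃ c : Fin m → V → N, (∀ i v, c i v ∈ L i v) ∧ (∀ v ∈ B0, ∀ i, c i v = c0 i v) ∧
      ∀ i j, i ≠ j → ∀ x y, x ≠ y → c i x = c i y → c j x ≠ c j y := by
  classical
  have key : ∀ T : Finset V, (∀ v ∈ T, v ∉ B0) →
      ∃ c : Fin m → V → N, (∀ i v, c i v ∈ L i v) ∧ (∀ v ∈ B0, ∀ i, c i v = c0 i v) ∧
      ∀ i j, i ≠ j → ∀ x ∈ B0 ∪ T, ∀ y ∈ B0 ∪ T, x ≠ y → c i x = c i y → c j x ≠ c j y := by
    intro T
    induction T using Finset.induction_on with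
    | empty =>
      intro _
      refine ⟨c0, h0, fun _ _ _ => rfl, ?_⟩
      rw [union_empty]
      exact horth
    | insert v T hvT ih =>
      intro hT
      obtain ⟨c, hcL, hcB, hco⟩ := ih (fun w hw => hT w (mem_insert_of_mem hw))
      have hvB : v ∉ B0 := hT v (mem_insert_self v T)
      have step : ∀ k : ℕ, k ≤ m → ∃ d : Fin m → N, (∀ i, d i ∈ L i v) ∧
          ∀ i j : Fin m, i.val < k → j.val < k → i ≠ j → ∀ y ∈ B0 ∪ T, d i = c i y → d j ≠ c j y := by
        intro k
        induction k with
        | zero =>
          intro _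
          exact ⟨fun i => c i v, fun i => hcL i v, fun i j hi => absurd hi (Nat.not_lt_zero _)⟩
        | succ k ihk =>
          intro hk
          obtain ⟨d, hd, hdo⟩ := ihk (by omega)
          set K : Fin m := ⟨k, by omega⟩ with hK
          set bad : Finset N := (univ.filter (fun i : Fin m => i.val < k)).biUnion
            (fun i => (univ.filter (fun y => c i y = d i)).image (c K)) with hbad
          have hcard : bad.card ≤ m * s := by
            refine card_biUnion_le.trans ?_
            refine (sum_le_sum (fun i _ => card_image_le.trans (hcls c hcL i (d i)))).trans ?_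
            rw [sum_const, smul_eq_mul]
            apply Nat.mul_le_mul_right
            refine (card_filter_le _ _).trans ?_
            rw [card_univ, Fintype.card_fin]
          have hex : ∃ e ∈ L K v, e ∉ bad := by
            by_contra hcon
            push Not at hcon
            have : (L K v).card ≤ bad.card := card_le_card hcon
            have := hbig K v hvB
            omega
          obtain ⟨e, heL, heb⟩ := hex
          refine ⟨Function.update d K e, ?_, ?_⟩
          · intro i
            by_cases hi : i = K
            · rw [hi, Function.update_self]; exact heL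
            · rw [Function.update_of_ne hi]; exact hd i
          · have hne : ∀ i : Fin m, i.val < k → ∀ y ∈ B0 ∪ T, d i = c i y → e ≠ c K y := by
              intro i hi y _ h1 h2
              apply heb
              rw [hbad, mem_biUnion]
              refine ⟨i, mem_filter.2 ⟨mem_univ _, hi⟩, ?_⟩
              rw [mem_image]
              exact ⟨y, mem_filter.2 ⟨mem_univ _, h1.symm⟩, h2.symm⟩
            intro i j hi hj hij y hy
            by_cases hiK : i = K
            · have hjK : j ≠ K := fun h => hij (hiK.trans h.symm)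
              have hjk : j.val < k := by
                have : j.val ≠ k := fun h => hjK (Fin.ext h)
                omega
              rw [hiK, Function.update_self, Function.update_of_ne hjK]
              intro h1 h2
              exact hne j hjk y hy h2 h1
            · have hik : i.val < k := by
                have : i.val ≠ k := fun h => hiK (Fin.ext h)
                omega
              by_cases hjK : j = K
              · rw [hjK, Function.update_self, Function.update_of_ne hiK]
                exact hne i hik y hy
              · have hjk : j.val < k := by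
                  have : j.val ≠ k := fun h => hjK (Fin.ext h)
                  omega
                rw [Function.update_of_ne hiK, Function.update_of_ne hjK]
                exact hdo i j hik hjk hij y hy
      obtain ⟨d, hd, hdo⟩ := step m le_rfl
      have hdo' : ∀ i j : Fin m, i ≠ j → ∀ y ∈ B0 ∪ T, d i = c i y → d j ≠ c j y :=
        fun i j hij => hdo i j i.2 j.2 hij
      have hvBT : ∀ y ∈ B0 ∪ T, y ≠ v := by
        intro y hy he
        rcases mem_union.1 hy with h | h
        · exact hvB (he ▸ h)
        · exact hvT (he ▸ h)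
      have hmem : ∀ x ∈ B0 ∪ insert v T, x = v ∨ x ∈ B0 ∪ T := by
        intro x hx
        rcases mem_union.1 hx with h | h
        · exact Or.inr (mem_union_left _ h)
        · rcases mem_insert.1 h with h | h
          · exact Or.inl h
          · exact Or.inr (mem_union_right _ h)
      obtain ⟨c', hself, hof⟩ : ∃ c' : Fin m → V → N, (∀ i, c' i v = d i) ∧
          ∀ i w, w ≠ v → c' i w = c i w :=
        ⟨fun i => Function.update (c i) v (d i), fun i => Function.update_self _ _ _,
          fun i w h => Function.update_of_ne h _ _⟩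
      refine ⟨c', ?_, ?_, ?_⟩
      · intro i w
        by_cases hw : w = v
        · rw [hw, hself]; exact hd i
        · rw [hof i w hw]; exact hcL i w
      · intro w hw i
        have : w ≠ v := fun h => hvB (h ▸ hw)
        rw [hof i w this]
        exact hcB w hw i
      · intro i j hij x hx y hy hxy
        rcases hmem x hx with hxv | hx'
        · rcases hmem y hy with hyv | hy'
          · exact absurd (hxv.trans hyv.symm) hxy
          · rw [hxv, hself, hself, hof _ y (hvBT y hy'), hof _ y (hvBT y hy')]
            exact hdo' i j hij y hy'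
        · rcases hmem y hy with hyv | hy'
          · rw [hyv, hself, hself, hof _ x (hvBT x hx'), hof _ x (hvBT x hx')]
            intro h1 h2
            exact hdo' i j hij x hx' h1.symm h2.symm
          · rw [hof _ x (hvBT x hx'), hof _ x (hvBT x hx'), hof _ y (hvBT y hy'),
              hof _ y (hvBT y hy')]
            exact hco i j hij x hx' y hy' hxy
  obtain ⟨c, h1, h2, h3⟩ := key (univ.filter (fun v => v ∉ B0)) (fun v hv => (mem_filter.1 hv).2)
  refine ⟨c, h1, h2, ?_⟩
  have hall : ∀ x, x ∈ B0 ∪ univ.filter (fun v => v ∉ B0) := by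
    intro x
    by_cases hx : x ∈ B0
    · exact mem_union_left _ hx
    · exact mem_union_right _ (mem_filter.2 ⟨mem_univ _, hx⟩)
  intro i j hij x y hxy
  exact h3 i j hij x (hall x) y (hall y) hxy

end greedy

/-- composition of the step relations from level `s` to level `t` -/
inductive Comp {κ : Type*} (R : ℕ → κ → κ → Prop) : ℕ → ℕ → κ → κ → Prop
  | refl (s : ℕ) (a : κ) : Comp R s s a a
  | step (s t : ℕ) (a b c : κ) : Comp R s t a b → R t b c → Comp R s (t+1) a c

lemma Comp.trans {κ : Type*} {R : ℕ → κ → κ → Prop} {s t u : ℕ} {a b c : κ}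
    (h1 : Comp R s t a b) (h2 : Comp R t u b c) : Comp R s u a c := by
  induction h2 with
  | refl _ => exact h1
  | step u' x y z h3 h4 ih => exact Comp.step _ _ _ _ _ (ih h1) h4

lemma Comp.one {κ : Type*} {R : ℕ → κ → κ → Prop} {s : ℕ} {a b : κ}
    (h : R s a b) : Comp R s (s+1) a b := Comp.step _ _ _ _ _ (Comp.refl s a) h

/-- step injections towards level `a` inside the band `[lo, hi]`, and private lists for the sets
outside the band -/
structure StepData {n : ℕ} {κ : Type*} (m a b lo hi M : ℕ) (R : Fin m → ℕ → κ → κ → Prop)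
    (ψ : Finset (Fin n) → κ) where
  fu : Fin m → Finset (Fin n) → Finset (Fin n)
  fd : Fin m → Finset (Fin n) → Finset (Fin n)
  g : Fin m → Finset (Fin n) → Fin M → Finset (Fin n)
  h : Fin m → Finset (Fin n) → Fin M → Finset (Fin n)
  fu_mem : ∀ i x, lo ≤ x.card → x.card < a → fu i x ∈ up x ∧ R i x.card (ψ x) (ψ (fu i x))
  fu_inj : ∀ i x x', lo ≤ x.card → x.card < a → x'.card = x.card → fu i x = fu i x' → x = x'
  fd_mem : ∀ i x, a < x.card → x.card ≤ hi → fd i x ∈ dn x ∧ R i (x.card - 1) (ψ (fd i x)) (ψ x)
  fd_inj : ∀ i x x', a < x.card → x.card ≤ hi → x'.card = x.card → fd i x = fd i x' → x = x'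
  g_mem : ∀ i v, v.card < lo → ∀ r, v ⊆ g i v r ∧ (g i v r).card = a
  g_inj : ∀ i v v', v.card < lo → v'.card < lo → ∀ r r', g i v r = g i v' r' → v = v' ∧ r = r'
  g_fu : ∀ i v r x, v.card < lo → x.card + 1 = a → fu i x ≠ g i v r
  h_mem : ∀ i v, hi < v.card → ∀ r, h i v r ⊆ v ∧ (h i v r).card = b
  h_inj : ∀ i v v', hi < v.card → hi < v'.card → ∀ r r', h i v r = h i v' r' → v = v' ∧ r = r'
  h_fd : ∀ i v r x, hi < v.card → x.card = b + 1 → fd i x ≠ h i v r

namespace StepData

variable {n : ℕ} {κ : Type*} {m a b lo hi M : ℕ} {R : Fin m → ℕ → κ → κ → Prop}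
  {ψ : Finset (Fin n) → κ} (D : StepData m a b lo hi M R ψ)

/-- one step towards level `a` -/
def nxt (i : Fin m) (x : Finset (Fin n)) : Finset (Fin n) :=
  if x.card < a then D.fu i x else if a < x.card then D.fd i x else x

/-- the element of level `a` in the chain of `x` -/
def root (i : Fin m) (x : Finset (Fin n)) : Finset (Fin n) :=
  if x.card ≤ a then (D.nxt i)^[a - x.card] x else (D.nxt i)^[x.card - a] x

lemma low_path (i : Fin m) (r : ℕ) : ∀ x : Finset (Fin n), lo ≤ x.card → x.card + r ≤ a →
    ((D.nxt i)^[r] x).card = x.card + r ∧ x ⊆ (D.nxt i)^[r] x ∧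
    Comp (R i) x.card (x.card + r) (ψ x) (ψ ((D.nxt i)^[r] x)) := by
  induction r with
  | zero => intro x _ _; exact ⟨rfl, le_refl _, Comp.refl _ _⟩
  | succ r ih =>
    intro x hx hr
    obtain ⟨h1, h2, h3⟩ := ih x hx (by omega)
    rw [Function.iterate_succ_apply']
    set z := (D.nxt i)^[r] x with hz
    have hzc : z.card < a := by omega
    have hn : D.nxt i z = D.fu i z := by unfold nxt; rw [if_pos hzc]
    rw [hn]
    obtain ⟨h4, h5⟩ := D.fu_mem i z (by omega) hzc
    rw [mem_up] at h4
    refine ⟨by omega, h2.trans h4.1, ?_⟩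
    refine Comp.step _ (x.card + r) _ _ _ h3 ?_
    rw [← h1]
    exact h5

lemma low_inj (i : Fin m) (r : ℕ) : ∀ x x' : Finset (Fin n), lo ≤ x.card → x.card + r ≤ a →
    x'.card = x.card → (D.nxt i)^[r] x = (D.nxt i)^[r] x' → x = x' := by
  induction r with
  | zero => intro x x' _ _ _ h; exact h
  | succ r ih =>
    intro x x' hx hr hxx' h
    obtain ⟨h1, _, _⟩ := D.low_path i r x hx (by omega)
    obtain ⟨h1', _, _⟩ := D.low_path i r x' (by omega) (by omega)
    rw [Function.iterate_succ_apply', Function.iterate_succ_apply'] at h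
    apply ih x x' hx (by omega) hxx'
    set z := (D.nxt i)^[r] x with hz
    set z' := (D.nxt i)^[r] x' with hz'
    have hn : D.nxt i z = D.fu i z := by unfold nxt; rw [if_pos (by omega)]
    have hn' : D.nxt i z' = D.fu i z' := by unfold nxt; rw [if_pos (by omega)]
    rw [hn, hn'] at h
    exact D.fu_inj i z z' (by omega) (by omega) (by omega) h

lemma high_path (i : Fin m) (r : ℕ) : ∀ x : Finset (Fin n), x.card ≤ hi → a + r ≤ x.card →
    ((D.nxt i)^[r] x).card = x.card - r ∧ (D.nxt i)^[r] x ⊆ x ∧
    Comp (R i) (x.card - r) x.card (ψ ((D.nxt i)^[r] x)) (ψ x) := by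
  induction r with
  | zero => intro x _ _; exact ⟨rfl, le_refl _, Comp.refl _ _⟩
  | succ r ih =>
    intro x hx hr
    obtain ⟨h1, h2, h3⟩ := ih x hx (by omega)
    rw [Function.iterate_succ_apply']
    set z := (D.nxt i)^[r] x with hz
    have hzc : a < z.card := by omega
    have hn : D.nxt i z = D.fd i z := by unfold nxt; rw [if_neg (by omega), if_pos hzc]
    rw [hn]
    obtain ⟨h4, h5⟩ := D.fd_mem i z hzc (by omega)
    rw [mem_dn] at h4
    refine ⟨by omega, h4.1.trans h2, ?_⟩
    have e1 : x.card - r = x.card - (r + 1) + 1 := by omega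
    have h6 : Comp (R i) (x.card - (r+1)) (x.card - (r+1) + 1) (ψ (D.fd i z)) (ψ z) := by
      apply Comp.one
      have : z.card - 1 = x.card - (r+1) := by omega
      rw [← this]
      exact h5
    rw [← e1] at h6
    exact h6.trans h3

lemma high_inj (i : Fin m) (r : ℕ) : ∀ x x' : Finset (Fin n), x.card ≤ hi → a + r ≤ x.card →
    x'.card = x.card → (D.nxt i)^[r] x = (D.nxt i)^[r] x' → x = x' := by
  induction r with
  | zero => intro x x' _ _ _ h; exact h
  | succ r ih =>
    intro x x' hx hr hxx' h
    obtain ⟨h1, _, _⟩ := D.high_path i r x hx (by omega)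
    obtain ⟨h1', _, _⟩ := D.high_path i r x' (by omega) (by omega)
    rw [Function.iterate_succ_apply', Function.iterate_succ_apply'] at h
    apply ih x x' hx (by omega) hxx'
    set z := (D.nxt i)^[r] x with hz
    set z' := (D.nxt i)^[r] x' with hz'
    have hn : D.nxt i z = D.fd i z := by unfold nxt; rw [if_neg (by omega), if_pos (by omega)]
    have hn' : D.nxt i z' = D.fd i z' := by unfold nxt; rw [if_neg (by omega), if_pos (by omega)]
    rw [hn, hn'] at h
    exact D.fd_inj i z z' (by omega) (by omega) (by omega) h

lemma root_low (i : Fin m) (x : Finset (Fin n)) (hx : lo ≤ x.card) (hxa : x.card ≤ a) :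
    (D.root i x).card = a ∧ x ⊆ D.root i x ∧ Comp (R i) x.card a (ψ x) (ψ (D.root i x)) := by
  unfold root
  rw [if_pos hxa]
  obtain ⟨h1, h2, h3⟩ := D.low_path i (a - x.card) x hx (by omega)
  have e : x.card + (a - x.card) = a := by omega
  rw [e] at h1 h3
  exact ⟨h1, h2, h3⟩

lemma root_high (i : Fin m) (x : Finset (Fin n)) (hx : x.card ≤ hi) (hxa : a ≤ x.card) :
    (D.root i x).card = a ∧ D.root i x ⊆ x ∧ Comp (R i) a x.card (ψ (D.root i x)) (ψ x) := by
  have hr : D.root i x = (D.nxt i)^[x.card - a] x := by
    unfold root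
    by_cases h : x.card ≤ a
    · have h2 : x.card = a := le_antisymm h hxa
      rw [if_pos h, h2, Nat.sub_self]
    · rw [if_neg h]
  rw [hr]
  obtain ⟨h1, h2, h3⟩ := D.high_path i (x.card - a) x hx (by omega)
  have e : x.card - (x.card - a) = a := by omega
  rw [e] at h1 h3
  exact ⟨h1, h2, h3⟩

lemma root_mid (i : Fin m) (x : Finset (Fin n)) (hxa : x.card = a) : D.root i x = x := by
  unfold root
  rw [if_pos hxa.le, hxa, Nat.sub_self]
  rfl

/-- the main structural lemma -/
lemma root_eq (i : Fin m) (x y : Finset (Fin n)) (hx : lo ≤ x.card) (hy : y.card ≤ hi)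
    (hxy : x.card ≤ y.card) (h : D.root i x = D.root i y) (hlo : lo ≤ a) (hhi : a ≤ hi) :
    x ⊆ y ∧ Comp (R i) x.card y.card (ψ x) (ψ y) := by
  by_cases hya : y.card ≤ a
  · -- both low
    obtain ⟨h1, h2, h3⟩ := D.low_path i (y.card - x.card) x hx (by omega)
    set z := (D.nxt i)^[y.card - x.card] x with hz
    have e1 : x.card + (y.card - x.card) = y.card := by omega
    rw [e1] at h1 h3
    have e2 : D.root i x = (D.nxt i)^[a - y.card] z := by
      unfold root
      rw [if_pos (by omega), hz, ← Function.iterate_add_apply]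
      congr 2
      omega
    have e3 : D.root i y = (D.nxt i)^[a - y.card] y := by
      unfold root
      rw [if_pos hya]
    rw [e2, e3] at h
    have := D.low_inj i (a - y.card) z y (by omega) (by omega) h1.symm h
    rw [this] at h2 h3
    exact ⟨h2, h3⟩
  · push Not at hya
    by_cases hxa : a ≤ x.card
    · -- both high
      obtain ⟨h1, h2, h3⟩ := D.high_path i (y.card - x.card) y hy (by omega)
      set z := (D.nxt i)^[y.card - x.card] y with hz
      have e1 : y.card - (y.card - x.card) = x.card := by omega
      rw [e1] at h1 h3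
      have e2 : D.root i y = (D.nxt i)^[x.card - a] z := by
        unfold root
        rw [if_neg (by omega), hz, ← Function.iterate_add_apply]
        congr 2
        omega
      have e3 : D.root i x = (D.nxt i)^[x.card - a] x := by
        unfold root
        by_cases h : x.card ≤ a
        · have h2 : x.card = a := le_antisymm h hxa
          rw [if_pos h, h2, Nat.sub_self]
        · rw [if_neg h]
      rw [e2, e3] at h
      have := D.high_inj i (x.card - a) x z (by omega) (by omega) h1 h
      rw [← this] at h2 h3
      exact ⟨h2, h3⟩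
    · push Not at hxa
      obtain ⟨_, h2, h3⟩ := D.root_low i x hx hxa.le
      obtain ⟨_, h2', h3'⟩ := D.root_high i y hy hya.le
      rw [← h] at h2' h3'
      exact ⟨h2.trans h2', h3.trans h3'⟩

/-- low far elements are below the whole chain -/
lemma far_low (i : Fin m) (hab : a ≤ b) (hlo : lo < a) (hhi : b < hi) (v : Finset (Fin n))
    (hv : v.card < lo) (r : Fin M) (x : Finset (Fin n)) (hx1 : lo ≤ x.card) (hx2 : x.card ≤ hi)
    (h : D.root i x = D.g i v r) : v ⊆ x := by
  obtain ⟨h1, h2⟩ := D.g_mem i v hv r
  by_cases hxa : a ≤ x.card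
  · obtain ⟨_, h3, _⟩ := D.root_high i x hx2 hxa
    rw [h] at h3
    exact h1.trans h3
  · push Not at hxa
    exfalso
    obtain ⟨h3, _, _⟩ := D.low_path i (a - 1 - x.card) x hx1 (by omega)
    set z := (D.nxt i)^[a - 1 - x.card] x with hz
    have e1 : D.root i x = D.nxt i z := by
      unfold root
      rw [if_pos hxa.le, hz, ← Function.iterate_succ_apply' (D.nxt i)]
      congr 2
      omega
    have e2 : D.nxt i z = D.fu i z := by unfold nxt; rw [if_pos (by omega)]
    exact D.g_fu i v r z hv (by omega) (e2.symm.trans (e1.symm.trans h))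

/-- high far elements are above the whole chain -/
lemma far_high (i : Fin m) (hab : a ≤ b) (hlo : lo < a) (hhi : b < hi) (v : Finset (Fin n))
    (hv : hi < v.card) (r : Fin M) (x : Finset (Fin n)) (hx1 : lo ≤ x.card) (hx2 : x.card ≤ hi)
    (h : D.root i x = D.root i (D.h i v r)) : x ⊆ v := by
  obtain ⟨h1, h2⟩ := D.h_mem i v hv r
  by_cases hxb : x.card ≤ b
  · exact (D.root_eq i x _ hx1 (by omega) (by omega) h (by omega) (by omega)).1.trans h1
  · push Not at hxb
    exfalso
    obtain ⟨h3, _, _⟩ := D.high_path i (x.card - (b+1)) x hx2 (by omega)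
    set z := (D.nxt i)^[x.card - (b+1)] x with hz
    have e2 : D.nxt i z = D.fd i z := by
      unfold nxt; rw [if_neg (by omega), if_pos (by omega)]
    have hw := D.fd_mem i z (by omega) (by omega)
    have hwc : (D.fd i z).card = b := by
      have := mem_dn.1 hw.1
      omega
    have e1 : D.root i x = D.root i (D.fd i z) := by
      have e3 : D.root i x = (D.nxt i)^[b - a] (D.fd i z) := by
        unfold root
        rw [if_neg (by omega), ← e2, hz, ← Function.iterate_succ_apply' (D.nxt i),
          ← Function.iterate_add_apply]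
        congr 2
        omega
      have e4 : D.root i (D.fd i z) = (D.nxt i)^[b - a] (D.fd i z) := by
        unfold root
        rw [hwc]
        by_cases h : b ≤ a
        · rw [if_pos h]
          have : a - b = b - a := by omega
          rw [this]
        · rw [if_neg h]
      rw [e3, e4]
    rw [e1] at h
    have h5 := (D.root_eq i (D.fd i z) _ (by omega) (by omega) (by omega) h (by omega)
      (by omega)).1
    have h6 : D.fd i z = D.h i v r := eq_of_subset_of_card_le h5 (by omega)
    exact D.h_fd i v r z hv (by omega) h6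

end StepData

lemma chain_card {n : ℕ} (S : Finset (Finset (Fin n)))
    (h : ∀ x ∈ S, ∀ y ∈ S, x ⊆ y ∨ y ⊆ x) : S.card ≤ n + 1 := by
  have : S.card ≤ (range (n+1)).card := by
    apply card_le_card_of_injOn Finset.card
    · intro x _
      rw [coe_range, Set.mem_Iio]
      have := card_le_univ x
      rw [Fintype.card_fin] at this
      omega
    · intro x hx y hy hxy
      rcases h x hx y hy with h1 | h1
      · exact eq_of_subset_of_card_le h1 hxy.ge
      · exact (eq_of_subset_of_card_le h1 hxy.le).symm
  rwa [card_range] at this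

open Classical in
theorem assembly {n : ℕ} {κ : Type*} {m a b lo hi M : ℕ} {R : Fin m → ℕ → κ → κ → Prop}
    {ψ : Finset (Fin n) → κ} (D : StepData m a b lo hi M R ψ) (hab : a ≤ b) (hlo : lo < a)
    (hhi : b < hi)
    (hsep : ∀ i j, i ≠ j → ∀ s t, lo ≤ s → s < t → t ≤ hi → ∀ x y, Comp (R i) s t x y →
      Comp (R j) s t x y → False)
    (hM : m * (n + 1) < M) :
    ∃ c : Fin m → Finset (Fin n) → Finset (Fin n), (∀ i x, (c i x).card = a) ∧
      (∀ i x y, c i x = c i y → x ⊆ y ∨ y ⊆ x) ∧
      (∀ i j, i ≠ j → ∀ x y, x ≠ y → c i x = c i y → c j x ≠ c j y) := by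
  set B0 : Finset (Finset (Fin n)) := univ.filter (fun x => lo ≤ x.card ∧ x.card ≤ hi) with hB0
  set L : Fin m → Finset (Fin n) → Finset (Finset (Fin n)) := fun i x =>
    if x.card < lo then univ.image (fun r => D.g i x r)
    else if hi < x.card then univ.image (fun r => D.root i (D.h i x r))
    else {D.root i x} with hL
  have hMpos : 0 < M := by omega
  have L_low : ∀ i x, x.card < lo → L i x = univ.image (fun r => D.g i x r) := by
    intro i x hx; simp only [hL]; rw [if_pos hx]
  have L_high : ∀ i x, hi < x.card → L i x = univ.image (fun r => D.root i (D.h i x r)) := by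
    intro i x hx; simp only [hL]; rw [if_neg (by omega), if_pos hx]
  have L_band : ∀ i x, lo ≤ x.card → x.card ≤ hi → L i x = {D.root i x} := by
    intro i x hx hx'; simp only [hL]; rw [if_neg (by omega), if_neg (by omega)]
  have hne : ∀ i x, (L i x).Nonempty := by
    intro i x
    by_cases h1 : x.card < lo
    · rw [L_low i x h1]
      exact ⟨_, mem_image.2 ⟨⟨0, hMpos⟩, mem_univ _, rfl⟩⟩
    · by_cases h2 : hi < x.card
      · rw [L_high i x h2]
        exact ⟨_, mem_image.2 ⟨⟨0, hMpos⟩, mem_univ _, rfl⟩⟩
      · rw [L_band i x (by omega) (by omega)]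
        exact singleton_nonempty _
  have root_h_inj : ∀ i v v', hi < v.card → hi < v'.card → ∀ r r',
      D.root i (D.h i v r) = D.root i (D.h i v' r') → v = v' ∧ r = r' := by
    intro i v v' hv hv' r r' h
    obtain ⟨_, h2⟩ := D.h_mem i v hv r
    obtain ⟨_, h2'⟩ := D.h_mem i v' hv' r'
    have h3 := (D.root_eq i _ _ (by omega) (by omega) (by omega) h (by omega) (by omega)).1
    have h4 := eq_of_subset_of_card_le h3 (by omega)
    exact D.h_inj i v v' hv hv' r r' h4
  have hlevel : ∀ i x, ∀ c ∈ L i x, c.card = a := by
    intro i x c hc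
    by_cases h1 : x.card < lo
    · rw [L_low i x h1, mem_image] at hc
      obtain ⟨r, _, rfl⟩ := hc
      exact (D.g_mem i x h1 r).2
    · by_cases h2 : hi < x.card
      · rw [L_high i x h2, mem_image] at hc
        obtain ⟨r, _, rfl⟩ := hc
        have := (D.h_mem i x h2 r).2
        exact (D.root_high i _ (by omega) (by omega)).1
      · rw [L_band i x (by omega) (by omega), mem_singleton] at hc
        rw [hc]
        by_cases h3 : x.card ≤ a
        · exact (D.root_low i x (by omega) h3).1
        · exact (D.root_high i x (by omega) (by omega)).1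
  -- comparability for any list colouring
  have hcomp : ∀ c : Fin m → Finset (Fin n) → Finset (Fin n), (∀ i v, c i v ∈ L i v) →
      ∀ i x y, c i x = c i y → x ⊆ y ∨ y ⊆ x := by
    intro c hc i
    have hband : ∀ x, lo ≤ x.card → x.card ≤ hi → c i x = D.root i x := by
      intro x h1 h2
      have := hc i x
      rw [L_band i x h1 h2, mem_singleton] at this
      exact this
    -- low far versus anything
    have hlow : ∀ x y, x.card < lo → c i x = c i y → x ⊆ y := by
      intro x y hx he
      have h1 := hc i x
      rw [L_low i x hx, mem_image] at h1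
      obtain ⟨r, _, hr⟩ := h1
      by_cases hy : y.card < lo
      · have h2 := hc i y
        rw [L_low i y hy, mem_image] at h2
        obtain ⟨r', _, hr'⟩ := h2
        have h3 : D.g i x r = D.g i y r' := by rw [hr, hr', he]
        rw [(D.g_inj i x y hx hy r r' h3).1]
      · by_cases hy2 : hi < y.card
        · have h2 := hc i y
          rw [L_high i y hy2, mem_image] at h2
          obtain ⟨r', _, hr'⟩ := h2
          obtain ⟨h5, h6⟩ := D.h_mem i y hy2 r'
          refine subset_trans ?_ h5
          exact D.far_low i hab hlo hhi x hx r _ (by omega) (by omega) (by rw [hr', ← he, hr])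
        · exact D.far_low i hab hlo hhi x hx r y (by omega) (by omega)
            (by rw [← hband y (by omega) (by omega), ← he, hr])
    have hhigh : ∀ x y, lo ≤ x.card → hi < y.card → c i x = c i y → x ⊆ y := by
      intro x y hx hy he
      have h1 := hc i y
      rw [L_high i y hy, mem_image] at h1
      obtain ⟨r, _, hr⟩ := h1
      by_cases hx2 : hi < x.card
      · have h2 := hc i x
        rw [L_high i x hx2, mem_image] at h2
        obtain ⟨r', _, hr'⟩ := h2
        have h3 : D.root i (D.h i x r') = D.root i (D.h i y r) := by rw [hr, hr', he]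
        rw [(root_h_inj i x y hx2 hy r' r h3).1]
      · exact D.far_high i hab hlo hhi y hy r x hx (by omega)
          (by rw [← hband x hx (by omega), he, hr])
    intro x y he
    by_cases hx : x.card < lo
    · exact Or.inl (hlow x y hx he)
    by_cases hy : y.card < lo
    · exact Or.inr (hlow y x hy he.symm)
    by_cases hx2 : hi < x.card
    · exact Or.inr (hhigh y x (by omega) hx2 he.symm)
    by_cases hy2 : hi < y.card
    · exact Or.inl (hhigh x y (by omega) hy2 he)
    rw [hband x (by omega) (by omega), hband y (by omega) (by omega)] at he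
    rcases le_total x.card y.card with hle | hle
    · exact Or.inl (D.root_eq i x y (by omega) (by omega) hle he (by omega) (by omega)).1
    · exact Or.inr (D.root_eq i y x (by omega) (by omega) hle he.symm (by omega) (by omega)).1
  choose c0 hc0 using hne
  have hG := greedy_extend m (n+1) L B0 c0 (fun i v => hc0 i v) ?_ ?_ ?_
  · obtain ⟨c, hc1, _, hc3⟩ := hG
    exact ⟨c, fun i x => hlevel i x _ (hc1 i x), hcomp c hc1, hc3⟩
  · intro i v hv
    rw [hB0, mem_filter] at hv
    by_cases h1 : v.card < lo
    · rw [L_low i v h1, card_image_of_injective _ (fun r r' h => (D.g_inj i v v h1 h1 r r' h).2),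
        card_univ, Fintype.card_fin]
      exact hM
    · have h2 : hi < v.card := by
        by_contra hcon
        exact hv ⟨mem_univ _, by omega, by omega⟩
      rw [L_high i v h2, card_image_of_injective _
        (fun r r' h => (root_h_inj i v v h2 h2 r r' h).2), card_univ, Fintype.card_fin]
      exact hM
  · intro c hc i z
    apply chain_card
    intro x hx y hy
    rw [mem_filter] at hx hy
    exact hcomp c hc i x y (hx.2.trans hy.2.symm)
  · intro i j hij x hx y hy hxy he1 he2
    rw [hB0, mem_filter] at hx hy
    have hband : ∀ i x, lo ≤ x.card → x.card ≤ hi → c0 i x = D.root i x := by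
      intro i x h1 h2
      have := hc0 i x
      rw [L_band i x h1 h2, mem_singleton] at this
      exact this
    rw [hband i x hx.2.1 hx.2.2, hband i y hy.2.1 hy.2.2] at he1
    rw [hband j x hx.2.1 hx.2.2, hband j y hy.2.1 hy.2.2] at he2
    have main : ∀ x y : Finset (Fin n), lo ≤ x.card → y.card ≤ hi → x.card ≤ y.card → x ≠ y →
        D.root i x = D.root i y → D.root j x = D.root j y → False := by
      intro x y h1 h2 hle hne h3 h4
      obtain ⟨h5, h6⟩ := D.root_eq i x y h1 h2 hle h3 (by omega) (by omega)
      obtain ⟨_, h7⟩ := D.root_eq j x y h1 h2 hle h4 (by omega) (by omega)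
      have hlt : x.card < y.card := by
        rcases lt_or_eq_of_le hle with h | h
        · exact h
        · exact absurd (eq_of_subset_of_card_le h5 h.ge) hne
      exact hsep i j hij x.card y.card h1 hlt h2 _ _ h6 h7
    rcases le_total x.card y.card with hle | hle
    · exact main x y hx.2.1 hy.2.2 hle hxy he1 he2
    · exact main y x hy.2.1 hx.2.2 hle hxy.symm he1.symm he2.symm

end Pool.Agent.SK
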