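import Pool.Agent.Lib.MP_5fcc10_co.Stats

/-! Consecutive levels of the Boolean lattice as a biregular graph. -/

set_option linter.unusedSectionVars false

namespace Pool.Agent.SK

open Finset

variable {n : ℕ}

/-- sets covering `x` -/
def up (x : Finset (Fin n)) : Finset (Finset (Fin n)) :=
  univ.filter (fun y => x ⊆ y ∧ y.card = x.card + 1)

/-- sets covered by `y` -/
def dn (y : Finset (Fin n)) : Finset (Finset (Fin n)) :=
  univ.filter (fun x => x ⊆ y ∧ y.card = x.card + 1)

lemma mem_up {x y : Finset (Fin n)} : y ∈ up x ↔ x ⊆ y ∧ y.card = x.card + 1 := by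
  simp [up]

lemma mem_dn {x y : Finset (Fin n)} : x ∈ dn y ↔ x ⊆ y ∧ y.card = x.card + 1 := by
  simp [dn]

lemma up_eq (x : Finset (Fin n)) : up x = (xᶜ).image (fun a => insert a x) := by
  ext y
  rw [mem_up, mem_image]
  constructor
  · rintro ⟨h1, h2⟩
    have h3 : (y \ x).card = 1 := by
      rw [card_sdiff_of_subset h1]; omega
    obtain ⟨a, ha⟩ := card_eq_one.1 h3
    refine ⟨a, ?_, ?_⟩
    · have : a ∈ y \ x := by rw [ha]; exact mem_singleton_self a
      exact mem_compl.2 (mem_sdiff.1 this).2
    · have h4 : y = (y \ x) ∪ x := (sdiff_union_of_subset h1).symm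
      rw [h4, ha]
      rfl
  · rintro ⟨a, ha, rfl⟩
    exact ⟨subset_insert _ _, card_insert_of_notMem (mem_compl.1 ha)⟩

lemma dn_eq (y : Finset (Fin n)) : dn y = y.image (fun a => y.erase a) := by
  ext x
  rw [mem_dn, mem_image]
  constructor
  · rintro ⟨h1, h2⟩
    have h3 : (y \ x).card = 1 := by
      rw [card_sdiff_of_subset h1]; omega
    obtain ⟨a, ha⟩ := card_eq_one.1 h3
    have hay : a ∈ y \ x := by rw [ha]; exact mem_singleton_self a
    refine ⟨a, (mem_sdiff.1 hay).1, ?_⟩
    have h4 : y \ {a} = x := by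
      rw [← ha, sdiff_sdiff_right_self, inf_eq_inter, inter_eq_right.2 h1]
    rw [erase_eq, h4]
  · rintro ⟨a, ha, rfl⟩
    refine ⟨erase_subset _ _, ?_⟩
    rw [card_erase_of_mem ha]
    have : 0 < y.card := card_pos.2 ⟨a, ha⟩
    omega

lemma card_up (x : Finset (Fin n)) : (up x).card = n - x.card := by
  rw [up_eq, card_image_of_injOn]
  · rw [card_compl, Fintype.card_fin]
  · intro a ha b hb hab
    have ha' := mem_compl.1 (mem_coe.1 ha)
    have : a ∈ insert b x := by
      have : insert a x = insert b x := hab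
      rw [← this]; exact mem_insert_self a x
    rcases mem_insert.1 this with h | h
    · exact h
    · exact absurd h ha'

lemma card_dn (y : Finset (Fin n)) : (dn y).card = y.card := by
  rw [dn_eq, card_image_of_injOn]
  intro a ha b hb hab
  by_contra hne
  have : a ∈ y.erase b := mem_erase.2 ⟨hne, ha⟩
  have h2 : y.erase a = y.erase b := hab
  rw [← h2] at this
  simp at this

/-- the graph between levels `t` and `t+1` -/
def lev (n t : ℕ) : BG (Finset (Fin n)) where
  X := powersetCard t univ
  Y := powersetCard (t+1) univ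
  N1 := up
  N2 := dn
  d1 := n - t
  d2 := t + 1
  hXY := by
    rw [Finset.disjoint_left]
    intro x hx hx'
    rw [mem_powersetCard_univ] at hx hx'
    omega
  h1 := by
    intro x hx y hy
    rw [mem_powersetCard_univ] at hx ⊢
    rw [mem_up] at hy
    omega
  h2 := by
    intro y hy x hx
    rw [mem_powersetCard_univ] at hy ⊢
    rw [mem_dn] at hx
    omega
  c1 := by
    intro x hx
    rw [mem_powersetCard_univ] at hx
    rw [card_up, hx]
  c2 := by
    intro y hy
    rw [mem_powersetCard_univ] at hy
    rw [card_dn, hy]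
  sym := by
    intro x _ y _
    rw [mem_up, mem_dn]
  no4 := by
    intro x hx x' hx' hne y hy y' hy' h h'
    rw [mem_powersetCard_univ] at hx hx'
    rw [mem_up] at hy hy' h h'
    have hlt : x.card < (x ∪ x').card := by
      apply card_lt_card
      refine ⟨subset_union_left, fun hcon => hne ?_⟩
      have h1 : x' ⊆ x := subset_union_right.trans hcon
      exact (eq_of_subset_of_card_le h1 (by omega)).symm
    have h1 : x ∪ x' = y := eq_of_subset_of_card_le (union_subset hy.1 h.1) (by omega)
    have h2 : x ∪ x' = y' := eq_of_subset_of_card_le (union_subset hy'.1 h'.1) (by omega)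
    rw [← h1, h2]
  tri1 := by
    intro x hx z hz hxz
    rw [mem_powersetCard_univ] at hx hz
    rw [mem_up] at hxz
    have hnot : ¬ x ⊆ z := fun h => hxz ⟨h, by omega⟩
    by_cases hem : (dn z).filter (fun x' => ∃ y ∈ up x, y ∈ up x') = ∅
    · rw [hem]; simp
    obtain ⟨w, hw⟩ := nonempty_iff_ne_empty.2 hem
    have key : ∀ x' ∈ (dn z).filter (fun x' => ∃ y ∈ up x, y ∈ up x'),
        (x' \ x).card ≤ 1 ∧ x' ⊆ z ∧ x'.card + 1 = z.card := by
      intro x' hx'
      rw [mem_filter, mem_dn] at hx'
      obtain ⟨⟨h1, h2⟩, y, hy, hy'⟩ := hx'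
      rw [mem_up] at hy hy'
      refine ⟨?_, h1, h2.symm⟩
      calc (x' \ x).card ≤ (y \ x).card := card_le_card (sdiff_subset_sdiff hy'.1 (le_refl _))
        _ = 1 := by rw [card_sdiff_of_subset hy.1]; omega
        _ ≤ 1 := le_refl _
    have hzx : (z \ x).card ≤ 2 := by
      obtain ⟨h1, h2, h3⟩ := key w hw
      have : z \ x ⊆ (w \ x) ∪ (z \ w) := by
        intro a ha
        rw [mem_sdiff] at ha
        by_cases haw : a ∈ w
        · exact mem_union_left _ (mem_sdiff.2 ⟨haw, ha.2⟩)
        · exact mem_union_right _ (mem_sdiff.2 ⟨ha.1, haw⟩)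
      calc (z \ x).card ≤ ((w \ x) ∪ (z \ w)).card := card_le_card this
        _ ≤ (w \ x).card + (z \ w).card := card_union_le _ _
        _ ≤ 1 + 1 := by
          apply add_le_add h1
          rw [card_sdiff_of_subset h2]; omega
        _ = 2 := rfl
    refine le_trans ?_ hzx
    have hsub : (dn z).filter (fun x' => ∃ y ∈ up x, y ∈ up x')
        ⊆ (z \ x).image (fun a => z.erase a) := by
      intro x' hx'
      obtain ⟨h1, h2, h3⟩ := key x' hx'
      have h4 : x' ∈ dn z := (mem_filter.1 hx').1
      rw [dn_eq, mem_image] at h4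
      obtain ⟨a, ha, rfl⟩ := h4
      rw [mem_image]
      refine ⟨a, mem_sdiff.2 ⟨ha, fun hax => ?_⟩, rfl⟩
      -- a ∈ x: then z.erase a \ x = z \ x has at least two elements
      have h5 : (z.erase a) \ x = z \ x := by
        ext b
        rw [mem_sdiff, mem_sdiff, mem_erase]
        constructor
        · rintro ⟨⟨_, hb⟩, hb'⟩; exact ⟨hb, hb'⟩
        · rintro ⟨hb, hb'⟩
          exact ⟨⟨fun hba => hb' (hba ▸ hax), hb⟩, hb'⟩
      rw [h5] at h1
      have h6 : (x \ z).card + z.card = (z \ x).card + x.card := by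
        rw [← card_sdiff_add_card_inter x z, ← card_sdiff_add_card_inter z x, inter_comm z x]
        have e1 := card_sdiff_add_card_inter x z
        have e2 := card_sdiff_add_card_inter z x
        rw [inter_comm z x] at e2
        omega
      have h7 : 0 < (x \ z).card := by
        rw [card_pos, sdiff_nonempty]
        exact hnot
      omega
    exact (card_le_card hsub).trans card_image_le
  tri2 := by
    intro y hy w hw hyw
    rw [mem_powersetCard_univ] at hy hw
    rw [mem_dn] at hyw
    have hnot : ¬ w ⊆ y := fun h => hyw ⟨h, by omega⟩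
    by_cases hem : (up w).filter (fun y' => ∃ x ∈ dn y, x ∈ dn y') = ∅
    · rw [hem]; simp
    obtain ⟨v, hv⟩ := nonempty_iff_ne_empty.2 hem
    have key : ∀ y' ∈ (up w).filter (fun y' => ∃ x ∈ dn y, x ∈ dn y'),
        (y \ y').card ≤ 1 ∧ w ⊆ y' ∧ y'.card = w.card + 1 := by
      intro y' hy'
      rw [mem_filter, mem_up] at hy'
      obtain ⟨⟨h1, h2⟩, x, hx, hx'⟩ := hy'
      rw [mem_dn] at hx hx'
      refine ⟨?_, h1, h2⟩
      calc (y \ y').card ≤ (y \ x).card := card_le_card (sdiff_subset_sdiff (le_refl _) hx'.1)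
        _ = 1 := by rw [card_sdiff_of_subset hx.1]; omega
        _ ≤ 1 := le_refl _
    have hyw2 : (y \ w).card ≤ 2 := by
      obtain ⟨h1, h2, h3⟩ := key v hv
      have : y \ w ⊆ (y \ v) ∪ (v \ w) := by
        intro a ha
        rw [mem_sdiff] at ha
        by_cases hav : a ∈ v
        · exact mem_union_right _ (mem_sdiff.2 ⟨hav, ha.2⟩)
        · exact mem_union_left _ (mem_sdiff.2 ⟨ha.1, hav⟩)
      calc (y \ w).card ≤ ((y \ v) ∪ (v \ w)).card := card_le_card this
        _ ≤ (y \ v).card + (v \ w).card := card_union_le _ _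
        _ ≤ 1 + 1 := by
          apply add_le_add h1
          rw [card_sdiff_of_subset h2]; omega
        _ = 2 := rfl
    refine le_trans ?_ hyw2
    have hsub : (up w).filter (fun y' => ∃ x ∈ dn y, x ∈ dn y')
        ⊆ (y \ w).image (fun a => insert a w) := by
      intro y' hy'
      obtain ⟨h1, h2, h3⟩ := key y' hy'
      have h4 : y' ∈ up w := (mem_filter.1 hy').1
      rw [up_eq, mem_image] at h4
      obtain ⟨a, ha, rfl⟩ := h4
      rw [mem_compl] at ha
      rw [mem_image]
      refine ⟨a, mem_sdiff.2 ⟨?_, ha⟩, rfl⟩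
      by_contra hay
      have h5 : y \ (insert a w) = y \ w := by
        ext b
        rw [mem_sdiff, mem_sdiff, mem_insert]
        constructor
        · rintro ⟨hb, hb'⟩; exact ⟨hb, fun h => hb' (Or.inr h)⟩
        · rintro ⟨hb, hb'⟩
          refine ⟨hb, fun h => ?_⟩
          rcases h with h | h
          · exact hay (h ▸ hb)
          · exact hb' h
      rw [h5] at h1
      have h6 : (w \ y).card + y.card = (y \ w).card + w.card := by
        have e1 := card_sdiff_add_card_inter w y
        have e2 := card_sdiff_add_card_inter y w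
        rw [inter_comm y w] at e2
        omega
      have h7 : 0 < (w \ y).card := by
        rw [card_pos, sdiff_nonempty]
        exact hnot
      omega
    exact (card_le_card hsub).trans card_image_le

lemma lev_X {t : ℕ} {x : Finset (Fin n)} : x ∈ (lev n t).X ↔ x.card = t := by
  change x ∈ powersetCard t univ ↔ _
  rw [mem_powersetCard_univ]

lemma lev_Y {t : ℕ} {x : Finset (Fin n)} : x ∈ (lev n t).Y ↔ x.card = t + 1 := by
  change x ∈ powersetCard (t+1) univ ↔ _
  rw [mem_powersetCard_univ]

/-- Hamming ball -/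
def ham (x : Finset (Fin n)) (r : ℕ) : Finset (Finset (Fin n)) :=
  univ.filter (fun y => (symmDiff x y).card ≤ r)

lemma mem_ham {x y : Finset (Fin n)} {r : ℕ} : y ∈ ham x r ↔ (symmDiff x y).card ≤ r := by
  simp [ham]

lemma symmDiff_card_triangle (x y z : Finset (Fin n)) :
    (symmDiff x z).card ≤ (symmDiff x y).card + (symmDiff y z).card := by
  have h : symmDiff x z ⊆ symmDiff x y ∪ symmDiff y z := by
    intro a ha
    rw [mem_union, mem_symmDiff, mem_symmDiff]
    rw [mem_symmDiff] at ha
    tauto
  exact (card_le_card h).trans (card_union_le _ _)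

lemma up_symmDiff {x y : Finset (Fin n)} (h : y ∈ up x) : (symmDiff x y).card ≤ 1 := by
  rw [mem_up] at h
  rw [symmDiff_of_le h.1, card_sdiff_of_subset h.1]
  omega

lemma dn_symmDiff {x y : Finset (Fin n)} (h : x ∈ dn y) : (symmDiff y x).card ≤ 1 := by
  rw [mem_dn] at h
  rw [symmDiff_of_ge h.1, card_sdiff_of_subset h.1]
  omega

lemma card_ham (x : Finset (Fin n)) (r : ℕ) : (ham x r).card ≤ (n + 1) ^ r := by
  classical
  -- inject via y ↦ symmDiff x y into subsets of size ≤ r, covered by functions `Fin r → Option (Fin n)`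
  have h1 : (ham x r).card ≤ (univ.filter (fun s : Finset (Fin n) => s.card ≤ r)).card := by
    apply card_le_card_of_injOn (fun y => symmDiff x y)
    · intro y hy
      rw [mem_coe, mem_filter]
      exact ⟨mem_univ _, mem_ham.1 hy⟩
    · intro y _ z _ h
      exact symmDiff_right_injective x h
  refine h1.trans ?_
  have h2 : (univ.filter (fun s : Finset (Fin n) => s.card ≤ r)) ⊆
      (univ : Finset (Fin r → Option (Fin n))).image
        (fun f => univ.filter (fun a : Fin n => ∃ i, f i = some a)) := by
    intro s hs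
    rw [mem_filter] at hs
    rw [mem_image]
    have hs2 := hs.2
    let e := s.equivFin
    refine ⟨fun i => if h : i.val < s.card then some (e.symm ⟨i.val, h⟩).val else none,
      mem_univ _, ?_⟩
    ext a
    rw [mem_filter]
    constructor
    · rintro ⟨_, i, hi⟩
      by_cases h : i.val < s.card
      · simp only [h, dite_true] at hi
        have := Option.some.inj hi
        rw [← this]
        exact (e.symm ⟨i.val, h⟩).2
      · simp only [h, dite_false] at hi
        exact absurd hi (by simp)
    · intro ha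
      refine ⟨mem_univ _, ⟨(e ⟨a, ha⟩).val, lt_of_lt_of_le (e ⟨a, ha⟩).2 hs2⟩, ?_⟩
      have h : (e ⟨a, ha⟩).val < s.card := (e ⟨a, ha⟩).2
      simp only [h, dite_true]
      simp
  refine (card_le_card h2).trans (card_image_le.trans ?_)
  rw [card_univ, Fintype.card_fun, Fintype.card_option, Fintype.card_fin, Fintype.card_fin]

end Pool.Agent.SK
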