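import Pool.Agent.Lib.MP_5fcc10_co.Boolean

/-! Double counting and small lemmas. -/

set_option linter.unusedSectionVars false

namespace Pool.Agent.SK

open Finset

variable {V κ : Type*} [Fintype V] [DecidableEq V] [Fintype κ] [Nonempty κ]

section weights

variable {G : BG V}

lemma sum_double (G : BG V) (w : V → V → ℝ) :
    ∑ x ∈ G.X, ∑ y ∈ G.N1 x, w x y = ∑ y ∈ G.Y, ∑ x ∈ G.N2 y, w x y := by
  refine sum_comm' (fun x y => ?_)
  constructor
  · rintro ⟨hx, hy⟩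
    exact ⟨(G.sym x hx y (G.h1 x hx hy)).1 hy, G.h1 x hx hy⟩
  · rintro ⟨hx, hy⟩
    exact ⟨G.h2 y hy hx, (G.sym x (G.h2 y hy hx) y hy).2 hx⟩

lemma card_double (G : BG V) : (G.X.card : ℝ) * G.d1 = (G.Y.card : ℝ) * G.d2 := by
  have h := sum_double G (fun _ _ => (1:ℝ))
  simp only [sum_const, nsmul_eq_mul, mul_one] at h
  have e1 : ∑ x ∈ G.X, ((G.N1 x).card : ℝ) = (G.X.card : ℝ) * G.d1 := by
    rw [sum_congr rfl (fun x hx => congrArg (Nat.cast (R := ℝ)) (G.c1 x hx)), sum_const,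
      nsmul_eq_mul]
  have e2 : ∑ y ∈ G.Y, ((G.N2 y).card : ℝ) = (G.Y.card : ℝ) * G.d2 := by
    rw [sum_congr rfl (fun y hy => congrArg (Nat.cast (R := ℝ)) (G.c2 y hy)), sum_const,
      nsmul_eq_mul]
  rw [← e1, ← e2, h]

end weights

section flip

variable (ρ : κ → κ → Prop) (ψ : V → κ)

lemma gg_flip (x y : V) : gg (fun a b => ρ b a) ψ y x = gg ρ ψ x y := rfl

end flip

lemma ham_inter {n : ℕ} (v w : Finset (Fin n)) (r : ℕ) (h : ¬ Disjoint (ham v r) (ham w r)) :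
    w ∈ ham v (r + r) := by
  rw [Finset.not_disjoint_iff] at h
  obtain ⟨z, h1, h2⟩ := h
  rw [mem_ham] at h1 h2 ⊢
  have := symmDiff_card_triangle v z w
  rw [symmDiff_comm w z] at h2
  omega

end Pool.Agent.SK
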