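import Pool.Agent.Lib.MP_5fcc10_co.Assembly

/-! Step data from step injections. -/

set_option linter.unusedSectionVars false

namespace Pool.Agent.SK

open Finset

variable {V κ : Type*} [Fintype V] [DecidableEq V] [Fintype κ] [Nonempty κ]

lemma Comp.le {κ : Type*} {R : ℕ → κ → κ → Prop} {s t : ℕ} {a b : κ}
    (h : Comp R s t a b) : s ≤ t := by
  induction h with
  | refl _ => exact le_rfl
  | step t x y z h3 h4 ih => omega

/-- existence of a step injection together with private lists -/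
def StepOK (G : BG V) (ρ : κ → κ → Prop) (ψ : V → κ) (F : Finset V) (S : V → Finset V) (M : ℕ) :
    Prop :=
  ∃ (f : V → V) (g : V → Fin M → V), (∀ x ∈ G.X, f x ∈ G.N1 x ∧ ρ (ψ x) (ψ (f x))) ∧
      (∀ x ∈ G.X, ∀ x' ∈ G.X, f x = f x' → x = x') ∧ (∀ v ∈ F, ∀ r, g v r ∈ S v) ∧
      (∀ v ∈ F, ∀ v' ∈ F, ∀ r r', g v r = g v' r' → v = v' ∧ r = r') ∧
      (∀ x ∈ G.X, ∀ v ∈ F, ∀ r, f x ≠ g v r)

/-- sets below the band -/
def farlow (n lo : ℕ) : Finset (Finset (Fin n)) := univ.filter (fun v => v.card < lo)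

/-- sets above the band -/
def farhigh (n hi : ℕ) : Finset (Finset (Fin n)) := univ.filter (fun v => hi < v.card)

open Classical in
theorem stepdata_of_ok {n m a b lo hi M : ℕ} {κ : Type*} (R : Fin m → ℕ → κ → κ → Prop)
    (ψ : Finset (Fin n) → κ) (hab : a ≤ b) (hlo : lo < a) (hhi : b < hi)
    (hlow : ∀ i : Fin m, ∀ t, lo ≤ t → t < a →
      StepOK (lev n t) (R i t) ψ (if t + 1 = a then farlow n lo else ∅) (above a) M)
    (hhigh : ∀ i : Fin m, ∀ t, a ≤ t → t < hi →
      StepOK (lev n t).swap (fun x y => R i t y x) ψ (if t = b then farhigh n hi else ∅)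
        (below b) M) :
    Nonempty (StepData m a b lo hi M R ψ) := by
  unfold StepOK at hlow hhigh
  choose! f g f1 f2 f3 f4 f5 using hlow
  choose! f' g' f1' f2' f3' f4' f5' using hhigh
  refine ⟨⟨fun i x => f i x.card x, fun i x => f' i (x.card - 1) x, fun i v r => g i (a-1) v r,
    fun i v r => g' i b v r, ?_, ?_, ?_, ?_, ?_, ?_, ?_, ?_, ?_, ?_⟩⟩
  · intro i x h1 h2
    exact f1 i x.card h1 h2 x (lev_X.2 rfl)
  · intro i x x' h1 h2 h3 he
    refine f2 i x.card h1 h2 x (lev_X.2 rfl) x' (lev_X.2 h3) ?_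
    have he' : f i x.card x = f i x'.card x' := he
    rw [h3] at he'
    exact he'
  · intro i x h1 h2
    obtain ⟨t, ht⟩ : ∃ t, x.card = t + 1 := ⟨x.card - 1, by omega⟩
    have e : x.card - 1 = t := by omega
    rw [e]
    exact f1' i t (by omega) (by omega) x (lev_Y.2 ht)
  · intro i x x' h1 h2 h3 he
    obtain ⟨t, ht⟩ : ∃ t, x.card = t + 1 := ⟨x.card - 1, by omega⟩
    have e : x.card - 1 = t := by omega
    have he' : f' i (x.card - 1) x = f' i (x'.card - 1) x' := he
    rw [h3, e] at he'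
    exact f2' i t (by omega) (by omega) x (lev_Y.2 ht) x' (lev_Y.2 (h3.trans ht)) he'
  · intro i v hv r
    have h1 := f3 i (a-1) (by omega) (by omega) v (by
      rw [if_pos (by omega)]; exact mem_filter.2 ⟨mem_univ _, hv⟩) r
    exact mem_above.1 h1
  · intro i v v' hv hv' r r' he
    exact f4 i (a-1) (by omega) (by omega) v (by
      rw [if_pos (by omega)]; exact mem_filter.2 ⟨mem_univ _, hv⟩) v' (by
      rw [if_pos (by omega)]; exact mem_filter.2 ⟨mem_univ _, hv'⟩) r r' he
  · intro i v r x hv hx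
    have e : x.card = a - 1 := by omega
    change f i x.card x ≠ _
    rw [e]
    exact f5 i (a-1) (by omega) (by omega) x (lev_X.2 e) v (by
      rw [if_pos (by omega)]; exact mem_filter.2 ⟨mem_univ _, hv⟩) r
  · intro i v hv r
    have h1 := f3' i b (by omega) (by omega) v (by
      rw [if_pos rfl]; exact mem_filter.2 ⟨mem_univ _, hv⟩) r
    exact mem_below.1 h1
  · intro i v v' hv hv' r r' he
    exact f4' i b (by omega) (by omega) v (by
      rw [if_pos rfl]; exact mem_filter.2 ⟨mem_univ _, hv⟩) v' (by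
      rw [if_pos rfl]; exact mem_filter.2 ⟨mem_univ _, hv'⟩) r r' he
  · intro i v r x hv hx
    have e : x.card - 1 = b := by omega
    change f' i (x.card - 1) x ≠ _
    rw [e]
    exact f5' i b (by omega) (by omega) x (lev_Y.2 hx) v (by
      rw [if_pos rfl]; exact mem_filter.2 ⟨mem_univ _, hv⟩) r

/-- the lists are empty -/
lemma load_empty {M : ℕ} {S : V → Finset V} (y : V) :
    (M : ℝ) * ∑ v ∈ (∅ : Finset V).filter (fun v => y ∈ S v), 1 / ((S v).card : ℝ) ≤ 0 := by
  simp

end Pool.Agent.SK
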