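import Mathlib

/-! Small asymptotic lemmas. -/

set_option linter.unusedSectionVars false

namespace Pool.Agent.SK

open Finset Filter Asymptotics

lemma log_small (s C : ℝ) (hs : 0 < s) (hC : 0 < C) :
    ∀ᶠ k : ℕ in atTop, C * Real.log (2 * (k:ℝ) + 1) ^ 7 ≤ (2 * (k:ℝ) + 1) ^ s := by
  have h1 := isLittleO_log_rpow_rpow_atTop 7 hs
  have h2 := h1.bound (show (0:ℝ) < 1 / C by positivity)
  have h3 : Tendsto (fun k : ℕ => 2 * (k:ℝ) + 1) atTop atTop := by
    apply tendsto_atTop_add_const_right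
    exact Tendsto.const_mul_atTop (by norm_num) tendsto_natCast_atTop_atTop
  have h4 := h3.eventually h2
  filter_upwards [h4] with k hk
  have hx : (1:ℝ) ≤ 2 * (k:ℝ) + 1 := by
    have : (0:ℝ) ≤ k := Nat.cast_nonneg k
    linarith
  have hl : 0 ≤ Real.log (2 * (k:ℝ) + 1) := Real.log_nonneg hx
  rw [Real.norm_of_nonneg (by positivity), Real.norm_of_nonneg (by positivity)] at hk
  have e : Real.log (2 * (k:ℝ) + 1) ^ (7:ℝ) = Real.log (2 * (k:ℝ) + 1) ^ 7 := by
    rw [← Real.rpow_natCast]; norm_num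
  rw [e] at hk
  calc C * Real.log (2 * (k:ℝ) + 1) ^ 7 ≤ C * (1 / C * (2 * (k:ℝ) + 1) ^ s) := by gcongr
    _ = _ := by field_simp

lemma tendsto_x : Tendsto (fun k : ℕ => 2 * (k:ℝ) + 1) atTop atTop := by
  apply tendsto_atTop_add_const_right
  exact Tendsto.const_mul_atTop (by norm_num) tendsto_natCast_atTop_atTop

lemma exp_dominates (q : ℕ) : ∃ b : ℝ, ∀ β, b ≤ β → 8 * (β ^ q * Real.exp (-β)) ≤ 1 := by
  have h := Real.tendsto_pow_mul_exp_neg_atTop_nhds_zero q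
  have h2 := (tendsto_order.1 h).2 (1/8) (by norm_num)
  obtain ⟨b, hb⟩ := eventually_atTop.1 h2
  exact ⟨b, fun β hβ => by linarith [hb β hβ]⟩

end Pool.Agent.SK
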