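import Pool.Agent.Lib.MP_5fcc10_co.Boolean

/-! High order smoothing: the local operators on a pair of consecutive levels. -/

set_option linter.unusedSectionVars false

namespace Pool.Agent.SK

open Finset
open scoped symmDiff

section defs

variable {n : ℕ}

/-- toggle one element -/
def tg (v : Finset (Fin n)) (e : Fin n) : Finset (Fin n) := v ∆ {e}

lemma tg_of_notMem {v : Finset (Fin n)} {e : Fin n} (h : e ∉ v) : tg v e = insert e v := by
  ext a
  simp only [tg, mem_symmDiff, mem_singleton, mem_insert]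
  constructor
  · rintro (⟨h1, _⟩ | ⟨h1, _⟩)
    · exact Or.inr h1
    · exact Or.inl h1
  · rintro (h1 | h1)
    · subst h1; exact Or.inr ⟨rfl, h⟩
    · exact Or.inl ⟨h1, fun h2 => h (h2 ▸ h1)⟩

lemma tg_of_mem {v : Finset (Fin n)} {e : Fin n} (h : e ∈ v) : tg v e = v.erase e := by
  ext a
  simp only [tg, mem_symmDiff, mem_singleton, mem_erase]
  constructor
  · rintro (⟨h1, h2⟩ | ⟨h1, h2⟩)
    · exact ⟨h2, h1⟩
    · exact absurd (h1 ▸ h) h2
  · rintro ⟨h1, h2⟩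
    exact Or.inl ⟨h2, h1⟩

lemma tg_tg (v : Finset (Fin n)) (e : Fin n) : tg (tg v e) e = v := by
  unfold tg
  rw [symmDiff_assoc, symmDiff_self, symmDiff_bot]

lemma mem_tg {v : Finset (Fin n)} {e a : Fin n} : a ∈ tg v e ↔ ((a ∈ v ∧ a ≠ e) ∨ (a = e ∧ a ∉ v)) := by
  simp only [tg, mem_symmDiff, mem_singleton]

/-- admissible elements to toggle, for the pair of levels `t, t+1` -/
def nb (t : ℕ) (v : Finset (Fin n)) : Finset (Fin n) :=
  if v.card = t then vᶜ else if v.card = t + 1 then v else ∅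

lemma nb_low {t : ℕ} {v : Finset (Fin n)} (h : v.card = t) : nb t v = vᶜ := by
  unfold nb; rw [if_pos h]

lemma nb_high {t : ℕ} {v : Finset (Fin n)} (h : v.card = t + 1) : nb t v = v := by
  unfold nb; rw [if_neg (by omega), if_pos h]

lemma nb_cases {t : ℕ} {v : Finset (Fin n)} {e : Fin n} (h : e ∈ nb t v) :
    (v.card = t ∧ e ∉ v) ∨ (v.card = t + 1 ∧ e ∈ v) := by
  unfold nb at h
  split_ifs at h with h1 h2
  · exact Or.inl ⟨h1, mem_compl.1 h⟩
  · exact Or.inr ⟨h2, h⟩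
  · simp at h

lemma card_tg_low {t : ℕ} {v : Finset (Fin n)} {e : Fin n} (h1 : v.card = t) (h2 : e ∉ v) :
    (tg v e).card = t + 1 := by
  rw [tg_of_notMem h2, card_insert_of_notMem h2, h1]

lemma card_tg_high {t : ℕ} {v : Finset (Fin n)} {e : Fin n} (h1 : v.card = t + 1) (h2 : e ∈ v) :
    (tg v e).card = t := by
  rw [tg_of_mem h2, card_erase_of_mem h2, h1]
  rfl

/-- the other level -/
def oth (t c : ℕ) : ℕ := if c = t then t + 1 else t

lemma card_tg_nb {t : ℕ} {v : Finset (Fin n)} {e : Fin n} (h : e ∈ nb t v) :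
    (tg v e).card = oth t v.card := by
  rcases nb_cases h with ⟨h1, h2⟩ | ⟨h1, h2⟩
  · rw [card_tg_low h1 h2, oth, if_pos h1]
  · rw [card_tg_high h1 h2, oth, if_neg (by omega)]

lemma mem_nb_tg {t : ℕ} {v : Finset (Fin n)} {e : Fin n} (h : e ∈ nb t v) : e ∈ nb t (tg v e) := by
  rcases nb_cases h with ⟨h1, h2⟩ | ⟨h1, h2⟩
  · rw [nb_high (card_tg_low h1 h2), tg_of_notMem h2]; exact mem_insert_self _ _
  · rw [nb_low (card_tg_high h1 h2), tg_of_mem h2, mem_compl]; simp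

/-- being in one of the two levels -/
def inL (t : ℕ) (v : Finset (Fin n)) : Prop := v.card = t ∨ v.card = t + 1

lemma inL_of_nb {t : ℕ} {v : Finset (Fin n)} {e : Fin n} (h : e ∈ nb t v) : inL t v := by
  rcases nb_cases h with ⟨h1, _⟩ | ⟨h1, _⟩
  · exact Or.inl h1
  · exact Or.inr h1

lemma inL_tg {t : ℕ} {v : Finset (Fin n)} {e : Fin n} (h : e ∈ nb t v) : inL t (tg v e) :=
  inL_of_nb (mem_nb_tg h)

lemma symmDiff_tg_left (v w : Finset (Fin n)) (e : Fin n) : (tg v e) ∆ w = tg (v ∆ w) e := by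
  unfold tg
  rw [symmDiff_assoc, symmDiff_comm {e} w, ← symmDiff_assoc]

lemma tg_dist (v : Finset (Fin n)) (e : Fin n) : (v ∆ tg v e).card = 1 := by
  have : v ∆ tg v e = {e} := by
    unfold tg
    rw [← symmDiff_assoc, symmDiff_self, bot_symmDiff]
  rw [this, card_singleton]

lemma tg_mem_ham (v : Finset (Fin n)) (e : Fin n) : tg v e ∈ ham v 1 := by
  rw [mem_ham]
  exact (tg_dist v e).le

lemma ham_trans {u v w : Finset (Fin n)} {r s : ℕ} (h1 : v ∈ ham u r) (h2 : w ∈ ham v s) :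
    w ∈ ham u (r + s) := by
  rw [mem_ham] at *
  have := symmDiff_card_triangle u v w
  omega

lemma ham_self (v : Finset (Fin n)) (r : ℕ) : v ∈ ham v r := by
  rw [mem_ham, symmDiff_self]; simp

lemma ham_mono {v : Finset (Fin n)} {r s : ℕ} (h : r ≤ s) : ham v r ⊆ ham v s := by
  intro w hw
  rw [mem_ham] at *
  omega

end defs

section ops

variable {n : ℕ} {κ : Type*} [AddCommGroup κ] (t : ℕ) (A : Set κ)

/-- the edge from `v` toggling `e` is open -/
def opP (ψ : Finset (Fin n) → κ) (v : Finset (Fin n)) (e : Fin n) : Prop :=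
  (v.card = t → ψ (tg v e) - ψ v ∈ A) ∧ (v.card ≠ t → ψ v - ψ (tg v e) ∈ A)

open Classical in
/-- indicator that the edge from `v` toggling `e` is open -/
noncomputable def opn (ψ : Finset (Fin n) → κ) (v : Finset (Fin n)) (e : Fin n) : ℝ :=
  if opP t A ψ v e then 1 else 0

lemma opn_nonneg (ψ : Finset (Fin n) → κ) (v : Finset (Fin n)) (e : Fin n) :
    0 ≤ opn t A ψ v e := by
  unfold opn
  split_ifs <;> norm_num

lemma opn_le_one (ψ : Finset (Fin n) → κ) (v : Finset (Fin n)) (e : Fin n) :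
    opn t A ψ v e ≤ 1 := by
  unfold opn
  split_ifs <;> norm_num

lemma opn_eq_of_iff {ψ ψ' : Finset (Fin n) → κ} {v v' : Finset (Fin n)} {e e' : Fin n}
    (h : opP t A ψ v e ↔ opP t A ψ' v' e') : opn t A ψ v e = opn t A ψ' v' e' := by
  unfold opn
  by_cases h1 : opP t A ψ v e
  · rw [if_pos h1, if_pos (h.1 h1)]
  · rw [if_neg h1, if_neg (fun h2 => h1 (h.2 h2))]

lemma opn_congr {ψ ψ' : Finset (Fin n) → κ} {v : Finset (Fin n)} {e : Fin n}
    (h1 : ψ v = ψ' v) (h2 : ψ (tg v e) = ψ' (tg v e)) : opn t A ψ v e = opn t A ψ' v e := by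
  apply opn_eq_of_iff
  unfold opP
  rw [h1, h2]

lemma opn_symm (ψ : Finset (Fin n) → κ) {v : Finset (Fin n)} {e : Fin n} (h : e ∈ nb t v) :
    opn t A ψ (tg v e) e = opn t A ψ v e := by
  apply opn_eq_of_iff
  unfold opP
  rw [tg_tg]
  rcases nb_cases h with ⟨h1, h2⟩ | ⟨h1, h2⟩
  · rw [card_tg_low h1 h2]
    constructor
    · rintro ⟨_, h3⟩
      exact ⟨fun _ => h3 (by omega), fun h4 => absurd h1 h4⟩
    · rintro ⟨h3, _⟩
      exact ⟨fun h4 => by omega, fun _ => h3 h1⟩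
  · rw [card_tg_high h1 h2]
    constructor
    · rintro ⟨h3, _⟩
      exact ⟨fun h4 => by omega, fun _ => h3 rfl⟩
    · rintro ⟨_, h3⟩
      exact ⟨fun _ => h3 (by omega), fun h4 => absurd rfl h4⟩

/-- weighted neighbour sum -/
noncomputable def nsum (ψ : Finset (Fin n) → κ) (f : Finset (Fin n) → ℝ) (v : Finset (Fin n)) : ℝ :=
  ∑ e ∈ nb t v, opn t A ψ v e * f (tg v e)

/-- degree -/
noncomputable def dg (ψ : Finset (Fin n) → κ) (v : Finset (Fin n)) : ℝ :=
  ∑ e ∈ nb t v, opn t A ψ v e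

/-- the operator `B`, with normalisation `Dl` -/
noncomputable def Bop (Dl : ℕ → ℝ) (ψ : Finset (Fin n) → κ) (f : Finset (Fin n) → ℝ)
    (v : Finset (Fin n)) : ℝ := nsum t A ψ f v / Dl v.card

variable {t A}

lemma Bop_add (Dl : ℕ → ℝ) (ψ : Finset (Fin n) → κ) (f g : Finset (Fin n) → ℝ) :
    Bop t A Dl ψ (fun v => f v + g v) = fun v => Bop t A Dl ψ f v + Bop t A Dl ψ g v := by
  funext v
  unfold Bop nsum
  rw [← add_div, ← sum_add_distrib]
  congr 1
  exact sum_congr rfl (fun e _ => by ring)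

lemma Bop_smul (Dl : ℕ → ℝ) (ψ : Finset (Fin n) → κ) (c : ℝ) (f : Finset (Fin n) → ℝ) :
    Bop t A Dl ψ (fun v => c * f v) = fun v => c * Bop t A Dl ψ f v := by
  funext v
  unfold Bop nsum
  rw [← mul_div_assoc, mul_sum]
  congr 1
  exact sum_congr rfl (fun e _ => by ring)

lemma Bop_sum {ι : Type*} (s : Finset ι) (Dl : ℕ → ℝ) (ψ : Finset (Fin n) → κ)
    (f : ι → Finset (Fin n) → ℝ) :
    Bop t A Dl ψ (fun v => ∑ i ∈ s, f i v) = fun v => ∑ i ∈ s, Bop t A Dl ψ (f i) v := by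
  funext v
  unfold Bop nsum
  rw [← sum_div]
  congr 1
  rw [sum_comm]
  refine sum_congr rfl (fun e _ => ?_)
  rw [mul_sum]

/-- iterates of `B` -/
noncomputable def Bit (t : ℕ) (A : Set κ) (Dl : ℕ → ℝ) (ψ : Finset (Fin n) → κ)
    (f : Finset (Fin n) → ℝ) : ℕ → Finset (Fin n) → ℝ
  | 0 => f
  | (i+1) => Bop t A Dl ψ (Bit t A Dl ψ f i)

/-- the correction -/
noncomputable def theta (t : ℕ) (A : Set κ) (Dl : ℕ → ℝ) (L : ℕ) (ψ : Finset (Fin n) → κ)
    (ρ : Finset (Fin n) → ℝ) (v : Finset (Fin n)) : ℝ :=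
  ∑ i ∈ range L, (-1 : ℝ) ^ (i + 1) * Bit t A Dl ψ ρ i v

/-- the vertex sums produced by the potential `h` -/
noncomputable def Sf (t : ℕ) (A : Set κ) (Dl : ℕ → ℝ) (ψ : Finset (Fin n) → κ)
    (h : Finset (Fin n) → ℝ) (v : Finset (Fin n)) : ℝ :=
  (1 + h v) * (dg t A ψ v / Dl v.card) + Bop t A Dl ψ h v

lemma theta_B (Dl : ℕ → ℝ) (L : ℕ) (ψ : Finset (Fin n) → κ) (ρ : Finset (Fin n) → ℝ)
    (v : Finset (Fin n)) :
    theta t A Dl L ψ ρ v + Bop t A Dl ψ (theta t A Dl L ψ ρ) v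
      = - ρ v + (-1 : ℝ) ^ L * Bit t A Dl ψ ρ L v := by
  have h1 : Bop t A Dl ψ (theta t A Dl L ψ ρ) v
      = ∑ i ∈ range L, (-1 : ℝ) ^ (i + 1) * Bit t A Dl ψ ρ (i + 1) v := by
    have : theta t A Dl L ψ ρ = fun v => ∑ i ∈ range L, (-1 : ℝ) ^ (i + 1) * Bit t A Dl ψ ρ i v := rfl
    rw [this, Bop_sum]
    simp only
    refine sum_congr rfl (fun i _ => ?_)
    rw [Bop_smul]
    rfl
  rw [h1]
  unfold theta
  rw [← sum_add_distrib]
  induction L with
  | zero => simp [Bit]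
  | succ L ih =>
    rw [sum_range_succ, ih ?_]
    · ring
    · have : theta t A Dl L ψ ρ = fun v => ∑ i ∈ range L, (-1 : ℝ) ^ (i + 1) * Bit t A Dl ψ ρ i v := rfl
      rw [this, Bop_sum]
      simp only
      refine sum_congr rfl (fun i _ => ?_)
      rw [Bop_smul]
      rfl

/-- one step of the smoothing -/
lemma Sf_step (Dl : ℕ → ℝ) (L : ℕ) (hL : Even L) (ψ : Finset (Fin n) → κ)
    (h : Finset (Fin n) → ℝ) (κ' : ℕ → ℝ) (v : Finset (Fin n)) :
    Sf t A Dl ψ (fun u => h u + theta t A Dl L ψ (fun u => Sf t A Dl ψ h u - κ' u.card) u) v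
      = κ' v.card + Bit t A Dl ψ (fun u => Sf t A Dl ψ h u - κ' u.card) L v
        + (dg t A ψ v / Dl v.card - 1)
          * theta t A Dl L ψ (fun u => Sf t A Dl ψ h u - κ' u.card) v := by
  set ρ : Finset (Fin n) → ℝ := fun u => Sf t A Dl ψ h u - κ' u.card with hρ
  have h1 := theta_B (t := t) (A := A) Dl L ψ ρ v
  rw [hL.neg_one_pow, one_mul] at h1
  have h2 : ρ v = (1 + h v) * (dg t A ψ v / Dl v.card) + Bop t A Dl ψ h v - κ' v.card := rfl
  unfold Sf
  rw [Bop_add]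
  simp only
  linear_combination h1 - h2

end ops

end Pool.Agent.SK
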