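import Pool.Agent.Lib.MP_5fcc10_co.GosA

/-! Outward path sums. -/

set_option linter.unusedSectionVars false

namespace Pool.Agent.SK

open Finset
open scoped symmDiff

variable {n : ℕ} {κ : Type*} [AddCommGroup κ] (t : ℕ) (A : Set κ)

/-- sum over open outward paths of length `l` from `v`, avoiding the elements of `U` -/
noncomputable def OutS (ψ : Finset (Fin n) → κ) :
    ℕ → Finset (Fin n) → Finset (Fin n) → (Finset (Fin n) → Finset (Fin n) → ℝ) → ℝ
  | 0, v, U, F => F v U
  | (l+1), v, U, F => ∑ e ∈ nb t v \ U, opn t A ψ v e * OutS ψ l (tg v e) (insert e U) F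

lemma OutS_zero (ψ : Finset (Fin n) → κ) (v U : Finset (Fin n))
    (F : Finset (Fin n) → Finset (Fin n) → ℝ) : OutS t A ψ 0 v U F = F v U := rfl

lemma OutS_succ (ψ : Finset (Fin n) → κ) (l : ℕ) (v U : Finset (Fin n))
    (F : Finset (Fin n) → Finset (Fin n) → ℝ) : OutS t A ψ (l+1) v U F
      = ∑ e ∈ nb t v \ U, opn t A ψ v e * OutS t A ψ l (tg v e) (insert e U) F := rfl

lemma OutS_add (ψ : Finset (Fin n) → κ) (a b : ℕ) :
    ∀ (v U : Finset (Fin n)) (F : Finset (Fin n) → Finset (Fin n) → ℝ),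
    OutS t A ψ (a + b) v U F = OutS t A ψ a v U (fun w U' => OutS t A ψ b w U' F) := by
  induction a with
  | zero => intro v U F; rw [zero_add, OutS_zero]
  | succ a ih =>
    intro v U F
    have : a + 1 + b = (a + b) + 1 := by omega
    rw [this, OutS_succ, OutS_succ]
    exact sum_congr rfl (fun e _ => by rw [ih])

lemma OutS_sum {ι : Type*} (s : Finset ι) (ψ : Finset (Fin n) → κ) (l : ℕ) :
    ∀ (v U : Finset (Fin n)) (F : ι → Finset (Fin n) → Finset (Fin n) → ℝ),
    OutS t A ψ l v U (fun w U' => ∑ i ∈ s, F i w U') = ∑ i ∈ s, OutS t A ψ l v U (F i) := by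
  induction l with
  | zero => intro v U F; rfl
  | succ l ih =>
    intro v U F
    rw [OutS_succ]
    have : ∀ i ∈ s, OutS t A ψ (l+1) v U (F i)
        = ∑ e ∈ nb t v \ U, opn t A ψ v e * OutS t A ψ l (tg v e) (insert e U) (F i) :=
      fun i _ => rfl
    rw [sum_congr rfl this, sum_comm]
    refine sum_congr rfl (fun e _ => ?_)
    rw [ih, mul_sum]

lemma OutS_smul (ψ : Finset (Fin n) → κ) (l : ℕ) (c : ℝ) :
    ∀ (v U : Finset (Fin n)) (F : Finset (Fin n) → Finset (Fin n) → ℝ),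
    OutS t A ψ l v U (fun w U' => c * F w U') = c * OutS t A ψ l v U F := by
  induction l with
  | zero => intro v U F; rfl
  | succ l ih =>
    intro v U F
    rw [OutS_succ, OutS_succ, mul_sum]
    refine sum_congr rfl (fun e _ => ?_)
    rw [ih]; ring

lemma OutS_sub (ψ : Finset (Fin n) → κ) (l : ℕ) :
    ∀ (v U : Finset (Fin n)) (F G : Finset (Fin n) → Finset (Fin n) → ℝ),
    OutS t A ψ l v U (fun w U' => F w U' - G w U') = OutS t A ψ l v U F - OutS t A ψ l v U G := by
  induction l with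
  | zero => intro v U F G; rfl
  | succ l ih =>
    intro v U F G
    rw [OutS_succ, OutS_succ, OutS_succ, ← sum_sub_distrib]
    refine sum_congr rfl (fun e _ => ?_)
    rw [ih]; ring

lemma OutS_mono (ψ : Finset (Fin n) → κ) (l : ℕ) :
    ∀ (v U : Finset (Fin n)) (F G : Finset (Fin n) → Finset (Fin n) → ℝ), inL t v →
    (∀ w U', inL t w → F w U' ≤ G w U') → OutS t A ψ l v U F ≤ OutS t A ψ l v U G := by
  induction l with
  | zero => intro v U F G hv h; exact h v U hv
  | succ l ih =>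
    intro v U F G hv h
    rw [OutS_succ, OutS_succ]
    refine sum_le_sum (fun e he => ?_)
    apply mul_le_mul_of_nonneg_left _ (opn_nonneg t A ψ v e)
    exact ih _ _ _ _ (inL_tg (mem_sdiff.1 he).1) h

lemma OutS_nonneg (ψ : Finset (Fin n) → κ) (l : ℕ) :
    ∀ (v U : Finset (Fin n)) (F : Finset (Fin n) → Finset (Fin n) → ℝ),
    (∀ w U', 0 ≤ F w U') → 0 ≤ OutS t A ψ l v U F := by
  induction l with
  | zero => intro v U F h; exact h v U
  | succ l ih =>
    intro v U F h
    rw [OutS_succ]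
    exact sum_nonneg (fun e _ => mul_nonneg (opn_nonneg t A ψ v e) (ih _ _ _ h))

/-- number of open outward paths -/
noncomputable def NO (ψ : Finset (Fin n) → κ) (l : ℕ) (v U : Finset (Fin n)) : ℝ :=
  OutS t A ψ l v U (fun _ _ => 1)

lemma NO_nonneg (ψ : Finset (Fin n) → κ) (l : ℕ) (v U : Finset (Fin n)) :
    0 ≤ NO t A ψ l v U := OutS_nonneg t A ψ l v U _ (fun _ _ => zero_le_one)

lemma OutS_abs_le (ψ : Finset (Fin n) → κ) (l : ℕ) (v U : Finset (Fin n))
    (F : Finset (Fin n) → Finset (Fin n) → ℝ) (hv : inL t v) (c : ℝ)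
    (h : ∀ w U', inL t w → |F w U'| ≤ c) : |OutS t A ψ l v U F| ≤ c * NO t A ψ l v U := by
  rw [abs_le]
  constructor
  · have h1 := OutS_mono t A ψ l v U (fun _ _ => (-c) * 1) F hv
      (fun w U' hw => by rw [mul_one]; exact (abs_le.1 (h w U' hw)).1)
    rw [OutS_smul t A ψ l (-c) v U (fun _ _ => 1)] at h1
    unfold NO
    linarith
  · have h1 := OutS_mono t A ψ l v U F (fun _ _ => c * 1) hv
      (fun w U' hw => by rw [mul_one]; exact (abs_le.1 (h w U' hw)).2)
    rw [OutS_smul t A ψ l c v U (fun _ _ => 1)] at h1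
    unfold NO
    linarith

/-- product of the normalisations along a path -/
noncomputable def PiL (Dl : ℕ → ℝ) : ℕ → ℕ → ℝ
  | 0, _ => 1
  | (l+1), c => Dl c * PiL Dl l (oth t c)

lemma sum_opn_le (ψ : Finset (Fin n) → κ) (v U : Finset (Fin n)) :
    ∑ e ∈ nb t v \ U, opn t A ψ v e ≤ dg t A ψ v :=
  sum_le_sum_of_subset_of_nonneg sdiff_subset (fun e _ _ => opn_nonneg t A ψ v e)

lemma sum_opn_ge (ψ : Finset (Fin n) → κ) (v U : Finset (Fin n)) :
    dg t A ψ v - U.card ≤ ∑ e ∈ nb t v \ U, opn t A ψ v e := by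
  unfold dg
  rw [← sum_sdiff (inter_subset_left : nb t v ∩ U ⊆ nb t v), sdiff_inter_self_left]
  have : ∑ e ∈ nb t v ∩ U, opn t A ψ v e ≤ U.card := by
    calc ∑ e ∈ nb t v ∩ U, opn t A ψ v e ≤ ∑ e ∈ nb t v ∩ U, (1:ℝ) :=
          sum_le_sum (fun e _ => opn_le_one t A ψ v e)
      _ = ((nb t v ∩ U).card : ℝ) := by simp
      _ ≤ U.card := by exact_mod_cast card_le_card inter_subset_right
  linarith

lemma PiL_pos (Dl : ℕ → ℝ) (hD : ∀ c, 0 < Dl c) (l : ℕ) : ∀ c, 0 < PiL t Dl l c := by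
  induction l with
  | zero => intro c; exact one_pos
  | succ l ih => intro c; exact mul_pos (hD c) (ih _)

lemma NO_le (ψ : Finset (Fin n) → κ) (Dl : ℕ → ℝ) (hD : ∀ c, 0 < Dl c) (x : ℝ) (hx : 0 ≤ x)
    (hdg : ∀ v : Finset (Fin n), inL t v → dg t A ψ v ≤ x * Dl v.card) (l : ℕ) :
    ∀ (v U : Finset (Fin n)), inL t v → NO t A ψ l v U ≤ x ^ l * PiL t Dl l v.card := by
  induction l with
  | zero => intro v U _; simp [NO, OutS, PiL]
  | succ l ih =>
    intro v U hv
    unfold NO
    rw [OutS_succ]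
    have h1 : ∀ e ∈ nb t v \ U, opn t A ψ v e * OutS t A ψ l (tg v e) (insert e U) (fun _ _ => 1)
        ≤ opn t A ψ v e * (x ^ l * PiL t Dl l (oth t v.card)) := by
      intro e he
      have he' := (mem_sdiff.1 he).1
      apply mul_le_mul_of_nonneg_left _ (opn_nonneg t A ψ v e)
      have := ih (tg v e) (insert e U) (inL_tg he')
      rw [card_tg_nb he'] at this
      exact this
    refine (sum_le_sum h1).trans ?_
    rw [← sum_mul]
    have h2 := (sum_opn_le t A ψ v U).trans (hdg v hv)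
    have h3 := PiL_pos t Dl hD l (oth t v.card)
    calc (∑ e ∈ nb t v \ U, opn t A ψ v e) * (x ^ l * PiL t Dl l (oth t v.card))
        ≤ (x * Dl v.card) * (x ^ l * PiL t Dl l (oth t v.card)) :=
          mul_le_mul_of_nonneg_right h2 (by positivity)
      _ = x ^ (l+1) * PiL t Dl (l+1) v.card := by
          change _ = x ^ (l+1) * (Dl v.card * PiL t Dl l (oth t v.card))
          ring

lemma NO_ge (ψ : Finset (Fin n) → κ) (Dl : ℕ → ℝ) (hD : ∀ c, 0 < Dl c) (x : ℝ) (hx : 0 ≤ x)
    (m : ℕ) (hdg : ∀ v : Finset (Fin n), inL t v → x * Dl v.card ≤ dg t A ψ v - m) (l : ℕ) :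
    ∀ (v U : Finset (Fin n)), inL t v → U.card + l ≤ m →
      x ^ l * PiL t Dl l v.card ≤ NO t A ψ l v U := by
  induction l with
  | zero => intro v U _ _; simp [NO, OutS, PiL]
  | succ l ih =>
    intro v U hv hU
    unfold NO
    rw [OutS_succ]
    have h1 : ∀ e ∈ nb t v \ U, opn t A ψ v e * (x ^ l * PiL t Dl l (oth t v.card))
        ≤ opn t A ψ v e * OutS t A ψ l (tg v e) (insert e U) (fun _ _ => 1) := by
      intro e he
      have he' := (mem_sdiff.1 he).1
      apply mul_le_mul_of_nonneg_left _ (opn_nonneg t A ψ v e)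
      have hc : (insert e U).card ≤ U.card + 1 := card_insert_le e U
      have := ih (tg v e) (insert e U) (inL_tg he') (by omega)
      rw [card_tg_nb he'] at this
      exact this
    refine le_trans ?_ (sum_le_sum h1)
    rw [← sum_mul]
    have h2 := sum_opn_ge t A ψ v U
    have h2' := hdg v hv
    have h4 : (U.card : ℝ) ≤ m := by exact_mod_cast (by omega : U.card ≤ m)
    have h3 := PiL_pos t Dl hD l (oth t v.card)
    calc x ^ (l+1) * PiL t Dl (l+1) v.card
        = (x * Dl v.card) * (x ^ l * PiL t Dl l (oth t v.card)) := by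
          change x ^ (l+1) * (Dl v.card * PiL t Dl l (oth t v.card)) = _
          ring
      _ ≤ (∑ e ∈ nb t v \ U, opn t A ψ v e) * (x ^ l * PiL t Dl l (oth t v.card)) :=
          mul_le_mul_of_nonneg_right (by linarith) (by positivity)

section walk

variable {t A}

lemma PiL_Bit_succ (Dl : ℕ → ℝ) (hD : ∀ c, 0 < Dl c) (ψ : Finset (Fin n) → κ)
    (f : Finset (Fin n) → ℝ) (l : ℕ) (v : Finset (Fin n)) :
    PiL t Dl (l+1) v.card * Bit t A Dl ψ f (l+1) v
      = ∑ e ∈ nb t v, opn t A ψ v e * (PiL t Dl l (tg v e).card * Bit t A Dl ψ f l (tg v e)) := by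
  change Dl v.card * PiL t Dl l (oth t v.card) * ((∑ e ∈ nb t v, opn t A ψ v e *
    Bit t A Dl ψ f l (tg v e)) / Dl v.card) = _
  have h := (hD v.card).ne'
  rw [mul_comm (Dl v.card), mul_assoc, mul_div_cancel₀ _ h, mul_sum]
  refine sum_congr rfl (fun e he => ?_)
  rw [card_tg_nb he]
  ring

lemma Bit_abs_le (Dl : ℕ → ℝ) (hD : ∀ c, 0 < Dl c) (ψ : Finset (Fin n) → κ)
    (f : Finset (Fin n) → ℝ) (x : ℝ) (hx : 0 ≤ x)
    (hdg : ∀ v : Finset (Fin n), inL t v → dg t A ψ v ≤ x * Dl v.card)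
    (τ : ℝ) (hτ : 0 ≤ τ) (hf : ∀ v, inL t v → |f v| ≤ τ) (l : ℕ) :
    ∀ v, inL t v → |Bit t A Dl ψ f l v| ≤ x ^ l * τ := by
  induction l with
  | zero => intro v hv; simpa [Bit] using hf v hv
  | succ l ih =>
    intro v hv
    change |(∑ e ∈ nb t v, opn t A ψ v e * Bit t A Dl ψ f l (tg v e)) / Dl v.card| ≤ _
    rw [abs_div, abs_of_pos (hD v.card), div_le_iff₀ (hD v.card)]
    calc |∑ e ∈ nb t v, opn t A ψ v e * Bit t A Dl ψ f l (tg v e)|
        ≤ ∑ e ∈ nb t v, |opn t A ψ v e * Bit t A Dl ψ f l (tg v e)| := abs_sum_le_sum_abs _ _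
      _ ≤ ∑ e ∈ nb t v, opn t A ψ v e * (x ^ l * τ) := by
          refine sum_le_sum (fun e he => ?_)
          rw [abs_mul, abs_of_nonneg (opn_nonneg t A ψ v e)]
          exact mul_le_mul_of_nonneg_left (ih _ (inL_tg he)) (opn_nonneg t A ψ v e)
      _ = dg t A ψ v * (x ^ l * τ) := by rw [← sum_mul]; rfl
      _ ≤ (x * Dl v.card) * (x ^ l * τ) := by
          apply mul_le_mul_of_nonneg_right (hdg v hv) (by positivity)
      _ = x ^ (l+1) * τ * Dl v.card := by ring

lemma walk_out (Dl : ℕ → ℝ) (hD : ∀ c, 0 < Dl c) (ψ : Finset (Fin n) → κ)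
    (f : Finset (Fin n) → ℝ) (D : ℝ) (hD0 : 0 < D)
    (hdg : ∀ v : Finset (Fin n), inL t v → dg t A ψ v ≤ D)
    (τ : ℝ) (hτ : 0 ≤ τ) (hf : ∀ v, inL t v → |f v| ≤ τ) (l : ℕ) :
    (∀ v, inL t v → |PiL t Dl l v.card * Bit t A Dl ψ f l v| ≤ τ * D ^ l) ∧
    ∀ v U : Finset (Fin n), inL t v → D * |PiL t Dl l v.card * Bit t A Dl ψ f l v
      - OutS t A ψ l v U (fun w _ => f w)| ≤ τ * (l * (U.card + l)) * D ^ l := by
  induction l with
  | zero =>
    constructor
    · intro v hv; simpa [PiL, Bit] using hf v hv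
    · intro v U hv; simp [PiL, Bit, OutS]
  | succ l ih =>
    obtain ⟨ih1, ih2⟩ := ih
    have hw : ∀ v, inL t v → |PiL t Dl (l+1) v.card * Bit t A Dl ψ f (l+1) v| ≤ τ * D ^ (l+1) := by
      intro v hv
      rw [PiL_Bit_succ Dl hD]
      calc |∑ e ∈ nb t v, opn t A ψ v e * (PiL t Dl l (tg v e).card * Bit t A Dl ψ f l (tg v e))|
          ≤ ∑ e ∈ nb t v, |opn t A ψ v e * (PiL t Dl l (tg v e).card * Bit t A Dl ψ f l (tg v e))| :=
            abs_sum_le_sum_abs _ _
        _ ≤ ∑ e ∈ nb t v, opn t A ψ v e * (τ * D ^ l) := by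
            refine sum_le_sum (fun e he => ?_)
            rw [abs_mul, abs_of_nonneg (opn_nonneg t A ψ v e)]
            exact mul_le_mul_of_nonneg_left (ih1 _ (inL_tg he)) (opn_nonneg t A ψ v e)
        _ = dg t A ψ v * (τ * D ^ l) := by rw [← sum_mul]; rfl
        _ ≤ D * (τ * D ^ l) := mul_le_mul_of_nonneg_right (hdg v hv) (by positivity)
        _ = τ * D ^ (l+1) := by ring
    refine ⟨hw, ?_⟩
    intro v U hv
    rw [PiL_Bit_succ Dl hD, OutS_succ]
    rw [← sum_sdiff (inter_subset_left : nb t v ∩ U ⊆ nb t v), sdiff_inter_self_left]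
    have e1 : ∑ e ∈ nb t v \ U, opn t A ψ v e *
          (PiL t Dl l (tg v e).card * Bit t A Dl ψ f l (tg v e))
        + ∑ e ∈ nb t v ∩ U, opn t A ψ v e *
          (PiL t Dl l (tg v e).card * Bit t A Dl ψ f l (tg v e))
        - ∑ e ∈ nb t v \ U, opn t A ψ v e *
          OutS t A ψ l (tg v e) (insert e U) (fun w _ => f w)
        = ∑ e ∈ nb t v \ U, opn t A ψ v e *
          (PiL t Dl l (tg v e).card * Bit t A Dl ψ f l (tg v e)
            - OutS t A ψ l (tg v e) (insert e U) (fun w _ => f w))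
        + ∑ e ∈ nb t v ∩ U, opn t A ψ v e *
          (PiL t Dl l (tg v e).card * Bit t A Dl ψ f l (tg v e)) := by
      have : ∑ e ∈ nb t v \ U, opn t A ψ v e *
          (PiL t Dl l (tg v e).card * Bit t A Dl ψ f l (tg v e)
            - OutS t A ψ l (tg v e) (insert e U) (fun w _ => f w))
          = ∑ e ∈ nb t v \ U, opn t A ψ v e *
          (PiL t Dl l (tg v e).card * Bit t A Dl ψ f l (tg v e))
          - ∑ e ∈ nb t v \ U, opn t A ψ v e *
          OutS t A ψ l (tg v e) (insert e U) (fun w _ => f w) := by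
        rw [← sum_sub_distrib]
        exact sum_congr rfl (fun e _ => by ring)
      rw [this]; ring
    rw [e1]
    have b1 : D * |∑ e ∈ nb t v \ U, opn t A ψ v e *
          (PiL t Dl l (tg v e).card * Bit t A Dl ψ f l (tg v e)
            - OutS t A ψ l (tg v e) (insert e U) (fun w _ => f w))|
        ≤ τ * (l * (U.card + 1 + l)) * D ^ (l+1) := by
      calc D * |∑ e ∈ nb t v \ U, opn t A ψ v e *
          (PiL t Dl l (tg v e).card * Bit t A Dl ψ f l (tg v e)
            - OutS t A ψ l (tg v e) (insert e U) (fun w _ => f w))|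
          ≤ D * ∑ e ∈ nb t v \ U, |opn t A ψ v e *
          (PiL t Dl l (tg v e).card * Bit t A Dl ψ f l (tg v e)
            - OutS t A ψ l (tg v e) (insert e U) (fun w _ => f w))| :=
            mul_le_mul_of_nonneg_left (abs_sum_le_sum_abs _ _) hD0.le
        _ = ∑ e ∈ nb t v \ U, opn t A ψ v e * (D *
          |PiL t Dl l (tg v e).card * Bit t A Dl ψ f l (tg v e)
            - OutS t A ψ l (tg v e) (insert e U) (fun w _ => f w)|) := by
            rw [mul_sum]
            refine sum_congr rfl (fun e _ => ?_)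
            rw [abs_mul, abs_of_nonneg (opn_nonneg t A ψ v e)]
            ring
        _ ≤ ∑ e ∈ nb t v \ U, opn t A ψ v e * (τ * (l * (U.card + 1 + l)) * D ^ l) := by
            refine sum_le_sum (fun e he => ?_)
            apply mul_le_mul_of_nonneg_left _ (opn_nonneg t A ψ v e)
            have he' := (mem_sdiff.1 he).1
            refine (ih2 (tg v e) (insert e U) (inL_tg he')).trans ?_
            have hc : ((insert e U).card : ℝ) ≤ U.card + 1 := by
              exact_mod_cast card_insert_le e U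
            gcongr
        _ ≤ D * (τ * (l * (U.card + 1 + l)) * D ^ l) := by
            rw [← sum_mul]
            apply mul_le_mul_of_nonneg_right ((sum_opn_le t A ψ v U).trans (hdg v hv)) (by positivity)
        _ = τ * (l * (U.card + 1 + l)) * D ^ (l+1) := by ring
    have b2 : D * |∑ e ∈ nb t v ∩ U, opn t A ψ v e *
          (PiL t Dl l (tg v e).card * Bit t A Dl ψ f l (tg v e))| ≤ τ * U.card * D ^ (l+1) := by
      calc D * |∑ e ∈ nb t v ∩ U, opn t A ψ v e *
          (PiL t Dl l (tg v e).card * Bit t A Dl ψ f l (tg v e))|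
          ≤ D * ∑ e ∈ nb t v ∩ U, |opn t A ψ v e *
          (PiL t Dl l (tg v e).card * Bit t A Dl ψ f l (tg v e))| :=
            mul_le_mul_of_nonneg_left (abs_sum_le_sum_abs _ _) hD0.le
        _ ≤ D * ∑ e ∈ nb t v ∩ U, (τ * D ^ l) := by
            apply mul_le_mul_of_nonneg_left _ hD0.le
            refine sum_le_sum (fun e he => ?_)
            rw [abs_mul, abs_of_nonneg (opn_nonneg t A ψ v e)]
            calc opn t A ψ v e * |PiL t Dl l (tg v e).card * Bit t A Dl ψ f l (tg v e)|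
                ≤ 1 * (τ * D ^ l) := by
                  apply mul_le_mul (opn_le_one t A ψ v e)
                    (ih1 _ (inL_tg (mem_inter.1 he).1)) (abs_nonneg _) zero_le_one
              _ = τ * D ^ l := one_mul _
        _ = D * ((nb t v ∩ U).card * (τ * D ^ l)) := by rw [sum_const, nsmul_eq_mul]
        _ ≤ D * (U.card * (τ * D ^ l)) := by
            have : ((nb t v ∩ U).card : ℝ) ≤ U.card := by
              exact_mod_cast card_le_card inter_subset_right
            gcongr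
        _ = τ * U.card * D ^ (l+1) := by ring
    have b3 := abs_add_le (∑ e ∈ nb t v \ U, opn t A ψ v e *
          (PiL t Dl l (tg v e).card * Bit t A Dl ψ f l (tg v e)
            - OutS t A ψ l (tg v e) (insert e U) (fun w _ => f w)))
        (∑ e ∈ nb t v ∩ U, opn t A ψ v e *
          (PiL t Dl l (tg v e).card * Bit t A Dl ψ f l (tg v e)))
    have b4 := mul_le_mul_of_nonneg_left b3 hD0.le
    rw [mul_add] at b4
    have b5 : τ * (l * (U.card + 1 + l)) * D ^ (l+1) + τ * U.card * D ^ (l+1)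
        ≤ τ * (((l + 1 : ℕ) : ℝ) * (U.card + ((l + 1 : ℕ) : ℝ))) * D ^ (l+1) := by
      rw [← add_mul, ← mul_add]
      apply mul_le_mul_of_nonneg_right _ (by positivity)
      apply mul_le_mul_of_nonneg_left _ hτ
      push_cast
      have h1 : (0:ℝ) ≤ l := Nat.cast_nonneg l
      have h2 : (0:ℝ) ≤ U.card := Nat.cast_nonneg _
      nlinarith
    linarith

end walk

end Pool.Agent.SK
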