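import Pool.Agent.Lib.MP_5fcc10_co.GosB

/-! Counting outward paths by endpoint; locality. -/

set_option linter.unusedSectionVars false

namespace Pool.Agent.SK

open Finset
open scoped symmDiff

variable {n : ℕ} {κ : Type*} [AddCommGroup κ] (t : ℕ) (A : Set κ)

/-- number of open outward paths of length `l` from `v` to `w` avoiding `U` -/
noncomputable def cnt (ψ : Finset (Fin n) → κ) (l : ℕ) (v U w : Finset (Fin n)) : ℝ :=
  OutS t A ψ l v U (fun w' _ => if w' = w then 1 else 0)

lemma cnt_nonneg (ψ : Finset (Fin n) → κ) (l : ℕ) (v U w : Finset (Fin n)) :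
    0 ≤ cnt t A ψ l v U w :=
  OutS_nonneg t A ψ l v U _ (fun _ _ => by split_ifs <;> norm_num)

lemma cnt_succ (ψ : Finset (Fin n) → κ) (l : ℕ) (v U w : Finset (Fin n)) :
    cnt t A ψ (l+1) v U w
      = ∑ e ∈ nb t v \ U, opn t A ψ v e * cnt t A ψ l (tg v e) (insert e U) w := rfl

lemma cnt_ne_zero (ψ : Finset (Fin n) → κ) (l : ℕ) : ∀ (v U w : Finset (Fin n)),
    cnt t A ψ l v U w ≠ 0 → Disjoint (v ∆ w) U ∧ (v ∆ w).card = l := by
  induction l with
  | zero =>
    intro v U w h
    have : v = w := by
      by_contra hne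
      apply h
      change (if v = w then (1:ℝ) else 0) = 0
      rw [if_neg hne]
    rw [this, symmDiff_self]
    exact ⟨disjoint_bot_left, card_empty⟩
  | succ l ih =>
    intro v U w h
    rw [cnt_succ] at h
    obtain ⟨e, he, hne⟩ := exists_ne_zero_of_sum_ne_zero h
    obtain ⟨h1, h2⟩ := mem_sdiff.1 he
    have h3 : cnt t A ψ l (tg v e) (insert e U) w ≠ 0 := right_ne_zero_of_mul hne
    obtain ⟨h4, h5⟩ := ih _ _ _ h3
    rw [symmDiff_tg_left] at h4 h5
    have he1 : e ∉ tg (v ∆ w) e := fun hh =>
      disjoint_left.1 h4 hh (mem_insert_self e U)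
    have he2 : e ∈ v ∆ w := by
      by_contra hcon
      apply he1
      rw [mem_tg]
      exact Or.inr ⟨rfl, hcon⟩
    rw [tg_of_mem he2] at h4 h5
    constructor
    · rw [disjoint_left]
      intro a ha haU
      by_cases hae : a = e
      · exact h2 (hae ▸ haU)
      · exact disjoint_left.1 h4 (mem_erase.2 ⟨hae, ha⟩) (mem_insert_of_mem haU)
    · rw [card_erase_of_mem he2] at h5
      have : 0 < (v ∆ w).card := card_pos.2 ⟨e, he2⟩
      omega

lemma cnt_succ_mem (ψ : Finset (Fin n) → κ) (l : ℕ) (v U w : Finset (Fin n)) (e : Fin n)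
    (h : cnt t A ψ l (tg v e) (insert e U) w ≠ 0) : e ∈ v ∆ w := by
  obtain ⟨h4, h5⟩ := cnt_ne_zero t A ψ l _ _ _ h
  rw [symmDiff_tg_left] at h4
  by_contra hcon
  refine disjoint_left.1 h4 ?_ (mem_insert_self e U)
  rw [mem_tg]
  exact Or.inr ⟨rfl, hcon⟩

lemma cnt_le (ψ : Finset (Fin n) → κ) (l : ℕ) : ∀ (v U w : Finset (Fin n)),
    cnt t A ψ l v U w ≤ (l.factorial : ℝ) := by
  induction l with
  | zero =>
    intro v U w
    change (if v = w then (1:ℝ) else 0) ≤ _
    split_ifs <;> simp
  | succ l ih =>
    intro v U w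
    by_cases h0 : cnt t A ψ (l+1) v U w = 0
    · rw [h0]; positivity
    obtain ⟨_, hcard⟩ := cnt_ne_zero t A ψ (l+1) v U w h0
    rw [cnt_succ]
    calc ∑ e ∈ nb t v \ U, opn t A ψ v e * cnt t A ψ l (tg v e) (insert e U) w
        ≤ ∑ e ∈ nb t v \ U, if e ∈ v ∆ w then (l.factorial : ℝ) else 0 := by
          refine sum_le_sum (fun e _ => ?_)
          by_cases hc : cnt t A ψ l (tg v e) (insert e U) w = 0
          · rw [hc, mul_zero]
            split_ifs <;> positivity
          · rw [if_pos (cnt_succ_mem t A ψ l v U w e hc)]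
            calc opn t A ψ v e * cnt t A ψ l (tg v e) (insert e U) w
                ≤ 1 * (l.factorial : ℝ) := by
                  apply mul_le_mul (opn_le_one t A ψ v e) (ih _ _ _) (cnt_nonneg t A ψ l _ _ _)
                    zero_le_one
              _ = _ := one_mul _
      _ ≤ ∑ e ∈ univ, if e ∈ v ∆ w then (l.factorial : ℝ) else 0 := by
          apply sum_le_sum_of_subset_of_nonneg (subset_univ _)
          intro e _ _
          split_ifs <;> positivity
      _ = (v ∆ w).card * (l.factorial : ℝ) := by
          rw [← sum_filter]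
          have : univ.filter (fun e => e ∈ v ∆ w) = v ∆ w := by
            ext e; simp
          rw [this, sum_const, nsmul_eq_mul]
      _ = ((l+1).factorial : ℝ) := by
          rw [hcard, Nat.factorial_succ]
          push_cast
          ring

lemma OutS_eq_cnt (ψ : Finset (Fin n) → κ) (l : ℕ) : ∀ (v U : Finset (Fin n))
    (F : Finset (Fin n) → Finset (Fin n) → ℝ),
    OutS t A ψ l v U F = ∑ w : Finset (Fin n), cnt t A ψ l v U w * F w (U ∪ (v ∆ w)) := by
  induction l with
  | zero =>
    intro v U F
    rw [OutS_zero, sum_eq_single v]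
    · change _ = (if v = v then (1:ℝ) else 0) * _
      rw [if_pos rfl, one_mul, symmDiff_self]
      congr 1
      exact (union_empty U).symm
    · intro w _ hw
      change (if v = w then (1:ℝ) else 0) * _ = 0
      rw [if_neg (Ne.symm hw), zero_mul]
    · intro h; exact absurd (mem_univ v) h
  | succ l ih =>
    intro v U F
    rw [OutS_succ]
    have h1 : ∀ w, cnt t A ψ (l+1) v U w * F w (U ∪ (v ∆ w))
        = ∑ e ∈ nb t v \ U, opn t A ψ v e * (cnt t A ψ l (tg v e) (insert e U) w
          * F w (insert e U ∪ ((tg v e) ∆ w))) := by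
      intro w
      rw [cnt_succ, sum_mul]
      refine sum_congr rfl (fun e _ => ?_)
      by_cases hc : cnt t A ψ l (tg v e) (insert e U) w = 0
      · rw [hc]; ring
      · have he := cnt_succ_mem t A ψ l v U w e hc
        have : insert e U ∪ ((tg v e) ∆ w) = U ∪ (v ∆ w) := by
          rw [symmDiff_tg_left, tg_of_mem he]
          ext a
          simp only [mem_union, mem_insert, mem_erase]
          by_cases hae : a = e
          · subst hae
            simp [he]
          · simp [hae]
        rw [this]
        ring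
    rw [sum_congr rfl (fun w _ => h1 w), sum_comm]
    refine sum_congr rfl (fun e _ => ?_)
    rw [ih, mul_sum]

lemma sum_cnt (ψ : Finset (Fin n) → κ) (l : ℕ) (v U : Finset (Fin n)) :
    ∑ w : Finset (Fin n), cnt t A ψ l v U w = NO t A ψ l v U := by
  unfold NO
  rw [OutS_eq_cnt]
  simp

/-- locality of outward sums -/
lemma OutS_congr {ψ ψ' : Finset (Fin n) → κ} (l : ℕ) : ∀ (v U : Finset (Fin n))
    (F F' : Finset (Fin n) → Finset (Fin n) → ℝ), (∀ u ∈ ham v l, ψ u = ψ' u) →
    (∀ w ∈ ham v l, ∀ U', F w U' = F' w U') → OutS t A ψ l v U F = OutS t A ψ' l v U F' := by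
  induction l with
  | zero =>
    intro v U F F' _ h2
    exact h2 v (ham_self v 0) U
  | succ l ih =>
    intro v U F F' h1 h2
    rw [OutS_succ, OutS_succ]
    refine sum_congr rfl (fun e _ => ?_)
    have hsub : ∀ u ∈ ham (tg v e) l, u ∈ ham v (l+1) := by
      intro u hu
      have := ham_trans (tg_mem_ham v e) hu
      rwa [add_comm 1 l] at this
    rw [opn_congr t A (h1 v (ham_self v _)) (h1 _ (hsub _ (ham_self _ _))),
      ih (tg v e) (insert e U) F F' (fun u hu => h1 u (hsub u hu)) (fun w hw => h2 w (hsub w hw))]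

/-- a valid outward list of toggles -/
def okp : Finset (Fin n) → Finset (Fin n) → List (Fin n) → Prop
  | _, _, [] => True
  | w, U, (e :: es) => (e ∈ nb t w ∧ e ∉ U) ∧ okp (tg w e) (insert e U) es

/-- endpoint of a list of toggles -/
def endp : Finset (Fin n) → List (Fin n) → Finset (Fin n)
  | w, [] => w
  | w, (e :: es) => endp (tg w e) es

/-- indicator that all edges of the path are open -/
noncomputable def indl (ψ : Finset (Fin n) → κ) : Finset (Fin n) → List (Fin n) → ℝ
  | _, [] => 1
  | w, (e :: es) => opn t A ψ w e * indl ψ (tg w e) es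

/-- the finset of valid outward lists of length `r` -/
def PLf : ℕ → Finset (Fin n) → Finset (Fin n) → Finset (List (Fin n))
  | 0, _, _ => {[]}
  | (r+1), w, U => (nb t w \ U).biUnion (fun e => (PLf r (tg w e) (insert e U)).image (List.cons e))

lemma mem_PLf (r : ℕ) : ∀ (w U : Finset (Fin n)) (es : List (Fin n)),
    es ∈ PLf t r w U ↔ es.length = r ∧ okp t w U es := by
  induction r with
  | zero =>
    intro w U es
    simp only [PLf, mem_singleton]
    constructor
    · rintro rfl; exact ⟨rfl, trivial⟩
    · rintro ⟨h, _⟩; exact List.eq_nil_of_length_eq_zero h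
  | succ r ih =>
    intro w U es
    simp only [PLf, mem_biUnion, mem_sdiff, mem_image]
    constructor
    · rintro ⟨e, he, es', hes', rfl⟩
      rw [ih] at hes'
      exact ⟨by simp [hes'.1], he, hes'.2⟩
    · rintro ⟨h1, h2⟩
      cases es with
      | nil => simp at h1
      | cons e es' =>
        refine ⟨e, h2.1, es', ?_, rfl⟩
        rw [ih]
        exact ⟨by simpa using h1, h2.2⟩

lemma OutS_eq_list (ψ : Finset (Fin n) → κ) (r : ℕ) : ∀ (w U : Finset (Fin n))
    (F : Finset (Fin n) → ℝ), OutS t A ψ r w U (fun u _ => F u)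
      = ∑ es ∈ PLf t r w U, indl t A ψ w es * F (endp w es) := by
  induction r with
  | zero => intro w U F; simp [OutS, PLf, indl, endp]
  | succ r ih =>
    intro w U F
    rw [OutS_succ]
    simp only [PLf]
    rw [sum_biUnion]
    · refine sum_congr rfl (fun e _ => ?_)
      rw [ih, sum_image (by intro a _ b _ h; exact (List.cons.inj h).2), mul_sum]
      refine sum_congr rfl (fun es _ => ?_)
      simp only [indl, endp]
      ring
    · intro e _ e' _ hne
      rw [Function.onFun, Finset.disjoint_left]
      intro es h1 h2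
      rw [mem_image] at h1 h2
      obtain ⟨a, _, ha⟩ := h1
      obtain ⟨b, _, hb⟩ := h2
      rw [← hb] at ha
      exact hne (List.cons.inj ha).1

lemma endp_dist (es : List (Fin n)) : ∀ w : Finset (Fin n), endp w es ∈ ham w es.length := by
  induction es with
  | nil => intro w; exact ham_self w _
  | cons e es ih =>
    intro w
    have := ham_trans (tg_mem_ham w e) (ih (tg w e))
    rw [add_comm] at this
    exact this

/-- along a valid path avoiding `v ∆ w`, the distance from `v` increases by one at each step -/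
lemma okp_dist {v : Finset (Fin n)} (es : List (Fin n)) : ∀ (w U : Finset (Fin n)), v ∆ w ⊆ U →
    okp t w U es → (v ∆ endp w es).card = (v ∆ w).card + es.length := by
  induction es with
  | nil => intro w U _ _; rfl
  | cons e es ih =>
    intro w U hU h
    obtain ⟨⟨h1, h2⟩, h3⟩ := h
    have he : e ∉ v ∆ w := fun hh => h2 (hU hh)
    have hsd : v ∆ (tg w e) = insert e (v ∆ w) := by
      rw [symmDiff_comm, symmDiff_tg_left, symmDiff_comm w v, tg_of_notMem he]
    have h4 := ih (tg w e) (insert e U) (by rw [hsd]; exact insert_subset_insert _ hU) h3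
    change (v ∆ endp (tg w e) es).card = _
    rw [h4, hsd, card_insert_of_notMem he]
    simp only [List.length_cons]
    omega

lemma indl_nonneg (ψ : Finset (Fin n) → κ) (es : List (Fin n)) : ∀ w : Finset (Fin n),
    0 ≤ indl t A ψ w es := by
  induction es with
  | nil => intro w; exact zero_le_one
  | cons e es ih => intro w; exact mul_nonneg (opn_nonneg t A ψ w e) (ih _)

lemma indl_le_one (ψ : Finset (Fin n) → κ) (es : List (Fin n)) : ∀ w : Finset (Fin n),
    indl t A ψ w es ≤ 1 := by
  induction es with
  | nil => intro w; exact le_refl _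
  | cons e es ih =>
    intro w
    exact mul_le_one₀ (opn_le_one t A ψ w e) (indl_nonneg t A ψ es _) (ih _)

/-- `indl` only depends on the labels along the path -/
lemma indl_congr {v : Finset (Fin n)} {ψ ψ' : Finset (Fin n) → κ} (es : List (Fin n)) :
    ∀ (w U : Finset (Fin n)), v ∆ w ⊆ U → okp t w U es → ψ w = ψ' w →
    (∀ u, (v ∆ w).card < (v ∆ u).card → (w ∆ u).card ≤ es.length → ψ u = ψ' u) →
    indl t A ψ w es = indl t A ψ' w es := by
  induction es with
  | nil => intro w U _ _ _ _; rfl
  | cons e es ih =>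
    intro w U hU h hw hall
    obtain ⟨⟨h1, h2⟩, h3⟩ := h
    have he : e ∉ v ∆ w := fun hh => h2 (hU hh)
    have hsd : v ∆ (tg w e) = insert e (v ∆ w) := by
      rw [symmDiff_comm, symmDiff_tg_left, symmDiff_comm w v, tg_of_notMem he]
    have hcard : (v ∆ (tg w e)).card = (v ∆ w).card + 1 := by
      rw [hsd, card_insert_of_notMem he]
    have htg : ψ (tg w e) = ψ' (tg w e) := by
      apply hall
      · omega
      · rw [tg_dist]; simp
    change opn t A ψ w e * indl t A ψ (tg w e) es = opn t A ψ' w e * indl t A ψ' (tg w e) es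
    rw [opn_congr t A hw htg]
    congr 1
    apply ih (tg w e) (insert e U) (by rw [hsd]; exact insert_subset_insert _ hU) h3 htg
    intro u hu1 hu2
    apply hall
    · omega
    · have := symmDiff_card_triangle w (tg w e) u
      rw [tg_dist] at this
      simp only [List.length_cons]
      omega

lemma card_endp (es : List (Fin n)) : ∀ (w U : Finset (Fin n)), okp t w U es →
    (endp w es).card = (oth t)^[es.length] w.card := by
  induction es with
  | nil => intro w U _; rfl
  | cons e es ih =>
    intro w U h
    obtain ⟨⟨h1, _⟩, h3⟩ := h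
    change (endp (tg w e) es).card = _
    rw [ih _ _ h3, card_tg_nb h1]
    simp only [List.length_cons, Function.iterate_succ_apply]

lemma card_PLf_le (r : ℕ) : ∀ w U : Finset (Fin n), (PLf t r w U).card ≤ n ^ r := by
  induction r with
  | zero => intro w U; simp [PLf]
  | succ r ih =>
    intro w U
    simp only [PLf]
    refine card_biUnion_le.trans ?_
    refine (sum_le_sum (fun e _ => card_image_le.trans (ih _ _))).trans ?_
    rw [sum_const, smul_eq_mul, pow_succ, mul_comm]
    apply Nat.mul_le_mul_left
    refine (card_le_univ _).trans ?_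
    rw [Fintype.card_fin]

end Pool.Agent.SK
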