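import Pool.Agent.Lib.MP_5fcc10_co.GosC
import Pool.Agent.Lib.MP_5fcc10_co.Prob

/-! Symmetries and the conditional mean. -/

set_option linter.unusedSectionVars false

namespace Pool.Agent.SK

open Finset
open scoped symmDiff

section perm

variable {n : ℕ}

/-- action of a permutation on sets -/
def ma (σ : Equiv.Perm (Fin n)) (v : Finset (Fin n)) : Finset (Fin n) := v.map σ.toEmbedding

lemma mem_ma {σ : Equiv.Perm (Fin n)} {v : Finset (Fin n)} {a : Fin n} :
    σ a ∈ ma σ v ↔ a ∈ v := by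
  unfold ma
  rw [mem_map_equiv, Equiv.symm_apply_apply]

lemma mem_ma' {σ : Equiv.Perm (Fin n)} {v : Finset (Fin n)} {a : Fin n} :
    a ∈ ma σ v ↔ σ.symm a ∈ v := by
  unfold ma
  rw [mem_map_equiv]

lemma card_ma (σ : Equiv.Perm (Fin n)) (v : Finset (Fin n)) : (ma σ v).card = v.card :=
  card_map _

lemma ma_injective (σ : Equiv.Perm (Fin n)) : Function.Injective (ma σ) := by
  intro v w h
  ext a
  rw [← mem_ma (σ := σ), h, mem_ma]

lemma ma_tg (σ : Equiv.Perm (Fin n)) (v : Finset (Fin n)) (e : Fin n) :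
    ma σ (tg v e) = tg (ma σ v) (σ e) := by
  ext a
  rw [mem_ma', mem_tg, mem_tg, mem_ma']
  have : σ.symm a = e ↔ a = σ e := by rw [Equiv.symm_apply_eq]
  simp only [ne_eq, this]

lemma ma_symmDiff (σ : Equiv.Perm (Fin n)) (v w : Finset (Fin n)) :
    ma σ (v ∆ w) = (ma σ v) ∆ (ma σ w) := by
  ext a
  simp only [mem_ma', mem_symmDiff]

lemma ma_mem_ham {σ : Equiv.Perm (Fin n)} {v w : Finset (Fin n)} {r : ℕ} :
    ma σ w ∈ ham (ma σ v) r ↔ w ∈ ham v r := by
  rw [mem_ham, mem_ham, ← ma_symmDiff, card_ma]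

lemma nb_ma (t : ℕ) (σ : Equiv.Perm (Fin n)) (v : Finset (Fin n)) :
    nb t (ma σ v) = ma σ (nb t v) := by
  unfold nb
  rw [card_ma]
  split_ifs
  · ext a
    rw [mem_compl, mem_ma', mem_ma', mem_compl]
  · rfl
  · ext a; rw [mem_ma']; simp

lemma sum_nb_ma {t : ℕ} (σ : Equiv.Perm (Fin n)) (v : Finset (Fin n)) (F : Fin n → ℝ) :
    ∑ e ∈ nb t (ma σ v), F e = ∑ e ∈ nb t v, F (σ e) := by
  rw [nb_ma]
  unfold ma
  rw [sum_map]
  rfl

lemma exists_ma {w w' : Finset (Fin n)} (h : w.card = w'.card) :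
    ∃ σ : Equiv.Perm (Fin n), ma σ w = w' := by
  classical
  have e : {x // x ∈ w} ≃ {x // x ∈ w'} := Finset.equivOfCardEq h
  refine ⟨e.extendSubtype, ?_⟩
  apply eq_of_subset_of_card_le
  · intro a ha
    rw [mem_ma'] at ha
    have := e.extendSubtype_mem _ ha
    rwa [Equiv.apply_symm_apply] at this
  · rw [card_ma, h]

lemma exists_perm_list {w w' : Finset (Fin n)} (hc : w.card = w'.card) {us us' : List (Fin n)}
    (h : List.Forall₂ (fun a b => a ∈ w ↔ b ∈ w') us us') : us.Nodup → us'.Nodup →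
    ∃ σ : Equiv.Perm (Fin n), ma σ w = w' ∧ us.map σ = us' := by
  induction h with
  | nil =>
    intro _ _
    obtain ⟨σ, hσ⟩ := exists_ma hc
    exact ⟨σ, hσ, rfl⟩
  | @cons a b us us' hab _ ih =>
    intro h1 h2
    rw [List.nodup_cons] at h1 h2
    obtain ⟨σ0, hσ1, hσ2⟩ := ih h1.2 h2.2
    have hf : σ0 a ∉ us' := by
      rw [← hσ2, List.mem_map]
      rintro ⟨x, hx, hxa⟩
      exact h1.1 ((σ0.injective hxa) ▸ hx)
    have hfw : σ0 a ∈ w' ↔ b ∈ w' := by
      rw [← hσ1, mem_ma, hab, hσ1]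
    refine ⟨σ0.trans (Equiv.swap (σ0 a) b), ?_, ?_⟩
    · ext x
      rw [mem_ma']
      have h3 : (σ0.trans (Equiv.swap (σ0 a) b)).symm x = σ0.symm (Equiv.swap (σ0 a) b x) := by
        rw [Equiv.symm_trans_apply, Equiv.symm_swap]
      rw [h3, ← mem_ma', hσ1]
      by_cases hx1 : x = σ0 a
      · rw [hx1, Equiv.swap_apply_left]
        exact hfw.symm
      · by_cases hx2 : x = b
        · rw [hx2, Equiv.swap_apply_right]
          exact hfw
        · rw [Equiv.swap_apply_of_ne_of_ne hx1 hx2]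
    · rw [List.map_cons]
      congr 1
      · simp
      · conv_rhs => rw [← hσ2]
        apply List.map_congr_left
        intro x hx
        have hx1 : σ0 x ∈ us' := by rw [← hσ2]; exact List.mem_map_of_mem hx
        rw [Equiv.trans_apply, Equiv.swap_apply_of_ne_of_ne]
        · intro h; exact hf (h ▸ hx1)
        · intro h; exact h2.1 (h ▸ hx1)

lemma exists_perm_okp {t : ℕ} (es : List (Fin n)) : ∀ (es' us us' : List (Fin n))
    (w w' : Finset (Fin n)), es.length = es'.length → w.card = w'.card →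
    okp t w us.toFinset es → okp t w' us'.toFinset es' →
    List.Forall₂ (fun a b => a ∈ w ↔ b ∈ w') us us' → us.Nodup → us'.Nodup →
    ∃ σ : Equiv.Perm (Fin n), ma σ w = w' ∧ us.map σ = us' ∧ es.map σ = es' := by
  induction es with
  | nil =>
    intro es' us us' w w' hlen hc _ _ hf hn hn'
    have : es' = [] := List.eq_nil_of_length_eq_zero hlen.symm
    subst this
    obtain ⟨σ, h1, h2⟩ := exists_perm_list hc hf hn hn'
    exact ⟨σ, h1, h2, rfl⟩
  | cons e es ih =>
    intro es' us us' w w' hlen hc h1 h1' hf hn hn'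
    cases es' with
    | nil => simp at hlen
    | cons e' es' =>
      obtain ⟨⟨h2, h3⟩, h4⟩ := h1
      obtain ⟨⟨h2', h3'⟩, h4'⟩ := h1'
      have h3l : e ∉ us := fun hh => h3 (List.mem_toFinset.2 hh)
      have h3l' : e' ∉ us' := fun hh => h3' (List.mem_toFinset.2 hh)
      have hee : e ∈ tg w e ↔ e' ∈ tg w' e' := by
        rw [mem_tg, mem_tg]
        rcases nb_cases h2 with ⟨a1, a2⟩ | ⟨a1, a2⟩
        · rcases nb_cases h2' with ⟨b1, b2⟩ | ⟨b1, b2⟩
          · simp [a2, b2]
          · omega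
        · rcases nb_cases h2' with ⟨b1, b2⟩ | ⟨b1, b2⟩
          · omega
          · simp [a2, b2]
      have hf1 : List.Forall₂ (fun a b => a ∈ tg w e ↔ b ∈ tg w' e') (e :: us) (e' :: us') := by
        refine List.Forall₂.cons hee ?_
        have key : ∀ (l l' : List (Fin n)), List.Forall₂ (fun a b => a ∈ w ↔ b ∈ w') l l' →
            (∀ a ∈ l, a ≠ e) → (∀ b ∈ l', b ≠ e') →
            List.Forall₂ (fun a b => a ∈ tg w e ↔ b ∈ tg w' e') l l' := by
          intro l l' h
          induction h with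
          | nil => intro _ _; exact List.Forall₂.nil
          | @cons a b l l' hab _ ih2 =>
            intro ha hb
            refine List.Forall₂.cons ?_ (ih2 (fun x hx => ha x (List.mem_cons_of_mem _ hx))
              (fun x hx => hb x (List.mem_cons_of_mem _ hx)))
            have ha' := ha a List.mem_cons_self
            have hb' := hb b List.mem_cons_self
            rw [mem_tg, mem_tg]
            simp [ha', hb', hab]
        exact key us us' hf (fun a ha h => h3l (h ▸ ha)) (fun b hb h => h3l' (h ▸ hb))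
      obtain ⟨σ, g1, g2, g3⟩ := ih es' (e :: us) (e' :: us') (tg w e) (tg w' e')
        (by simpa using hlen) (by rw [card_tg_nb h2, card_tg_nb h2', hc])
        (by rw [List.toFinset_cons]; exact h4) (by rw [List.toFinset_cons]; exact h4') hf1
        (List.nodup_cons.2 ⟨h3l, hn⟩) (List.nodup_cons.2 ⟨h3l', hn'⟩)
      rw [List.map_cons] at g2
      obtain ⟨g4, g5⟩ := List.cons.inj g2
      refine ⟨σ, ?_, g5, ?_⟩
      · have : ma σ (tg (tg w e) e) = tg (tg w' e') e' := by rw [ma_tg, g1, g4]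
        rwa [tg_tg, tg_tg] at this
      · rw [List.map_cons, g3, g4]

end perm

section inv

variable {n : ℕ} {κ : Type*} [AddCommGroup κ] {t : ℕ} {A : Set κ}

lemma opn_ma (ψ : Finset (Fin n) → κ) (σ : Equiv.Perm (Fin n)) (v : Finset (Fin n)) (e : Fin n) :
    opn t A ψ (ma σ v) (σ e) = opn t A (fun u => ψ (ma σ u)) v e := by
  apply opn_eq_of_iff
  unfold opP
  rw [card_ma, ← ma_tg]

lemma opn_shift (ψ : Finset (Fin n) → κ) (c : κ) (v : Finset (Fin n)) (e : Fin n) :
    opn t A (fun u => ψ u + c) v e = opn t A ψ v e := by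
  apply opn_eq_of_iff
  unfold opP
  rw [add_sub_add_right_eq_sub, add_sub_add_right_eq_sub]

/-- functionals invariant under permutations of the ground set and shifts of the labels -/
structure Inv (f : (Finset (Fin n) → κ) → Finset (Fin n) → ℝ) : Prop where
  perm : ∀ (σ : Equiv.Perm (Fin n)) ψ v, f ψ (ma σ v) = f (fun u => ψ (ma σ u)) v
  shift : ∀ (c : κ) ψ v, f (fun u => ψ u + c) v = f ψ v

/-- local functionals -/
def Loc (f : (Finset (Fin n) → κ) → Finset (Fin n) → ℝ) (r : ℕ) : Prop :=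
  ∀ v ψ ψ', (∀ u ∈ ham v r, ψ u = ψ' u) → f ψ v = f ψ' v

lemma Loc.mono {f : (Finset (Fin n) → κ) → Finset (Fin n) → ℝ} {r s : ℕ} (h : Loc f r)
    (hrs : r ≤ s) : Loc f s := fun v ψ ψ' hu => h v ψ ψ' (fun u hu' => hu u (ham_mono hrs hu'))

lemma Inv.const (c : ℕ → ℝ) : Inv (fun (_ : Finset (Fin n) → κ) v => c v.card) :=
  ⟨fun σ _ v => by rw [card_ma], fun _ _ _ => rfl⟩

lemma Loc.const (c : ℕ → ℝ) (r : ℕ) : Loc (fun (_ : Finset (Fin n) → κ) v => c v.card) r :=
  fun _ _ _ _ => rfl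

lemma Inv.add {f g : (Finset (Fin n) → κ) → Finset (Fin n) → ℝ} (hf : Inv f) (hg : Inv g) :
    Inv (fun ψ v => f ψ v + g ψ v) :=
  ⟨fun σ ψ v => by rw [hf.perm, hg.perm], fun c ψ v => by rw [hf.shift, hg.shift]⟩

lemma Loc.add {f g : (Finset (Fin n) → κ) → Finset (Fin n) → ℝ} {r : ℕ} (hf : Loc f r)
    (hg : Loc g r) : Loc (fun ψ v => f ψ v + g ψ v) r :=
  fun v ψ ψ' h => by simp only [hf v ψ ψ' h, hg v ψ ψ' h]

lemma Inv.mul {f g : (Finset (Fin n) → κ) → Finset (Fin n) → ℝ} (hf : Inv f) (hg : Inv g) :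
    Inv (fun ψ v => f ψ v * g ψ v) :=
  ⟨fun σ ψ v => by rw [hf.perm, hg.perm], fun c ψ v => by rw [hf.shift, hg.shift]⟩

lemma Loc.mul {f g : (Finset (Fin n) → κ) → Finset (Fin n) → ℝ} {r : ℕ} (hf : Loc f r)
    (hg : Loc g r) : Loc (fun ψ v => f ψ v * g ψ v) r :=
  fun v ψ ψ' h => by simp only [hf v ψ ψ' h, hg v ψ ψ' h]

lemma Inv.dg : Inv (fun (ψ : Finset (Fin n) → κ) v => dg t A ψ v) := by
  constructor
  · intro σ ψ v
    simp only [SK.dg]
    rw [sum_nb_ma]
    exact sum_congr rfl (fun e _ => opn_ma ψ σ v e)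
  · intro c ψ v
    simp only [SK.dg]
    exact sum_congr rfl (fun e _ => opn_shift ψ c v e)

lemma Loc.dg : Loc (fun (ψ : Finset (Fin n) → κ) v => dg t A ψ v) 1 := by
  intro v ψ ψ' h
  simp only [SK.dg]
  exact sum_congr rfl (fun e _ => opn_congr t A (h v (ham_self v 1)) (h _ (tg_mem_ham v e)))

lemma Inv.Bop {f : (Finset (Fin n) → κ) → Finset (Fin n) → ℝ} (hf : Inv f) (Dl : ℕ → ℝ) :
    Inv (fun ψ v => Bop t A Dl ψ (f ψ) v) := by
  constructor
  · intro σ ψ v
    simp only [SK.Bop, nsum]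
    rw [sum_nb_ma, card_ma]
    congr 1
    refine sum_congr rfl (fun e _ => ?_)
    rw [opn_ma, ← ma_tg, hf.perm]
  · intro c ψ v
    simp only [SK.Bop, nsum]
    congr 1
    refine sum_congr rfl (fun e _ => ?_)
    rw [opn_shift, hf.shift]

lemma Loc.Bop {f : (Finset (Fin n) → κ) → Finset (Fin n) → ℝ} {r : ℕ} (hf : Loc f r)
    (Dl : ℕ → ℝ) : Loc (fun ψ v => Bop t A Dl ψ (f ψ) v) (r + 1) := by
  intro v ψ ψ' h
  simp only [SK.Bop, nsum]
  congr 1
  refine sum_congr rfl (fun e _ => ?_)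
  have h1 : ∀ u ∈ ham (tg v e) r, ψ u = ψ' u := by
    intro u hu
    apply h
    have := ham_trans (tg_mem_ham v e) hu
    rwa [add_comm 1 r] at this
  rw [opn_congr t A (h v (ham_self v _)) (h1 _ (ham_self _ _)), hf _ ψ ψ' h1]

lemma Inv.Bit {f : (Finset (Fin n) → κ) → Finset (Fin n) → ℝ} (hf : Inv f) (Dl : ℕ → ℝ) (i : ℕ) :
    Inv (fun ψ v => Bit t A Dl ψ (f ψ) i v) := by
  induction i with
  | zero => exact hf
  | succ i ih => exact Inv.Bop ih Dl

lemma Loc.Bit {f : (Finset (Fin n) → κ) → Finset (Fin n) → ℝ} {r : ℕ} (hf : Loc f r)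
    (Dl : ℕ → ℝ) (i : ℕ) : Loc (fun ψ v => Bit t A Dl ψ (f ψ) i v) (r + i) := by
  induction i with
  | zero => exact hf
  | succ i ih => exact Loc.Bop ih Dl

lemma Inv.theta {f : (Finset (Fin n) → κ) → Finset (Fin n) → ℝ} (hf : Inv f) (Dl : ℕ → ℝ)
    (L : ℕ) : Inv (fun ψ v => theta t A Dl L ψ (f ψ) v) := by
  constructor
  · intro σ ψ v
    simp only [SK.theta]
    refine sum_congr rfl (fun i _ => ?_)
    have := (Inv.Bit (t := t) (A := A) hf Dl i).perm σ ψ v
    rw [this]
  · intro c ψ v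
    simp only [SK.theta]
    refine sum_congr rfl (fun i _ => ?_)
    have := (Inv.Bit (t := t) (A := A) hf Dl i).shift c ψ v
    rw [this]

lemma Loc.theta {f : (Finset (Fin n) → κ) → Finset (Fin n) → ℝ} {r : ℕ} (hf : Loc f r)
    (Dl : ℕ → ℝ) (L : ℕ) : Loc (fun ψ v => theta t A Dl L ψ (f ψ) v) (r + L) := by
  intro v ψ ψ' h
  simp only [SK.theta]
  refine sum_congr rfl (fun i hi => ?_)
  have := ((Loc.Bit (t := t) (A := A) hf Dl i).mono (by
    have := mem_range.1 hi; omega : r + i ≤ r + L)) v ψ ψ' h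
  simp only at this
  rw [this]

lemma Inv.Sf {h : (Finset (Fin n) → κ) → Finset (Fin n) → ℝ} (hh : Inv h) (Dl : ℕ → ℝ) :
    Inv (fun ψ v => Sf t A Dl ψ (h ψ) v) := by
  constructor
  · intro σ ψ v
    simp only [SK.Sf]
    have h1 := (Inv.Bop (t := t) (A := A) hh Dl).perm σ ψ v
    have h2 := (Inv.dg (n := n) (t := t) (A := A)).perm σ ψ v
    rw [h1, h2, card_ma, hh.perm]
  · intro c ψ v
    simp only [SK.Sf]
    have h1 := (Inv.Bop (t := t) (A := A) hh Dl).shift c ψ v
    have h2 := (Inv.dg (n := n) (t := t) (A := A)).shift c ψ v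
    rw [h1, h2, hh.shift]

lemma Loc.Sf {h : (Finset (Fin n) → κ) → Finset (Fin n) → ℝ} {r : ℕ} (hh : Loc h r)
    (Dl : ℕ → ℝ) : Loc (fun ψ v => Sf t A Dl ψ (h ψ) v) (r + 1) := by
  intro v ψ ψ' hu
  simp only [SK.Sf]
  have h1 := (Loc.Bop (t := t) (A := A) hh Dl) v ψ ψ' hu
  have h2 := ((Loc.dg (n := n) (t := t) (A := A)).mono (by omega : 1 ≤ r + 1)) v ψ ψ' hu
  have h3 := (hh.mono (by omega : r ≤ r + 1)) v ψ ψ' hu
  simp only at h1 h2 h3
  rw [h1, h2, h3]

end inv

section mean

variable {n : ℕ} {κ : Type*} [AddCommGroup κ] [Fintype κ] {t : ℕ} {A : Set κ}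

lemma E_perm (σ : Equiv.Perm (Fin n)) (G : (Finset (Fin n) → κ) → ℝ) :
    E (fun φ : Finset (Fin n) → κ => G (fun u => φ (ma σ u))) = E G := by
  unfold E
  congr 1
  refine Fintype.sum_equiv (Equiv.arrowCongr (σ.finsetCongr).symm (Equiv.refl κ)) _ _ (fun φ => ?_)
  rfl

lemma E_shift (c : κ) (G : (Finset (Fin n) → κ) → ℝ) :
    E (fun φ : Finset (Fin n) → κ => G (fun u => φ u + c)) = E G := by
  unfold E
  congr 1
  refine Fintype.sum_equiv (Equiv.arrowCongr (Equiv.refl _) (Equiv.addRight c)) _ _ (fun φ => ?_)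
  rfl

lemma endp_ma (σ : Equiv.Perm (Fin n)) (es : List (Fin n)) : ∀ w : Finset (Fin n),
    endp (ma σ w) (es.map σ) = ma σ (endp w es) := by
  induction es with
  | nil => intro w; rfl
  | cons e es ih =>
    intro w
    change endp (tg (ma σ w) (σ e)) (es.map σ) = _
    rw [← ma_tg, ih]
    rfl

lemma indl_ma (ψ : Finset (Fin n) → κ) (σ : Equiv.Perm (Fin n)) (es : List (Fin n)) :
    ∀ w : Finset (Fin n), indl t A ψ (ma σ w) (es.map σ)
      = indl t A (fun u => ψ (ma σ u)) w es := by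
  induction es with
  | nil => intro w; rfl
  | cons e es ih =>
    intro w
    change opn t A ψ (ma σ w) (σ e) * indl t A ψ (tg (ma σ w) (σ e)) (es.map σ) = _
    rw [opn_ma, ← ma_tg, ih]
    rfl

lemma indl_shift (ψ : Finset (Fin n) → κ) (c : κ) (es : List (Fin n)) :
    ∀ w : Finset (Fin n), indl t A (fun u => ψ u + c) w es = indl t A ψ w es := by
  induction es with
  | nil => intro w; rfl
  | cons e es ih =>
    intro w
    change opn t A (fun u => ψ u + c) w e * indl t A (fun u => ψ u + c) (tg w e) es = _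
    rw [opn_shift, ih]
    rfl

variable (t A)

/-- expected value of `f` at the end of a path, on the event that the path is open -/
noncomputable def val (f : (Finset (Fin n) → κ) → Finset (Fin n) → ℝ) (w : Finset (Fin n))
    (a : κ) (es : List (Fin n)) : ℝ :=
  E (fun φ : Finset (Fin n) → κ => indl t A (Function.update φ w a) w es
    * f (Function.update φ w a) (endp w es))

lemma val_perm {f : (Finset (Fin n) → κ) → Finset (Fin n) → ℝ} (hf : Inv f)
    (σ : Equiv.Perm (Fin n)) (w : Finset (Fin n)) (a : κ) (es : List (Fin n)) :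
    val t A f (ma σ w) a (es.map σ) = val t A f w a es := by
  unfold val
  rw [← E_perm σ (fun φ => indl t A (Function.update φ w a) w es
    * f (Function.update φ w a) (endp w es))]
  refine E_congr (fun φ => ?_)
  have h : (fun u => Function.update φ (ma σ w) a (ma σ u))
      = Function.update (fun u => φ (ma σ u)) w a := by
    funext u
    by_cases hu : u = w
    · rw [hu, Function.update_self, Function.update_self]
    · rw [Function.update_of_ne hu, Function.update_of_ne (fun h => hu (ma_injective σ h))]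
  rw [indl_ma, endp_ma, hf.perm, h]

lemma val_shift {f : (Finset (Fin n) → κ) → Finset (Fin n) → ℝ} (hf : Inv f)
    (w : Finset (Fin n)) (a c : κ) (es : List (Fin n)) :
    val t A f w (a + c) es = val t A f w a es := by
  unfold val
  rw [← E_shift c (fun φ => indl t A (Function.update φ w (a+c)) w es
    * f (Function.update φ w (a+c)) (endp w es))]
  refine E_congr (fun φ => ?_)
  have h : Function.update (fun u => φ u + c) w (a + c) = fun u => Function.update φ w a u + c := by
    funext u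
    by_cases hu : u = w
    · rw [hu, Function.update_self, Function.update_self]
    · rw [Function.update_of_ne hu, Function.update_of_ne hu]
  rw [h, indl_shift, hf.shift]

lemma okp_mono {es : List (Fin n)} : ∀ {w U U' : Finset (Fin n)}, U' ⊆ U → okp t w U es →
    okp t w U' es := by
  induction es with
  | nil => intro w U U' _ _; trivial
  | cons e es ih =>
    intro w U U' hU h
    exact ⟨⟨h.1.1, fun hh => h.1.2 (hU hh)⟩, ih (insert_subset_insert _ hU) h.2⟩

lemma val_const {f : (Finset (Fin n) → κ) → Finset (Fin n) → ℝ} (hf : Inv f)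
    {w w' : Finset (Fin n)} {es es' : List (Fin n)} (a a' : κ) (hc : w.card = w'.card)
    (hl : es.length = es'.length) (h : okp t w ∅ es) (h' : okp t w' ∅ es') :
    val t A f w a es = val t A f w' a' es' := by
  obtain ⟨σ, h1, _, h3⟩ := exists_perm_okp es es' [] [] w w' hl hc
    (by rw [List.toFinset_nil]; exact h) (by rw [List.toFinset_nil]; exact h')
    List.Forall₂.nil List.nodup_nil List.nodup_nil
  rw [← h1, ← h3, val_perm t A hf]
  have : a' = a + (a' - a) := by abel
  rw [this, val_shift t A hf]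

open Classical in
/-- the conditional mean of `f` at the end of an open path of length `r` starting at level `c` -/
noncomputable def cmean (f : (Finset (Fin n) → κ) → Finset (Fin n) → ℝ) (r c : ℕ) : ℝ :=
  if h : ∃ p : Finset (Fin n) × κ × List (Fin n), p.1.card = c ∧ p.2.2.length = r ∧
      okp t p.1 ∅ p.2.2 then
    val t A f h.choose.1 h.choose.2.1 h.choose.2.2
      / val t A (fun _ _ => 1) h.choose.1 h.choose.2.1 h.choose.2.2
  else 0

lemma E_eq_zero {g : (Finset (Fin n) → κ) → ℝ} [Nonempty κ] (h0 : ∀ φ, 0 ≤ g φ) (h : E g = 0) :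
    ∀ φ, g φ = 0 := by
  unfold E at h
  rw [div_eq_zero_iff] at h
  have hpos := card_pos' (V := Finset (Fin n)) (κ := κ)
  rcases h with h | h
  · intro φ
    exact (Finset.sum_eq_zero_iff_of_nonneg (fun φ _ => h0 φ)).1 h φ (mem_univ φ)
  · exact absurd h hpos.ne'

lemma cmean_spec {f : (Finset (Fin n) → κ) → Finset (Fin n) → ℝ} (hf : Inv f)
    (w : Finset (Fin n)) (a : κ) (es : List (Fin n)) (h : okp t w ∅ es) :
    val t A f w a es = cmean t A f es.length w.card * val t A (fun _ _ => 1) w a es := by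
  have hex : ∃ p : Finset (Fin n) × κ × List (Fin n), p.1.card = w.card ∧
      p.2.2.length = es.length ∧ okp t p.1 ∅ p.2.2 := ⟨(w, a, es), rfl, rfl, h⟩
  unfold cmean
  rw [dif_pos hex]
  obtain ⟨h1, h2, h3⟩ := hex.choose_spec
  have hone : Inv (fun (_ : Finset (Fin n) → κ) (_ : Finset (Fin n)) => (1:ℝ)) :=
    ⟨fun _ _ _ => rfl, fun _ _ _ => rfl⟩
  rw [val_const t A hf a hex.choose.2.1 h1.symm h2.symm h h3,
    val_const t A hone a hex.choose.2.1 h1.symm h2.symm h h3]
  set w0 := hex.choose.1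
  set a0 := hex.choose.2.1
  set es0 := hex.choose.2.2
  by_cases hz : val t A (fun _ _ => 1) w0 a0 es0 = 0
  · rw [hz, mul_zero]
    unfold val at hz ⊢
    have h4 := E_eq_zero (g := fun φ : Finset (Fin n) → κ =>
      indl t A (Function.update φ w0 a0) w0 es0 * 1)
      (fun φ => by rw [mul_one]; exact indl_nonneg t A _ es0 w0) hz
    have h5 : ∀ φ : Finset (Fin n) → κ, indl t A (Function.update φ w0 a0) w0 es0
        * f (Function.update φ w0 a0) (endp w0 es0) = 0 := by
      intro φ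
      have := h4 φ
      rw [mul_one] at this
      rw [this, zero_mul]
    rw [E_congr h5]
    exact E_const 0
  · rw [div_mul_cancel₀ _ hz]

end mean

end Pool.Agent.SK
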