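import Pool.Agent.Lib.MP_5fcc10_co.GosD

/-! Concentration of outward averages. -/

set_option linter.unusedSectionVars false

namespace Pool.Agent.SK

open Finset
open scoped symmDiff

/-- greedy colouring -/
lemma exists_colouring {V : Type*} [Fintype V] [DecidableEq V] (Rel : V → V → Prop)
    (hsymm : ∀ v w, Rel v w → Rel w v) (d : ℕ) (hd : 0 < d)
    (hdeg : ∀ v : V, ∃ S : Finset V, (∀ w, Rel v w → w ∈ S) ∧ v ∈ S ∧ S.card ≤ d) :
    ∃ χ : V → Fin d, ∀ v w, v ≠ w → Rel v w → χ v ≠ χ w := by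
  classical
  have key : ∀ T : Finset V, ∃ χ : V → Fin d, ∀ v ∈ T, ∀ w ∈ T, v ≠ w → Rel v w → χ v ≠ χ w := by
    intro T
    induction T using Finset.induction_on with
    | empty => exact ⟨fun _ => ⟨0, hd⟩, fun v hv => absurd hv (notMem_empty v)⟩
    | insert a T ha ih =>
      obtain ⟨χ, hχ⟩ := ih
      obtain ⟨S, hS1, hS2, hS3⟩ := hdeg a
      have hlt : ((S.erase a).image χ).card < (univ : Finset (Fin d)).card := by
        rw [card_univ, Fintype.card_fin]
        refine lt_of_le_of_lt card_image_le ?_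
        rw [card_erase_of_mem hS2]
        have : 0 < S.card := card_pos.2 ⟨a, hS2⟩
        omega
      obtain ⟨c, _, hc⟩ := exists_mem_notMem_of_card_lt_card hlt
      have hc' : ∀ w, w ≠ a → Rel a w → χ w ≠ c := by
        intro w hw hr h
        apply hc
        rw [mem_image]
        exact ⟨w, mem_erase.2 ⟨hw, hS1 w hr⟩, h⟩
      refine ⟨Function.update χ a c, ?_⟩
      intro v hv w hw hvw hr
      by_cases hva : v = a
      · have hwa : w ≠ a := fun h => hvw (hva.trans h.symm)
        rw [hva, Function.update_self, Function.update_of_ne hwa]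
        exact (hc' w hwa (hva ▸ hr)).symm
      · by_cases hwa : w = a
        · rw [hwa, Function.update_self, Function.update_of_ne hva]
          exact hc' v hva (hsymm _ _ (hwa ▸ hr))
        · rw [Function.update_of_ne hva, Function.update_of_ne hwa]
          exact hχ v (mem_of_mem_insert_of_ne hv hva) w (mem_of_mem_insert_of_ne hw hwa) hvw hr
  obtain ⟨χ, hχ⟩ := key univ
  exact ⟨χ, fun v w => hχ v (mem_univ v) w (mem_univ w)⟩

variable {n : ℕ} {κ : Type*} [AddCommGroup κ] [Fintype κ] {t : ℕ} {A : Set κ}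

lemma cnt_card (ψ : Finset (Fin n) → κ) (l : ℕ) : ∀ (v U w : Finset (Fin n)),
    cnt t A ψ l v U w ≠ 0 → w.card = (oth t)^[l] v.card := by
  induction l with
  | zero =>
    intro v U w h
    have : v = w := by
      by_contra hne
      apply h
      change (if v = w then (1:ℝ) else 0) = 0
      rw [if_neg hne]
    rw [this]; rfl
  | succ l ih =>
    intro v U w h
    rw [cnt_succ] at h
    obtain ⟨e, he, hne⟩ := exists_ne_zero_of_sum_ne_zero h
    rw [ih _ _ _ (right_ne_zero_of_mul hne), card_tg_nb (mem_sdiff.1 he).1,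
      Function.iterate_succ_apply]

lemma cmean_abs_le {f : (Finset (Fin n) → κ) → Finset (Fin n) → ℝ} (M0 : ℝ) (hM0 : 0 ≤ M0)
    (hf : ∀ ψ u, |f ψ u| ≤ M0) (r c : ℕ) : |cmean t A f r c| ≤ M0 := by
  unfold cmean
  split_ifs with h
  · rw [abs_div]
    have h1 : |val t A f h.choose.1 h.choose.2.1 h.choose.2.2|
        ≤ M0 * |val t A (fun _ _ => 1) h.choose.1 h.choose.2.1 h.choose.2.2| := by
      have h2 : 0 ≤ val t A (fun _ _ => 1) h.choose.1 h.choose.2.1 h.choose.2.2 := by
        unfold val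
        apply E_nonneg
        intro φ
        rw [mul_one]
        exact indl_nonneg t A _ _ _
      rw [abs_of_nonneg h2]
      unfold val
      rw [abs_le, ← E_mul_left, ← E_neg]
      constructor
      · apply E_mono
        intro φ
        have h3 := indl_nonneg t A (Function.update φ h.choose.1 h.choose.2.1)
          h.choose.2.2 h.choose.1
        have h4 := (abs_le.1 (hf (Function.update φ h.choose.1 h.choose.2.1)
          (endp h.choose.1 h.choose.2.2))).1
        nlinarith
      · apply E_mono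
        intro φ
        have h3 := indl_nonneg t A (Function.update φ h.choose.1 h.choose.2.1)
          h.choose.2.2 h.choose.1
        have h4 := (abs_le.1 (hf (Function.update φ h.choose.1 h.choose.2.1)
          (endp h.choose.1 h.choose.2.2))).2
        nlinarith
    by_cases h5 : |val t A (fun _ _ => 1) h.choose.1 h.choose.2.1 h.choose.2.2| = 0
    · rw [h5, div_zero]; exact hM0
    · rw [div_le_iff₀ (lt_of_le_of_ne (abs_nonneg _) (Ne.symm h5))]
      exact h1
  · rw [abs_zero]; exact hM0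

/-- the outside of a ball -/
def outB (v : Finset (Fin n)) (l : ℕ) : Finset (Finset (Fin n)) :=
  univ.filter (fun u => l < (v ∆ u).card)

lemma mix_outB_in {v u : Finset (Fin n)} {l : ℕ} (φ ψ : Finset (Fin n) → κ)
    (h : l < (v ∆ u).card) : mix (outB v l) φ ψ u = φ u :=
  mix_in (mem_filter.2 ⟨mem_univ _, h⟩)

lemma mix_outB_out {v u : Finset (Fin n)} {l : ℕ} (φ ψ : Finset (Fin n) → κ)
    (h : (v ∆ u).card ≤ l) : mix (outB v l) φ ψ u = ψ u :=
  mix_out (fun hh => absurd (mem_filter.1 hh).2 (by omega))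

lemma mean_zero {f : (Finset (Fin n) → κ) → Finset (Fin n) → ℝ} (hf : Inv f) {R : ℕ}
    (hloc : Loc f R) (v b : Finset (Fin n)) (ψ : Finset (Fin n) → κ) :
    E (fun φ => OutS t A (mix (outB v (v ∆ b).card) φ ψ) (R+1) b (v ∆ b)
      (fun u _ => f (mix (outB v (v ∆ b).card) φ ψ) u - cmean t A f (R+1) b.card)) = 0 := by
  have h1 : ∀ φ : Finset (Fin n) → κ, OutS t A (mix (outB v (v ∆ b).card) φ ψ) (R+1) b (v ∆ b)
      (fun u _ => f (mix (outB v (v ∆ b).card) φ ψ) u - cmean t A f (R+1) b.card)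
      = ∑ es ∈ PLf t (R+1) b (v ∆ b), (indl t A (Function.update φ b (ψ b)) b es
        * f (Function.update φ b (ψ b)) (endp b es)
        - cmean t A f (R+1) b.card * (indl t A (Function.update φ b (ψ b)) b es * 1)) := by
    intro φ
    rw [OutS_eq_list]
    refine sum_congr rfl (fun es hes => ?_)
    rw [mem_PLf] at hes
    have hi : indl t A (mix (outB v (v ∆ b).card) φ ψ) b es
        = indl t A (Function.update φ b (ψ b)) b es := by
      apply indl_congr t A (v := v) es b (v ∆ b) (le_refl _) hes.2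
      · rw [mix_outB_out φ ψ (le_refl _), Function.update_self]
      · intro u hu _
        rw [mix_outB_in φ ψ hu, Function.update_of_ne]
        intro h
        rw [h] at hu
        omega
    have hd := okp_dist t (v := v) es b (v ∆ b) (le_refl _) hes.2
    have hff : f (mix (outB v (v ∆ b).card) φ ψ) (endp b es)
        = f (Function.update φ b (ψ b)) (endp b es) := by
      apply hloc
      intro u hu
      rw [mem_ham] at hu
      have h3 := symmDiff_card_triangle v u (endp b es)
      rw [symmDiff_comm u (endp b es)] at h3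
      have h4 : (v ∆ b).card < (v ∆ u).card := by omega
      rw [mix_outB_in φ ψ h4, Function.update_of_ne]
      intro h
      rw [h] at h4
      omega
    rw [hi, hff]
    ring
  rw [E_congr h1, E_sum]
  refine sum_eq_zero (fun es hes => ?_)
  rw [mem_PLf] at hes
  rw [E_sub, E_mul_left]
  have h2 := cmean_spec t A hf b (ψ b) es (okp_mono t (empty_subset _) hes.2)
  unfold val at h2
  rw [h2, hes.1, sub_self]

theorem conc [Nonempty κ] {f : (Finset (Fin n) → κ) → Finset (Fin n) → ℝ} (hf : Inv f) {R : ℕ}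
    (hloc : Loc f R) (M0 : ℝ) (hM0 : 0 < M0) (hfb : ∀ ψ u, |f ψ u| ≤ M0) (hn : 1 ≤ n)
    (v : Finset (Fin n)) (hv : inL t v) (l0 : ℕ) (Nb : ℝ) (hNb : 0 < Nb) (s : ℝ) (hs0 : 0 ≤ s)
    (hs : s ≤ 2 * (2 * M0 * (n:ℝ) ^ (R+1)) * Nb) :
    P (fun ψ : Finset (Fin n) → κ => NO t A ψ l0 v ∅ ≤ Nb ∧
      s < |OutS t A ψ (l0 + (R+1)) v ∅
        (fun u _ => f ψ u - cmean t A f (R+1) ((oth t)^[l0] v.card))|)
    ≤ 2 * (n+1)^(2*(2*R+1)) * Real.exp (- ((s / (n+1)^(2*(2*R+1))) ^ 2
        / (4 * (l0.factorial * (2 * M0 * (n:ℝ) ^ (R+1)) ^ 2 * Nb)))) := by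
  classical
  set Mt : ℝ := 2 * M0 * (n:ℝ) ^ (R+1) with hMt
  have hnr : (1:ℝ) ≤ n := by exact_mod_cast hn
  have hMt0 : 0 < Mt := by positivity
  set cm := cmean t A f (R+1) ((oth t)^[l0] v.card) with hcm
  have hcmb : |cm| ≤ M0 := cmean_abs_le M0 hM0.le hfb _ _
  set ρ := 2 * R + 1 with hρ
  set D := (n+1)^(2*ρ) with hD
  have hDpos : 0 < D := by positivity
  have hDr : (1:ℝ) ≤ (D:ℝ) := by exact_mod_cast hDpos
  have hDcast : ((n:ℝ)+1)^(2*ρ) = (D:ℝ) := by rw [hD]; push_cast; rfl
  set Vt : ℝ := l0.factorial * Mt ^ 2 * Nb with hVt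
  have hfac : (1:ℝ) ≤ l0.factorial := by exact_mod_cast Nat.factorial_pos l0
  have hVt0 : 0 < Vt := by positivity
  -- the colouring
  obtain ⟨χ, hχ⟩ := exists_colouring (fun b b' : Finset (Fin n) => ¬ Disjoint (ham b ρ) (ham b' ρ))
    (fun b b' h h' => h h'.symm) D hDpos (by
      intro b
      refine ⟨ham b (2*ρ), ?_, ham_self _ _, card_ham b (2*ρ)⟩
      intro w hw
      rw [Finset.not_disjoint_iff] at hw
      obtain ⟨z, h1, h2⟩ := hw
      rw [mem_ham] at h1 h2 ⊢
      have := symmDiff_card_triangle b z w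
      rw [symmDiff_comm w z] at h2
      omega)
  -- the terms
  set Th : (Finset (Fin n) → κ) → Finset (Fin n) → ℝ := fun ψ b =>
    OutS t A ψ (R+1) b (v ∆ b) (fun u _ => f ψ u - cm) with hTh
  set T : Finset (Fin n) → (Finset (Fin n) → κ) → ℝ := fun b ψ =>
    if NO t A ψ l0 v ∅ ≤ Nb then cnt t A ψ l0 v ∅ b * Th ψ b else 0 with hT
  have hNOmix : ∀ φ ψ : Finset (Fin n) → κ,
      NO t A (mix (outB v l0) φ ψ) l0 v ∅ = NO t A ψ l0 v ∅ := by
    intro φ ψ
    apply OutS_congr
    · intro u hu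
      rw [mem_ham] at hu
      exact mix_outB_out φ ψ hu
    · intro _ _ _; rfl
  have hcntmix : ∀ (φ ψ : Finset (Fin n) → κ) (b : Finset (Fin n)),
      cnt t A (mix (outB v l0) φ ψ) l0 v ∅ b = cnt t A ψ l0 v ∅ b := by
    intro φ ψ b
    apply OutS_congr
    · intro u hu
      rw [mem_ham] at hu
      exact mix_outB_out φ ψ hu
    · intro _ _ _; rfl
  have hThb : ∀ ψ b, inL t b → |Th ψ b| ≤ Mt := by
    intro ψ b hb
    have h1 : |Th ψ b| ≤ (2 * M0) * NO t A ψ (R+1) b (v ∆ b) := by
      apply OutS_abs_le t A ψ (R+1) b (v ∆ b) _ hb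
      intro w _ _
      have h2 := abs_sub (f ψ w) cm
      have h3 := hfb ψ w
      linarith
    have h2 : NO t A ψ (R+1) b (v ∆ b) ≤ (n:ℝ) ^ (R+1) := by
      unfold NO
      rw [OutS_eq_list t A ψ (R+1) b (v ∆ b) (fun _ => 1)]
      calc ∑ es ∈ PLf t (R+1) b (v ∆ b), indl t A ψ b es * 1
          ≤ ∑ es ∈ PLf t (R+1) b (v ∆ b), (1:ℝ) :=
            sum_le_sum (fun es _ => by rw [mul_one]; exact indl_le_one t A ψ es b)
        _ = ((PLf t (R+1) b (v ∆ b)).card : ℝ) := by simp
        _ ≤ (n:ℝ) ^ (R+1) := by exact_mod_cast card_PLf_le t (R+1) b (v ∆ b)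
    calc |Th ψ b| ≤ (2 * M0) * NO t A ψ (R+1) b (v ∆ b) := h1
      _ ≤ (2 * M0) * (n:ℝ) ^ (R+1) := by gcongr
      _ = Mt := by rw [hMt]
  have hcntL : ∀ ψ b, cnt t A ψ l0 v ∅ b ≠ 0 → inL t b := by
    intro ψ b h
    have h1 := cnt_card (t := t) (A := A) ψ l0 v ∅ b h
    have : ∀ (l c : ℕ), (c = t ∨ c = t + 1) → ((oth t)^[l] c = t ∨ (oth t)^[l] c = t + 1) := by
      intro l
      induction l with
      | zero => intro c hc; exact hc
      | succ l ih =>
        intro c hc
        rw [Function.iterate_succ_apply]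
        apply ih
        unfold oth
        split_ifs
        · exact Or.inr rfl
        · exact Or.inl rfl
    unfold inL
    rw [h1]
    exact this l0 _ hv
  have hTabs : ∀ b ψ, |cnt t A ψ l0 v ∅ b * Th ψ b| ≤ cnt t A ψ l0 v ∅ b * Mt := by
    intro b ψ
    by_cases h0 : cnt t A ψ l0 v ∅ b = 0
    · rw [h0]; simp
    · rw [abs_mul, abs_of_nonneg (cnt_nonneg t A ψ l0 v ∅ b)]
      exact mul_le_mul_of_nonneg_left (hThb ψ b (hcntL ψ b h0)) (cnt_nonneg t A ψ l0 v ∅ b)
  have hsumT : ∀ ψ, NO t A ψ l0 v ∅ ≤ Nb → ∑ b : Finset (Fin n), T b ψ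
      = OutS t A ψ (l0 + (R+1)) v ∅ (fun u _ => f ψ u - cm) := by
    intro ψ hψ
    rw [OutS_add, OutS_eq_cnt]
    refine sum_congr rfl (fun b _ => ?_)
    simp only [hT, hTh]
    rw [if_pos hψ, empty_union]
  -- class bound
  have hclass : ∀ c : Fin D, P (fun ψ : Finset (Fin n) → κ =>
      s / D < |∑ b ∈ univ.filter (fun b => χ b = c), T b ψ|)
      ≤ 2 * Real.exp (- ((s / D) ^ 2 / (4 * Vt))) := by
    intro c
    refine tail_bound (outB v l0) (univ.filter (fun b => χ b = c)) (fun b => ham b ρ) ?_ T ?_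
      (l0.factorial * Mt) ?_ ?_
      (fun b ψ => if NO t A ψ l0 v ∅ ≤ Nb then cnt t A ψ l0 v ∅ b * (l0.factorial * Mt ^ 2) else 0)
      ?_ Vt hVt0 ?_ (s / D) (by positivity) ?_
    · intro b hb b' hb' hne
      by_contra hcon
      exact hχ b b' hne hcon ((mem_filter.1 hb).2.trans (mem_filter.1 hb').2.symm)
    · intro b _ ψ φ φ' h
      simp only [hT]
      rw [hNOmix, hNOmix, hcntmix, hcntmix]
      have : Th (mix (outB v l0) φ ψ) b = Th (mix (outB v l0) φ' ψ) b := by
        have hag : ∀ u ∈ ham b ρ, mix (outB v l0) φ ψ u = mix (outB v l0) φ' ψ u := by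
          intro u hu
          unfold mix
          rw [h u hu]
        apply OutS_congr
        · intro u hu
          exact hag u (ham_mono (by omega) hu)
        · intro w hw _
          have : f (mix (outB v l0) φ ψ) w = f (mix (outB v l0) φ' ψ) w := by
            apply hloc
            intro u hu
            apply hag
            have := ham_trans hw hu
            exact ham_mono (by omega) this
          rw [this]
      rw [this]
    · intro b _ ψ
      simp only [hT]
      split_ifs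
      · refine (hTabs b ψ).trans ?_
        exact mul_le_mul_of_nonneg_right (cnt_le t A ψ l0 v ∅ b) hMt0.le
      · rw [abs_zero]; positivity
    · intro b _ ψ
      simp only [hT]
      by_cases hNO : NO t A ψ l0 v ∅ ≤ Nb
      · by_cases h0 : cnt t A ψ l0 v ∅ b = 0
        · have : ∀ φ : Finset (Fin n) → κ, (if NO t A (mix (outB v l0) φ ψ) l0 v ∅ ≤ Nb then
              cnt t A (mix (outB v l0) φ ψ) l0 v ∅ b * Th (mix (outB v l0) φ ψ) b else 0)
              = (0:ℝ) := by
            intro φ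
            rw [hcntmix, h0, zero_mul, ite_self]
          rw [E_congr this]
          exact E_const 0
        · obtain ⟨_, hcard⟩ := cnt_ne_zero t A ψ l0 v ∅ b h0
          have hbc := cnt_card (t := t) (A := A) ψ l0 v ∅ b h0
          have : ∀ φ : Finset (Fin n) → κ, (if NO t A (mix (outB v l0) φ ψ) l0 v ∅ ≤ Nb then
              cnt t A (mix (outB v l0) φ ψ) l0 v ∅ b * Th (mix (outB v l0) φ ψ) b else 0)
              = cnt t A ψ l0 v ∅ b * OutS t A (mix (outB v (v ∆ b).card) φ ψ) (R+1) b (v ∆ b)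
                (fun u _ => f (mix (outB v (v ∆ b).card) φ ψ) u - cmean t A f (R+1) b.card) := by
            intro φ
            rw [hNOmix, if_pos hNO, hcntmix, hcard, hbc]
          rw [E_congr this, E_mul_left, mean_zero hf hloc v b ψ, mul_zero]
      · have : ∀ φ : Finset (Fin n) → κ, (if NO t A (mix (outB v l0) φ ψ) l0 v ∅ ≤ Nb then
              cnt t A (mix (outB v l0) φ ψ) l0 v ∅ b * Th (mix (outB v l0) φ ψ) b else 0)
              = (0:ℝ) := by
          intro φ
          rw [hNOmix, if_neg hNO]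
        rw [E_congr this]
        exact E_const 0
    · intro b _ ψ
      have hpt : ∀ φ : Finset (Fin n) → κ, (T b (mix (outB v l0) φ ψ)) ^ 2
          ≤ (if NO t A ψ l0 v ∅ ≤ Nb then cnt t A ψ l0 v ∅ b * (l0.factorial * Mt ^ 2) else 0) := by
        intro φ
        simp only [hT]
        rw [hNOmix]
        split_ifs with hNO
        · have h1 := hTabs b (mix (outB v l0) φ ψ)
          rw [hcntmix] at h1 ⊢
          have h2 := cnt_le t A ψ l0 v ∅ b
          have h3 := cnt_nonneg t A ψ l0 v ∅ b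
          calc (cnt t A ψ l0 v ∅ b * Th (mix (outB v l0) φ ψ) b) ^ 2
              = |cnt t A ψ l0 v ∅ b * Th (mix (outB v l0) φ ψ) b| ^ 2 := (sq_abs _).symm
            _ ≤ (cnt t A ψ l0 v ∅ b * Mt) ^ 2 := by gcongr
            _ = cnt t A ψ l0 v ∅ b * (cnt t A ψ l0 v ∅ b * Mt ^ 2) := by ring
            _ ≤ cnt t A ψ l0 v ∅ b * (l0.factorial * Mt ^ 2) := by gcongr
        · simp
      refine (E_mono hpt).trans ?_
      rw [E_const]
    · intro ψ
      by_cases hNO : NO t A ψ l0 v ∅ ≤ Nb
      · simp only [hNO, if_true]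
        calc ∑ b ∈ univ.filter (fun b => χ b = c), cnt t A ψ l0 v ∅ b * (l0.factorial * Mt ^ 2)
            ≤ ∑ b : Finset (Fin n), cnt t A ψ l0 v ∅ b * (l0.factorial * Mt ^ 2) := by
              apply sum_le_sum_of_subset_of_nonneg (filter_subset _ _)
              intro b _ _
              exact mul_nonneg (cnt_nonneg t A ψ l0 v ∅ b) (by positivity)
          _ = NO t A ψ l0 v ∅ * (l0.factorial * Mt ^ 2) := by rw [← sum_mul, sum_cnt]
          _ ≤ Nb * (l0.factorial * Mt ^ 2) := by gcongr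
          _ = Vt := by rw [hVt]; ring
      · simp only [hNO, if_false, sum_const_zero]
        exact hVt0.le
    · have h1 : s / D ≤ 2 * Mt * Nb := (div_le_self hs0 hDr).trans (by linarith)
      calc s / D * (l0.factorial * Mt) ≤ (2 * Mt * Nb) * (l0.factorial * Mt) := by gcongr
        _ = 2 * Vt := by rw [hVt]; ring
  -- union
  have hunion : P (fun ψ : Finset (Fin n) → κ => NO t A ψ l0 v ∅ ≤ Nb ∧
      s < |OutS t A ψ (l0 + (R+1)) v ∅ (fun u _ => f ψ u - cm)|)
      ≤ P (fun ψ : Finset (Fin n) → κ => ∃ c ∈ (univ : Finset (Fin D)),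
        s / D < |∑ b ∈ univ.filter (fun b => χ b = c), T b ψ|) := by
    apply P_mono
    rintro ψ ⟨h1, h2⟩
    rw [← hsumT ψ h1] at h2
    by_contra hcon
    push Not at hcon
    have h3 : ∑ b : Finset (Fin n), T b ψ
        = ∑ c : Fin D, ∑ b ∈ univ.filter (fun b => χ b = c), T b ψ :=
      (sum_fiberwise (univ : Finset (Finset (Fin n))) χ (fun b => T b ψ)).symm
    rw [h3] at h2
    have h4 : |∑ c : Fin D, ∑ b ∈ univ.filter (fun b => χ b = c), T b ψ| ≤ s := by
      refine (abs_sum_le_sum_abs _ _).trans ?_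
      calc ∑ c : Fin D, |∑ b ∈ univ.filter (fun b => χ b = c), T b ψ|
          ≤ ∑ c : Fin D, s / D := sum_le_sum (fun c hc => hcon c hc)
        _ = s := by
            rw [sum_const, card_univ, Fintype.card_fin, nsmul_eq_mul, mul_div_cancel₀]
            positivity
    linarith
  rw [hDcast]
  refine hunion.trans ((P_exists _ _).trans ?_)
  refine (sum_le_sum (fun c _ => hclass c)).trans ?_
  rw [sum_const, card_univ, Fintype.card_fin, nsmul_eq_mul]
  apply le_of_eq
  ring

end Pool.Agent.SK
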