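import Pool.Agent.Lib.MP_5fcc10_co.GosE

/-! Crude bounds and the stage theorem. -/

set_option linter.unusedSectionVars false

namespace Pool.Agent.SK

open Finset
open scoped symmDiff

section crude

variable {n : ℕ} {κ : Type*} [AddCommGroup κ] {t : ℕ} {A : Set κ}

lemma dg_nonneg (ψ : Finset (Fin n) → κ) (v : Finset (Fin n)) : 0 ≤ dg t A ψ v :=
  sum_nonneg (fun e _ => opn_nonneg t A ψ v e)

lemma dg_le_n (ψ : Finset (Fin n) → κ) (v : Finset (Fin n)) : dg t A ψ v ≤ n := by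
  unfold dg
  calc ∑ e ∈ nb t v, opn t A ψ v e ≤ ∑ e ∈ nb t v, (1:ℝ) :=
        sum_le_sum (fun e _ => opn_le_one t A ψ v e)
    _ = ((nb t v).card : ℝ) := by simp
    _ ≤ n := by
        have := card_le_univ (nb t v)
        rw [Fintype.card_fin] at this
        exact_mod_cast this

lemma Bop_crude (Dl : ℕ → ℝ) (hD : ∀ c, 1 ≤ Dl c) (ψ : Finset (Fin n) → κ)
    (f : Finset (Fin n) → ℝ) (b : ℝ) (hb : 0 ≤ b) (hf : ∀ v, |f v| ≤ b) (v : Finset (Fin n)) :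
    |Bop t A Dl ψ f v| ≤ n * b := by
  unfold Bop nsum
  rw [abs_div, abs_of_pos (lt_of_lt_of_le one_pos (hD _))]
  have h1 : |∑ e ∈ nb t v, opn t A ψ v e * f (tg v e)| ≤ n * b := by
    calc |∑ e ∈ nb t v, opn t A ψ v e * f (tg v e)|
        ≤ ∑ e ∈ nb t v, |opn t A ψ v e * f (tg v e)| := abs_sum_le_sum_abs _ _
      _ ≤ ∑ e ∈ nb t v, opn t A ψ v e * b := by
          refine sum_le_sum (fun e _ => ?_)
          rw [abs_mul, abs_of_nonneg (opn_nonneg t A ψ v e)]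
          exact mul_le_mul_of_nonneg_left (hf _) (opn_nonneg t A ψ v e)
      _ = dg t A ψ v * b := by rw [← sum_mul]; rfl
      _ ≤ n * b := mul_le_mul_of_nonneg_right (dg_le_n ψ v) hb
  refine (div_le_self (abs_nonneg _) (hD _)).trans h1

lemma Bit_crude (Dl : ℕ → ℝ) (hD : ∀ c, 1 ≤ Dl c) (ψ : Finset (Fin n) → κ)
    (f : Finset (Fin n) → ℝ) (b : ℝ) (hb : 0 ≤ b) (hf : ∀ v, |f v| ≤ b) (i : ℕ) :
    ∀ v : Finset (Fin n), |Bit t A Dl ψ f i v| ≤ (n:ℝ) ^ i * b := by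
  induction i with
  | zero => intro v; simpa [Bit] using hf v
  | succ i ih =>
    intro v
    refine (Bop_crude Dl hD ψ _ ((n:ℝ) ^ i * b) (by positivity) ih v).trans (le_of_eq ?_)
    ring

lemma theta_crude (hn : 1 ≤ n) (Dl : ℕ → ℝ) (hD : ∀ c, 1 ≤ Dl c) (L : ℕ)
    (ψ : Finset (Fin n) → κ) (f : Finset (Fin n) → ℝ) (b : ℝ) (hb : 0 ≤ b)
    (hf : ∀ v, |f v| ≤ b) (v : Finset (Fin n)) :
    |theta t A Dl L ψ f v| ≤ L * ((n:ℝ) ^ L * b) := by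
  unfold theta
  have hnr : (1:ℝ) ≤ n := by exact_mod_cast hn
  calc |∑ i ∈ range L, (-1 : ℝ) ^ (i + 1) * Bit t A Dl ψ f i v|
      ≤ ∑ i ∈ range L, |(-1 : ℝ) ^ (i + 1) * Bit t A Dl ψ f i v| := abs_sum_le_sum_abs _ _
    _ ≤ ∑ i ∈ range L, (n:ℝ) ^ L * b := by
        refine sum_le_sum (fun i hi => ?_)
        rw [abs_mul, abs_pow, abs_neg, abs_one, one_pow, one_mul]
        refine (Bit_crude Dl hD ψ f b hb hf i v).trans ?_
        apply mul_le_mul_of_nonneg_right _ hb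
        exact pow_le_pow_right₀ hnr (mem_range.1 hi).le
    _ = L * ((n:ℝ) ^ L * b) := by rw [sum_const, card_range, nsmul_eq_mul]

lemma Sf_crude (Dl : ℕ → ℝ) (hD : ∀ c, 1 ≤ Dl c) (ψ : Finset (Fin n) → κ)
    (h : Finset (Fin n) → ℝ) (b : ℝ) (hb : 0 ≤ b) (hf : ∀ v, |h v| ≤ b) (v : Finset (Fin n)) :
    |Sf t A Dl ψ h v| ≤ (1 + b) * n + n * b := by
  unfold Sf
  refine (abs_add_le _ _).trans ?_
  apply add_le_add _ (Bop_crude Dl hD ψ h b hb hf v)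
  rw [abs_mul]
  apply mul_le_mul _ _ (abs_nonneg _) (by positivity)
  · have := hf v
    have h2 := abs_add_le 1 (h v)
    rw [abs_one] at h2
    linarith
  · rw [abs_div, abs_of_nonneg (dg_nonneg ψ v), abs_of_pos (lt_of_lt_of_le one_pos (hD _))]
    exact (div_le_self (dg_nonneg ψ v) (hD _)).trans (dg_le_n ψ v)

lemma PiL_ge (Dl : ℕ → ℝ) (b : ℝ) (hb : 0 ≤ b) (hD : ∀ c, b ≤ Dl c) (l : ℕ) :
    ∀ c, b ^ l ≤ PiL t Dl l c := by
  induction l with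
  | zero => intro c; simp [PiL]
  | succ l ih =>
    intro c
    change b ^ (l+1) ≤ Dl c * PiL t Dl l (oth t c)
    rw [pow_succ, mul_comm]
    exact mul_le_mul (hD c) (ih _) (by positivity) (hb.trans (hD c))

lemma PiL_le (Dl : ℕ → ℝ) (b : ℝ) (hD0 : ∀ c, 0 ≤ Dl c) (hD : ∀ c, Dl c ≤ b) (l : ℕ) :
    ∀ c, PiL t Dl l c ≤ b ^ l := by
  have hb : 0 ≤ b := (hD0 0).trans (hD 0)
  have hnn : ∀ l c, 0 ≤ PiL t Dl l c := by
    intro l
    induction l with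
    | zero => intro c; simp [PiL]
    | succ l ih => intro c; exact mul_nonneg (hD0 c) (ih _)
  induction l with
  | zero => intro c; simp [PiL]
  | succ l ih =>
    intro c
    change Dl c * PiL t Dl l (oth t c) ≤ b ^ (l+1)
    rw [pow_succ, mul_comm]
    exact mul_le_mul (ih _) (hD c) (hD0 c) (by positivity)

lemma theta_fine (Dl : ℕ → ℝ) (hD : ∀ c, 0 < Dl c) (L : ℕ)
    (ψ : Finset (Fin n) → κ) (f : Finset (Fin n) → ℝ)
    (hdg : ∀ v : Finset (Fin n), inL t v → dg t A ψ v ≤ 2 * Dl v.card)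
    (τ : ℝ) (hτ : 0 ≤ τ) (hf : ∀ v, inL t v → |f v| ≤ τ) (v : Finset (Fin n)) (hv : inL t v) :
    |theta t A Dl L ψ f v| ≤ 2 ^ L * τ := by
  unfold theta
  calc |∑ i ∈ range L, (-1 : ℝ) ^ (i + 1) * Bit t A Dl ψ f i v|
      ≤ ∑ i ∈ range L, |(-1 : ℝ) ^ (i + 1) * Bit t A Dl ψ f i v| := abs_sum_le_sum_abs _ _
    _ ≤ ∑ i ∈ range L, (2:ℝ) ^ i * τ := by
        refine sum_le_sum (fun i _ => ?_)
        rw [abs_mul, abs_pow, abs_neg, abs_one, one_pow, one_mul]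
        exact Bit_abs_le Dl hD ψ f 2 (by norm_num) hdg τ hτ hf i v hv
    _ = (2 ^ L - 1) * τ := by
        rw [← sum_mul]
        congr 1
        induction L with
        | zero => simp
        | succ L ih => rw [sum_range_succ, ih]; ring
    _ ≤ 2 ^ L * τ := by nlinarith

end crude

lemma one_add_pow_le (y : ℝ) (h0 : 0 ≤ y) (h1 : y ≤ 1) (L : ℕ) :
    (1 + y) ^ L ≤ 1 + (2 ^ L - 1) * y := by
  induction L with
  | zero => simp
  | succ L ih =>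
    rw [pow_succ]
    have h2 : (1:ℝ) ≤ 2 ^ L := one_le_pow₀ (by norm_num)
    calc (1 + y) ^ L * (1 + y) ≤ (1 + (2 ^ L - 1) * y) * (1 + y) :=
          mul_le_mul_of_nonneg_right ih (by linarith)
      _ ≤ 1 + (2 ^ (L+1) - 1) * y := by
          have h3 : (2:ℝ) ^ (L+1) = 2 * 2 ^ L := by ring
          rw [h3]
          have h4 : (2 ^ L - 1) * (y * y) ≤ (2 ^ L - 1) * y := by
            apply mul_le_mul_of_nonneg_left _ (by linarith)
            nlinarith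
          nlinarith

/-- the environment for the smoothing -/
structure Env (g : ℕ) (β : ℝ) (n t : ℕ) (κ : Type) [AddCommGroup κ] [Fintype κ] (A : Set κ)
    (Dl : ℕ → ℝ) : Prop where
  hβ : 2 ≤ β
  hn1 : 1 ≤ n
  hn : (n:ℝ) + 1 ≤ β ^ g
  hn4 : β ^ 4 ≤ n
  hD1 : ∀ c, β ^ 4 ≤ Dl c
  hD2 : ∀ c, Dl c ≤ 4 * β ^ 4
  hdeg : ∀ v : Finset (Fin n), inL t v →
    P (fun ψ : Finset (Fin n) → κ => 1 / β < |dg t A ψ v / Dl v.card - 1|) ≤ 2 * Real.exp (-β)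

/-- the outcome of the smoothing at a given order -/
structure Out (M : ℕ) (K : ℝ) (R C : ℕ) (β : ℝ) (n t : ℕ) (κ : Type) [AddCommGroup κ]
    [Fintype κ] (A : Set κ) (Dl : ℕ → ℝ) (h : (Finset (Fin n) → κ) → Finset (Fin n) → ℝ)
    (k : ℕ → ℝ) (Bd : Finset (Fin n) → (Finset (Fin n) → κ) → Prop) : Prop where
  inv : Inv h
  loc : Loc h R
  hh : ∀ ψ v, |h ψ v| ≤ β ^ C
  hk : ∀ c, |k c| ≤ β ^ C
  dep : ∀ v, Dep (Bd v) (ham v R)
  prob : ∀ v, inL t v → P (Bd v) ≤ β ^ C * Real.exp (-β)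
  deg : ∀ ψ, (∀ v, inL t v → ¬ Bd v ψ) → ∀ v, inL t v → |dg t A ψ v / Dl v.card - 1| ≤ 1 / β
  sf : ∀ ψ, (∀ v, inL t v → ¬ Bd v ψ) → ∀ v, inL t v →
    |Sf t A Dl ψ (h ψ) v - k v.card| ≤ K / β ^ (M + 1)
  hf : ∀ ψ, (∀ v, inL t v → ¬ Bd v ψ) → ∀ v, inL t v → |h ψ v| ≤ K / β
  kf : ∀ ψ, (∀ v, inL t v → ¬ Bd v ψ) → ∀ v : Finset (Fin n), inL t v → |k v.card - 1| ≤ K / β

end Pool.Agent.SK
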