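import Pool.Agent.Lib.MP_5fcc10_co.GosH
import Pool.Agent.Lib.MP_5fcc10_co.Core1
import Pool.Agent.Lib.MP_5fcc10_co.Core2

/-! Step injections from the smoothing. -/

set_option linter.unusedSectionVars false

namespace Pool.Agent.SK

open Finset
open scoped symmDiff

section bridge

variable {n : ℕ} {κ : Type*} [AddCommGroup κ] {t : ℕ} {A : Set κ}

/-- the relation of a class -/
def rel (A : Set κ) (a b : κ) : Prop := b - a ∈ A

lemma sum_nb_up {x : Finset (Fin n)} (hx : x.card = t) (F : Finset (Fin n) → ℝ) :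
    ∑ e ∈ nb t x, F (tg x e) = ∑ y ∈ up x, F y := by
  rw [nb_low hx, up_eq, sum_image]
  · refine sum_congr rfl (fun e he => ?_)
    rw [tg_of_notMem (mem_compl.1 he)]
  · intro a ha b hb hab
    have ha' := mem_compl.1 (mem_coe.1 ha)
    have : a ∈ insert b x := by
      have h : insert a x = insert b x := hab
      rw [← h]; exact mem_insert_self a x
    rcases mem_insert.1 this with h | h
    · exact h
    · exact absurd h ha'

lemma sum_nb_dn {y : Finset (Fin n)} (hy : y.card = t + 1) (F : Finset (Fin n) → ℝ) :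
    ∑ e ∈ nb t y, F (tg y e) = ∑ x ∈ dn y, F x := by
  rw [nb_high hy, dn_eq, sum_image]
  · refine sum_congr rfl (fun e he => ?_)
    rw [tg_of_mem he]
  · intro a ha b hb hab
    by_contra hne
    have : a ∈ y.erase b := mem_erase.2 ⟨hne, ha⟩
    have h2 : y.erase a = y.erase b := hab
    rw [← h2] at this
    simp at this

lemma opn_low {x : Finset (Fin n)} (hx : x.card = t) (ψ : Finset (Fin n) → κ) (e : Fin n) :
    opn t A ψ x e = gg (rel A) ψ x (tg x e) := by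
  unfold opn gg
  have : opP t A ψ x e ↔ rel A (ψ x) (ψ (tg x e)) :=
    ⟨fun h => h.1 hx, fun h => ⟨fun _ => h, fun h' => absurd hx h'⟩⟩
  by_cases h : rel A (ψ x) (ψ (tg x e))
  · rw [if_pos h, if_pos (this.2 h)]
  · rw [if_neg h, if_neg (fun h' => h (this.1 h'))]

lemma opn_high {y : Finset (Fin n)} (hy : y.card = t + 1) (ψ : Finset (Fin n) → κ) (e : Fin n) :
    opn t A ψ y e = gg (rel A) ψ (tg y e) y := by
  unfold opn gg
  have : opP t A ψ y e ↔ rel A (ψ (tg y e)) (ψ y) :=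
    ⟨fun h => h.2 (by omega), fun h => ⟨fun h' => by omega, fun _ => h⟩⟩
  by_cases h : rel A (ψ (tg y e)) (ψ y)
  · rw [if_pos h, if_pos (this.2 h)]
  · rw [if_neg h, if_neg (fun h' => h (this.1 h'))]

lemma Sf_sum (Dl : ℕ → ℝ) (ψ : Finset (Fin n) → κ) (h : Finset (Fin n) → ℝ)
    (v : Finset (Fin n)) :
    Sf t A Dl ψ h v = (∑ e ∈ nb t v, opn t A ψ v e * (1 + h v + h (tg v e))) / Dl v.card := by
  unfold Sf Bop nsum dg
  rw [← mul_div_assoc, ← add_div, mul_sum, ← sum_add_distrib]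
  congr 1
  exact sum_congr rfl (fun e _ => by ring)

lemma Sf_low (Dl : ℕ → ℝ) (ψ : Finset (Fin n) → κ) (h : Finset (Fin n) → ℝ)
    {x : Finset (Fin n)} (hx : x.card = t) :
    Sf t A Dl ψ h x = (∑ y ∈ up x, gg (rel A) ψ x y * (1 + h x + h y)) / Dl t := by
  rw [Sf_sum, hx, ← sum_nb_up hx (fun y => gg (rel A) ψ x y * (1 + h x + h y))]
  congr 1
  exact sum_congr rfl (fun e _ => by rw [opn_low hx])

lemma Sf_high (Dl : ℕ → ℝ) (ψ : Finset (Fin n) → κ) (h : Finset (Fin n) → ℝ)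
    {y : Finset (Fin n)} (hy : y.card = t + 1) :
    Sf t A Dl ψ h y = (∑ x ∈ dn y, gg (rel A) ψ x y * (1 + h x + h y)) / Dl (t + 1) := by
  rw [Sf_sum, hy, ← sum_nb_dn hy (fun x => gg (rel A) ψ x y * (1 + h x + h y))]
  congr 1
  exact sum_congr rfl (fun e _ => by rw [opn_high hy]; ring)

end bridge

section steps

variable {V κ : Type*} [Fintype V] [DecidableEq V] [Fintype κ] [Nonempty κ]

open Classical in
theorem step_gos (G : BG V) (ρ : κ → κ → Prop) (ψ : V → κ) (h : V → ℝ)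
    (Δ1 Δ2 kX kY η : ℝ) (hΔ1 : 0 < Δ1) (hΔ2 : 0 < Δ2) (hd1 : 0 < G.d1) (hd2 : 0 < G.d2)
    (hratio : Δ2 / Δ1 = (G.d2 : ℝ) / G.d1) (hX : G.X.Nonempty)
    (hhX : ∀ x ∈ G.X, |h x| ≤ 1 / 4) (hhY : ∀ y ∈ G.Y, |h y| ≤ 1 / 4)
    (hSX : ∀ x ∈ G.X, |(∑ y ∈ G.N1 x, gg ρ ψ x y * (1 + h x + h y)) / Δ1 - kX| ≤ η)
    (hSY : ∀ y ∈ G.Y, |(∑ x ∈ G.N2 y, gg ρ ψ x y * (1 + h x + h y)) / Δ2 - kY| ≤ η)
    (hk : 3 / 4 ≤ kX) (hη : η ≤ 1 / 8) (hη0 : 0 ≤ η)
    (load : ℝ) (hr : (1 + 8 * η) * ((G.d2 : ℝ) / G.d1) ≤ 1 - load)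
    (F : Finset V) (S : V → Finset V) (hS : ∀ v ∈ F, S v ⊆ G.Y)
    (hSne : ∀ v ∈ F, (S v).Nonempty) (M : ℕ)
    (hload : ∀ y ∈ G.Y, (M : ℝ) * ∑ v ∈ F.filter (fun v => y ∈ S v), 1 / ((S v).card : ℝ) ≤ load) :
    StepOK G ρ ψ F S M := by
  set W : V → V → ℝ := fun x y => gg ρ ψ x y * (1 + h x + h y) with hW
  set SX : V → ℝ := fun x => (∑ y ∈ G.N1 x, W x y) / Δ1 with hSXd
  set SY : V → ℝ := fun y => (∑ x ∈ G.N2 y, W x y) / Δ2 with hSYd
  have hW0 : ∀ x ∈ G.X, ∀ y ∈ G.N1 x, 0 ≤ W x y := by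
    intro x hx y hy
    have h1 := (abs_le.1 (hhX x hx)).1
    have h2 := (abs_le.1 (hhY y (G.h1 x hx hy))).1
    exact mul_nonneg (gg_nonneg ρ ψ x y) (by linarith)
  have eX : ∀ x, ∑ y ∈ G.N1 x, W x y = Δ1 * SX x := by
    intro x; simp only [hSXd]; field_simp
  have eY : ∀ y, ∑ x ∈ G.N2 y, W x y = Δ2 * SY y := by
    intro y; simp only [hSYd]; field_simp
  have hSX1 : ∀ x ∈ G.X, kX - η ≤ SX x ∧ SX x ≤ kX + η := by
    intro x hx
    have := abs_le.1 (hSX x hx)
    constructor <;> linarith [this.1, this.2]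
  have hSY1 : ∀ y ∈ G.Y, kY - η ≤ SY y ∧ SY y ≤ kY + η := by
    intro y hy
    have := abs_le.1 (hSY y hy)
    constructor <;> linarith [this.1, this.2]
  have hd1r : (0:ℝ) < G.d1 := by exact_mod_cast hd1
  have hd2r : (0:ℝ) < G.d2 := by exact_mod_cast hd2
  have hXc : (0:ℝ) < G.X.card := by exact_mod_cast card_pos.2 hX
  have hcd := card_double G
  have hXY : (G.X.card : ℝ) * Δ1 = (G.Y.card : ℝ) * Δ2 := by
    have h1 : Δ2 = (G.d2 : ℝ) / G.d1 * Δ1 := by
      rw [← hratio, div_mul_cancel₀ _ hΔ1.ne']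
    have h2 : (G.X.card : ℝ) = G.Y.card * G.d2 / G.d1 := by
      rw [eq_div_iff hd1r.ne']; exact hcd
    rw [h1, h2]; ring
  have hkk : kY ≤ kX + 2 * η := by
    have h1 := sum_double G W
    rw [sum_congr rfl (fun x _ => eX x), sum_congr rfl (fun y _ => eY y), ← mul_sum, ← mul_sum] at h1
    have h2 : ∑ x ∈ G.X, SX x ≤ G.X.card * (kX + η) := by
      calc ∑ x ∈ G.X, SX x ≤ ∑ x ∈ G.X, (kX + η) := sum_le_sum (fun x hx => (hSX1 x hx).2)
        _ = _ := by rw [sum_const, nsmul_eq_mul]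
    have h3 : G.Y.card * (kY - η) ≤ ∑ y ∈ G.Y, SY y := by
      calc (G.Y.card : ℝ) * (kY - η) = ∑ y ∈ G.Y, (kY - η) := by rw [sum_const, nsmul_eq_mul]
        _ ≤ _ := sum_le_sum (fun y hy => (hSY1 y hy).1)
    have h4 : Δ2 * (G.Y.card * (kY - η)) ≤ Δ1 * (G.X.card * (kX + η)) := by
      calc Δ2 * (G.Y.card * (kY - η)) ≤ Δ2 * ∑ y ∈ G.Y, SY y :=
            mul_le_mul_of_nonneg_left h3 hΔ2.le
        _ = Δ1 * ∑ x ∈ G.X, SX x := h1.symm
        _ ≤ _ := mul_le_mul_of_nonneg_left h2 hΔ1.le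
    have h5 : (G.X.card * Δ1) * (kY - η) ≤ (G.X.card * Δ1) * (kX + η) := by
      calc (G.X.card * Δ1) * (kY - η) = (G.Y.card * Δ2) * (kY - η) := by rw [hXY]
        _ = Δ2 * (G.Y.card * (kY - η)) := by ring
        _ ≤ Δ1 * (G.X.card * (kX + η)) := h4
        _ = _ := by ring
    have h6 := le_of_mul_le_mul_left h5 (mul_pos hXc hΔ1)
    linarith
  have hkη : 1 / 2 ≤ kX - η := by linarith
  set w : V → V → ℝ := fun x y => W x y / (Δ1 * SX x) with hw
  have hG := step_exists G (gg ρ ψ) w ?_ ?_ ?_ load ?_ F S hS hSne M hload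
  · obtain ⟨f, g, h1, h2, h3, h4, h5⟩ := hG
    refine ⟨f, g, ?_, h2, h3, h4, h5⟩
    intro x hx
    obtain ⟨a1, a2⟩ := h1 x hx
    refine ⟨a1, ?_⟩
    by_contra hcon
    apply a2
    unfold gg
    rw [if_neg hcon]
  · intro x hx y hy
    have h1 := (hSX1 x hx).1
    exact div_nonneg (hW0 x hx y hy) (mul_nonneg hΔ1.le (by linarith))
  · intro x y hxy
    simp only [hw, hW, hxy, zero_mul, zero_div]
  · intro x hx
    have h1 := (hSX1 x hx).1
    have h2 : 0 < SX x := by linarith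
    simp only [hw]
    rw [← sum_div, eX x, div_self]
    positivity
  · intro y hy
    have h1 : ∑ x ∈ G.N2 y, w x y ≤ ∑ x ∈ G.N2 y, W x y / (Δ1 * (kX - η)) := by
      refine sum_le_sum (fun x hx => ?_)
      have hxX := G.h2 y hy hx
      have h2 := (hSX1 x hxX).1
      simp only [hw]
      apply div_le_div_of_nonneg_left (hW0 x hxX y ((G.sym x hxX y hy).2 hx))
      · have : 0 < kX - η := by linarith
        positivity
      · exact mul_le_mul_of_nonneg_left h2 hΔ1.le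
    rw [← sum_div, eY y] at h1
    refine h1.trans (le_trans ?_ hr)
    have h3 : Δ2 * SY y / (Δ1 * (kX - η)) = (Δ2 / Δ1) * (SY y / (kX - η)) := by
      rw [mul_div_mul_comm]
    rw [h3, hratio, mul_comm (1 + 8 * η)]
    apply mul_le_mul_of_nonneg_left _ (by positivity)
    have h4 := (hSY1 y hy).2
    rw [div_le_iff₀ (by linarith)]
    nlinarith

end steps

section apply

variable {n m lo t a M : ℕ}

/-- low steps -/
theorem low_step_gos {κ : Type} [AddCommGroup κ] [Fintype κ] {A : Set κ} {K β : ℝ} {Ms R C : ℕ}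
    {Dl : ℕ → ℝ} {h : (Finset (Fin n) → κ) → Finset (Fin n) → ℝ} {k : ℕ → ℝ}
    {Bd : Finset (Fin n) → (Finset (Fin n) → κ) → Prop}
    (ho : Out Ms K R C β n t κ A Dl h k Bd) (ψ : Finset (Fin n) → κ)
    (hψ : ∀ v, inL t v → ¬ Bd v ψ) (δ : ℝ) (hδ : 0 < δ) (hDt : Dl t = δ * ((n - t : ℕ) : ℝ))
    (hDt1 : Dl (t + 1) = δ * ((t + 1 : ℕ) : ℝ)) (hK : 0 ≤ K) (hβ : 1 ≤ β) (hKβ : K / β ≤ 1 / 8)
    (han : a ≤ n) (hloa : lo ≤ a) (hta : t < a)
    (B : ℝ) (hB : ∀ s < lo, (n.choose s : ℝ) ≤ B * n.choose a)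
    (hr : (1 + 8 * (K / β ^ (Ms + 1))) * (((t + 1 : ℕ) : ℝ) / ((n - t : ℕ) : ℝ))
      ≤ 1 - (if t + 1 = a then M * (lo * B) else 0)) :
    StepOK (lev n t) (rel A) ψ (if t + 1 = a then farlow n lo else ∅) (above a) M := by
  have hβp : 0 < β := by linarith
  have hη0 : 0 ≤ K / β ^ (Ms + 1) := by positivity
  have hη : K / β ^ (Ms + 1) ≤ 1 / 8 := by
    refine le_trans ?_ hKβ
    apply div_le_div_of_nonneg_left hK hβp
    calc β = β ^ 1 := (pow_one β).symm
      _ ≤ β ^ (Ms+1) := pow_le_pow_right₀ hβ (by omega)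
  have hnt : (0:ℝ) < ((n - t : ℕ) : ℝ) := by
    have : 0 < n - t := by omega
    exact_mod_cast this
  have ht1 : (0:ℝ) < ((t + 1 : ℕ) : ℝ) := by positivity
  have hXne : (lev n t).X.Nonempty := by
    change (powersetCard t (univ : Finset (Fin n))).Nonempty
    apply powersetCard_nonempty.2
    rw [card_univ, Fintype.card_fin]; omega
  obtain ⟨x0, hx0⟩ := hXne
  refine step_gos (lev n t) (rel A) ψ (h ψ) (Dl t) (Dl (t+1)) (k t) (k (t+1))
    (K / β ^ (Ms + 1)) (by rw [hDt]; positivity) (by rw [hDt1]; positivity)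
    (by change 0 < n - t; omega) (by change 0 < t + 1; omega) ?_ ⟨x0, hx0⟩ ?_ ?_ ?_ ?_ ?_ hη hη0
    (if t + 1 = a then M * (lo * B) else 0) hr _ _ ?_ ?_ M ?_
  · rw [hDt, hDt1, mul_div_mul_left _ _ hδ.ne']
    rfl
  · intro x hx
    have := ho.hf ψ hψ x (Or.inl (lev_X.1 hx))
    linarith
  · intro y hy
    have := ho.hf ψ hψ y (Or.inr (lev_Y.1 hy))
    linarith
  · intro x hx
    have hxc := lev_X.1 hx
    have := ho.sf ψ hψ x (Or.inl hxc)
    rw [Sf_low Dl ψ (h ψ) hxc, hxc] at this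
    exact this
  · intro y hy
    have hyc := lev_Y.1 hy
    have := ho.sf ψ hψ y (Or.inr hyc)
    rw [Sf_high Dl ψ (h ψ) hyc, hyc] at this
    exact this
  · have hxc := lev_X.1 hx0
    have := ho.kf ψ hψ x0 (Or.inl hxc)
    rw [hxc] at this
    have := (abs_le.1 this).1
    linarith
  · intro v hv
    split_ifs at hv with h
    · intro y hy
      rw [mem_above] at hy
      exact lev_Y.2 (hy.2.trans h.symm)
    · simp at hv
  · intro v hv
    split_ifs at hv with h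
    · rw [farlow, mem_filter] at hv
      rw [← card_pos, card_above a v han]
      exact Nat.choose_pos (by omega)
    · simp at hv
  · intro y hy
    by_cases h : t + 1 = a
    · rw [if_pos h, if_pos h]
      apply mul_le_mul_of_nonneg_left _ (by positivity)
      have := load_above (n := n) a lo han B hloa hB y ((lev_Y.1 hy).trans h)
      exact this
    · rw [if_neg h, if_neg h]
      exact load_empty y

/-- high steps -/
theorem high_step_gos {hi b : ℕ} {κ : Type} [AddCommGroup κ] [Fintype κ] {A : Set κ} {K β : ℝ}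
    {Ms R C : ℕ}
    {Dl : ℕ → ℝ} {h : (Finset (Fin n) → κ) → Finset (Fin n) → ℝ} {k : ℕ → ℝ}
    {Bd : Finset (Fin n) → (Finset (Fin n) → κ) → Prop}
    (ho : Out Ms K R C β n t κ A Dl h k Bd) (ψ : Finset (Fin n) → κ)
    (hψ : ∀ v, inL t v → ¬ Bd v ψ) (δ : ℝ) (hδ : 0 < δ) (hDt : Dl t = δ * ((n - t : ℕ) : ℝ))
    (hDt1 : Dl (t + 1) = δ * ((t + 1 : ℕ) : ℝ)) (hK : 0 ≤ K) (hβ : 1 ≤ β) (hKβ : K / β ≤ 1 / 8)
    (hhn : hi ≤ n) (_hbh : b ≤ hi) (hthi : t < hi)
    (B : ℝ) (hB : ∀ s < n - hi, (n.choose s : ℝ) ≤ B * n.choose b)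
    (hr : (1 + 8 * (K / β ^ (Ms + 1))) * (((n - t : ℕ) : ℝ) / ((t + 1 : ℕ) : ℝ))
      ≤ 1 - (if t = b then M * ((n - hi : ℕ) * B) else 0)) :
    StepOK (lev n t).swap (fun x y => rel A y x) ψ (if t = b then farhigh n hi else ∅)
      (below b) M := by
  have hβp : 0 < β := by linarith
  have hη0 : 0 ≤ K / β ^ (Ms + 1) := by positivity
  have hη : K / β ^ (Ms + 1) ≤ 1 / 8 := by
    refine le_trans ?_ hKβ
    apply div_le_div_of_nonneg_left hK hβp
    calc β = β ^ 1 := (pow_one β).symm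
      _ ≤ β ^ (Ms+1) := pow_le_pow_right₀ hβ (by omega)
  have hnt : (0:ℝ) < ((n - t : ℕ) : ℝ) := by
    have : 0 < n - t := by omega
    exact_mod_cast this
  have ht1 : (0:ℝ) < ((t + 1 : ℕ) : ℝ) := by positivity
  have hYne : (lev n t).Y.Nonempty := by
    change (powersetCard (t+1) (univ : Finset (Fin n))).Nonempty
    apply powersetCard_nonempty.2
    rw [card_univ, Fintype.card_fin]; omega
  obtain ⟨y0, hy0⟩ := hYne
  refine step_gos (lev n t).swap (fun x y => rel A y x) ψ (h ψ) (Dl (t+1)) (Dl t) (k (t+1)) (k t)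
    (K / β ^ (Ms + 1)) (by rw [hDt1]; positivity) (by rw [hDt]; positivity)
    (by change 0 < t + 1; omega) (by change 0 < n - t; omega) ?_ ⟨y0, hy0⟩ ?_ ?_ ?_ ?_ ?_ hη hη0
    (if t = b then M * ((n - hi : ℕ) * B) else 0) hr _ _ ?_ ?_ M ?_
  · rw [hDt, hDt1, mul_div_mul_left _ _ hδ.ne']
    rfl
  · intro y hy
    have := ho.hf ψ hψ y (Or.inr (lev_Y.1 hy))
    linarith
  · intro x hx
    have := ho.hf ψ hψ x (Or.inl (lev_X.1 hx))
    linarith
  · intro y hy
    have hyc : y.card = t + 1 := lev_Y.1 hy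
    have := ho.sf ψ hψ y (Or.inr hyc)
    rw [Sf_high Dl ψ (h ψ) hyc, hyc] at this
    refine le_trans (le_of_eq ?_) this
    congr 3
    refine sum_congr rfl (fun x _ => ?_)
    rw [gg_flip]; ring
  · intro x hx
    have hxc : x.card = t := lev_X.1 hx
    have := ho.sf ψ hψ x (Or.inl hxc)
    rw [Sf_low Dl ψ (h ψ) hxc, hxc] at this
    refine le_trans (le_of_eq ?_) this
    congr 3
    refine sum_congr rfl (fun y _ => ?_)
    rw [gg_flip]; ring
  · have hyc : y0.card = t + 1 := lev_Y.1 hy0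
    have := ho.kf ψ hψ y0 (Or.inr hyc)
    rw [hyc] at this
    have := (abs_le.1 this).1
    linarith
  · intro v hv
    split_ifs at hv with h
    · intro y hy
      rw [mem_below] at hy
      exact lev_X.2 (hy.2.trans h.symm)
    · simp at hv
  · intro v hv
    split_ifs at hv with h
    · rw [farhigh, mem_filter] at hv
      rw [← card_pos, card_below b v]
      exact Nat.choose_pos (by omega)
    · simp at hv
  · intro y hy
    by_cases h : t = b
    · rw [if_pos h, if_pos h]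
      apply mul_le_mul_of_nonneg_left _ (by positivity)
      have h2 := load_below (n := n) b (n - hi) (by omega) B (by omega) hB y ((lev_X.1 hy).trans h)
      have h3 : farhigh n hi = univ.filter (fun v : Finset (Fin n) => n - v.card < n - hi) := by
        unfold farhigh
        apply filter_congr
        intro v _
        have := card_le_univ v
        rw [Fintype.card_fin] at this
        omega
      rw [h3]
      exact h2
    · rw [if_neg h, if_neg h]
      exact load_empty y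

end apply

end Pool.Agent.SK
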