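import Pool.Agent.Lib.MP_5fcc10_co.Stats

/-! Tail bounds for the local statistics. -/

set_option linter.unusedSectionVars false

namespace Pool.Agent.SK

open Finset

variable {V κ : Type*} [Fintype V] [DecidableEq V] [Fintype κ] [Nonempty κ]

open Classical in
lemma ind_mean (v : V) (p : κ → Prop) (q : ℕ) (hq : (univ.filter (fun b => p b)).card = q)
    (δ : ℝ) (hδ : δ = q / (Fintype.card κ : ℝ)) :
    E (fun φ : V → κ => (if p (φ v) then (1:ℝ) else 0) - δ) = 0 := by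
  rw [E_sub, E_ind v p q hq, E_const, hδ, sub_self]

open Classical in
lemma ind_var (v : V) (p : κ → Prop) (q : ℕ) (hq : (univ.filter (fun b => p b)).card = q)
    (δ : ℝ) (hδ : δ = q / (Fintype.card κ : ℝ)) :
    E (fun φ : V → κ => ((if p (φ v) then (1:ℝ) else 0) - δ) ^ 2) ≤ δ := by
  have h1 : ∀ φ : V → κ, ((if p (φ v) then (1:ℝ) else 0) - δ) ^ 2
      = (1 - 2 * δ) * (if p (φ v) then (1:ℝ) else 0) + δ ^ 2 := by
    intro φ
    split_ifs <;> ring
  rw [E_congr h1, E_add, E_mul_left, E_ind v p q hq, E_const, ← hδ]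
  nlinarith [sq_nonneg δ]

lemma delta_bounds (q : ℕ) (hq : q ≤ Fintype.card κ) (δ : ℝ)
    (hδ : δ = q / (Fintype.card κ : ℝ)) : 0 ≤ δ ∧ δ ≤ 1 := by
  have hκ : (0:ℝ) < Fintype.card κ := by exact_mod_cast Fintype.card_pos
  constructor
  · rw [hδ]; positivity
  · rw [hδ, div_le_one hκ]
    exact_mod_cast hq

lemma Reg.le {ρ : κ → κ → Prop} {q : ℕ} (h : Reg ρ q) : q ≤ Fintype.card κ := by
  classical
  obtain ⟨a⟩ := (inferInstance : Nonempty κ)
  rw [← h.1 a]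
  exact card_le_univ _

variable (G : BG V) (ρ : κ → κ → Prop) (q : ℕ) (hρ : Reg ρ q) (δ : ℝ)
  (hδ : δ = q / (Fintype.card κ : ℝ))

include hρ hδ in
/-- first statistic: the degree -/
theorem st1_tail (x : V) (hx : x ∈ G.X) (ε : ℝ) (hε0 : 0 ≤ ε) (hε : ε ≤ 1)
    (hΔ : 0 < δ * G.d1) :
    P (fun ψ : V → κ => ε * (δ * G.d1) < |st1 G ρ δ ψ x|)
      ≤ 2 * Real.exp (- (ε ^ 2 * (δ * G.d1) / 4)) := by
  classical
  obtain ⟨hδ0, hδ1⟩ := delta_bounds q hρ.le δ hδ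
  have hxI : x ∉ G.N1 x := fun h => Finset.disjoint_left.1 G.hXY hx (G.h1 x hx h)
  have hmix : ∀ y ∈ G.N1 x, ∀ φ ψ : V → κ, gg ρ (mix (G.N1 x) φ ψ) x y
      = if ρ (ψ x) (φ y) then (1:ℝ) else 0 := by
    intro y hy φ ψ
    unfold gg
    rw [mix_out hxI, mix_in hy]
  have := tail_bound (V := V) (κ := κ) (G.N1 x) (G.N1 x) (fun y => {y})
    (by
      intro b _ c _ hbc
      simp only [disjoint_singleton_left, mem_singleton]
      exact hbc)
    (fun y ψ => gg ρ ψ x y - δ)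
    (by
      intro y hy ψ φ φ' h
      simp only [hmix y hy]
      rw [h y (mem_singleton_self y)])
    1
    (by
      intro y _ ψ
      have a1 := gg_nonneg ρ ψ x y
      have a2 := gg_le_one ρ ψ x y
      rw [abs_le]
      constructor <;> linarith)
    (by
      intro y hy ψ
      simp only [hmix y hy]
      exact ind_mean y (fun b => ρ (ψ x) b) q (hρ.1 (ψ x)) δ hδ)
    (fun _ _ => δ)
    (by
      intro y hy ψ
      simp only [hmix y hy]
      exact ind_var y (fun b => ρ (ψ x) b) q (hρ.1 (ψ x)) δ hδ)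
    (δ * G.d1) hΔ
    (by
      intro ψ
      rw [sum_const, nsmul_eq_mul, G.c1 x hx, mul_comm])
    (ε * (δ * G.d1)) (by positivity)
    (by nlinarith)
  refine this.trans (le_of_eq ?_)
  congr 2
  field_simp

open Classical in
lemma gg_mix_right {I : Finset V} {x y : V} (hx : x ∉ I) (hy : y ∈ I) (φ ψ : V → κ) :
    gg ρ (mix I φ ψ) x y = if ρ (ψ x) (φ y) then (1:ℝ) else 0 := by
  unfold gg
  rw [mix_out hx, mix_in hy]

open Classical in
lemma gg_mix_left {I : Finset V} {x y : V} (hx : x ∈ I) (hy : y ∉ I) (φ ψ : V → κ) :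
    gg ρ (mix I φ ψ) x y = if ρ (φ x) (ψ y) then (1:ℝ) else 0 := by
  unfold gg
  rw [mix_in hx, mix_out hy]

lemma gg_mix_out {I : Finset V} {x y : V} (hx : x ∉ I) (hy : y ∉ I) (φ ψ : V → κ) :
    gg ρ (mix I φ ψ) x y = gg ρ ψ x y := by
  unfold gg
  rw [mix_out hx, mix_out hy]

/-- second neighbourhood -/
def L2 (x : V) : Finset V := (G.N1 x).biUnion (fun y => (G.N2 y).erase x)

lemma mem_L2 {x y x' : V} (hy : y ∈ G.N1 x) (hx' : x' ∈ (G.N2 y).erase x) : x' ∈ L2 G x :=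
  mem_biUnion.2 ⟨y, hy, hx'⟩

lemma x_notMem_L2 (x : V) : x ∉ L2 G x := by
  intro h
  obtain ⟨y, _, h2⟩ := mem_biUnion.1 h
  exact (mem_erase.1 h2).1 rfl

lemma L2_subset (x : V) (hx : x ∈ G.X) : L2 G x ⊆ G.X := by
  intro z hz
  obtain ⟨y, hy, h2⟩ := mem_biUnion.1 hz
  exact G.h2 y (G.h1 x hx hy) (mem_erase.1 h2).2

lemma Y_notMem_L2 (x : V) (hx : x ∈ G.X) {y : V} (hy : y ∈ G.Y) : y ∉ L2 G x := fun h =>
  Finset.disjoint_left.1 G.hXY (L2_subset G x hx h) hy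

lemma deg_mix_L2 (x : V) (hx : x ∈ G.X) (φ ψ : V → κ) :
    deg G ρ (mix (L2 G x) φ ψ) x = deg G ρ ψ x := by
  unfold deg
  refine sum_congr rfl (fun y hy => ?_)
  exact gg_mix_out ρ (x_notMem_L2 G x) (Y_notMem_L2 G x hx (G.h1 x hx hy)) φ ψ

lemma pair_unique (x : V) (hx : x ∈ G.X) {y y' x' : V} (hy : y ∈ G.N1 x) (hy' : y' ∈ G.N1 x)
    (h : x' ∈ (G.N2 y).erase x) (h' : x' ∈ (G.N2 y').erase x) : y = y' := by
  have hyY := G.h1 x hx hy
  have hyY' := G.h1 x hx hy'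
  have hx'X := G.h2 y hyY (mem_erase.1 h).2
  refine G.no4 x hx x' hx'X (fun e => (mem_erase.1 h).1 e.symm) y hy y' hy' ?_ ?_
  · exact (G.sym x' hx'X y hyY).2 (mem_erase.1 h).2
  · exact (G.sym x' hx'X y' hyY').2 (mem_erase.1 h').2

include hρ hδ in
/-- second statistic -/
theorem st2_tail (x : V) (hx : x ∈ G.X) (s : ℝ) (hs0 : 0 ≤ s)
    (hΔ1 : 0 < δ * G.d1) (hΔ2 : 0 < δ * G.d2)
    (hs : s ≤ 4 * ((δ * G.d1) * (δ * G.d2))) :
    P (fun ψ : V → κ => deg G ρ ψ x ≤ 2 * (δ * G.d1) ∧ s < |st2 G ρ δ ψ x|)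
      ≤ 2 * Real.exp (- (s ^ 2 / (8 * ((δ * G.d1) * (δ * G.d2))))) := by
  classical
  obtain ⟨hδ0, hδ1⟩ := delta_bounds q hρ.le δ hδ
  set I := L2 G x with hI
  set B : Finset (Σ _ : V, V) := (G.N1 x).sigma (fun y => (G.N2 y).erase x) with hB
  set ind : (V → κ) → ℝ := fun ψ => if deg G ρ ψ x ≤ 2 * (δ * G.d1) then 1 else 0 with hind
  have ind01 : ∀ ψ, 0 ≤ ind ψ ∧ ind ψ ≤ 1 := by
    intro ψ
    simp only [hind]
    split_ifs <;> norm_num
  have indsq : ∀ ψ, ind ψ ^ 2 = ind ψ := by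
    intro ψ
    simp only [hind]
    split_ifs <;> norm_num
  have indmix : ∀ φ ψ, ind (mix I φ ψ) = ind ψ := by
    intro φ ψ
    simp only [hind]
    rw [deg_mix_L2 G ρ x hx]
  have hxI : x ∉ I := x_notMem_L2 G x
  have hyI : ∀ y ∈ G.N1 x, y ∉ I := fun y hy => Y_notMem_L2 G x hx (G.h1 x hx hy)
  have hmix : ∀ p ∈ B, ∀ φ ψ : V → κ,
      ind (mix I φ ψ) * gg ρ (mix I φ ψ) x p.1 * (gg ρ (mix I φ ψ) p.2 p.1 - δ)
      = (ind ψ * gg ρ ψ x p.1) * ((if ρ (φ p.2) (ψ p.1) then (1:ℝ) else 0) - δ) := by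
    intro p hp φ ψ
    have hp' := mem_sigma.1 hp
    rw [indmix, gg_mix_out ρ hxI (hyI _ hp'.1),
      gg_mix_left ρ (mem_L2 G hp'.1 hp'.2) (hyI _ hp'.1)]
  have hV : ∀ ψ : V → κ, ∑ p ∈ B, ind ψ * gg ρ ψ x p.1 * δ ≤ 2 * ((δ * G.d1) * (δ * G.d2)) := by
    intro ψ
    rw [hB, sum_sigma]
    simp only [sum_const, nsmul_eq_mul]
    have h1 : ∀ y ∈ G.N1 x, (((G.N2 y).erase x).card : ℝ) * (ind ψ * gg ρ ψ x y * δ)
        ≤ (G.d2 : ℝ) * (ind ψ * gg ρ ψ x y * δ) := by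
      intro y hy
      have hc : (((G.N2 y).erase x).card : ℝ) ≤ G.d2 := by
        have : ((G.N2 y).erase x).card ≤ G.d2 := by
          rw [← G.c2 y (G.h1 x hx hy)]
          exact card_le_card (erase_subset _ _)
        exact_mod_cast this
      have := gg_nonneg ρ ψ x y
      have := (ind01 ψ).1
      gcongr
    refine (sum_le_sum h1).trans ?_
    have h2 : ∑ y ∈ G.N1 x, (G.d2 : ℝ) * (ind ψ * gg ρ ψ x y * δ)
        = (δ * G.d2) * (ind ψ * deg G ρ ψ x) := by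
      unfold deg
      rw [mul_sum, mul_sum]
      refine sum_congr rfl (fun y _ => ?_)
      ring
    rw [h2]
    have h3 : ind ψ * deg G ρ ψ x ≤ 2 * (δ * G.d1) := by
      simp only [hind]
      split_ifs with h
      · linarith
      · linarith
    nlinarith
  have htail := tail_bound (V := V) (κ := κ) I B (fun p => {p.2})
    (by
      intro p hp p' hp' hne
      simp only [disjoint_singleton_left, mem_singleton]
      intro heq
      apply hne
      have a := mem_sigma.1 hp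
      have b := mem_sigma.1 hp'
      rw [heq] at a
      have e1 := pair_unique G x hx a.1 b.1 a.2 b.2
      exact Sigma.ext e1 (heq_of_eq heq))
    (fun p ψ => ind ψ * gg ρ ψ x p.1 * (gg ρ ψ p.2 p.1 - δ))
    (by
      intro p hp ψ φ φ' h
      simp only [hmix p hp]
      rw [h p.2 (mem_singleton_self _)])
    1
    (by
      intro p _ ψ
      have a1 := gg_nonneg ρ ψ p.2 p.1
      have a2 := gg_le_one ρ ψ p.2 p.1
      have a3 := gg_nonneg ρ ψ x p.1
      have a4 := gg_le_one ρ ψ x p.1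
      obtain ⟨a5, a6⟩ := ind01 ψ
      rw [abs_mul, abs_mul, abs_of_nonneg a5, abs_of_nonneg a3]
      have a7 : |gg ρ ψ p.2 p.1 - δ| ≤ 1 := by rw [abs_le]; constructor <;> linarith
      have a8 : ind ψ * gg ρ ψ x p.1 ≤ 1 := mul_le_one₀ a6 a3 a4
      exact mul_le_one₀ a8 (abs_nonneg _) a7)
    (by
      intro p hp ψ
      simp only [hmix p hp]
      rw [E_mul_left, ind_mean p.2 (fun a => ρ a (ψ p.1)) q (hρ.2 (ψ p.1)) δ hδ, mul_zero])
    (fun p ψ => ind ψ * gg ρ ψ x p.1 * δ)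
    (by
      intro p hp ψ
      simp only [hmix p hp, mul_pow]
      rw [E_mul_left]
      rw [indsq, gg_sq]
      refine mul_le_mul_of_nonneg_left ?_ (mul_nonneg (ind01 ψ).1 (gg_nonneg ρ ψ x p.1))
      exact ind_var p.2 (fun a => ρ a (ψ p.1)) q (hρ.2 (ψ p.1)) δ hδ)
    (2 * ((δ * G.d1) * (δ * G.d2))) (by positivity) hV s hs0 (by linarith)
  have hsum : ∀ ψ : V → κ, ∑ p ∈ B, ind ψ * gg ρ ψ x p.1 * (gg ρ ψ p.2 p.1 - δ)
      = ind ψ * st2 G ρ δ ψ x := by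
    intro ψ
    rw [hB, sum_sigma]
    unfold st2
    rw [mul_sum]
    refine sum_congr rfl (fun y _ => ?_)
    rw [mul_sum, mul_sum]
    refine sum_congr rfl (fun x' _ => ?_)
    ring
  refine (P_mono (fun ψ hψ => ?_)).trans (htail.trans (le_of_eq ?_))
  · rw [hsum]
    have : ind ψ = 1 := by simp only [hind]; exact if_pos hψ.1
    rw [this, one_mul]
    exact hψ.2
  · congr 2
    ring

end Pool.Agent.SK
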