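import Pool.Agent.Lib.MP_5fcc10_co.GosI
import Pool.Agent.Lib.MP_5fcc10_co.Stats2
import Pool.Agent.Lib.MP_5fcc10_co.LLL

/-! Labels modulo a prime, and the even case with explicit parameters. -/

set_option linter.unusedSectionVars false

namespace Pool.Agent.SK

open Finset
open scoped symmDiff

/-- normalisation of a pair of levels -/
noncomputable def Dn (n t : ℕ) (δ : ℝ) (c : ℕ) : ℝ :=
  if c = t then δ * ((n - t : ℕ) : ℝ) else δ * ((t + 1 : ℕ) : ℝ)

lemma Dn_low (n t : ℕ) (δ : ℝ) : Dn n t δ t = δ * ((n - t : ℕ) : ℝ) := if_pos rfl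

lemma Dn_high (n t : ℕ) (δ : ℝ) : Dn n t δ (t + 1) = δ * ((t + 1 : ℕ) : ℝ) :=
  if_neg (by omega)

lemma rel_reg {κ : Type} [AddCommGroup κ] [Fintype κ] (a : κ) : Reg (rel ({a} : Set κ)) 1 := by
  classical
  constructor
  · intro x
    rw [card_eq_one]
    refine ⟨a + x, ?_⟩
    ext b
    rw [mem_filter, mem_singleton]
    unfold rel
    rw [Set.mem_singleton_iff, sub_eq_iff_eq_add]
    exact ⟨fun h => h.2, fun h => ⟨mem_univ _, h⟩⟩
  · intro y
    rw [card_eq_one]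
    refine ⟨y - a, ?_⟩
    ext b
    rw [mem_filter, mem_singleton]
    unfold rel
    rw [Set.mem_singleton_iff]
    constructor
    · rintro ⟨_, h⟩; rw [← h]; abel
    · intro h; exact ⟨mem_univ _, by rw [h]; abel⟩

lemma dg_low {n : ℕ} {κ : Type*} [AddCommGroup κ] {t : ℕ} {A : Set κ}
    (ψ : Finset (Fin n) → κ) {x : Finset (Fin n)} (hx : x.card = t) :
    dg t A ψ x = ∑ y ∈ up x, gg (rel A) ψ x y := by
  unfold dg
  rw [← sum_nb_up hx (fun y => gg (rel A) ψ x y)]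
  exact sum_congr rfl (fun e _ => opn_low hx ψ e)

lemma dg_high {n : ℕ} {κ : Type*} [AddCommGroup κ] {t : ℕ} {A : Set κ}
    (ψ : Finset (Fin n) → κ) {y : Finset (Fin n)} (hy : y.card = t + 1) :
    dg t A ψ y = ∑ x ∈ dn y, gg (rel A) ψ x y := by
  unfold dg
  rw [← sum_nb_dn hy (fun x => gg (rel A) ψ x y)]
  exact sum_congr rfl (fun e _ => opn_high hy ψ e)

lemma env_of {g : ℕ} {β : ℝ} {n t : ℕ} {κ : Type} [AddCommGroup κ] [Fintype κ] (a : κ) (δ : ℝ)
    (hδ : δ = 1 / (Fintype.card κ : ℝ)) (hβ : 4 ≤ β) (htn : t < n) (hn : (n:ℝ) + 1 ≤ β ^ g)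
    (hn4 : β ^ 4 ≤ n) (h1 : β ^ 4 ≤ δ * ((n - t : ℕ) : ℝ)) (h2 : β ^ 4 ≤ δ * ((t + 1 : ℕ) : ℝ))
    (h3 : δ * ((n - t : ℕ) : ℝ) ≤ 4 * β ^ 4) (h4 : δ * ((t + 1 : ℕ) : ℝ) ≤ 4 * β ^ 4) :
    Env g β n t κ ({a} : Set κ) (Dn n t δ) := by
  have hβp : 0 < β := by linarith
  have hβ4 : 0 < β ^ 4 := by positivity
  refine ⟨by linarith, by omega, hn, hn4, ?_, ?_, ?_⟩
  · intro c; unfold Dn; split_ifs <;> assumption
  · intro c; unfold Dn; split_ifs <;> assumption
  · intro v hv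
    have hδ' : δ = ((1:ℕ):ℝ) / (Fintype.card κ : ℝ) := by rw [hδ]; norm_num
    have hexp : ∀ X : ℝ, β ^ 4 ≤ X → 2 * Real.exp (-((1/β) ^ 2 * X / 4)) ≤ 2 * Real.exp (-β) := by
      intro X hX
      apply mul_le_mul_of_nonneg_left _ (by norm_num)
      apply Real.exp_le_exp.2
      apply neg_le_neg
      rw [le_div_iff₀ (by norm_num), div_pow, one_pow, one_div, inv_mul_eq_div,
        le_div_iff₀ (by positivity)]
      refine le_trans ?_ hX
      have : β * 4 * β ^ 2 = 4 * β ^ 3 := by ring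
      rw [this]
      have : β ^ 4 = β * β ^ 3 := by ring
      rw [this]
      exact mul_le_mul_of_nonneg_right hβ (by positivity)
    rcases hv with hv | hv
    · have hpos : 0 < δ * ((lev n t).d1 : ℝ) := lt_of_lt_of_le hβ4 h1
      have htail := st1_tail (V := Finset (Fin n)) (κ := κ) (lev n t) (rel ({a} : Set κ)) 1
        (rel_reg a) δ hδ' v (lev_X.2 hv) (1/β) (by positivity) (by
          rw [div_le_one hβp]; linarith) hpos
      refine le_trans (P_mono (fun ψ hψ => ?_)) (htail.trans (hexp _ h1))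
      rw [hv, Dn_low] at hψ
      have hd : (lev n t).d1 = n - t := rfl
      rw [hd]
      rw [hd] at hpos
      have e1 : st1 (lev n t) (rel ({a} : Set κ)) δ ψ v = dg t ({a} : Set κ) ψ v
          - δ * ((n - t : ℕ) : ℝ) := by
        unfold st1
        rw [sum_sub_distrib, sum_const, (lev n t).c1 v (lev_X.2 hv), nsmul_eq_mul, dg_low ψ hv]
        have : (lev n t).d1 = n - t := rfl
        rw [this]
        change ∑ y ∈ up v, _ - _ = _
        ring
      rw [e1]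
      have e2 : dg t ({a} : Set κ) ψ v / (δ * ((n - t : ℕ) : ℝ)) - 1
          = (dg t ({a} : Set κ) ψ v - δ * ((n - t : ℕ) : ℝ)) / (δ * ((n - t : ℕ) : ℝ)) := by
        rw [sub_div, div_self hpos.ne']
      rw [e2, abs_div, abs_of_pos hpos, lt_div_iff₀ hpos] at hψ
      exact hψ
    · have hpos : 0 < δ * ((lev n t).swap.d1 : ℝ) := lt_of_lt_of_le hβ4 h2
      have htail := st1_tail (V := Finset (Fin n)) (κ := κ) (lev n t).swap
        (fun x y => rel ({a} : Set κ) y x) 1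
        ⟨(rel_reg a).2, (rel_reg a).1⟩ δ hδ' v (lev_Y.2 hv) (1/β) (by positivity) (by
          rw [div_le_one hβp]; linarith) hpos
      refine le_trans (P_mono (fun ψ hψ => ?_)) (htail.trans (hexp _ h2))
      rw [hv, Dn_high] at hψ
      have hd : (lev n t).swap.d1 = t + 1 := rfl
      rw [hd]
      rw [hd] at hpos
      have e1 : st1 (lev n t).swap (fun x y => rel ({a} : Set κ) y x) δ ψ v
          = dg t ({a} : Set κ) ψ v - δ * ((t + 1 : ℕ) : ℝ) := by
        unfold st1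
        rw [sum_sub_distrib, sum_const, (lev n t).swap.c1 v (lev_Y.2 hv), nsmul_eq_mul,
          dg_high ψ hv]
        have : (lev n t).swap.d1 = t + 1 := rfl
        rw [this]
        change ∑ y ∈ dn v, gg (rel ({a} : Set κ)) ψ y v - _ = _
        ring
      rw [e1]
      have e2 : dg t ({a} : Set κ) ψ v / (δ * ((t + 1 : ℕ) : ℝ)) - 1
          = (dg t ({a} : Set κ) ψ v - δ * ((t + 1 : ℕ) : ℝ)) / (δ * ((t + 1 : ℕ) : ℝ)) := by
        rw [sub_div, div_self hpos.ne']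
      rw [e2, abs_div, abs_of_pos hpos, lt_div_iff₀ hpos] at hψ
      exact hψ

lemma comp_rel {κ : Type*} [AddCommGroup κ] (a : κ) {s t : ℕ} {x y : κ}
    (h : Comp (fun _ => rel ({a} : Set κ)) s t x y) : y - x = (t - s : ℕ) • a := by
  induction h with
  | refl s => simp
  | step t x y z h3 h4 ih =>
    have hst := h3.le
    have h5 : z - y = a := h4
    have : t + 1 - s = (t - s) + 1 := by omega
    rw [this, add_smul, one_smul, ← ih, ← h5]
    abel

lemma sep_prime (p m lo hi : ℕ) (hp : p.Prime) (hm : m ≤ p) (hlh : hi - lo < p)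
    (i j : Fin m) (hij : i ≠ j) (s t : ℕ) (hs : lo ≤ s) (hst : s < t) (ht : t ≤ hi)
    (x y : ZMod p) (h1 : Comp (fun _ => rel ({(i.val : ZMod p)} : Set (ZMod p))) s t x y)
    (h2 : Comp (fun _ => rel ({(j.val : ZMod p)} : Set (ZMod p))) s t x y) : False := by
  have : Fact p.Prime := ⟨hp⟩
  have e1 := comp_rel _ h1
  have e2 := comp_rel _ h2
  rw [e1, nsmul_eq_mul, nsmul_eq_mul] at e2
  have h3 : ((t - s : ℕ) : ZMod p) ≠ 0 := by
    intro h
    rw [ZMod.natCast_eq_zero_iff] at h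
    have := Nat.le_of_dvd (by omega) h
    omega
  have h4 := mul_left_cancel₀ h3 e2
  rw [ZMod.natCast_eq_natCast_iff'] at h4
  rw [Nat.mod_eq_of_lt (by have := i.2; omega), Nat.mod_eq_of_lt (by have := j.2; omega)] at h4
  exact hij (Fin.ext h4)

theorem exists_labels_gos {n m lo hi : ℕ} {κ : Type} [AddCommGroup κ] [Fintype κ]
    (A : Fin m → Set κ) {K β : ℝ} {Ms R C : ℕ}
    (Dl : ℕ → ℕ → ℝ) (h : Fin m → ℕ → (Finset (Fin n) → κ) → Finset (Fin n) → ℝ)
    (k : Fin m → ℕ → ℕ → ℝ) (Bd : Fin m → ℕ → Finset (Fin n) → (Finset (Fin n) → κ) → Prop)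
    (ho : ∀ i t, lo ≤ t → t < hi →
      Out Ms K R C β n t κ (A i) (Dl t) (h i t) (k i t) (Bd i t)) (hβ : 1 ≤ β)
    (hL : 4 * (m * (2 * (β ^ C * Real.exp (-β)))) * ((n + 1) ^ (R + R) : ℕ) ≤ 1) :
    ∃ ψ : Finset (Fin n) → κ, ∀ i : Fin m, ∀ t, lo ≤ t → t < hi →
      ∀ v, inL t v → ¬ Bd i t v ψ := by
  classical
  set Av : Finset (Fin n) → (Finset (Fin n) → κ) → Prop := fun v ψ =>
    ∃ i ∈ (univ : Finset (Fin m)), ((lo ≤ v.card ∧ v.card < hi ∧ Bd i v.card v ψ) ∨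
      (lo + 1 ≤ v.card ∧ v.card ≤ hi ∧ Bd i (v.card - 1) v ψ)) with hA
  have hPfalse : P (fun _ : Finset (Fin n) → κ => False) = 0 := by
    unfold P
    simp [E_const]
  set pb := β ^ C * Real.exp (-β) with hpb
  have hpb0 : 0 ≤ pb := by positivity
  have hPA : ∀ v, P (Av v) ≤ m * (2 * pb) := by
    intro v
    have h1 := P_exists (V := Finset (Fin n)) (κ := κ) (univ : Finset (Fin m))
      (fun i ψ => ((lo ≤ v.card ∧ v.card < hi ∧ Bd i v.card v ψ) ∨
      (lo + 1 ≤ v.card ∧ v.card ≤ hi ∧ Bd i (v.card - 1) v ψ)))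
    refine h1.trans ?_
    have h2 : ∀ i : Fin m, P (fun ψ : Finset (Fin n) → κ => ((lo ≤ v.card ∧ v.card < hi ∧
        Bd i v.card v ψ) ∨ (lo + 1 ≤ v.card ∧ v.card ≤ hi ∧ Bd i (v.card - 1) v ψ)))
        ≤ 2 * pb := by
      intro i
      refine (P_or _ _).trans ?_
      have h3 : P (fun ψ : Finset (Fin n) → κ => lo ≤ v.card ∧ v.card < hi ∧
          Bd i v.card v ψ) ≤ pb := by
        by_cases hv : lo ≤ v.card ∧ v.card < hi
        · exact (P_mono (fun ψ h => h.2.2)).trans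
            ((ho i v.card hv.1 hv.2).prob v (Or.inl rfl))
        · refine (P_mono (B := fun _ => False) (fun ψ h => hv ⟨h.1, h.2.1⟩)).trans ?_
          rw [hPfalse]; exact hpb0
      have h4 : P (fun ψ : Finset (Fin n) → κ => lo + 1 ≤ v.card ∧ v.card ≤ hi ∧
          Bd i (v.card - 1) v ψ) ≤ pb := by
        by_cases hv : lo + 1 ≤ v.card ∧ v.card ≤ hi
        · exact (P_mono (fun ψ h => h.2.2)).trans
            ((ho i (v.card - 1) (by omega) (by omega)).prob v (Or.inr (by omega)))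
        · refine (P_mono (B := fun _ => False) (fun ψ h => hv ⟨h.1, h.2.1⟩)).trans ?_
          rw [hPfalse]; exact hpb0
      linarith
    refine (sum_le_sum (fun i _ => h2 i)).trans ?_
    rw [sum_const, card_univ, Fintype.card_fin, nsmul_eq_mul]
  have hdep : ∀ v, Dep (Av v) (ham v R) := by
    intro v φ ψ hφψ
    simp only [hA]
    apply propext
    constructor
    · rintro ⟨i, hi', h | h⟩
      · refine ⟨i, hi', Or.inl ⟨h.1, h.2.1, ?_⟩⟩
        rw [← (ho i v.card h.1 h.2.1).dep v φ ψ hφψ]; exact h.2.2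
      · refine ⟨i, hi', Or.inr ⟨h.1, h.2.1, ?_⟩⟩
        rw [← (ho i (v.card - 1) (by omega) (by omega)).dep v φ ψ hφψ]; exact h.2.2
    · rintro ⟨i, hi', h | h⟩
      · refine ⟨i, hi', Or.inl ⟨h.1, h.2.1, ?_⟩⟩
        rw [(ho i v.card h.1 h.2.1).dep v φ ψ hφψ]; exact h.2.2
      · refine ⟨i, hi', Or.inr ⟨h.1, h.2.1, ?_⟩⟩
        rw [(ho i (v.card - 1) (by omega) (by omega)).dep v φ ψ hφψ]; exact h.2.2
  have hG := lll Av (fun v => ham v R) hdep (m * (2 * pb)) ((n+1)^(R+R))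
    (Nat.one_le_pow _ _ (by omega)) hPA ?_ hL
  · obtain ⟨ψ, hψ⟩ := hG
    refine ⟨ψ, fun i t ht1 ht2 v hv hbad => ?_⟩
    apply hψ v
    refine ⟨i, mem_univ _, ?_⟩
    rcases hv with hv | hv
    · left
      rw [hv]
      exact ⟨ht1, ht2, hbad⟩
    · right
      rw [hv, Nat.add_sub_cancel]
      exact ⟨by omega, by omega, hbad⟩
  · intro v
    refine le_trans (card_le_card ?_) (card_ham v (R+R))
    intro w hw
    rw [mem_filter] at hw
    exact ham_inter v w R hw.2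

end Pool.Agent.SK
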