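import Pool.Agent.Lib.MP_5fcc10_co.GosJ

/-! The even case with explicit parameters, high order smoothing version. -/

set_option linter.unusedSectionVars false

namespace Pool.Agent.SK

open Finset
open scoped symmDiff

theorem even_core_gos (g Ms : ℕ) (K : ℝ) (R C : ℕ) (β0 : ℝ) (hK : 0 ≤ K)
    (hstage : ∀ (β : ℝ) (n t : ℕ) (κ : Type) [AddCommGroup κ]
      [Fintype κ] (A : Set κ) (Dl : ℕ → ℝ), β0 ≤ β → Env g β n t κ A Dl →
      ∃ h k Bd, Out Ms K R C β n t κ A Dl h k Bd)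
    (k m J p M : ℕ) (β : ℝ) (hp : p.Prime) (hm : m ≤ p) (hJp : 2 * J < p) (hJ1 : 1 ≤ J)
    (hJk : 2 * J + 2 ≤ k) (hββ : β0 ≤ β) (hβ4 : 4 ≤ β) (hβK : K / β ≤ 1 / 8)
    (hβk : β ^ 4 = (k:ℝ) / (2 * p)) (hβg : 2 * (k:ℝ) + 1 ≤ β ^ g)
    (hprec : 8 * (K / β ^ (Ms + 1)) ≤ 1 / (4 * k))
    (hL : 4 * (m * (2 * (β ^ C * Real.exp (-β)))) * ((2 * k + 1) ^ (R + R) : ℕ) ≤ 1)
    (hM : m * (2 * k + 1) < M)
    (hF : M * (k * Real.exp (-((J:ℝ) ^ 2 / ((2 * k : ℕ) : ℝ)))) ≤ 1 / (4 * k)) :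
    ∃ c : Fin m → Finset (Fin (2 * k)) → Finset (Fin (2 * k)), (∀ i x, (c i x).card = k) ∧
      (∀ i x y, c i x = c i y → x ⊆ y ∨ y ⊆ x) ∧
      (∀ i j, i ≠ j → ∀ x y, x ≠ y → c i x = c i y → c j x ≠ c j y) := by
  have hpf : Fact p.Prime := ⟨hp⟩
  have hppos : 0 < p := hp.pos
  have hpr : (0:ℝ) < p := by exact_mod_cast hppos
  have hkr : (4:ℝ) ≤ k := by exact_mod_cast (by omega : 4 ≤ k)
  have hβ1 : 1 ≤ β := by linarith
  set δ : ℝ := 1 / (p:ℝ) with hδ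
  have hδ0 : 0 < δ := by positivity
  have hδk : β ^ 4 = δ * (k / 2) := by rw [hβk, hδ]; field_simp
  have hcard : δ = 1 / (Fintype.card (ZMod p) : ℝ) := by rw [ZMod.card]
  -- degrees in the band
  have hlow : ∀ d : ℕ, k ≤ 2 * d → β ^ 4 ≤ δ * (d:ℝ) := by
    intro d hd
    rw [hδk]
    apply mul_le_mul_of_nonneg_left _ hδ0.le
    have : (k:ℝ) ≤ 2 * d := by exact_mod_cast hd
    linarith
  have hhigh : ∀ d : ℕ, d ≤ 2 * k → δ * (d:ℝ) ≤ 4 * β ^ 4 := by
    intro d hd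
    rw [hδk]
    have : (d:ℝ) ≤ 2 * k := by exact_mod_cast hd
    calc δ * (d:ℝ) ≤ δ * (2 * k) := mul_le_mul_of_nonneg_left this hδ0.le
      _ = 4 * (δ * (k / 2)) := by ring
  have hβn : β ^ 4 ≤ ((2 * k : ℕ) : ℝ) := by
    rw [hβk]
    push_cast
    rw [div_le_iff₀ (by positivity)]
    have : (1:ℝ) ≤ p := by exact_mod_cast hppos
    nlinarith
  have henv : ∀ (i : Fin m) (t : ℕ), k - J ≤ t → t < k + J →
      Env g β (2 * k) t (ZMod p) ({(i.val : ZMod p)} : Set (ZMod p)) (Dn (2 * k) t δ) := by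
    intro i t h1 h2
    refine env_of _ δ hcard hβ4 (by omega) (by push_cast; exact hβg) hβn ?_ ?_ ?_ ?_
    · exact hlow _ (by omega)
    · exact hlow _ (by omega)
    · exact hhigh _ (by omega)
    · exact hhigh _ (by omega)
  have hex : ∀ (i : Fin m) (t : ℕ), ∃ (h : (Finset (Fin (2 * k)) → ZMod p) → Finset (Fin (2 * k)) → ℝ)
      (kk : ℕ → ℝ) (Bd : Finset (Fin (2 * k)) → (Finset (Fin (2 * k)) → ZMod p) → Prop),
      k - J ≤ t → t < k + J →
      Out Ms K R C β (2 * k) t (ZMod p) ({(i.val : ZMod p)} : Set (ZMod p)) (Dn (2 * k) t δ) h kk Bd := by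
    intro i t
    by_cases hb : k - J ≤ t ∧ t < k + J
    · obtain ⟨h, kk, Bd, ho⟩ := hstage β (2 * k) t (ZMod p) _ _ hββ (henv i t hb.1 hb.2)
      exact ⟨h, kk, Bd, fun _ _ => ho⟩
    · exact ⟨fun _ _ => 0, fun _ => 0, fun _ _ => False, fun h1 h2 => absurd ⟨h1, h2⟩ hb⟩
  choose h kk Bd ho using hex
  obtain ⟨ψ, hψ⟩ := exists_labels_gos (n := 2 * k) (m := m) (lo := k - J) (hi := k + J)
    (fun i : Fin m => ({(i.val : ZMod p)} : Set (ZMod p))) (fun t => Dn (2 * k) t δ) h kk Bd ho hβ1 hL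
  set B : ℝ := Real.exp (-((J:ℝ) ^ 2 / ((2 * k : ℕ) : ℝ))) with hBdef
  have hB : ∀ s < k - J, ((2 * k).choose s : ℝ) ≤ B * (2 * k).choose k := by
    intro s hs
    exact choose_far (2 * k) k J le_rfl s (by omega)
  have hBpos : 0 < B := Real.exp_pos _
  have hload : (M:ℝ) * (((k - J : ℕ) : ℝ) * B) ≤ 1 / (4 * k) := by
    refine le_trans ?_ hF
    apply mul_le_mul_of_nonneg_left _ (by positivity)
    apply mul_le_mul_of_nonneg_right _ hBpos.le
    exact_mod_cast Nat.sub_le k J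
  set η := K / β ^ (Ms + 1) with hη
  have hη0 : 0 ≤ η := by positivity
  -- ratio bound
  have hratio : ∀ j : ℕ, 1 ≤ j → j ≤ J → ∀ load : ℝ, load ≤ 1 / (4 * k) →
      (1 + 8 * η) * (((k:ℝ) - j + 1) / ((k:ℝ) + j)) ≤ 1 - load := by
    intro j hj1 hjJ load h2
    have hj1' : (1:ℝ) ≤ j := by exact_mod_cast hj1
    have hjk : (j:ℝ) ≤ k := by exact_mod_cast (by omega : j ≤ k)
    have hpos : 0 < (k:ℝ) + j := by linarith
    have e1 : ((k:ℝ) - j + 1) / ((k:ℝ) + j) = 1 - 2 * ((2 * (j : ℝ) - 1) / (2 * ((k : ℝ) + j))) := by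
      field_simp
      ring
    set r := (2 * (j : ℝ) - 1) / (2 * ((k : ℝ) + j)) with hr
    have hr1 : 1 / (4 * (k:ℝ)) ≤ r := by
      rw [hr, div_le_div_iff₀ (by linarith) (by linarith)]
      nlinarith
    rw [e1]
    have h3 : 0 ≤ 1 / (4 * (k:ℝ)) := by positivity
    nlinarith
  obtain ⟨D⟩ := stepdata_of_ok (n := 2 * k) (m := m) (a := k) (b := k) (lo := k - J) (hi := k + J)
    (M := M) (fun i _ => rel ({(i.val : ZMod p)} : Set (ZMod p))) ψ le_rfl (by omega) (by omega)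
    (by
      intro i t h1 h2
      have h1' : t < k + J := by omega
      refine low_step_gos (ho i t h1 h1') ψ (hψ i t h1 h1') δ hδ0 (Dn_low _ _ _) (Dn_high _ _ _)
        hK hβ1 hβK (by omega) (by omega) h2 B hB ?_
      have e5 : ((t + 1 : ℕ) : ℝ) = (k:ℝ) - ((k - t : ℕ) : ℝ) + 1 := by
        rw [Nat.cast_sub h2.le]; push_cast; ring
      have e6 : ((2 * k - t : ℕ) : ℝ) = (k:ℝ) + ((k - t : ℕ) : ℝ) := by
        rw [Nat.cast_sub h2.le, Nat.cast_sub (by omega)]; push_cast; ring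
      rw [e5, e6]
      apply hratio (k - t) (by omega) (by omega)
      split_ifs with h
      · exact hload
      · positivity)
    (by
      intro i t h1 h2
      have h1' : k - J ≤ t := by omega
      have hsub : 2 * k - (k + J) = k - J := by omega
      refine high_step_gos (ho i t h1' h2) ψ (hψ i t h1' h2) δ hδ0 (Dn_low _ _ _) (Dn_high _ _ _)
        hK hβ1 hβK (by omega) (by omega) h2 B (by rw [hsub]; exact hB) ?_
      have e5 : ((t + 1 : ℕ) : ℝ) = (k:ℝ) + ((t + 1 - k : ℕ) : ℝ) := by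
        rw [Nat.cast_sub (by omega)]; push_cast; ring
      have e6 : ((2 * k - t : ℕ) : ℝ) = (k:ℝ) - ((t + 1 - k : ℕ) : ℝ) + 1 := by
        rw [Nat.cast_sub (by omega), Nat.cast_sub (by omega)]; push_cast; ring
      rw [e5, e6, hsub]
      apply hratio (t + 1 - k) (by omega) (by omega)
      split_ifs with h
      · exact hload
      · positivity)
  refine assembly D le_rfl (by omega) (by omega) ?_ hM
  intro i j hij s t hs hst ht x y h1 h2
  exact sep_prime p m (k - J) (k + J) hp hm (by omega) i j hij s t hs hst ht x y h1 h2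

end Pool.Agent.SK
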