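import Pool.Agent.Lib.MP_5fcc10_co.GosK
import Pool.Agent.Lib.MP_5fcc10_co.Core3

/-! Asymptotic choice of the parameters, high order smoothing version. -/

set_option linter.unusedSectionVars false

namespace Pool.Agent.SK

open Finset Filter Asymptotics

lemma ax_sq {l : ℝ} (h : 1 ≤ l) : l ≤ l ^ 2 := by nlinarith

lemma ax_one {a l : ℝ} (h1 : 1 ≤ a) (h2 : 1 ≤ l) : 1 ≤ a * l := by nlinarith

lemma ax_kl {k x l : ℝ} (hx : x = 2 * k + 1) (h0 : 0 ≤ k) (h : l ≤ l ^ 2) :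
    8 * k * l ≤ 4 * x * l ^ 2 := by
  subst hx
  nlinarith [mul_nonneg h0 (sub_nonneg.2 h), sq_nonneg l]

lemma ax_256 {a : ℝ} (h : 16 ≤ a) : 256 ≤ a * a := by nlinarith

lemma ax_prec {K k x : ℝ} (hK : 0 ≤ K) (h3 : 4 * k ≤ 2 * x) (hxK : 16 * K ≤ x) (hx : 0 ≤ x) :
    8 * K * (4 * k) ≤ 1 * x ^ 2 := by
  have h4 : 8 * K * (4 * k) ≤ 8 * K * (2 * x) := mul_le_mul_of_nonneg_left h3 (by positivity)
  have h5 : 16 * K * x ≤ x * x := mul_le_mul_of_nonneg_right hxK hx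
  nlinarith

lemma ax_M {m x : ℝ} (h1 : m * 256 ≤ x) (h0 : 0 ≤ m) (hx : 201 ≤ x) : m * x + 1 ≤ x ^ 2 := by
  nlinarith

theorem even_asymp_gos (c : ℝ) (hc : c < 1) : ∃ N : ℕ, ∀ k : ℕ, N ≤ k → ∀ m : ℕ,
    (m : ℝ) ≤ (2 * (k:ℝ) + 1) ^ c →
    ∃ col : Fin m → Finset (Fin (2 * k)) → Finset (Fin (2 * k)), (∀ i x, (col i x).card = k) ∧
      (∀ i x y, col i x = col i y → x ⊆ y ∨ y ⊆ x) ∧
      (∀ i j, i ≠ j → ∀ x y, x ≠ y → col i x = col i y → col j x ≠ col j y) := by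
  set c' : ℝ := max c (3/4) with hc'
  have hc'1 : c' < 1 := max_lt hc (by norm_num)
  have hc'2 : 3 / 4 ≤ c' := le_max_right _ _
  have hcc' : c ≤ c' := le_max_left _ _
  set s : ℝ := 1 - c' with hs
  have hs0 : 0 < s := by linarith
  set g' : ℕ := ⌈2 / s⌉₊ with hg'
  have hg'1 : 2 / s ≤ g' := Nat.le_ceil _
  have hg'0 : 0 < g' := Nat.ceil_pos.2 (by positivity)
  set g : ℕ := 4 * g' with hg
  obtain ⟨K, R, C, β0, hK, hstage⟩ := stage g (2 * g - 1)
  obtain ⟨β1, hβ1⟩ := exp_dominates (g + C + g * (R + R))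
  set Bc : ℝ := max (max β0 β1) (max 4 (8 * K)) with hBc
  have hBc4 : 4 ≤ Bc := (le_max_left _ _).trans (le_max_right _ _)
  -- eventual facts
  have hpow : Tendsto (fun k : ℕ => (2 * (k:ℝ) + 1) ^ (s / 2)) atTop atTop :=
    (tendsto_rpow_atTop (by positivity)).comp tendsto_x
  have ev1 := hpow.eventually_ge_atTop (max 16 (Bc ^ 4))
  have ev2 := log_small (1/4) 6 (by norm_num) (by norm_num)
  have ev3 := tendsto_x.eventually_ge_atTop (max 201 (16 * K))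
  obtain ⟨N, hN⟩ := eventually_atTop.1 (ev1.and (ev2.and ev3))
  refine ⟨N, fun k hk m hm => ?_⟩
  obtain ⟨e1, e2, e3⟩ := hN k hk
  set x : ℝ := 2 * (k:ℝ) + 1 with hx
  have hx201 : 201 ≤ x := (le_max_left _ _).trans e3
  have hxK : 16 * K ≤ x := (le_max_right _ _).trans e3
  have hx0 : 0 < x := by linarith
  have hx1 : 1 ≤ x := by linarith
  have hkr : (100:ℝ) ≤ k := by linarith
  have hk100 : 100 ≤ k := by exact_mod_cast hkr
  have h16 : 16 ≤ x ^ (s/2) := (le_max_left _ _).trans e1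
  have hB4 : Bc ^ 4 ≤ x ^ (s/2) := (le_max_right _ _).trans e1
  set l := Real.log x with hl
  have hl1 : 1 ≤ l := by
    rw [hl, Real.le_log_iff_exp_le (by linarith)]
    have := Real.exp_one_lt_d9
    linarith
  have hl7 : 6 * l ≤ x ^ (1/4 : ℝ) := by
    refine le_trans ?_ e2
    have : l ≤ l ^ 7 := by
      calc l = l ^ 1 := (pow_one l).symm
        _ ≤ l ^ 7 := pow_le_pow_right₀ hl1 (by norm_num)
    linarith
  have hxh : 1 ≤ x ^ (1/2 : ℝ) := Real.one_le_rpow hx1 (by norm_num)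
  have hsq : x ^ (1/2 : ℝ) * x ^ (1/2:ℝ) = x := by
    rw [← Real.rpow_add hx0]; norm_num
  have hq : x ^ (1/2 : ℝ) * x ^ (1/4:ℝ) = x ^ (3/4:ℝ) := by
    rw [← Real.rpow_add hx0]; norm_num
  have hq2 : x ^ (3/4 : ℝ) * x ^ (1/4:ℝ) = x := by
    rw [← Real.rpow_add hx0]; norm_num
  set J := ⌈Real.sqrt (8 * k * l)⌉₊ with hJ
  have hsqrt0 : 0 < Real.sqrt (8 * k * l) := Real.sqrt_pos.2 (by positivity)
  have hJlow : Real.sqrt (8 * k * l) ≤ J := Nat.le_ceil _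
  have hJ1 : 1 ≤ J := Nat.ceil_pos.2 hsqrt0
  have hJup : 2 * (J:ℝ) ≤ x ^ (3/4 : ℝ) := by
    have h1 : (J:ℝ) < Real.sqrt (8 * k * l) + 1 := Nat.ceil_lt_add_one hsqrt0.le
    have h2 : Real.sqrt (8 * k * l) ≤ 2 * (x ^ (1/2:ℝ) * l) := by
      rw [show 2 * (x ^ (1/2:ℝ) * l) = Real.sqrt ((2 * (x ^ (1/2:ℝ) * l))^2) by
        rw [Real.sqrt_sq (by positivity)]]
      apply Real.sqrt_le_sqrt
      have : (2 * (x ^ (1/2:ℝ) * l))^2 = 4 * (x ^ (1/2:ℝ) * x ^ (1/2:ℝ)) * l ^ 2 := by ring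
      rw [this, hsq, hx]
      exact ax_kl rfl (by linarith) (ax_sq hl1)
    have h3 : 1 ≤ x ^ (1/2:ℝ) * l := ax_one hxh hl1
    have h4 : x ^ (1/2:ℝ) * (6 * l) ≤ x ^ (1/2:ℝ) * x ^ (1/4:ℝ) :=
      mul_le_mul_of_nonneg_left hl7 (by positivity)
    rw [hq] at h4
    linarith
  have hJk : 2 * J + 2 ≤ k := by
    have h1 : x ^ (3/4:ℝ) * 6 ≤ x := by
      have h5 : (6:ℝ) ≤ x ^ (1/4:ℝ) := by linarith
      calc x ^ (3/4:ℝ) * 6 ≤ x ^ (3/4:ℝ) * x ^ (1/4:ℝ) :=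
            mul_le_mul_of_nonneg_left h5 (by positivity)
        _ = x := hq2
    have h2 : (2:ℝ) * J + 2 ≤ k := by
      have : x = 2 * (k:ℝ) + 1 := hx
      linarith
    exact_mod_cast h2
  -- the prime
  have hm0 : max (2 * J) m ≠ 0 := by
    have : 1 ≤ max (2 * J) m := le_trans (by omega) (le_max_left _ _)
    omega
  obtain ⟨p, hp, hp1, hp2⟩ := Nat.exists_prime_lt_and_le_two_mul _ hm0
  have hJp : 2 * J < p := lt_of_le_of_lt (le_max_left _ _) hp1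
  have hmp : m ≤ p := (le_max_right _ _).trans hp1.le
  have hmx : (m:ℝ) ≤ x ^ c' := hm.trans (Real.rpow_le_rpow_of_exponent_le hx1 hcc')
  have hJx : ((2 * J : ℕ) : ℝ) ≤ x ^ c' := by
    push_cast
    exact hJup.trans (Real.rpow_le_rpow_of_exponent_le hx1 hc'2)
  have hpx : (p:ℝ) ≤ 2 * x ^ c' := by
    have h1 : (p:ℝ) ≤ 2 * ((max (2 * J) m : ℕ) : ℝ) := by exact_mod_cast hp2
    have h2 : ((max (2 * J) m : ℕ) : ℝ) ≤ x ^ c' := by
      rcases le_total (2 * J) m with h | h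
      · rw [max_eq_right h]; exact hmx
      · rw [max_eq_left h]; exact hJx
    linarith
  have hp0 : (0:ℝ) < p := by exact_mod_cast hp.pos
  have hxc0 : 0 < x ^ c' := by positivity
  have hxs : x ^ c' * x ^ s = x := by
    rw [← Real.rpow_add hx0, hs]
    have : c' + (1 - c') = 1 := by ring
    rw [this, Real.rpow_one]
  have hxss : x ^ (s/2) * x ^ (s/2) = x ^ s := by
    rw [← Real.rpow_add hx0]; congr 1; ring
  -- beta
  set β : ℝ := ((k:ℝ) / (2 * p)) ^ (1/4 : ℝ) with hβ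
  have hkp0 : 0 < (k:ℝ) / (2 * p) := by positivity
  have hβ4 : β ^ 4 = (k:ℝ) / (2 * p) := by
    rw [hβ, ← Real.rpow_natCast, ← Real.rpow_mul hkp0.le]
    norm_num
  have hβ0 : 0 < β := by positivity
  have hkx : x ≤ 4 * k := by linarith
  have hβx : x ^ (s/2) ≤ β ^ 4 := by
    rw [hβ4, le_div_iff₀ (by positivity)]
    have h1 : x ^ (s/2) * 16 ≤ x ^ s := by
      rw [← hxss]
      exact mul_le_mul_of_nonneg_left h16 (by positivity)
    calc x ^ (s/2) * (2 * p) ≤ x ^ (s/2) * (2 * (2 * x ^ c')) := by gcongr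
      _ = (x ^ (s/2) * 16) * x ^ c' / 4 := by ring
      _ ≤ x ^ s * x ^ c' / 4 := by gcongr
      _ = x / 4 := by rw [mul_comm (x ^ s), hxs]
      _ ≤ k := by linarith
  have hβBc : Bc ≤ β := by
    have h1 : Bc ^ 4 ≤ β ^ 4 := hB4.trans hβx
    exact le_of_pow_le_pow_left₀ (by norm_num) hβ0.le h1
  have hββ0 : β0 ≤ β := ((le_max_left _ _).trans (le_max_left _ _)).trans hβBc
  have hββ1 : β1 ≤ β := ((le_max_right _ _).trans (le_max_left _ _)).trans hβBc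
  have hβ44 : 4 ≤ β := hBc4.trans hβBc
  have hβK : K / β ≤ 1 / 8 := by
    rw [div_le_div_iff₀ hβ0 (by norm_num)]
    have : 8 * K ≤ β := ((le_max_right _ _).trans (le_max_right _ _)).trans hβBc
    linarith
  have hβg : x ≤ β ^ g := by
    rw [hg, pow_mul]
    calc x = x ^ (1:ℝ) := (Real.rpow_one x).symm
      _ ≤ x ^ (s / 2 * g') := by
          apply Real.rpow_le_rpow_of_exponent_le hx1
          have h1 : s / 2 * (2 / s) ≤ s / 2 * g' := mul_le_mul_of_nonneg_left hg'1 (by positivity)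
          have h2 : s / 2 * (2 / s) = 1 := by field_simp
          linarith
      _ = (x ^ (s/2)) ^ g' := by rw [Real.rpow_mul hx0.le, Real.rpow_natCast]
      _ ≤ (β ^ 4) ^ g' := pow_le_pow_left₀ (by positivity) hβx _
  have hg1 : 1 ≤ g := by omega
  have hMs : 2 * g - 1 + 1 = g * 2 := by omega
  have hβg2 : x ^ 2 ≤ β ^ (2 * g - 1 + 1) := by
    rw [hMs, pow_mul]
    exact pow_le_pow_left₀ hx0.le hβg 2
  have hprec : 8 * (K / β ^ (2 * g - 1 + 1)) ≤ 1 / (4 * k) := by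
    have h1 : K / β ^ (2 * g - 1 + 1) ≤ K / x ^ 2 := by
      apply div_le_div_of_nonneg_left hK (by positivity) hβg2
    have h2 : 8 * (K / x ^ 2) ≤ 1 / (4 * k) := by
      rw [← mul_div_assoc, div_le_div_iff₀ (by positivity) (by positivity)]
      exact ax_prec hK (by linarith) hxK hx0.le
    linarith
  have hxN : ((2 * k + 1 : ℕ) : ℝ) = x := by rw [hx]; push_cast; ring
  have hx256 : x ^ c' * 256 ≤ x := by
    have h1 : 256 ≤ x ^ s := by rw [← hxss]; exact ax_256 h16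
    calc x ^ c' * 256 ≤ x ^ c' * x ^ s := mul_le_mul_of_nonneg_left h1 hxc0.le
      _ = x := hxs
  apply even_core_gos g (2 * g - 1) K R C β0 hK hstage k m J p (m * (2 * k + 1) + 1) β hp hmp hJp
    hJ1 hJk hββ0 hβ44 hβK hβ4 hβg hprec
  · -- LLL condition
    have h1 := hβ1 β hββ1
    have h2 : ((((2 * k + 1) ^ (R + R) : ℕ)) : ℝ) = x ^ (R + R) := by
      rw [← hxN]; push_cast; ring
    rw [h2]
    have h3 : x ^ (R + R) ≤ β ^ (g * (R + R)) := by
      rw [pow_mul]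
      exact pow_le_pow_left₀ hx0.le hβg _
    have h4 : (m:ℝ) ≤ β ^ g := by
      have : x ^ c' ≤ x := by linarith
      linarith
    have hexp : 0 < Real.exp (-β) := Real.exp_pos _
    calc 4 * (m * (2 * (β ^ C * Real.exp (-β)))) * x ^ (R + R)
        ≤ 4 * (β ^ g * (2 * (β ^ C * Real.exp (-β)))) * β ^ (g * (R + R)) := by gcongr
      _ = 8 * (β ^ (g + C + g * (R + R)) * Real.exp (-β)) := by
          rw [pow_add, pow_add]; ring
      _ ≤ 1 := h1
  · omega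
  · -- hF
    have e1 : Real.exp (-((J:ℝ) ^ 2 / ((2 * k : ℕ) : ℝ))) ≤ (x ^ 4)⁻¹ := by
      have h1 : (x ^ 4)⁻¹ = Real.exp (-(4 * l)) := by
        rw [Real.exp_neg]
        congr 1
        have : 4 * l = ((4:ℕ):ℝ) * l := by push_cast; ring
        rw [this, Real.exp_nat_mul, hl, Real.exp_log (by linarith)]
      rw [h1]
      apply Real.exp_le_exp.2
      apply neg_le_neg
      rw [le_div_iff₀ (by push_cast; linarith)]
      have h2 : 8 * k * l ≤ (J:ℝ) ^ 2 := by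
        calc 8 * k * l = Real.sqrt (8 * k * l) ^ 2 := (Real.sq_sqrt (by positivity)).symm
          _ ≤ (J:ℝ) ^ 2 := by gcongr
      push_cast
      linarith
    have hM : ((m * (2 * k + 1) + 1 : ℕ) : ℝ) ≤ x ^ 2 := by
      push_cast
      rw [← hx]
      have h1 : (m:ℝ) * 256 ≤ x := by linarith
      exact ax_M h1 (Nat.cast_nonneg m) hx201
    have hkx : (k:ℝ) ≤ x / 2 := by rw [hx]; linarith
    have h5 : ((m * (2 * k + 1) + 1 : ℕ) : ℝ) * (k * Real.exp (-((J:ℝ) ^ 2 / ((2 * k : ℕ) : ℝ))))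
        ≤ x ^ 2 * (x / 2 * (x ^ 4)⁻¹) := by gcongr
    refine h5.trans ?_
    have e2 : x ^ 2 * (x / 2 * (x ^ 4)⁻¹) = 1 / (2 * x) := by
      field_simp
    rw [e2]
    apply one_div_le_one_div_of_le (by positivity)
    linarith

end Pool.Agent.SK
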