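import Pool.Agent.Lib.MP_5fcc10_co.Boolean

/-! From fractional matchings to injections. -/

set_option linter.unusedSectionVars false

namespace Pool.Agent.SK

open Finset

open Classical in
lemma hall_frac {ι β : Type*} [Fintype ι] (N : ι → Finset β) (w : ι → β → ℝ)
    (hw0 : ∀ i, ∀ b ∈ N i, 0 ≤ w i b) (hsum : ∀ i, ∑ b ∈ N i, w i b = 1)
    (Y : Finset β) (hN : ∀ i, N i ⊆ Y)
    (hcol : ∀ b ∈ Y, ∑ i ∈ univ.filter (fun i => b ∈ N i), w i b ≤ 1) :
    ∃ f : ι → β, Function.Injective f ∧ ∀ i, f i ∈ N i := by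
  rw [← Finset.all_card_le_biUnion_card_iff_exists_injective]
  intro s
  have h1 : (s.card : ℝ) = ∑ i ∈ s, ∑ b ∈ N i, w i b := by
    rw [sum_congr rfl (fun i _ => hsum i)]
    simp
  have h2 : ∑ i ∈ s, ∑ b ∈ N i, w i b
      = ∑ b ∈ s.biUnion N, ∑ i ∈ s.filter (fun i => b ∈ N i), w i b := by
    rw [sum_comm']
    intro i b
    rw [mem_filter, mem_biUnion]
    constructor
    · rintro ⟨h1, h2⟩; exact ⟨⟨h1, h2⟩, i, h1, h2⟩
    · rintro ⟨⟨h1, h2⟩, _⟩; exact ⟨h1, h2⟩
  have h3 : ∑ b ∈ s.biUnion N, ∑ i ∈ s.filter (fun i => b ∈ N i), w i b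
      ≤ ∑ b ∈ s.biUnion N, (1:ℝ) := by
    refine sum_le_sum (fun b hb => ?_)
    obtain ⟨i, hi, hbi⟩ := mem_biUnion.1 hb
    refine le_trans ?_ (hcol b (hN i hbi))
    refine sum_le_sum_of_subset_of_nonneg ?_ ?_
    · intro j hj
      rw [mem_filter] at hj ⊢
      exact ⟨mem_univ _, hj.2⟩
    · intro j hj _
      exact hw0 j b (mem_filter.1 hj).2
  have h4 : (s.card : ℝ) ≤ ((s.biUnion N).card : ℝ) := by
    rw [h1, h2]
    refine h3.trans ?_
    simp
  exact_mod_cast h4

open Classical in
theorem step_exists {V : Type*} [Fintype V] [DecidableEq V] (G : BG V) (A w : V → V → ℝ)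
    (hw0 : ∀ x ∈ G.X, ∀ y ∈ G.N1 x, 0 ≤ w x y) (hwA : ∀ x y, A x y = 0 → w x y = 0)
    (hsum : ∀ x ∈ G.X, ∑ y ∈ G.N1 x, w x y = 1) (load : ℝ)
    (hcol : ∀ y ∈ G.Y, ∑ x ∈ G.N2 y, w x y ≤ 1 - load)
    (F : Finset V) (S : V → Finset V) (hS : ∀ v ∈ F, S v ⊆ G.Y)
    (hSne : ∀ v ∈ F, (S v).Nonempty) (M : ℕ)
    (hload : ∀ y ∈ G.Y, (M : ℝ) * ∑ v ∈ F.filter (fun v => y ∈ S v), 1 / ((S v).card : ℝ) ≤ load) :
    ∃ (f : V → V) (g : V → Fin M → V), (∀ x ∈ G.X, f x ∈ G.N1 x ∧ A x (f x) ≠ 0) ∧
      (∀ x ∈ G.X, ∀ x' ∈ G.X, f x = f x' → x = x') ∧ (∀ v ∈ F, ∀ r, g v r ∈ S v) ∧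
      (∀ v ∈ F, ∀ v' ∈ F, ∀ r r', g v r = g v' r' → v = v' ∧ r = r') ∧
      (∀ x ∈ G.X, ∀ v ∈ F, ∀ r, f x ≠ g v r) := by
  let ι := (↥G.X) ⊕ (↥F × Fin M)
  let N : ι → Finset V := Sum.elim (fun x => (G.N1 x.1).filter (fun y => A x.1 y ≠ 0))
    (fun v => S v.1.1)
  let W : ι → V → ℝ := Sum.elim (fun x y => w x.1 y) (fun v _ => 1 / ((S v.1.1).card : ℝ))
  have hH := hall_frac N W ?_ ?_ G.Y ?_ ?_
  · obtain ⟨h, hinj, hmem⟩ := hH
    refine ⟨fun x => if hx : x ∈ G.X then h (Sum.inl ⟨x, hx⟩) else x,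
      fun v r => if hv : v ∈ F then h (Sum.inr (⟨v, hv⟩, r)) else v, ?_, ?_, ?_, ?_, ?_⟩
    · intro x hx
      simp only [hx, dite_true]
      have := hmem (Sum.inl ⟨x, hx⟩)
      simp only [N, Sum.elim_inl, mem_filter] at this
      exact this
    · intro x hx x' hx' he
      simp only [hx, hx', dite_true] at he
      have := hinj he
      have h2 := Sum.inl.inj this
      exact congrArg Subtype.val h2
    · intro v hv r
      simp only [hv, dite_true]
      exact hmem (Sum.inr (⟨v, hv⟩, r))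
    · intro v hv v' hv' r r' he
      simp only [hv, hv', dite_true] at he
      have h2 := Sum.inr.inj (hinj he)
      have h3 := Prod.mk.inj h2
      exact ⟨congrArg Subtype.val h3.1, h3.2⟩
    · intro x hx v hv r he
      simp only [hx, hv, dite_true] at he
      have := hinj he
      exact absurd this (by simp)
  · rintro (x | v) b hb
    · simp only [N, Sum.elim_inl, mem_filter] at hb
      exact hw0 x.1 x.2 b hb.1
    · simp only [W, Sum.elim_inr]
      positivity
  · rintro (x | v)
    · simp only [N, W, Sum.elim_inl]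
      rw [← hsum x.1 x.2]
      refine sum_subset (filter_subset _ _) (fun y hy hy' => ?_)
      apply hwA
      by_contra hcon
      exact hy' (mem_filter.2 ⟨hy, hcon⟩)
    · simp only [N, W, Sum.elim_inr]
      rw [sum_const, nsmul_eq_mul, mul_one_div, div_self]
      have := card_pos.2 (hSne v.1.1 v.1.2)
      exact_mod_cast this.ne'
  · rintro (x | v)
    · simp only [N, Sum.elim_inl]
      exact (filter_subset _ _).trans (G.h1 x.1 x.2)
    · simp only [N, Sum.elim_inr]
      exact hS v.1.1 v.1.2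
  · intro b hb
    have hL := hcol b hb
    have hR := hload b hb
    rw [sum_filter, Fintype.sum_sum_type]
    have h1 : ∑ x : ↥G.X, (if b ∈ N (Sum.inl x) then W (Sum.inl x) b else 0)
        ≤ ∑ x ∈ G.N2 b, w x b := by
      have e1 : ∑ x : ↥G.X, (if b ∈ N (Sum.inl x) then W (Sum.inl x) b else 0)
          = ∑ x ∈ G.X, (if b ∈ (G.N1 x).filter (fun y => A x y ≠ 0) then w x b else 0) := by
        rw [← sum_coe_sort G.X]
        rfl
      rw [e1, ← sum_filter]
      refine sum_le_sum_of_subset_of_nonneg ?_ ?_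
      · intro x hx
        rw [mem_filter, mem_filter] at hx
        exact (G.sym x hx.1 b hb).1 hx.2.1
      · intro x hx _
        have hxX := G.h2 b hb hx
        exact hw0 x hxX b ((G.sym x hxX b hb).2 hx)
    have h2 : ∑ v : ↥F × Fin M, (if b ∈ N (Sum.inr v) then W (Sum.inr v) b else 0)
        = (M : ℝ) * ∑ v ∈ F.filter (fun v => b ∈ S v), 1 / ((S v).card : ℝ) := by
      rw [Fintype.sum_prod_type]
      have e1 : ∀ v : ↥F, ∑ r : Fin M, (if b ∈ N (Sum.inr (v, r)) then W (Sum.inr (v, r)) b else 0)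
          = (M : ℝ) * (if b ∈ S v.1 then 1 / ((S v.1).card : ℝ) else 0) := by
        intro v
        simp only [N, W, Sum.elim_inr]
        rw [sum_const, card_univ, Fintype.card_fin, nsmul_eq_mul]
      rw [sum_congr rfl (fun v _ => e1 v), ← mul_sum, sum_filter, ← sum_coe_sort F]
    have h3 := add_le_add h1 h2.le
    refine le_trans (le_of_eq ?_) (h3.trans (by linarith))
    congr!

section choose

/-- ratio of a lower level to the level `a ≤ n/2` -/
lemma choose_ratio (n a : ℕ) (ha : 2 * a ≤ n) (j : ℕ) (hj : j ≤ a) :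
    (n.choose (a - j) : ℝ) ≤ Real.exp (-((j:ℝ) ^ 2 / n)) * n.choose a := by
  induction j with
  | zero => simp
  | succ j ih =>
    have ih' := ih (by omega)
    have hn : 0 < n := by omega
    have hn' : (0:ℝ) < n := by exact_mod_cast hn
    -- C(n,t) (n-t) = C(n,t+1)(t+1) with t = a-(j+1)
    obtain ⟨t, ht⟩ : ∃ t, a = t + (j + 1) := ⟨a - (j+1), by omega⟩
    have e1 : a - (j + 1) = t := by omega
    have e2 : a - j = t + 1 := by omega
    rw [e2] at ih'
    rw [e1]
    have h1 : n.choose (t + 1) * (t + 1) = n.choose t * (n - t) := Nat.choose_succ_right_eq n t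
    have h2 : (n.choose (t+1) : ℝ) * (t + 1) = n.choose t * ((n:ℝ) - t) := by
      have : ((n - t : ℕ) : ℝ) = (n:ℝ) - t := by
        rw [Nat.cast_sub]; omega
      rw [← this]
      exact_mod_cast h1
    have hnt : (0:ℝ) < (n:ℝ) - t := by
      have : t < n := by omega
      have : (t:ℝ) < n := by exact_mod_cast this
      linarith
    have h3 : (n.choose t : ℝ) = ((t + 1) / ((n:ℝ) - t)) * n.choose (t+1) := by
      field_simp
      linarith
    have h4 : ((t:ℝ) + 1) / ((n:ℝ) - t) ≤ Real.exp (-((2 * (j:ℝ) + 1) / n)) := by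
      have h5 : ((t:ℝ) + 1) / ((n:ℝ) - t) ≤ 1 - (2 * (j:ℝ) + 1) / n := by
        rw [div_le_iff₀ hnt]
        have h6 : (t:ℝ) + 1 = (n:ℝ) - t - ((n:ℝ) - 2 * t - 1) := by ring
        have h7 : (2:ℝ) * t + 2 * j + 2 ≤ n := by
          have : 2 * t + 2 * j + 2 ≤ n := by omega
          exact_mod_cast this
        have h8 : (2 * (j:ℝ) + 1) / n * ((n:ℝ) - t) ≤ 2 * j + 1 := by
          rw [div_mul_eq_mul_div, div_le_iff₀ hn']
          have : (n:ℝ) - t ≤ n := by
            have : (0:ℝ) ≤ t := Nat.cast_nonneg t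
            linarith
          have h9 : (0:ℝ) ≤ 2 * j + 1 := by positivity
          nlinarith
        linarith
      have h6 := Real.add_one_le_exp (-((2 * (j:ℝ) + 1) / n))
      linarith
    rw [h3]
    calc ((t:ℝ) + 1) / ((n:ℝ) - t) * n.choose (t+1)
        ≤ Real.exp (-((2 * (j:ℝ) + 1) / n)) * (Real.exp (-((j:ℝ) ^ 2 / n)) * n.choose a) := by
          apply mul_le_mul h4 ih' (by positivity) (Real.exp_nonneg _)
      _ = Real.exp (-(((j + 1 : ℕ):ℝ) ^ 2 / n)) * n.choose a := by
          rw [← mul_assoc, ← Real.exp_add]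
          congr 2
          push_cast
          ring

/-- sum over far levels -/
lemma choose_far (n a J : ℕ) (ha : 2 * a ≤ n) (s : ℕ) (hs : s + J < a) :
    (n.choose s : ℝ) ≤ Real.exp (-((J:ℝ) ^ 2 / n)) * n.choose a := by
  have h1 := choose_ratio n a ha (a - s) (by omega)
  have e : a - (a - s) = s := by omega
  rw [e] at h1
  refine h1.trans ?_
  apply mul_le_mul_of_nonneg_right _ (by positivity)
  apply Real.exp_le_exp.2
  apply neg_le_neg
  apply div_le_div_of_nonneg_right _ (by positivity)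
  have : J ≤ a - s := by omega
  have : (J:ℝ) ≤ ((a - s : ℕ) : ℝ) := by exact_mod_cast this
  gcongr

end choose

section far

variable {n : ℕ}

/-- level `c` sets above `v` -/
def above (c : ℕ) (v : Finset (Fin n)) : Finset (Finset (Fin n)) :=
  univ.filter (fun y => v ⊆ y ∧ y.card = c)

/-- level `c` sets below `v` -/
def below (c : ℕ) (v : Finset (Fin n)) : Finset (Finset (Fin n)) :=
  univ.filter (fun y => y ⊆ v ∧ y.card = c)

lemma mem_above {c : ℕ} {v y : Finset (Fin n)} : y ∈ above c v ↔ v ⊆ y ∧ y.card = c := by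
  simp [above]

lemma mem_below {c : ℕ} {v y : Finset (Fin n)} : y ∈ below c v ↔ y ⊆ v ∧ y.card = c := by
  simp [below]

lemma card_below (c : ℕ) (v : Finset (Fin n)) : (below c v).card = v.card.choose c := by
  have : below c v = powersetCard c v := by
    ext y; rw [mem_below, mem_powersetCard]
  rw [this, card_powersetCard]

lemma card_above (c : ℕ) (v : Finset (Fin n)) (hc : c ≤ n) :
    (above c v).card = (n - v.card).choose (n - c) := by
  have h : (above c v).card = (powersetCard (n - c) (vᶜ)).card := by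
    refine card_bij' (fun y _ => yᶜ) (fun y _ => yᶜ) ?_ ?_ ?_ ?_
    · intro y hy
      rw [mem_above] at hy
      rw [mem_powersetCard]
      refine ⟨compl_subset_compl.2 hy.1, ?_⟩
      rw [card_compl, Fintype.card_fin, hy.2]
    · intro y hy
      rw [mem_powersetCard] at hy
      rw [mem_above]
      refine ⟨?_, ?_⟩
      · have := compl_subset_compl.2 hy.1
        rwa [compl_compl] at this
      · rw [card_compl, Fintype.card_fin, hy.2]; omega
    · intro y _; exact compl_compl y
    · intro y _; exact compl_compl y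
  rw [h, card_powersetCard, card_compl, Fintype.card_fin]

/-- load of the lower far elements -/
lemma load_above (c s0 : ℕ) (hc : c ≤ n) (B : ℝ)
    (hs0 : s0 ≤ c) (hB : ∀ s < s0, (n.choose s : ℝ) ≤ B * n.choose c)
    (y : Finset (Fin n)) (hy : y.card = c) :
    ∑ v ∈ (univ.filter (fun v : Finset (Fin n) => v.card < s0)).filter (fun v => y ∈ above c v),
      1 / (((above c v).card : ℕ) : ℝ) ≤ s0 * B := by
  have h1 : ∑ v ∈ (univ.filter (fun v : Finset (Fin n) => v.card < s0)).filter
      (fun v => y ∈ above c v), 1 / (((above c v).card : ℕ) : ℝ)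
      = ∑ s ∈ range s0, ∑ v ∈ powersetCard s y, 1 / (((above c v).card : ℕ) : ℝ) := by
    rw [← sum_biUnion]
    · apply sum_congr _ (fun _ _ => rfl)
      ext v
      rw [mem_filter, mem_filter, mem_above, mem_biUnion]
      constructor
      · rintro ⟨⟨_, h1⟩, h2, _⟩
        exact ⟨v.card, mem_range.2 h1, mem_powersetCard.2 ⟨h2, rfl⟩⟩
      · rintro ⟨s, hs, hv⟩
        rw [mem_powersetCard] at hv
        rw [mem_range] at hs
        exact ⟨⟨mem_univ _, by omega⟩, hv.1, hy⟩
    · intro s _ s' _ hne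
      rw [Function.onFun, Finset.disjoint_left]
      intro v hv hv'
      rw [mem_powersetCard] at hv hv'
      exact hne (hv.2.symm.trans hv'.2)
  rw [h1]
  have h2 : ∀ s ∈ range s0, ∑ v ∈ powersetCard s y, 1 / (((above c v).card : ℕ) : ℝ) ≤ B := by
    intro s hs
    rw [mem_range] at hs
    have h3 : ∀ v ∈ powersetCard s y, 1 / (((above c v).card : ℕ) : ℝ)
        = 1 / (((n - s).choose (n - c) : ℕ) : ℝ) := by
      intro v hv
      rw [card_above c v hc, (mem_powersetCard.1 hv).2]
    rw [sum_congr rfl h3, sum_const, card_powersetCard, hy, nsmul_eq_mul]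
    have h4 : n.choose c * c.choose s = n.choose s * (n - s).choose (c - s) :=
      Nat.choose_mul (by omega)
    have h5 : (n - s).choose (c - s) = (n - s).choose (n - c) := by
      rw [← Nat.choose_symm (by omega : c - s ≤ n - s)]
      congr 1
      omega
    rw [h5] at h4
    have h6 : (n.choose c : ℝ) * c.choose s = n.choose s * (n - s).choose (n - c) := by
      exact_mod_cast h4
    have hpos : (0:ℝ) < (n - s).choose (n - c) := by
      have := Nat.choose_pos (by omega : n - c ≤ n - s)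
      exact_mod_cast this
    have hpos2 : (0:ℝ) < n.choose c := by
      have := Nat.choose_pos hc
      exact_mod_cast this
    rw [mul_one_div, div_le_iff₀ hpos]
    have h7 := hB s hs
    have h8 : (n.choose c : ℝ) * c.choose s ≤ n.choose c * (B * (n - s).choose (n - c)) := by
      rw [h6]
      calc (n.choose s : ℝ) * (n - s).choose (n - c)
          ≤ (B * n.choose c) * (n - s).choose (n - c) :=
            mul_le_mul_of_nonneg_right h7 hpos.le
        _ = _ := by ring
    exact le_of_mul_le_mul_left h8 hpos2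
  calc ∑ s ∈ range s0, ∑ v ∈ powersetCard s y, 1 / (((above c v).card : ℕ) : ℝ)
      ≤ ∑ s ∈ range s0, B := sum_le_sum h2
    _ = s0 * B := by rw [sum_const, card_range, nsmul_eq_mul]

/-- load of the upper far elements -/
lemma load_below (c s0 : ℕ) (hc : c ≤ n) (B : ℝ)
    (hs0 : s0 ≤ n - c) (hB : ∀ s < s0, (n.choose s : ℝ) ≤ B * n.choose c)
    (y : Finset (Fin n)) (hy : y.card = c) :
    ∑ v ∈ (univ.filter (fun v : Finset (Fin n) => n - v.card < s0)).filter (fun v => y ∈ below c v),
      1 / (((below c v).card : ℕ) : ℝ) ≤ s0 * B := by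
  have h0 := load_above (n := n) (n - c) s0 (by omega) B hs0
    (by rw [Nat.choose_symm hc]; exact hB) (yᶜ) (by rw [card_compl, Fintype.card_fin, hy])
  refine le_trans (le_of_eq ?_) h0
  have hcard : ∀ v : Finset (Fin n), (vᶜ).card = n - v.card := by
    intro v; rw [card_compl, Fintype.card_fin]
  have hbel : ∀ v : Finset (Fin n), (below c v).card = (above (n - c) (vᶜ)).card := by
    intro v
    refine card_bij' (fun y _ => yᶜ) (fun y _ => yᶜ) ?_ ?_ ?_ ?_
    · intro y hy
      rw [mem_below] at hy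
      rw [mem_above]
      refine ⟨compl_subset_compl.2 hy.1, ?_⟩
      rw [hcard, hy.2]
    · intro y hy
      rw [mem_above] at hy
      rw [mem_below]
      refine ⟨?_, ?_⟩
      · have := compl_subset_compl.2 hy.1
        rwa [compl_compl] at this
      · rw [hcard, hy.2]; omega
    · intro y _; exact compl_compl y
    · intro y _; exact compl_compl y
  refine sum_bij' (fun v _ => vᶜ) (fun v _ => vᶜ) ?_ ?_ ?_ ?_ ?_
  · intro v hv
    rw [mem_filter, mem_filter, mem_below] at hv
    rw [mem_filter, mem_filter, mem_above, hcard, hcard]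
    exact ⟨⟨mem_univ _, hv.1.2⟩, compl_subset_compl.2 hv.2.1, by rw [hy]⟩
  · intro v hv
    rw [mem_filter, mem_filter, mem_above] at hv
    rw [mem_filter, mem_filter, mem_below, hcard]
    refine ⟨⟨mem_univ _, ?_⟩, ?_, hy⟩
    · have h1 : v.card ≤ n := by
        have := card_le_univ v
        rwa [Fintype.card_fin] at this
      have := hv.1.2
      omega
    · have := compl_subset_compl.2 hv.2.1
      rwa [compl_compl] at this
  · intro v _; exact compl_compl v
  · intro v _; exact compl_compl v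
  · intro v _
    rw [hbel]

end far

end Pool.Agent.SK
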