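import Pool.Agent.Lib.MP_5fcc10_co.GosD

/-! Edge isoperimetry of the Johnson graph (a crude form). -/

set_option linter.unusedSectionVars false

namespace Pool.Agent.SK

open Finset
open scoped symmDiff

variable {n : ℕ}

lemma ma_trans (σ π : Equiv.Perm (Fin n)) (v : Finset (Fin n)) :
    ma (σ.trans π) v = ma π (ma σ v) := by
  ext a
  rw [mem_ma', mem_ma', mem_ma']
  rfl

open Classical in
/-- number of permutations moving `w` to `u` -/
noncomputable def cm (w u : Finset (Fin n)) : ℕ :=
  (univ.filter (fun σ : Equiv.Perm (Fin n) => ma σ w = u)).card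

lemma cm_left {w w' u : Finset (Fin n)} (h : w.card = w'.card) : cm w u = cm w' u := by
  classical
  obtain ⟨π, hπ⟩ := exists_ma h
  unfold cm
  refine card_bij' (fun σ _ => π.symm.trans σ) (fun σ _ => π.trans σ) ?_ ?_ ?_ ?_
  · intro σ hσ
    rw [mem_filter] at hσ ⊢
    refine ⟨mem_univ _, ?_⟩
    rw [ma_trans, ← hπ, ← ma_trans π π.symm, Equiv.self_trans_symm]
    have : ma (Equiv.refl (Fin n)) w = w := by ext a; rw [mem_ma']; rfl
    rw [this]; exact hσ.2
  · intro σ hσ
    rw [mem_filter] at hσ ⊢
    exact ⟨mem_univ _, by rw [ma_trans, hπ]; exact hσ.2⟩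
  · intro σ _
    rw [← Equiv.trans_assoc, Equiv.self_trans_symm, Equiv.refl_trans]
  · intro σ _
    rw [← Equiv.trans_assoc, Equiv.symm_trans_self, Equiv.refl_trans]

lemma cm_right {w u u' : Finset (Fin n)} (h : u.card = u'.card) : cm w u = cm w u' := by
  classical
  obtain ⟨π, hπ⟩ := exists_ma h
  unfold cm
  refine card_bij' (fun σ _ => σ.trans π) (fun σ _ => σ.trans π.symm) ?_ ?_ ?_ ?_
  · intro σ hσ
    rw [mem_filter] at hσ ⊢
    exact ⟨mem_univ _, by rw [ma_trans, hσ.2, hπ]⟩
  · intro σ hσ
    rw [mem_filter] at hσ ⊢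
    refine ⟨mem_univ _, ?_⟩
    rw [ma_trans, hσ.2, ← hπ, ← ma_trans, Equiv.self_trans_symm]
    ext a; rw [mem_ma']; rfl
  · intro σ _
    rw [Equiv.trans_assoc, Equiv.self_trans_symm, Equiv.trans_refl]
  · intro σ _
    rw [Equiv.trans_assoc, Equiv.symm_trans_self, Equiv.trans_refl]

lemma cm_pos (u : Finset (Fin n)) : 0 < cm u u := by
  classical
  unfold cm
  rw [card_pos]
  refine ⟨Equiv.refl _, ?_⟩
  rw [mem_filter]
  refine ⟨mem_univ _, ?_⟩
  ext a; rw [mem_ma']; rfl

open Classical in
/-- number of permutations for which the pair is cut by `S` -/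
noncomputable def cutn (S : Finset (Finset (Fin n))) (u v : Finset (Fin n)) : ℕ :=
  (univ.filter (fun σ : Equiv.Perm (Fin n) => ma σ u ∈ S ∧ ma σ v ∉ S)).card

lemma cutn_triangle (S : Finset (Finset (Fin n))) (u w v : Finset (Fin n)) :
    cutn S u v ≤ cutn S u w + cutn S w v := by
  classical
  unfold cutn
  refine le_trans (card_le_card ?_) (card_union_le _ _)
  intro σ hσ
  rw [mem_filter] at hσ
  rw [mem_union, mem_filter, mem_filter]
  by_cases h : ma σ w ∈ S
  · exact Or.inr ⟨mem_univ _, h, hσ.2.2⟩
  · exact Or.inl ⟨mem_univ _, hσ.2.1, h⟩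

lemma cutn_self (S : Finset (Finset (Fin n))) (u : Finset (Fin n)) : cutn S u u = 0 := by
  classical
  unfold cutn
  rw [card_eq_zero]
  apply filter_false_of_mem
  rintro σ _ ⟨h1, h2⟩
  exact h2 h1

/-- cut pairs of the Johnson graph -/
def jcut (k : ℕ) (S : Finset (Finset (Fin n))) : Finset (Finset (Fin n) × Finset (Fin n)) :=
  univ.filter (fun p => p.1 ∈ S ∧ p.2 ∉ S ∧ p.2.card = k ∧ (p.1 ∆ p.2).card = 2)

lemma cutn_adj {k : ℕ} (S : Finset (Finset (Fin n))) (hS : ∀ u ∈ S, u.card = k)
    {u v z : Finset (Fin n)} (hu : u.card = k) (hv : v.card = k) (hz : z.card = k)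
    (huv : (u ∆ v).card = 2) :
    cutn S u v ≤ (jcut k S).card * cm z z := by
  classical
  have h1 : cutn S u v ≤ ∑ p ∈ jcut k S,
      (univ.filter (fun σ : Equiv.Perm (Fin n) => ma σ u = p.1)).card := by
    unfold cutn
    refine le_trans (card_le_card ?_) card_biUnion_le
    intro σ hσ
    rw [mem_filter] at hσ
    rw [mem_biUnion]
    refine ⟨(ma σ u, ma σ v), ?_, ?_⟩
    · rw [jcut, mem_filter]
      refine ⟨mem_univ _, hσ.2.1, hσ.2.2, ?_, ?_⟩
      · rw [card_ma, hv]
      · change ((ma σ u) ∆ (ma σ v)).card = 2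
        rw [← ma_symmDiff, card_ma, huv]
    · rw [mem_filter]; exact ⟨mem_univ _, rfl⟩
  refine h1.trans ?_
  have h2 : ∀ p ∈ jcut k S,
      (univ.filter (fun σ : Equiv.Perm (Fin n) => ma σ u = p.1)).card = cm z z := by
    intro p hp
    rw [jcut, mem_filter] at hp
    have h3 : cm u p.1 = cm z z := by
      rw [cm_left (hu.trans hz.symm), cm_right ((hS _ hp.2.1).trans hz.symm)]
    rw [← h3]
    unfold cm
    congr!
  rw [sum_congr rfl h2, sum_const, smul_eq_mul]

lemma cutn_le {k : ℕ} (S : Finset (Finset (Fin n))) (hS : ∀ u ∈ S, u.card = k)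
    (d : ℕ) : ∀ {u v z : Finset (Fin n)}, u.card = k → v.card = k → z.card = k →
    (u \ v).card = d → cutn S u v ≤ d * ((jcut k S).card * cm z z) := by
  classical
  induction d with
  | zero =>
    intro u v z hu hv hz h
    have h1 : u ⊆ v := by
      rw [card_eq_zero, sdiff_eq_empty_iff_subset] at h
      exact h
    have : u = v := eq_of_subset_of_card_le h1 (by omega)
    rw [this, cutn_self]; omega
  | succ d ih =>
    intro u v z hu hv hz h
    have hne : (u \ v).Nonempty := by rw [← card_pos]; omega
    obtain ⟨a, ha⟩ := hne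
    have hc : (v \ u).card = (u \ v).card := by
      have h1 := card_sdiff_add_card_inter u v
      have h2 := card_sdiff_add_card_inter v u
      rw [inter_comm] at h2
      omega
    have hne2 : (v \ u).Nonempty := by rw [← card_pos]; omega
    obtain ⟨b, hb⟩ := hne2
    rw [mem_sdiff] at ha hb
    have hab : a ≠ b := fun h => hb.2 (h ▸ ha.1)
    set w := insert b (u.erase a) with hw
    have hbe : b ∉ u.erase a := fun h => hb.2 (mem_of_mem_erase h)
    have hwc : w.card = k := by
      rw [hw, card_insert_of_notMem hbe, card_erase_of_mem ha.1, hu]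
      have : 0 < u.card := card_pos.2 ⟨a, ha.1⟩
      omega
    have huw : u ∆ w = {a, b} := by
      ext x
      rw [mem_symmDiff, hw]
      simp only [mem_insert, mem_erase, mem_singleton]
      constructor
      · rintro (⟨h1, h2⟩ | ⟨h1, h2⟩)
        · by_contra hcon
          push Not at hcon
          exact h2 (Or.inr ⟨hcon.1, h1⟩)
        · rcases h1 with h1 | h1
          · exact Or.inr h1
          · exact absurd h1.2 h2
      · rintro (h1 | h1)
        · left
          rw [h1]
          refine ⟨ha.1, ?_⟩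
          rintro (h2 | h2)
          · exact hab h2
          · exact h2.1 rfl
        · right
          rw [h1]
          exact ⟨Or.inl rfl, hb.2⟩
    have huw2 : (u ∆ w).card = 2 := by rw [huw, card_pair hab]
    have hwv : (w \ v).card = d := by
      have : w \ v = (u \ v).erase a := by
        ext x
        rw [hw]
        simp only [mem_sdiff, mem_insert, mem_erase]
        constructor
        · rintro ⟨h1 | h1, h2⟩
          · exact absurd (h1 ▸ hb.1) h2
          · exact ⟨h1.1, h1.2, h2⟩
        · rintro ⟨h1, h2, h3⟩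
          exact ⟨Or.inr ⟨h1, h2⟩, h3⟩
      rw [this, card_erase_of_mem (mem_sdiff.2 ha), h]
      rfl
    have h1 := cutn_triangle S u w v
    have h2 := cutn_adj S hS hu hwc hz huw2
    have h3 := ih hwc hv hz hwv
    have : (d + 1) * ((jcut k S).card * cm z z)
        = (jcut k S).card * cm z z + d * ((jcut k S).card * cm z z) := by ring
    omega

/-- a crude isoperimetric inequality for the Johnson graph -/
theorem johnson_iso {k : ℕ} (S : Finset (Finset (Fin n))) (hS : ∀ u ∈ S, u.card = k) (hk : k ≤ n) :
    S.card * (powersetCard k (univ : Finset (Fin n)) \ S).card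
      ≤ n.choose k * (k * (jcut k S).card) := by
  classical
  obtain ⟨u0, hu0⟩ : (powersetCard k (univ : Finset (Fin n))).Nonempty := by
    apply powersetCard_nonempty.2
    rw [card_univ, Fintype.card_fin]; exact hk
  have hu0c : u0.card = k := (mem_powersetCard.1 hu0).2
  set Lk := powersetCard k (univ : Finset (Fin n)) with hLk
  have hLkc : Lk.card = n.choose k := by rw [hLk, card_powersetCard, card_univ, Fintype.card_fin]
  -- double count
  have h1 : ∑ v ∈ Lk, cutn S u0 v = (S.card * (Lk \ S).card) * cm u0 u0 := by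
    unfold cutn
    have e1 : ∀ v ∈ Lk, (univ.filter (fun σ : Equiv.Perm (Fin n) => ma σ u0 ∈ S ∧ ma σ v ∉ S)).card
        = ∑ σ : Equiv.Perm (Fin n), if ma σ u0 ∈ S ∧ ma σ v ∉ S then 1 else 0 := by
      intro v _
      rw [card_filter]
    rw [sum_congr rfl e1, sum_comm]
    have e2 : ∀ σ : Equiv.Perm (Fin n), ∑ v ∈ Lk, (if ma σ u0 ∈ S ∧ ma σ v ∉ S then 1 else 0)
        = (if ma σ u0 ∈ S then (Lk \ S).card else 0) := by
      intro σ
      by_cases h : ma σ u0 ∈ S
      · simp only [h, true_and, if_true]
        rw [← card_filter]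
        refine card_bij' (fun v _ => ma σ v) (fun v _ => ma σ.symm v) ?_ ?_ ?_ ?_
        · intro v hv
          rw [mem_filter, hLk, mem_powersetCard] at hv
          rw [mem_sdiff, hLk, mem_powersetCard]
          exact ⟨⟨subset_univ _, by rw [card_ma]; exact hv.1.2⟩, hv.2⟩
        · intro v hv
          rw [mem_sdiff, hLk, mem_powersetCard] at hv
          rw [mem_filter, hLk, mem_powersetCard]
          refine ⟨⟨subset_univ _, by rw [card_ma]; exact hv.1.2⟩, ?_⟩
          rw [← ma_trans, Equiv.symm_trans_self]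
          have : ma (Equiv.refl (Fin n)) v = v := by ext a; rw [mem_ma']; rfl
          rw [this]; exact hv.2
        · intro v _
          rw [← ma_trans, Equiv.self_trans_symm]
          ext a; rw [mem_ma']; rfl
        · intro v _
          rw [← ma_trans, Equiv.symm_trans_self]
          ext a; rw [mem_ma']; rfl
      · simp [h]
    rw [sum_congr rfl (fun σ _ => e2 σ), ← sum_filter, sum_const, smul_eq_mul]
    have e3 : (univ.filter (fun σ : Equiv.Perm (Fin n) => ma σ u0 ∈ S)).card
        = S.card * cm u0 u0 := by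
      have e4 : (univ.filter (fun σ : Equiv.Perm (Fin n) => ma σ u0 ∈ S))
          = S.biUnion (fun u => univ.filter (fun σ : Equiv.Perm (Fin n) => ma σ u0 = u)) := by
        ext σ
        simp only [mem_filter, mem_univ, true_and, mem_biUnion, exists_eq_right']
      rw [e4, card_biUnion]
      · have e5 : ∀ u ∈ S, (univ.filter (fun σ : Equiv.Perm (Fin n) => ma σ u0 = u)).card
            = cm u0 u0 := by
          intro u hu
          rw [← cm_right (w := u0) ((hS u hu).trans hu0c.symm)]
          unfold cm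
          congr!
        rw [sum_congr rfl e5, sum_const, smul_eq_mul]
      · intro u _ u' _ hne
        rw [Function.onFun, Finset.disjoint_left]
        intro σ h1 h2
        rw [mem_filter] at h1 h2
        exact hne (h1.2.symm.trans h2.2)
    rw [e3]
    ring
  have h2 : ∑ v ∈ Lk, cutn S u0 v ≤ ∑ v ∈ Lk, k * ((jcut k S).card * cm u0 u0) := by
    refine sum_le_sum (fun v hv => ?_)
    have hvc : v.card = k := (mem_powersetCard.1 hv).2
    refine (cutn_le S hS (u0 \ v).card hu0c hvc hu0c rfl).trans ?_
    apply Nat.mul_le_mul_right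
    rw [← hu0c]
    exact card_le_card sdiff_subset
  rw [h1, sum_const, smul_eq_mul, hLkc] at h2
  have hpos := cm_pos u0
  have h3 : n.choose k * (k * ((jcut k S).card * cm u0 u0))
      = n.choose k * (k * (jcut k S).card) * cm u0 u0 := by ring
  rw [h3] at h2
  exact Nat.le_of_mul_le_mul_right h2 hpos

end Pool.Agent.SK
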