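import Pool.Agent.Lib.MP_5fcc10_co.OddA

/-! Perfect matchings of the middle levels from almost uniform weights and local connectivity. -/

set_option linter.unusedSectionVars false

namespace Pool.Agent.SK

open Finset
open scoped symmDiff

variable {n : ℕ}

open Classical in
theorem hall_middle {k : ℕ} (hn : n = 2 * k + 1) (op : Finset (Fin n) → Finset (Fin n) → Prop)
    (W : Finset (Fin n) → Finset (Fin n) → ℝ) (hW0 : ∀ x y, x.card = k → y ∈ up x → 0 ≤ W x y)
    (hWop : ∀ x y, x.card = k → y ∈ up x → op x y → 1 / 2 ≤ W x y)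
    (hWz : ∀ x y, ¬ op x y → W x y = 0) (Δ κ η : ℝ) (hΔ : 0 < Δ) (hη : 0 ≤ η) (hκ : η < κ)
    (hrow : ∀ x : Finset (Fin n), x.card = k → |∑ y ∈ up x, W x y - Δ * κ| ≤ Δ * η)
    (hcol : ∀ y : Finset (Fin n), y.card = k + 1 → |∑ x ∈ dn y, W x y - Δ * κ| ≤ Δ * η)
    (R1 : ℕ)
    (hLC : ∀ S : Finset (Finset (Fin n)), (∀ u ∈ S, u.card = k) → ∀ u ∈ S, ∀ v : Finset (Fin n),
      v.card = k → v ∉ S → (u ∆ v).card = 2 → ∃ x ∈ S, ∃ x' : Finset (Fin n), x'.card = k ∧ x' ∉ S ∧
        ∃ y, y ∈ up x ∧ y ∈ up x' ∧ op x y ∧ op x' y ∧ x' ∈ ham u R1)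
    (hsmall : 8 * k * ((n + 1) ^ (R1 + 2) : ℕ) * (Δ * η) < 1) :
    ∃ f : Finset (Fin n) → Finset (Fin n), (∀ x, x.card = k → f x ∈ up x ∧ op x (f x)) ∧
      ∀ x x' : Finset (Fin n), x.card = k → x'.card = k → f x = f x' → x = x' := by
  set Lk := powersetCard k (univ : Finset (Fin n)) with hLk
  set Lk1 := powersetCard (k+1) (univ : Finset (Fin n)) with hLk1
  have memL : ∀ x : Finset (Fin n), x ∈ Lk ↔ x.card = k := fun x => mem_powersetCard_univ
  have memL1 : ∀ x : Finset (Fin n), x ∈ Lk1 ↔ x.card = k + 1 := fun x => mem_powersetCard_univ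
  have hcardL : Lk.card = Lk1.card := by
    rw [hLk, hLk1, card_powersetCard, card_powersetCard, card_univ, Fintype.card_fin]
    rw [← Nat.choose_symm (by omega : k ≤ n)]
    congr 1
    omega
  set Nn : {x : Finset (Fin n) // x.card = k} → Finset (Finset (Fin n)) :=
    fun x => (up x.1).filter (fun y => op x.1 y) with hNn
  have hall : ∀ s : Finset {x : Finset (Fin n) // x.card = k}, s.card ≤ (s.biUnion Nn).card := by
    intro s
    by_contra hcon
    push Not at hcon
    set S : Finset (Finset (Fin n)) := s.image Subtype.val with hSdef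
    have hScard : S.card = s.card := card_image_of_injective _ Subtype.val_injective
    set T := s.biUnion Nn with hT
    have hSk : ∀ u ∈ S, u.card = k := by
      intro u hu
      rw [hSdef, mem_image] at hu
      obtain ⟨a, _, rfl⟩ := hu
      exact a.2
    have hSL : S ⊆ Lk := fun u hu => (memL u).2 (hSk u hu)
    have hTmem : ∀ x ∈ S, ∀ y ∈ up x, op x y → y ∈ T := by
      intro x hx y hy ho
      rw [hSdef, mem_image] at hx
      obtain ⟨a, ha, rfl⟩ := hx
      rw [hT, mem_biUnion]
      exact ⟨a, ha, mem_filter.2 ⟨hy, ho⟩⟩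
    have hTmem' : ∀ y ∈ T, ∃ x ∈ S, y ∈ up x ∧ op x y := by
      intro y hy
      rw [hT, mem_biUnion] at hy
      obtain ⟨a, ha, hy⟩ := hy
      rw [hNn, mem_filter] at hy
      exact ⟨a.1, mem_image.2 ⟨a, ha, rfl⟩, hy.1, hy.2⟩
    have hTL : T ⊆ Lk1 := by
      intro y hy
      obtain ⟨x, hx, hyx, _⟩ := hTmem' y hy
      rw [memL1]
      have := (mem_up.1 hyx).2
      rw [hSk x hx] at this
      exact this
    set Sc := Lk \ S with hSc
    set Tc := Lk1 \ T with hTc
    have hSS : S.card + Sc.card = Lk.card := by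
      rw [hSc, card_sdiff_of_subset hSL]
      have := card_le_card hSL
      omega
    have hTT : T.card + Tc.card = Lk1.card := by
      rw [hTc, card_sdiff_of_subset hTL]
      have := card_le_card hTL
      omega
    have hTS : T.card ≤ S.card := by omega
    have hScTc : Sc.card ≤ Tc.card := by omega
    -- weights
    set w := ∑ y ∈ T, ∑ x ∈ (dn y).filter (fun x => x ∉ S), W x y with hw
    have hsplitT : ∑ y ∈ T, ∑ x ∈ dn y, W x y
        = w + ∑ y ∈ T, ∑ x ∈ (dn y).filter (fun x => x ∈ S), W x y := by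
      rw [hw, ← sum_add_distrib]
      refine sum_congr rfl (fun y _ => ?_)
      rw [add_comm]
      exact (sum_filter_add_sum_filter_not (dn y) (fun x => x ∈ S) (fun x => W x y)).symm
    have hrowS : ∑ x ∈ S, ∑ y ∈ up x, W x y
        = ∑ y ∈ T, ∑ x ∈ (dn y).filter (fun x => x ∈ S), W x y := by
      have h1 : ∀ x ∈ S, ∑ y ∈ up x, W x y = ∑ y ∈ (up x).filter (fun y => y ∈ T), W x y := by
        intro x hx
        rw [sum_filter]
        refine sum_congr rfl (fun y hy => ?_)
        by_cases h : y ∈ T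
        · rw [if_pos h]
        · rw [if_neg h]
          exact hWz x y (fun ho => h (hTmem x hx y hy ho))
      rw [sum_congr rfl h1]
      refine sum_comm' (fun x y => ?_)
      rw [mem_filter, mem_filter, mem_up, mem_dn]
      constructor
      · rintro ⟨h1, h2, h3⟩; exact ⟨⟨h2, h1⟩, h3⟩
      · rintro ⟨⟨h2, h1⟩, h3⟩; exact ⟨h1, h2, h3⟩
    have hcolT : ∑ y ∈ T, ∑ x ∈ dn y, W x y ≤ T.card * (Δ * κ + Δ * η) := by
      calc ∑ y ∈ T, ∑ x ∈ dn y, W x y ≤ ∑ y ∈ T, (Δ * κ + Δ * η) := by
            refine sum_le_sum (fun y hy => ?_)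
            have := (abs_le.1 (hcol y ((memL1 y).1 (hTL hy)))).2
            linarith
        _ = _ := by rw [sum_const, nsmul_eq_mul]
    have hrowS2 : S.card * (Δ * κ - Δ * η) ≤ ∑ x ∈ S, ∑ y ∈ up x, W x y := by
      calc (S.card : ℝ) * (Δ * κ - Δ * η) = ∑ x ∈ S, (Δ * κ - Δ * η) := by
            rw [sum_const, nsmul_eq_mul]
        _ ≤ _ := by
            refine sum_le_sum (fun x hx => ?_)
            have := (abs_le.1 (hrow x (hSk x hx))).1
            linarith
    have hTSr : (T.card : ℝ) ≤ S.card := by exact_mod_cast hTS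
    have hΔκ : 0 < Δ * κ := mul_pos hΔ (by linarith)
    have hΔη : 0 ≤ Δ * η := by positivity
    have hw1 : w ≤ 2 * (Δ * η) * S.card := by
      have h1 : (T.card : ℝ) * (Δ * κ + Δ * η) ≤ S.card * (Δ * κ + Δ * η) :=
        mul_le_mul_of_nonneg_right hTSr (by linarith)
      rw [hrowS] at hrowS2
      nlinarith
    -- complement side
    have hsplitSc : ∑ x ∈ Sc, ∑ y ∈ up x, W x y
        = w + ∑ y ∈ Tc, ∑ x ∈ dn y, W x y := by
      have h1 : ∑ x ∈ Sc, ∑ y ∈ up x, W x y
          = ∑ x ∈ Sc, ∑ y ∈ (up x).filter (fun y => y ∈ T), W x y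
            + ∑ x ∈ Sc, ∑ y ∈ (up x).filter (fun y => y ∉ T), W x y := by
        rw [← sum_add_distrib]
        refine sum_congr rfl (fun x _ => ?_)
        exact (sum_filter_add_sum_filter_not (up x) (fun y => y ∈ T) (fun y => W x y)).symm
      rw [h1]
      congr 1
      · rw [hw]
        refine sum_comm' (fun x y => ?_)
        rw [mem_filter, mem_filter, mem_up, mem_dn, hSc, mem_sdiff]
        constructor
        · rintro ⟨⟨h1, h2⟩, h3, h4⟩; exact ⟨⟨h3, h2⟩, h4⟩
        · rintro ⟨⟨h3, h2⟩, h4⟩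
          refine ⟨⟨?_, h2⟩, h3, h4⟩
          have := (memL1 y).1 (hTL h4)
          rw [memL]; omega
      · have h2 : ∀ y ∈ Tc, ∑ x ∈ dn y, W x y = ∑ x ∈ (dn y).filter (fun x => x ∉ S), W x y := by
          intro y hy
          rw [sum_filter]
          refine sum_congr rfl (fun x hx => ?_)
          by_cases h : x ∈ S
          · rw [if_neg (fun h' => h' h)]
            apply hWz
            intro ho
            have hyx : y ∈ up x := by rw [mem_up]; exact mem_dn.1 hx
            exact (mem_sdiff.1 hy).2 (hTmem x h y hyx ho)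
          · rw [if_pos h]
        rw [sum_congr rfl h2]
        refine sum_comm' (fun x y => ?_)
        rw [mem_filter, mem_filter, mem_up, mem_dn, hSc, hTc, mem_sdiff, mem_sdiff]
        constructor
        · rintro ⟨⟨h1, h2⟩, h3, h4⟩
          refine ⟨⟨h3, h2⟩, ?_, h4⟩
          have := (memL x).1 h1
          rw [memL1]; omega
        · rintro ⟨⟨h3, h2⟩, h4, h5⟩
          refine ⟨⟨?_, h2⟩, h3, h5⟩
          have := (memL1 y).1 h4
          rw [memL]; omega
    have hrowSc : ∑ x ∈ Sc, ∑ y ∈ up x, W x y ≤ Sc.card * (Δ * κ + Δ * η) := by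
      calc ∑ x ∈ Sc, ∑ y ∈ up x, W x y ≤ ∑ x ∈ Sc, (Δ * κ + Δ * η) := by
            refine sum_le_sum (fun x hx => ?_)
            have := (abs_le.1 (hrow x ((memL x).1 (mem_sdiff.1 hx).1))).2
            linarith
        _ = _ := by rw [sum_const, nsmul_eq_mul]
    have hcolTc : Tc.card * (Δ * κ - Δ * η) ≤ ∑ y ∈ Tc, ∑ x ∈ dn y, W x y := by
      calc (Tc.card : ℝ) * (Δ * κ - Δ * η) = ∑ y ∈ Tc, (Δ * κ - Δ * η) := by
            rw [sum_const, nsmul_eq_mul]
        _ ≤ _ := by
            refine sum_le_sum (fun y hy => ?_)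
            have := (abs_le.1 (hcol y ((memL1 y).1 (mem_sdiff.1 hy).1))).1
            linarith
    have hScTcr : (Sc.card : ℝ) ≤ Tc.card := by exact_mod_cast hScTc
    have hw2 : w ≤ 2 * (Δ * η) * Sc.card := by
      have h0 : 0 ≤ Δ * κ - Δ * η := by nlinarith
      have h1 : (Sc.card : ℝ) * (Δ * κ - Δ * η) ≤ Tc.card * (Δ * κ - Δ * η) :=
        mul_le_mul_of_nonneg_right hScTcr h0
      nlinarith
    -- pairs
    set Pp : Finset (Finset (Fin n) × Finset (Fin n)) :=
      T.biUnion (fun y => ((dn y).filter (fun x => x ∉ S ∧ op x y)).image (fun x => (x, y))) with hPp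
    have hPpw : (Pp.card : ℝ) / 2 ≤ w := by
      have h1 : Pp.card ≤ ∑ y ∈ T, ((dn y).filter (fun x => x ∉ S ∧ op x y)).card := by
        refine card_biUnion_le.trans (sum_le_sum (fun y _ => card_image_le))
      have h2 : (Pp.card : ℝ) ≤ ∑ y ∈ T, (((dn y).filter (fun x => x ∉ S ∧ op x y)).card : ℝ) := by
        exact_mod_cast h1
      have h3 : ∑ y ∈ T, (((dn y).filter (fun x => x ∉ S ∧ op x y)).card : ℝ) * (1 / 2) ≤ w := by
        rw [hw]
        refine sum_le_sum (fun y hy => ?_)
        have hyc := (memL1 y).1 (hTL hy)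
        calc (((dn y).filter (fun x => x ∉ S ∧ op x y)).card : ℝ) * (1 / 2)
            = ∑ x ∈ (dn y).filter (fun x => x ∉ S ∧ op x y), (1/2:ℝ) := by
              rw [sum_const, nsmul_eq_mul]
          _ ≤ ∑ x ∈ (dn y).filter (fun x => x ∉ S ∧ op x y), W x y := by
              refine sum_le_sum (fun x hx => ?_)
              rw [mem_filter] at hx
              have hxy := mem_dn.1 hx.1
              exact hWop x y (by omega) (mem_up.2 hxy) hx.2.2
          _ ≤ ∑ x ∈ (dn y).filter (fun x => x ∉ S), W x y := by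
              apply sum_le_sum_of_subset_of_nonneg
              · intro x hx
                rw [mem_filter] at hx ⊢
                exact ⟨hx.1, hx.2.1⟩
              · intro x hx _
                rw [mem_filter] at hx
                have hxy := mem_dn.1 hx.1
                exact hW0 x y (by omega) (mem_up.2 hxy)
      rw [← sum_mul] at h3
      linarith
    -- the cut
    have hJ : (jcut k S).card ≤ Pp.card * (n + 1) ^ (R1 + 2) := by
      have hex : ∀ p ∈ jcut k S, ∃ q ∈ Pp, q.1 ∈ ham p.1 R1 := by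
        intro p hp
        rw [jcut, mem_filter] at hp
        obtain ⟨x, hx, x', hx'c, hx'S, y, hyx, hyx', ho, ho', hham⟩ :=
          hLC S hSk p.1 hp.2.1 p.2 hp.2.2.2.1 hp.2.2.1 hp.2.2.2.2
        refine ⟨(x', y), ?_, hham⟩
        rw [hPp, mem_biUnion]
        refine ⟨y, hTmem x hx y hyx ho, ?_⟩
        rw [mem_image]
        refine ⟨x', ?_, rfl⟩
        rw [mem_filter]
        exact ⟨by rw [mem_dn]; exact mem_up.1 hyx', hx'S, ho'⟩
      have hsub : jcut k S ⊆ Pp.biUnion (fun q => (ham q.1 R1).biUnion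
          (fun u => (ham u 2).image (fun v => (u, v)))) := by
        intro p hp
        obtain ⟨q, hq, hqh⟩ := hex p hp
        rw [mem_biUnion]
        refine ⟨q, hq, ?_⟩
        rw [mem_biUnion]
        refine ⟨p.1, ?_, ?_⟩
        · rw [mem_ham] at hqh ⊢
          rw [symmDiff_comm]; exact hqh
        · rw [mem_image]
          refine ⟨p.2, ?_, rfl⟩
          rw [jcut, mem_filter] at hp
          rw [mem_ham]
          exact hp.2.2.2.2.le
      refine (card_le_card hsub).trans ?_
      refine card_biUnion_le.trans ?_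
      have : ∀ q ∈ Pp, ((ham q.1 R1).biUnion
          (fun u => (ham u 2).image (fun v => (u, v)))).card ≤ (n + 1) ^ (R1 + 2) := by
        intro q _
        refine card_biUnion_le.trans ?_
        calc ∑ u ∈ ham q.1 R1, ((ham u 2).image (fun v => (u, v))).card
            ≤ ∑ u ∈ ham q.1 R1, (n+1) ^ 2 :=
              sum_le_sum (fun u _ => card_image_le.trans (card_ham u 2))
          _ = (ham q.1 R1).card * (n+1) ^ 2 := by rw [sum_const, smul_eq_mul]
          _ ≤ (n+1) ^ R1 * (n+1) ^ 2 := Nat.mul_le_mul_right _ (card_ham _ _)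
          _ = (n+1) ^ (R1 + 2) := by rw [pow_add]
      refine (sum_le_sum this).trans ?_
      rw [sum_const, smul_eq_mul]
    have hiso := johnson_iso S hSk (by omega : k ≤ n)
    have hNcard : n.choose k = S.card + Sc.card := by
      rw [hSS, hLk, card_powersetCard, card_univ, Fintype.card_fin]
    rw [← hLk, ← hSc, hNcard] at hiso
    have hS0 : 0 < S.card := by omega
    have hSc0 : 0 < Sc.card := by
      by_contra hcon
      push Not at hcon
      have hSc00 : Sc.card = 0 := by omega
      have hSeq : Lk ⊆ S := by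
        rw [← sdiff_eq_empty_iff_subset, ← card_eq_zero]; exact hSc00
      have hall1 : Lk1 ⊆ T := by
        intro y hy
        have hyc := (memL1 y).1 hy
        have h1 := (abs_le.1 (hcol y hyc)).1
        have h2 : 0 < ∑ x ∈ dn y, W x y := by nlinarith
        obtain ⟨x, hx, hne⟩ := exists_ne_zero_of_sum_ne_zero h2.ne'
        have hxy := mem_dn.1 hx
        have ho : op x y := by
          by_contra h
          exact hne (hWz x y h)
        exact hTmem x (hSeq ((memL x).2 (by omega))) y (mem_up.2 hxy) ho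
      have := card_le_card hall1
      omega
    have hR : (0:ℝ) < ((n + 1) ^ (R1 + 2) : ℕ) := by positivity
    have hJr : ((jcut k S).card : ℝ) ≤ Pp.card * ((n + 1) ^ (R1 + 2) : ℕ) := by exact_mod_cast hJ
    have hisor : (S.card : ℝ) * Sc.card ≤ (S.card + Sc.card) * (k * (jcut k S).card) := by
      exact_mod_cast hiso
    have hS0r : (0:ℝ) < S.card := by exact_mod_cast hS0
    have hSc0r : (0:ℝ) < Sc.card := by exact_mod_cast hSc0
    have hk0 : (0:ℝ) ≤ k := Nat.cast_nonneg k
    have hJ0 : (0:ℝ) ≤ (jcut k S).card := Nat.cast_nonneg _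
    -- min bound
    have hfin : ∀ mn mx : ℝ, 0 < mn → mn ≤ mx → mn * mx ≤ (mn + mx) * (k * (jcut k S).card) →
        w ≤ 2 * (Δ * η) * mn → False := by
      intro mn mx hmn hmm h1 h2
      have hmx : 0 < mx := by linarith
      have h3 : mn * mx ≤ (2 * (k * (jcut k S).card)) * mx := by
        calc mn * mx ≤ (mn + mx) * (k * (jcut k S).card) := h1
          _ ≤ (mx + mx) * (k * (jcut k S).card) := by
              apply mul_le_mul_of_nonneg_right (by linarith) (by positivity)
          _ = (2 * (k * (jcut k S).card)) * mx := by ring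
      have h4 : mn ≤ 2 * (k * (jcut k S).card) := le_of_mul_le_mul_right h3 hmx
      have h5 : (Pp.card : ℝ) ≤ 4 * (Δ * η) * mn := by linarith
      have h6 : mn ≤ 2 * (k * ((4 * (Δ * η) * mn) * ((n + 1) ^ (R1 + 2) : ℕ))) := by
        refine h4.trans ?_
        apply mul_le_mul_of_nonneg_left _ (by norm_num)
        apply mul_le_mul_of_nonneg_left _ hk0
        refine hJr.trans ?_
        apply mul_le_mul_of_nonneg_right h5 hR.le
      have h7 : 2 * (k * ((4 * (Δ * η) * mn) * ((n + 1) ^ (R1 + 2) : ℕ)))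
          = (8 * k * ((n + 1) ^ (R1 + 2) : ℕ) * (Δ * η)) * mn := by ring
      rw [h7] at h6
      nlinarith
    rcases le_total (S.card : ℝ) (Sc.card : ℝ) with h | h
    · exact hfin _ _ hS0r h hisor hw1
    · refine hfin _ _ hSc0r h ?_ hw2
      calc (Sc.card : ℝ) * S.card = S.card * Sc.card := mul_comm _ _
        _ ≤ (S.card + Sc.card) * (k * (jcut k S).card) := hisor
        _ = (Sc.card + S.card) * (k * (jcut k S).card) := by ring
  rw [Finset.all_card_le_biUnion_card_iff_exists_injective] at hall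
  obtain ⟨f, hf1, hf2⟩ := hall
  refine ⟨fun x => if hx : x.card = k then f ⟨x, hx⟩ else x, ?_, ?_⟩
  · intro x hx
    simp only [hx, dite_true]
    have := hf2 ⟨x, hx⟩
    rw [hNn, mem_filter] at this
    exact this
  · intro x x' hx hx' h
    simp only [hx, hx', dite_true] at h
    exact congrArg Subtype.val (hf1 h)

end Pool.Agent.SK
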