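import Pool.Agent.Lib.MP_5fcc10_co.GosA
import Pool.Agent.Lib.MP_5fcc10_co.Prob

/-! Parallel walks of marked vertices (deterministic part). -/

set_option linter.unusedSectionVars false

namespace Pool.Agent.SK

open Finset
open scoped symmDiff

section det

variable {n : ℕ}

/-- `z` separates `a` and `b` -/
def sep2 (a b : Fin n) (z : Finset (Fin n)) : Prop := a ∈ z ∧ b ∉ z

/-- swapping `a` and `b` -/
def sw (a b : Fin n) (z : Finset (Fin n)) : Finset (Fin n) := z ∆ {a, b}

lemma mem_sw {a b x : Fin n} {z : Finset (Fin n)} (_hab : a ≠ b) (hz : sep2 a b z) :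
    x ∈ sw a b z ↔ (x = b ∨ (x ∈ z ∧ x ≠ a)) := by
  unfold sw
  rw [mem_symmDiff]
  simp only [mem_insert, mem_singleton]
  constructor
  · rintro (⟨h1, h2⟩ | ⟨h1, h2⟩)
    · push Not at h2
      exact Or.inr ⟨h1, h2.1⟩
    · rcases h1 with h1 | h1
      · exact absurd (h1 ▸ hz.1) h2
      · exact Or.inl h1
  · rintro (h1 | ⟨h1, h2⟩)
    · right
      exact ⟨Or.inr h1, fun h => hz.2 (h1 ▸ h)⟩
    · left
      refine ⟨h1, ?_⟩
      rintro (h3 | h3)
      · exact h2 h3
      · exact hz.2 (h3 ▸ h1)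

lemma sw_eq {a b : Fin n} {z : Finset (Fin n)} (hab : a ≠ b) (hz : sep2 a b z) :
    sw a b z = insert b (z.erase a) := by
  ext x
  rw [mem_sw hab hz, mem_insert, mem_erase]
  tauto

lemma card_sw {a b : Fin n} {z : Finset (Fin n)} (hab : a ≠ b) (hz : sep2 a b z) :
    (sw a b z).card = z.card := by
  rw [sw_eq hab hz, card_insert_of_notMem (fun h => hz.2 (mem_of_mem_erase h)),
    card_erase_of_mem hz.1]
  have : 0 < z.card := card_pos.2 ⟨a, hz.1⟩
  omega

lemma sw_dist (a b : Fin n) (z : Finset (Fin n)) (hab : a ≠ b) : (z ∆ sw a b z).card = 2 := by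
  unfold sw
  rw [← symmDiff_assoc, symmDiff_self, bot_symmDiff, card_pair hab]

lemma tg_sw (a b : Fin n) (z : Finset (Fin n)) (e : Fin n) : tg (sw a b z) e = sw a b (tg z e) := by
  unfold sw
  rw [symmDiff_tg_left]

/-- common admissible toggles -/
def cnb (k : ℕ) (a b : Fin n) (z : Finset (Fin n)) : Finset (Fin n) :=
  nb k z ∩ nb k (sw a b z)

lemma cnb_notD {k : ℕ} {a b e : Fin n} {z : Finset (Fin n)} (hab : a ≠ b) (hz : sep2 a b z)
    (he : e ∈ cnb k a b z) : e ≠ a ∧ e ≠ b := by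
  rw [cnb, mem_inter] at he
  obtain ⟨h1, h2⟩ := he
  have hc := card_sw hab hz
  rcases nb_cases h1 with ⟨h3, h4⟩ | ⟨h3, h4⟩
  · rcases nb_cases h2 with ⟨h5, h6⟩ | ⟨h5, h6⟩
    · rw [mem_sw hab hz] at h6
      push Not at h6
      refine ⟨fun h => h4 (h ▸ hz.1), h6.1⟩
    · omega
  · rcases nb_cases h2 with ⟨h5, h6⟩ | ⟨h5, h6⟩
    · omega
    · rw [mem_sw hab hz] at h6
      refine ⟨?_, fun h => hz.2 (h ▸ h4)⟩
      rcases h6 with h6 | h6
      · exact fun h => hab (h.symm.trans h6)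
      · exact h6.2

lemma sep2_tg {a b e : Fin n} {z : Finset (Fin n)} (hz : sep2 a b z) (ha : e ≠ a) (hb : e ≠ b) :
    sep2 a b (tg z e) := by
  unfold sep2
  rw [mem_tg, mem_tg]
  refine ⟨Or.inl ⟨hz.1, ha.symm⟩, ?_⟩
  rintro (⟨h1, _⟩ | ⟨h1, _⟩)
  · exact hz.2 h1
  · exact hb h1.symm

open Classical in
/-- good parallel toggles -/
noncomputable def goods (mk : Finset (Fin n) → Prop) (k : ℕ) (a b : Fin n) (z : Finset (Fin n)) :
    Finset (Fin n) :=
  (cnb k a b z).filter (fun e => mk (tg z e) ∧ mk (sw a b (tg z e)))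

open Classical in
/-- vertices reached by parallel walks -/
noncomputable def Rch (mk : Finset (Fin n) → Prop) (k : ℕ) (a b : Fin n) (u : Finset (Fin n)) :
    ℕ → Finset (Finset (Fin n))
  | 0 => {u}
  | (j+1) => (Rch mk k a b u j).biUnion
      (fun z => (goods mk k a b z \ (u ∆ z)).image (fun e => tg z e))

lemma mem_Rch_succ {mk : Finset (Fin n) → Prop} {k : ℕ} {a b : Fin n} {u w : Finset (Fin n)}
    {j : ℕ} : w ∈ Rch mk k a b u (j+1) ↔ ∃ z ∈ Rch mk k a b u j, ∃ e ∈ cnb k a b z,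
      mk (tg z e) ∧ mk (sw a b (tg z e)) ∧ e ∉ u ∆ z ∧ w = tg z e := by
  classical
  change w ∈ (Rch mk k a b u j).biUnion
      (fun z => (goods mk k a b z \ (u ∆ z)).image (fun e => tg z e)) ↔ _
  rw [mem_biUnion]
  constructor
  · rintro ⟨z, hz, hw⟩
    rw [mem_image] at hw
    obtain ⟨e, he, rfl⟩ := hw
    rw [mem_sdiff, goods, mem_filter] at he
    exact ⟨z, hz, e, he.1.1, he.1.2.1, he.1.2.2, he.2, rfl⟩
  · rintro ⟨z, hz, e, h1, h2, h3, h4, rfl⟩
    refine ⟨z, hz, mem_image.2 ⟨e, ?_, rfl⟩⟩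
    rw [mem_sdiff, goods, mem_filter]
    exact ⟨⟨h1, h2, h3⟩, h4⟩

lemma symmDiff_tg_new {u z : Finset (Fin n)} {e : Fin n} (he : e ∉ u ∆ z) :
    u ∆ (tg z e) = insert e (u ∆ z) := by
  rw [symmDiff_comm, symmDiff_tg_left, symmDiff_comm z u, tg_of_notMem he]

lemma Rch_inv {mk : Finset (Fin n) → Prop} {k : ℕ} {a b : Fin n} {u : Finset (Fin n)}
    (hab : a ≠ b) (hu : sep2 a b u) (j : ℕ) : ∀ z ∈ Rch mk k a b u j,
    sep2 a b z ∧ (u ∆ z).card = j := by
  induction j with
  | zero =>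
    intro z hz
    have : z = u := by
      change z ∈ ({u} : Finset (Finset (Fin n))) at hz
      exact mem_singleton.1 hz
    subst this
    exact ⟨hu, by rw [symmDiff_self]; rfl⟩
  | succ j ih =>
    intro w hw
    rw [mem_Rch_succ] at hw
    obtain ⟨z, hz, e, h1, h2, h3, h4, rfl⟩ := hw
    obtain ⟨h5, h6⟩ := ih z hz
    obtain ⟨h7, h8⟩ := cnb_notD hab h5 h1
    refine ⟨sep2_tg h5 h7 h8, ?_⟩
    rw [symmDiff_tg_new h4, card_insert_of_notMem h4, h6]

lemma Rch_level {mk : Finset (Fin n) → Prop} {k : ℕ} {a b : Fin n} {u : Finset (Fin n)}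
    (hab : a ≠ b) (hu : sep2 a b u) (huk : u.card = k) (j : ℕ) : ∀ z ∈ Rch mk k a b u j,
    (Even j → z.card = k) ∧ (¬ Even j → z.card = k + 1) := by
  induction j with
  | zero =>
    intro z hz
    have : z = u := by
      change z ∈ ({u} : Finset (Finset (Fin n))) at hz
      exact mem_singleton.1 hz
    subst this
    exact ⟨fun _ => huk, fun h => absurd (Even.zero) h⟩
  | succ j ih =>
    intro w hw
    rw [mem_Rch_succ] at hw
    obtain ⟨z, hz, e, h1, h2, h3, h4, rfl⟩ := hw
    obtain ⟨h5, h6⟩ := ih z hz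
    rw [cnb, mem_inter] at h1
    rcases nb_cases h1.1 with ⟨h7, h8⟩ | ⟨h7, h8⟩
    · have hj : Even j := by
        by_contra h
        have := h6 h
        omega
      refine ⟨fun h => ?_, fun _ => card_tg_low h7 h8⟩
      rw [Nat.even_add_one] at h
      exact absurd hj h
    · have hj : ¬ Even j := by
        intro h
        have := h5 h
        omega
      refine ⟨fun _ => card_tg_high h7 h8, fun h => ?_⟩
      rw [Nat.even_add_one] at h
      exact absurd hj h

/-- locality of the reached set -/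
lemma Rch_congr {mk mk' : Finset (Fin n) → Prop} {k : ℕ} {a b : Fin n} {u : Finset (Fin n)}
    (hab : a ≠ b) (hu : sep2 a b u) (j : ℕ)
    (h : ∀ w, w ∈ ham u (j + 2) → ¬ (a ∈ w ∧ b ∈ w) → (mk w ↔ mk' w)) :
    Rch mk k a b u j = Rch mk' k a b u j := by
  induction j with
  | zero => rfl
  | succ j ih =>
    have ih' := ih (fun w hw => h w (ham_mono (by omega) hw))
    ext w
    rw [mem_Rch_succ, mem_Rch_succ, ih']
    have key : ∀ z ∈ Rch mk' k a b u j, ∀ e ∈ cnb k a b z, (mk (tg z e) ↔ mk' (tg z e)) ∧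
        (mk (sw a b (tg z e)) ↔ mk' (sw a b (tg z e))) := by
      intro z hz e he
      obtain ⟨h1, h2⟩ := Rch_inv hab hu j z hz
      obtain ⟨h3, h4⟩ := cnb_notD hab h1 he
      have h5 := sep2_tg h1 h3 h4
      have hz1 : z ∈ ham u j := by rw [mem_ham]; omega
      have h6 : tg z e ∈ ham u (j + 1) := ham_trans hz1 (tg_mem_ham z e)
      constructor
      · exact h _ (ham_mono (by omega) h6) (fun hh => h5.2 hh.2)
      · have h7 : sw a b (tg z e) ∈ ham (tg z e) 2 := by
          rw [mem_ham]; exact (sw_dist a b _ hab).le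
        refine h _ (ham_mono (by omega) (ham_trans h6 h7)) (fun hh => ?_)
        rw [mem_sw hab h5, mem_sw hab h5] at hh
        rcases hh.1 with h8 | h8
        · exact hab h8
        · exact h8.2 rfl
    constructor
    · rintro ⟨z, hz, e, h1, h2, h3, h4, h5⟩
      obtain ⟨k1, k2⟩ := key z hz e h1
      exact ⟨z, hz, e, h1, k1.1 h2, k2.1 h3, h4, h5⟩
    · rintro ⟨z, hz, e, h1, h2, h3, h4, h5⟩
      obtain ⟨k1, k2⟩ := key z hz e h1
      exact ⟨z, hz, e, h1, k1.2 h2, k2.2 h3, h4, h5⟩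

/-- size of the reached set -/
lemma Rch_card {mk : Finset (Fin n) → Prop} {k : ℕ} {a b : Fin n} {u : Finset (Fin n)}
    (hab : a ≠ b) (hu : sep2 a b u) (huk : u.card = k) (B r : ℕ)
    (h : ∀ z : Finset (Fin n), (z.card = k ∨ z.card = k + 1) → sep2 a b z →
      B + r ≤ (goods mk k a b z).card) (j : ℕ) (hj : j ≤ r) :
    B ^ j ≤ (Rch mk k a b u j).card * j.factorial := by
  classical
  induction j with
  | zero => simp [Rch]
  | succ j ih =>
    have ih' := ih (by omega)
    have h1 : (Rch mk k a b u j).card * B ≤ (Rch mk k a b u (j+1)).card * (j + 1) := by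
      calc (Rch mk k a b u j).card * B = ∑ z ∈ Rch mk k a b u j, B := by
            rw [sum_const, smul_eq_mul]
        _ ≤ ∑ z ∈ Rch mk k a b u j, ∑ w ∈ (goods mk k a b z \ (u ∆ z)).image (fun e => tg z e), 1 := by
            refine sum_le_sum (fun z hz => ?_)
            obtain ⟨h2, h3⟩ := Rch_inv hab hu j z hz
            obtain ⟨h4, h5⟩ := Rch_level hab hu huk j z hz
            have hlev : z.card = k ∨ z.card = k + 1 := by
              by_cases hE : Even j
              · exact Or.inl (h4 hE)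
              · exact Or.inr (h5 hE)
            have h6 := h z hlev h2
            rw [sum_const, smul_eq_mul, mul_one, card_image_of_injOn]
            · have h7 := le_card_sdiff (u ∆ z) (goods mk k a b z)
              omega
            · intro e _ e' _ he
              have h8 : tg z e = tg z e' := he
              unfold tg at h8
              have := symmDiff_right_injective z h8
              exact singleton_injective this
        _ = ∑ w ∈ Rch mk k a b u (j+1), ∑ z ∈ (Rch mk k a b u j).filter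
              (fun z => w ∈ (goods mk k a b z \ (u ∆ z)).image (fun e => tg z e)), 1 := by
            refine sum_comm' (fun z w => ?_)
            rw [mem_filter]
            constructor
            · rintro ⟨h1, h2⟩
              refine ⟨⟨h1, h2⟩, ?_⟩
              change w ∈ (Rch mk k a b u j).biUnion _
              exact mem_biUnion.2 ⟨z, h1, h2⟩
            · rintro ⟨h1, _⟩; exact h1
        _ ≤ ∑ w ∈ Rch mk k a b u (j+1), (j + 1) := by
            refine sum_le_sum (fun w hw => ?_)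
            rw [sum_const, smul_eq_mul, mul_one]
            have h2 := (Rch_inv hab hu (j+1) w hw).2
            rw [← h2]
            refine le_trans (card_le_card ?_) (card_image_le (s := u ∆ w) (f := fun e => tg w e))
            intro z hz
            rw [mem_filter, mem_image] at hz
            obtain ⟨hz1, e, he, hzw⟩ := hz
            rw [mem_image]
            refine ⟨e, ?_, ?_⟩
            · rw [← hzw, symmDiff_tg_new (mem_sdiff.1 he).2]
              exact mem_insert_self _ _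
            · rw [← hzw, tg_tg]
        _ = (Rch mk k a b u (j+1)).card * (j + 1) := by rw [sum_const, smul_eq_mul]
    calc B ^ (j+1) = B ^ j * B := pow_succ _ _
      _ ≤ ((Rch mk k a b u j).card * j.factorial) * B := Nat.mul_le_mul_right _ ih'
      _ = ((Rch mk k a b u j).card * B) * j.factorial := by ring
      _ ≤ ((Rch mk k a b u (j+1)).card * (j + 1)) * j.factorial := Nat.mul_le_mul_right _ h1
      _ = (Rch mk k a b u (j+1)).card * (j+1).factorial := by
          rw [Nat.factorial_succ]; ring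

/-- crossing along parallel walks -/
lemma Rch_cross {mk : Finset (Fin n) → Prop} {k : ℕ} {a b : Fin n} {u : Finset (Fin n)}
    (hab : a ≠ b) (hu : sep2 a b u) (huk : u.card = k) (S : Finset (Finset (Fin n))) (r : ℕ)
    (hmu : mk u) (hmv : mk (sw a b u)) (huS : u ∈ S) (hvS : sw a b u ∉ S)
    (hNC : ∀ x ∈ S, ∀ x' : Finset (Fin n), x'.card = k → x' ∉ S → ∀ y, y.card = k + 1 → x ⊆ y →
      x' ⊆ y → mk x → mk x' → mk y → x.card = k → x' ∈ ham u (r + 2) → False) (j : ℕ) (hj : j ≤ r) :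
    ∀ z ∈ Rch mk k a b u j, mk z ∧ mk (sw a b z) ∧ (z.card = k → z ∈ S ∧ sw a b z ∉ S) ∧
      (z.card = k + 1 → (∃ x ∈ S, x.card = k ∧ x ⊆ z ∧ mk x) ∧
        (∃ x' : Finset (Fin n), x'.card = k ∧ x' ∉ S ∧ x' ⊆ sw a b z ∧ mk x' ∧
          x' ∈ ham u (r + 2))) := by
  induction j with
  | zero =>
    intro z hz
    have : z = u := by
      change z ∈ ({u} : Finset (Finset (Fin n))) at hz
      exact mem_singleton.1 hz
    subst this
    exact ⟨hmu, hmv, fun _ => ⟨huS, hvS⟩, fun h => by omega⟩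
  | succ j ih =>
    intro w hw
    rw [mem_Rch_succ] at hw
    obtain ⟨z, hz, e, h1, h2, h3, h4, rfl⟩ := hw
    obtain ⟨i1, i2, i3, i4⟩ := ih (by omega) z hz
    obtain ⟨s1, s2⟩ := Rch_inv hab hu j z hz
    obtain ⟨d1, d2⟩ := cnb_notD hab s1 h1
    have s3 := sep2_tg s1 d1 d2
    have hcz := card_sw hab s1
    have hcw := card_sw hab s3
    have hzham : z ∈ ham u j := by rw [mem_ham]; omega
    have hswz : sw a b z ∈ ham u (r + 2) := by
      have : sw a b z ∈ ham z 2 := by rw [mem_ham]; exact (sw_dist a b _ hab).le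
      exact ham_mono (by omega) (ham_trans hzham this)
    have htz : tg z e ∈ ham u (r + 2) :=
      ham_mono (by omega) (ham_trans hzham (tg_mem_ham z e))
    rw [cnb, mem_inter] at h1
    rcases nb_cases h1.1 with ⟨h7, h8⟩ | ⟨h7, h8⟩
    · -- up step
      have hc := card_tg_low h7 h8
      obtain ⟨j1, j2⟩ := i3 h7
      refine ⟨h2, h3, fun h => by omega, fun _ => ⟨⟨z, j1, h7, ?_, i1⟩,
        ⟨sw a b z, by omega, j2, ?_, i2, hswz⟩⟩⟩
      · rw [tg_of_notMem h8]; exact subset_insert _ _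
      · rw [← tg_sw]
        rcases nb_cases h1.2 with ⟨h9, h10⟩ | ⟨h9, h10⟩
        · rw [tg_of_notMem h10]; exact subset_insert _ _
        · omega
    · -- down step
      have hc := card_tg_high h7 h8
      obtain ⟨⟨x, x1, x2, x3, x4⟩, ⟨x', y1, y2, y3, y4, y5⟩⟩ := i4 h7
      refine ⟨h2, h3, fun _ => ⟨?_, ?_⟩, fun h => by omega⟩
      · by_contra hcon
        exact hNC x x1 (tg z e) hc hcon z h7 x3
          (by rw [tg_of_mem h8]; exact erase_subset _ _) x4 h2 i1 x2 htz
      · intro hcon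
        refine hNC (sw a b (tg z e)) hcon x' y1 y2 (sw a b z) (by omega) ?_ y3 h3 y4 i2
          (by omega) y5
        rw [← tg_sw]
        rcases nb_cases h1.2 with ⟨h9, h10⟩ | ⟨h9, h10⟩
        · omega
        · rw [tg_of_mem h10]; exact erase_subset _ _

/-- existence of a crossing -/
lemma cross_of_join {mk : Finset (Fin n) → Prop} {k : ℕ} {a b : Fin n} {u : Finset (Fin n)}
    (hab : a ≠ b) (hu : sep2 a b u) (huk : u.card = k) (S : Finset (Finset (Fin n)))
    (hS : ∀ x ∈ S, x.card = k) (r : ℕ) (hr : Even r)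
    (hmu : mk u) (hmv : mk (sw a b u)) (huS : u ∈ S) (hvS : sw a b u ∉ S)
    (hjoin : ∃ z ∈ Rch mk k a b u r, mk (insert b z)) :
    ∃ x ∈ S, ∃ x' : Finset (Fin n), x'.card = k ∧ x' ∉ S ∧ ∃ y : Finset (Fin n), y.card = k + 1 ∧
      x ⊆ y ∧ x' ⊆ y ∧ mk x ∧ mk x' ∧ mk y ∧ x' ∈ ham u (r + 2) := by
  by_contra hcon
  have hNC : ∀ x ∈ S, ∀ x' : Finset (Fin n), x'.card = k → x' ∉ S → ∀ y, y.card = k + 1 → x ⊆ y →
      x' ⊆ y → mk x → mk x' → mk y → x.card = k → x' ∈ ham u (r + 2) → False := by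
    intro x hx x' h1 h2 y h3 h4 h5 h6 h7 h8 _ h9
    exact hcon ⟨x, hx, x', h1, h2, y, h3, h4, h5, h6, h7, h8, h9⟩
  obtain ⟨z, hz, hzb⟩ := hjoin
  obtain ⟨i1, i2, i3, _⟩ := Rch_cross hab hu huk S r hmu hmv huS hvS hNC r le_rfl z hz
  obtain ⟨s1, s2⟩ := Rch_inv hab hu r z hz
  have hzk := (Rch_level hab hu huk r z hz).1 hr
  obtain ⟨j1, j2⟩ := i3 hzk
  have hcz := card_sw hab s1
  refine hNC z j1 (sw a b z) (by omega) j2 (insert b z) ?_ (subset_insert _ _) ?_ i1 i2 hzb hzk ?_
  · rw [card_insert_of_notMem s1.2, hzk]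
  · rw [sw_eq hab s1]
    exact insert_subset_insert _ (erase_subset _ _)
  · have h1 : z ∈ ham u r := by rw [mem_ham]; omega
    have h2 : sw a b z ∈ ham z 2 := by rw [mem_ham]; exact (sw_dist a b _ hab).le
    exact ham_trans h1 h2

end det

end Pool.Agent.SK
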