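import Pool.Agent.Lib.MP_5fcc10_co.OddC
import Pool.Agent.Lib.MP_5fcc10_co.LLL

/-! Parallel walks of marked vertices (probabilistic part). -/

set_option linter.unusedSectionVars false

namespace Pool.Agent.SK

open Finset
open scoped symmDiff

section gen

variable {V κ : Type*} [Fintype V] [DecidableEq V] [Fintype κ] [Nonempty κ] [DecidableEq κ]

/-- marked vertices -/
def mkp (Win : V → Finset κ) (ψ : V → κ) (v : V) : Prop := ψ v ∈ Win v

open Classical in
lemma E_win (Win : V → Finset κ) (h : ℕ) (hW : ∀ v, (Win v).card = h) (v : V) :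
    E (fun ψ : V → κ => if ψ v ∈ Win v then (1:ℝ) else 0) = h / (Fintype.card κ : ℝ) := by
  have h1 := E_ind (V := V) v (fun b => b ∈ Win v) h (by
    rw [← hW v]; congr 1; ext x; simp)
  refine (E_congr (fun ψ => ?_)).trans h1
  congr

open Classical in
lemma E_win_compl (Win : V → Finset κ) (h : ℕ) (hW : ∀ v, (Win v).card = h) (v : V) :
    E (fun ψ : V → κ => if ψ v ∈ Win v then (0:ℝ) else 1) = 1 - h / (Fintype.card κ : ℝ) := by
  have h1 : ∀ ψ : V → κ, (if ψ v ∈ Win v then (0:ℝ) else 1)
      = 1 - (if ψ v ∈ Win v then (1:ℝ) else 0) := by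
    intro ψ; split_ifs <;> norm_num
  rw [E_congr h1, E_sub, E_const, E_win Win h hW]

lemma theta_le_one (Win : V → Finset κ) (h : ℕ) (hW : ∀ v, (Win v).card = h) (v : V) :
    (h:ℝ) / (Fintype.card κ : ℝ) ≤ 1 := by
  rw [div_le_one (by exact_mod_cast Fintype.card_pos)]
  rw [← hW v]
  exact_mod_cast card_le_univ _

lemma P_none_le (Win : V → Finset κ) (h : ℕ) (hW : ∀ v, (Win v).card = h) (T : Finset V) :
    P (fun ψ : V → κ => ∀ w ∈ T, ψ w ∉ Win w)
      ≤ Real.exp (-((h:ℝ) / (Fintype.card κ : ℝ) * T.card)) := by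
  classical
  have h1 : P (fun ψ : V → κ => ∀ w ∈ T, ψ w ∉ Win w)
      = E (fun ψ : V → κ => ∏ w ∈ T, if ψ w ∈ Win w then (0:ℝ) else 1) := by
    unfold P
    refine E_congr (fun ψ => ?_)
    by_cases hA : ∀ w ∈ T, ψ w ∉ Win w
    · rw [if_pos hA]
      symm
      apply prod_eq_one
      intro w hw
      rw [if_neg (hA w hw)]
    · rw [if_neg hA]
      push Not at hA
      obtain ⟨w, hw, hw2⟩ := hA
      symm
      apply prod_eq_zero hw
      rw [if_pos hw2]
  rw [h1, E_prod T (fun w => {w}) (by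
      intro b _ c _ hbc
      rw [disjoint_singleton]; exact hbc)
    (fun w ψ => if ψ w ∈ Win w then (0:ℝ) else 1) (by
      intro w _ φ ψ hh
      simp only [hh w (mem_singleton_self w)])]
  rw [prod_congr rfl (fun w _ => E_win_compl Win h hW w), prod_const]
  by_cases hT : T.Nonempty
  · obtain ⟨v, _⟩ := hT
    have h2 := theta_le_one Win h hW v
    have h3 := Real.add_one_le_exp (-((h:ℝ) / (Fintype.card κ : ℝ)))
    calc (1 - (h:ℝ) / (Fintype.card κ : ℝ)) ^ T.card
        ≤ (Real.exp (-((h:ℝ) / (Fintype.card κ : ℝ)))) ^ T.card := by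
          apply pow_le_pow_left₀ (by linarith) (by linarith)
      _ = Real.exp (-((h:ℝ) / (Fintype.card κ : ℝ) * T.card)) := by
          rw [← Real.exp_nat_mul]
          congr 1; ring
  · rw [not_nonempty_iff_eq_empty] at hT
    rw [hT]; simp

open Classical in
lemma E_two (Win : V → Finset κ) (h : ℕ) (hW : ∀ v, (Win v).card = h) (w w' : V) (hne : w ≠ w') :
    E (fun ψ : V → κ => if ψ w ∈ Win w ∧ ψ w' ∈ Win w' then (1:ℝ) else 0)
      = (h / (Fintype.card κ : ℝ)) ^ 2 := by
  have h1 : ∀ ψ : V → κ, (if ψ w ∈ Win w ∧ ψ w' ∈ Win w' then (1:ℝ) else 0)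
      = (if ψ w ∈ Win w then (1:ℝ) else 0) * (if ψ w' ∈ Win w' then (1:ℝ) else 0) := by
    intro ψ
    by_cases h1 : ψ w ∈ Win w <;> by_cases h2 : ψ w' ∈ Win w' <;> simp [h1, h2]
  rw [E_congr h1, E_mul (S := {w}) (T := {w'}) (by
      intro φ ψ hh
      simp only [hh w (mem_singleton_self w)]) (by
      intro φ ψ hh
      simp only [hh w' (mem_singleton_self w')]) (by rw [disjoint_singleton]; exact hne),
    E_win Win h hW, E_win Win h hW, sq]

lemma P_mix_le (I : Finset V) {A : (V → κ) → Prop} {c : ℝ}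
    (h : ∀ ψ, P (fun φ => A (mix I φ ψ)) ≤ c) : P A ≤ c := by
  unfold P at h ⊢
  rw [← E_mix I]
  refine (E_mono h).trans ?_
  rw [E_const]

end gen

section par

variable {n : ℕ} {κ : Type*} [Fintype κ] [Nonempty κ] [DecidableEq κ]

lemma card_cnb {k : ℕ} (hn : n = 2 * k + 1) {a b : Fin n} {z : Finset (Fin n)} (hab : a ≠ b)
    (hz : sep2 a b z) (hlev : z.card = k ∨ z.card = k + 1) : (cnb k a b z).card = k := by
  have hc := card_sw hab hz
  rcases hlev with hl | hl
  · have : cnb k a b z = (insert b z)ᶜ := by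
      rw [cnb, nb_low hl, nb_low (hc.trans hl)]
      ext x
      rw [mem_inter, mem_compl, mem_compl, mem_compl, mem_sw hab hz, mem_insert]
      tauto
    rw [this, card_compl, Fintype.card_fin, card_insert_of_notMem hz.2, hl]
    omega
  · have : cnb k a b z = z.erase a := by
      rw [cnb, nb_high hl, nb_high (hc.trans hl)]
      ext x
      rw [mem_inter, mem_sw hab hz, mem_erase]
      constructor
      · rintro ⟨h1, h2 | h2⟩
        · exact absurd (h2 ▸ h1) hz.2
        · exact ⟨h2.2, h1⟩
      · rintro ⟨h1, h2⟩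
        exact ⟨h2, Or.inr ⟨h2, h1⟩⟩
    rw [this, card_erase_of_mem hz.1, hl]
    rfl

theorem P_par {k : ℕ} (hn : n = 2 * k + 1) (hk : 0 < k) (Win : Finset (Fin n) → Finset κ) (h : ℕ)
    (hW : ∀ v, (Win v).card = h) (hh : 0 < h) {a b : Fin n} {z : Finset (Fin n)} (hab : a ≠ b)
    (hz : sep2 a b z) (hlev : z.card = k ∨ z.card = k + 1) (B : ℕ)
    (hB : (B:ℝ) ≤ k * (h / (Fintype.card κ : ℝ)) ^ 2 / 2) :
    P (fun ψ : Finset (Fin n) → κ => (goods (mkp Win ψ) k a b z).card < B)
      ≤ 2 * Real.exp (-(k * (h / (Fintype.card κ : ℝ)) ^ 2 / 16)) := by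
  classical
  set θ : ℝ := h / (Fintype.card κ : ℝ) with hθ
  have hκ : (0:ℝ) < Fintype.card κ := by exact_mod_cast Fintype.card_pos
  have hθ0 : 0 < θ := by
    have : (0:ℝ) < h := by exact_mod_cast hh
    positivity
  have hθ1 : θ ≤ 1 := theta_le_one Win h hW ∅
  have hkr : (0:ℝ) < k := by exact_mod_cast hk
  have hcard := card_cnb hn hab hz hlev
  have hmix : ∀ φ ψ : Finset (Fin n) → κ, mix univ φ ψ = φ := by
    intro φ ψ; funext v; exact mix_in (mem_univ v)
  have hne : ∀ e ∈ cnb k a b z, tg z e ≠ sw a b (tg z e) := by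
    intro e he heq
    have := sw_dist a b (tg z e) hab
    rw [← heq, symmDiff_self] at this
    simp at this
  have htail := tail_bound (V := Finset (Fin n)) (κ := κ) univ (cnb k a b z)
    (fun e => {tg z e, sw a b (tg z e)})
    (by
      intro e he e' he' hee
      obtain ⟨d1, d2⟩ := cnb_notD hab hz he
      obtain ⟨d3, d4⟩ := cnb_notD hab hz he'
      have inj : ∀ x y : Fin n, tg z x = tg z y → x = y := by
        intro x y hxy
        unfold tg at hxy
        exact singleton_injective (symmDiff_right_injective z hxy)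
      have s1 := sep2_tg hz d1 d2
      have s2 := sep2_tg hz d3 d4
      have swsw : ∀ w : Finset (Fin n), sw a b (sw a b w) = w := by
        intro w; unfold sw; rw [symmDiff_assoc, symmDiff_self, symmDiff_bot]
      have nsw : ∀ w w' : Finset (Fin n), sep2 a b w → sep2 a b w' → w ≠ sw a b w' := by
        intro w w' h1 h2 h3
        have : a ∈ sw a b w' := h3 ▸ h1.1
        rw [mem_sw hab h2] at this
        rcases this with h | h
        · exact hab h
        · exact h.2 rfl
      rw [disjoint_left]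
      intro w hw hw'
      rw [mem_insert, mem_singleton] at hw hw'
      rcases hw with hw | hw <;> rcases hw' with hw' | hw'
      · exact hee (inj _ _ (hw.symm.trans hw'))
      · exact nsw _ _ s1 s2 (hw.symm.trans hw')
      · exact nsw _ _ s2 s1 (hw'.symm.trans hw)
      · have := hw.symm.trans hw'
        have h5 := congrArg (sw a b) this
        rw [swsw, swsw] at h5
        exact hee (inj _ _ h5))
    (fun e ψ => (if ψ (tg z e) ∈ Win (tg z e) ∧ ψ (sw a b (tg z e)) ∈ Win (sw a b (tg z e))
      then (1:ℝ) else 0) - θ ^ 2)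
    (by
      intro e _ ψ φ φ' hd
      simp only [hmix]
      rw [hd (tg z e) (mem_insert_self _ _), hd (sw a b (tg z e))
        (mem_insert_of_mem (mem_singleton_self _))])
    1
    (by
      intro e _ ψ
      have : θ ^ 2 ≤ 1 := by nlinarith
      have : 0 ≤ θ ^ 2 := by positivity
      rw [abs_le]
      split_ifs <;> constructor <;> linarith)
    (by
      intro e he ψ
      simp only [hmix]
      rw [E_sub, E_const, E_two Win h hW _ _ (hne e he)]
      ring)
    (fun _ _ => θ ^ 2)
    (by
      intro e he ψ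
      simp only [hmix]
      have h1 : ∀ φ : Finset (Fin n) → κ, ((if φ (tg z e) ∈ Win (tg z e) ∧
          φ (sw a b (tg z e)) ∈ Win (sw a b (tg z e)) then (1:ℝ) else 0) - θ ^ 2) ^ 2
          = (1 - 2 * θ ^ 2) * (if φ (tg z e) ∈ Win (tg z e) ∧
          φ (sw a b (tg z e)) ∈ Win (sw a b (tg z e)) then (1:ℝ) else 0) + θ ^ 4 := by
        intro φ
        split_ifs <;> ring
      rw [E_congr h1, E_add, E_mul_left, E_const, E_two Win h hW _ _ (hne e he)]
      have : 0 ≤ θ ^ 2 := by positivity
      nlinarith)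
    (k * θ ^ 2) (by positivity)
    (by
      intro ψ
      rw [sum_const, nsmul_eq_mul, hcard])
    (k * θ ^ 2 / 2) (by positivity) (by
      have : 0 < k * θ ^ 2 := by positivity
      linarith)
  refine (P_mono (fun ψ hψ => ?_)).trans (htail.trans (le_of_eq ?_))
  · have hsum : ∑ e ∈ cnb k a b z, ((if ψ (tg z e) ∈ Win (tg z e) ∧
          ψ (sw a b (tg z e)) ∈ Win (sw a b (tg z e)) then (1:ℝ) else 0) - θ ^ 2)
        = (goods (mkp Win ψ) k a b z).card - k * θ ^ 2 := by
      rw [sum_sub_distrib, sum_const, nsmul_eq_mul, hcard]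
      congr 1
      unfold goods mkp
      rw [card_filter]
      push_cast
      rfl
    rw [hsum]
    have h2 : ((goods (mkp Win ψ) k a b z).card : ℝ) < B := by exact_mod_cast hψ
    rw [lt_abs]
    right
    have h3 : (B:ℝ) ≤ k * θ ^ 2 / 2 := hB
    linarith
  · congr 2
    field_simp
    ring

theorem P_join {k : ℕ} (Win : Finset (Fin n) → Finset κ) (h : ℕ)
    (hW : ∀ v, (Win v).card = h) {a b : Fin n} {u : Finset (Fin n)} (hab : a ≠ b)
    (hu : sep2 a b u) (r T0 : ℕ) :
    P (fun ψ : Finset (Fin n) → κ => T0 ≤ (Rch (mkp Win ψ) k a b u r).card ∧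
      ∀ z ∈ Rch (mkp Win ψ) k a b u r, ¬ mkp Win ψ (insert b z))
      ≤ Real.exp (-((h:ℝ) / (Fintype.card κ : ℝ) * T0)) := by
  classical
  set I : Finset (Finset (Fin n)) := univ.filter (fun w => a ∈ w ∧ b ∈ w) with hI
  have hR : ∀ φ ψ : Finset (Fin n) → κ, Rch (mkp Win (mix I φ ψ)) k a b u r
      = Rch (mkp Win ψ) k a b u r := by
    intro φ ψ
    apply Rch_congr hab hu
    intro w _ hw
    have hwI : w ∉ I := fun hh => hw (mem_filter.1 hh).2
    unfold mkp
    rw [mix_out hwI]
  apply P_mix_le I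
  intro ψ
  by_cases hT : T0 ≤ (Rch (mkp Win ψ) k a b u r).card
  · set Tw := (Rch (mkp Win ψ) k a b u r).image (fun z => insert b z) with hTw
    have hTwc : Tw.card = (Rch (mkp Win ψ) k a b u r).card := by
      apply card_image_of_injOn
      intro z hz z' hz' he
      have h1 := (Rch_inv hab hu r z hz).1
      have h2 := (Rch_inv hab hu r z' hz').1
      have he' : insert b z = insert b z' := he
      rw [← erase_insert h1.2, he', erase_insert h2.2]
    refine (P_mono (B := fun φ => ∀ w ∈ Tw, φ w ∉ Win w) ?_).trans ((P_none_le Win h hW Tw).trans ?_)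
    · intro φ h2 w hw
      rw [hR φ ψ] at h2
      rw [hTw, mem_image] at hw
      obtain ⟨z, hz, rfl⟩ := hw
      have h4 := h2.2 z hz
      have h5 : insert b z ∈ I := by
        rw [hI, mem_filter]
        exact ⟨mem_univ _, mem_insert_of_mem (Rch_inv hab hu r z hz).1.1, mem_insert_self _ _⟩
      unfold mkp at h4
      rw [mix_in h5] at h4
      exact h4
    · apply Real.exp_le_exp.2
      apply neg_le_neg
      apply mul_le_mul_of_nonneg_left _ (by positivity)
      rw [hTwc]
      exact_mod_cast hT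
  · refine (P_mono (B := fun _ => False) ?_).trans ?_
    · intro φ h2
      rw [hR φ ψ] at h2
      exact hT h2.1
    · have : P (fun _ : Finset (Fin n) → κ => False) = 0 := by
        unfold P
        simp [E_const]
      rw [this]
      positivity

end par

end Pool.Agent.SK
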