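import Pool.Agent.Lib.MP_5fcc10_co.OddD
import Pool.Agent.Lib.MP_5fcc10_co.OddB
import Pool.Agent.Lib.MP_5fcc10_co.GosJ

/-! Labels for the odd case: windows, local events and local connectivity. -/

set_option linter.unusedSectionVars false

namespace Pool.Agent.SK

open Finset
open scoped symmDiff

/-- upward window -/
def W1 (Q H : ℕ) (c : ZMod Q) : Finset (ZMod Q) := (range H).image (fun r : ℕ => c + (r : ZMod Q))

/-- downward window -/
def W2 (Q h : ℕ) (c : ZMod Q) : Finset (ZMod Q) := (range h).image (fun r : ℕ => c - (r : ZMod Q))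

lemma cast_inj_lt {Q r r' : ℕ} (h : r < Q) (h' : r' < Q) (he : (r : ZMod Q) = (r' : ZMod Q)) :
    r = r' := by
  rw [ZMod.natCast_eq_natCast_iff'] at he
  rwa [Nat.mod_eq_of_lt h, Nat.mod_eq_of_lt h'] at he

lemma card_W1 {Q H : ℕ} (hQ : H ≤ Q) (c : ZMod Q) : (W1 Q H c).card = H := by
  unfold W1
  rw [card_image_of_injOn, card_range]
  intro r hr r' hr' he
  rw [coe_range, Set.mem_Iio] at hr hr'
  exact cast_inj_lt (by omega) (by omega) (add_left_cancel he)

lemma card_W2 {Q h : ℕ} (hQ : h ≤ Q) (c : ZMod Q) : (W2 Q h c).card = h := by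
  unfold W2
  rw [card_image_of_injOn, card_range]
  intro r hr r' hr' he
  rw [coe_range, Set.mem_Iio] at hr hr'
  exact cast_inj_lt (by omega) (by omega) (sub_right_injective he)

lemma W1_sub_W2 {Q H : ℕ} (c x : ZMod Q) (j : ℕ) (hj : j ≤ 1)
    (hx : x ∈ W1 Q H (c + (j * H : ℕ))) :
    x ∈ W2 Q (2 * H) (c + ((2 * H - 1 : ℕ) : ZMod Q)) := by
  unfold W1 at hx
  rw [mem_image] at hx
  obtain ⟨r, hr, rfl⟩ := hx
  rw [mem_range] at hr
  unfold W2
  rw [mem_image]
  have hb : j * H ≤ H := by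
    calc j * H ≤ 1 * H := Nat.mul_le_mul_right _ hj
      _ = H := one_mul _
  refine ⟨2 * H - 1 - (j * H + r), mem_range.2 (by omega), ?_⟩
  have h3 : ((2 * H - 1 : ℕ) : ZMod Q) = ((2 * H - 1 - (j * H + r) : ℕ) : ZMod Q)
      + ((j * H : ℕ) : ZMod Q) + (r : ZMod Q) := by
    rw [← Nat.cast_add, ← Nat.cast_add]; congr 1; omega
  rw [h3]
  ring

/-- the relation of class `i` at the middle -/
def Amid (Q q0 i : ℕ) : Set (ZMod Q) := {c | ∃ r < q0, c = ((i * q0 + r : ℕ) : ZMod Q)}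

/-- windows -/
def WW (n Q k h : ℕ) (s c0 : ZMod Q) (v : Finset (Fin n)) : Finset (ZMod Q) :=
  if v.card = k then W2 Q h c0 else W1 Q h (s + c0)

lemma card_WW {n Q k h : ℕ} (hQ : h ≤ Q) (s c0 : ZMod Q) (v : Finset (Fin n)) :
    (WW n Q k h s c0 v).card = h := by
  unfold WW
  split_ifs
  · exact card_W2 hQ c0
  · exact card_W1 hQ _

lemma open_of_marked {n Q k H : ℕ} (i : ℕ) (c0 : ZMod Q) (ψ : Finset (Fin n) → ZMod Q)
    {x y : Finset (Fin n)} (hx : x.card = k) (hy : y.card = k + 1)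
    (h1' : mkp (WW n Q k (2 * H) ((i * (4 * H) : ℕ) : ZMod Q) c0) ψ x)
    (h2' : mkp (WW n Q k (2 * H) ((i * (4 * H) : ℕ) : ZMod Q) c0) ψ y) :
    rel (Amid Q (4 * H) i) (ψ x) (ψ y) := by
  unfold mkp WW at h1' h2'
  rw [if_pos hx] at h1'
  rw [if_neg (by omega)] at h2'
  unfold W2 at h1'
  unfold W1 at h2'
  rw [mem_image] at h1' h2'
  obtain ⟨r, hr, hrx⟩ := h1'
  obtain ⟨r', hr', hry⟩ := h2'
  rw [mem_range] at hr hr'
  unfold rel Amid
  refine ⟨r + r', by omega, ?_⟩
  rw [← hrx, ← hry]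
  push_cast
  ring

section lll

variable {n : ℕ} {κ : Type*} [Fintype κ] [Nonempty κ]

theorem lll_local (Bad : Finset (Fin n) → (Finset (Fin n) → κ) → Prop) (R : ℕ)
    (hdep : ∀ v, Dep (Bad v) (ham v R)) (pb : ℝ) (hP : ∀ v, P (Bad v) ≤ pb)
    (hL : 4 * pb * ((n + 1) ^ (R + R) : ℕ) ≤ 1) :
    ∃ ψ : Finset (Fin n) → κ, ∀ v, ¬ Bad v ψ := by
  classical
  refine lll Bad (fun v => ham v R) hdep pb ((n+1)^(R+R)) (Nat.one_le_pow _ _ (by omega)) hP ?_ hL
  intro v
  refine le_trans (card_le_card ?_) (card_ham v (R+R))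
  intro w hw
  rw [mem_filter] at hw
  exact ham_inter v w R hw.2

lemma P_false : P (fun _ : Finset (Fin n) → κ => False) = 0 := by
  unfold P
  simp [E_const]

end lll

section events

variable {n k Q H m : ℕ} [NeZero Q]

/-- few parallel moves -/
def BadPar (k Q H m B : ℕ) [NeZero Q] (v : Finset (Fin n)) (ψ : Finset (Fin n) → ZMod Q) : Prop :=
  ∃ x ∈ (univ : Finset (Fin m × ZMod Q × Fin n × Fin n)), (v.card = k ∨ v.card = k + 1) ∧
    sep2 x.2.2.1 x.2.2.2 v ∧
    (goods (mkp (WW n Q k (2 * H) ((x.1.val * (4 * H) : ℕ) : ZMod Q) x.2.1) ψ) k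
      x.2.2.1 x.2.2.2 v).card < B

/-- a label window missing above `v` -/
def BadStar (k Q H : ℕ) [NeZero Q] (v : Finset (Fin n)) (ψ : Finset (Fin n) → ZMod Q) : Prop :=
  ∃ c ∈ (univ : Finset (ZMod Q)), v.card + 1 = k ∧ ∀ w ∈ up v, ψ w ∉ W1 Q H c

/-- no join -/
def BadJoin (k Q H m r T0 : ℕ) [NeZero Q] (v : Finset (Fin n)) (ψ : Finset (Fin n) → ZMod Q) : Prop :=
  ∃ x ∈ (univ : Finset (Fin m × ZMod Q × Fin n × Fin n)), v.card = k ∧
    sep2 x.2.2.1 x.2.2.2 v ∧
    (T0 ≤ (Rch (mkp (WW n Q k (2 * H) ((x.1.val * (4 * H) : ℕ) : ZMod Q) x.2.1) ψ) k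
      x.2.2.1 x.2.2.2 v r).card ∧
    ∀ z ∈ Rch (mkp (WW n Q k (2 * H) ((x.1.val * (4 * H) : ℕ) : ZMod Q) x.2.1) ψ) k
      x.2.2.1 x.2.2.2 v r,
      ¬ mkp (WW n Q k (2 * H) ((x.1.val * (4 * H) : ℕ) : ZMod Q) x.2.1) ψ (insert x.2.2.2 z))

lemma card_idx : ((univ : Finset (Fin m × ZMod Q × Fin n × Fin n)).card : ℝ)
    = m * (Q * (n * n)) := by
  rw [card_univ, Fintype.card_prod, Fintype.card_prod, Fintype.card_prod, Fintype.card_fin,
    Fintype.card_fin, ZMod.card]
  push_cast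
  ring

lemma P_BadPar (hn : n = 2 * k + 1) (hk : 0 < k) (hh : 0 < H) (hQ : 2 * H ≤ Q) (B : ℕ)
    (hB : (B:ℝ) ≤ k * (((2 * H : ℕ) : ℝ) / Q) ^ 2 / 2) (v : Finset (Fin n)) :
    P (BadPar k Q H m B v)
      ≤ m * (Q * (n * n)) * (2 * Real.exp (-(k * (((2 * H : ℕ) : ℝ) / Q) ^ 2 / 16))) := by
  unfold BadPar
  refine (P_exists _ _).trans ?_
  rw [← card_idx, ← nsmul_eq_mul, ← sum_const]
  refine sum_le_sum (fun x _ => ?_)
  by_cases hx : (v.card = k ∨ v.card = k + 1) ∧ sep2 x.2.2.1 x.2.2.2 v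
  · have hab : x.2.2.1 ≠ x.2.2.2 := fun h => hx.2.2 (h ▸ hx.2.1)
    have := P_par hn hk (WW n Q k (2 * H) ((x.1.val * (4 * H) : ℕ) : ZMod Q) x.2.1) (2 * H)
      (fun v => card_WW hQ _ _ v) (by omega) hab hx.2 hx.1 B (by rw [ZMod.card]; exact hB)
    rw [ZMod.card] at this
    exact (P_mono (fun ψ h => h.2.2)).trans this
  · refine (P_mono (B := fun _ => False) (fun ψ h => hx ⟨h.1, h.2.1⟩)).trans ?_
    rw [P_false]
    positivity

lemma P_BadStar (hn : n = 2 * k + 1) (hQ : H ≤ Q) (v : Finset (Fin n)) :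
    P (BadStar k Q H v) ≤ Q * Real.exp (-((H:ℝ) / Q * (k + 2))) := by
  unfold BadStar
  refine (P_exists _ _).trans ?_
  have hc : ((univ : Finset (ZMod Q)).card : ℝ) = Q := by rw [card_univ, ZMod.card]
  rw [← hc, ← nsmul_eq_mul, ← sum_const, hc]
  refine sum_le_sum (fun c _ => ?_)
  by_cases hx : v.card + 1 = k
  · have h2 := P_none_le (V := Finset (Fin n)) (fun _ => W1 Q H c) H (fun _ => card_W1 hQ c) (up v)
    rw [ZMod.card, card_up] at h2
    refine (P_mono (fun ψ h => h.2)).trans (h2.trans ?_)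
    apply Real.exp_le_exp.2
    apply neg_le_neg
    apply mul_le_mul_of_nonneg_left _ (by positivity)
    have : ((n - v.card : ℕ) : ℝ) = (k:ℝ) + 2 := by
      have h3 : n - v.card = k + 2 := by omega
      rw [h3]; push_cast; ring
    rw [this]
  · refine (P_mono (B := fun _ => False) (fun ψ h => hx h.1)).trans ?_
    rw [P_false]
    positivity

lemma P_BadJoin (hQ : 2 * H ≤ Q) (r T0 : ℕ) (v : Finset (Fin n)) :
    P (BadJoin k Q H m r T0 v)
      ≤ m * (Q * (n * n)) * Real.exp (-(((2 * H : ℕ) : ℝ) / Q * T0)) := by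
  unfold BadJoin
  refine (P_exists _ _).trans ?_
  rw [← card_idx, ← nsmul_eq_mul, ← sum_const]
  refine sum_le_sum (fun x _ => ?_)
  by_cases hx : sep2 x.2.2.1 x.2.2.2 v
  · have hab : x.2.2.1 ≠ x.2.2.2 := fun h => hx.2 (h ▸ hx.1)
    have := P_join (k := k) (WW n Q k (2 * H) ((x.1.val * (4 * H) : ℕ) : ZMod Q) x.2.1) (2 * H)
      (fun v => card_WW hQ _ _ v) hab hx r T0
    rw [ZMod.card] at this
    exact (P_mono (fun ψ h => h.2.2)).trans this
  · refine (P_mono (B := fun _ => False) (fun ψ h => hx h.2.1)).trans ?_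
    rw [P_false]
    positivity

lemma goods_congr {mk mk' : Finset (Fin n) → Prop} {k : ℕ} {a b : Fin n} {z : Finset (Fin n)}
    (hab : a ≠ b) (h : ∀ w ∈ ham z 3, (mk w ↔ mk' w)) : goods mk k a b z = goods mk' k a b z := by
  classical
  ext e
  unfold goods
  rw [mem_filter, mem_filter]
  apply and_congr_right
  intro _
  have h1 : tg z e ∈ ham z 3 := ham_mono (by norm_num) (tg_mem_ham z e)
  have h2 : sw a b (tg z e) ∈ ham z 3 := by
    have : sw a b (tg z e) ∈ ham (tg z e) 2 := by rw [mem_ham]; exact (sw_dist a b _ hab).le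
    have h3 := ham_trans (tg_mem_ham z e) this
    exact h3
  rw [h _ h1, h _ h2]

lemma dep_BadPar (B : ℕ) (v : Finset (Fin n)) : Dep (BadPar k Q H m B v) (ham v 3) := by
  intro φ ψ h
  unfold BadPar
  apply propext
  apply exists_congr
  intro x
  apply and_congr_right
  intro _
  apply and_congr_right
  intro _
  apply and_congr_right
  intro hs
  have hab : x.2.2.1 ≠ x.2.2.2 := fun h => hs.2 (h ▸ hs.1)
  rw [goods_congr hab (mk' := mkp (WW n Q k (2 * H) ((x.1.val * (4 * H) : ℕ) : ZMod Q) x.2.1) ψ)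
    (fun w hw => by unfold mkp; rw [h w hw])]

lemma dep_BadStar (v : Finset (Fin n)) : Dep (BadStar k Q H v) (ham v 1) := by
  intro φ ψ h
  unfold BadStar
  apply propext
  apply exists_congr
  intro c
  apply and_congr_right
  intro _
  apply and_congr_right
  intro _
  have : ∀ w ∈ up v, φ w = ψ w := by
    intro w hw
    apply h
    rw [mem_ham]
    exact up_symmDiff hw
  constructor
  · intro h2 w hw
    rw [← this w hw]; exact h2 w hw
  · intro h2 w hw
    rw [this w hw]; exact h2 w hw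

lemma dep_BadJoin (r T0 : ℕ) (v : Finset (Fin n)) :
    Dep (BadJoin k Q H m r T0 v) (ham v (r + 2)) := by
  intro φ ψ h
  unfold BadJoin
  apply propext
  apply exists_congr
  intro x
  apply and_congr_right
  intro _
  apply and_congr_right
  intro _
  apply and_congr_right
  intro hs
  have hab : x.2.2.1 ≠ x.2.2.2 := fun h => hs.2 (h ▸ hs.1)
  have hR : Rch (mkp (WW n Q k (2 * H) ((x.1.val * (4 * H) : ℕ) : ZMod Q) x.2.1) φ) k
      x.2.2.1 x.2.2.2 v r
      = Rch (mkp (WW n Q k (2 * H) ((x.1.val * (4 * H) : ℕ) : ZMod Q) x.2.1) ψ) k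
      x.2.2.1 x.2.2.2 v r :=
    Rch_congr hab hs r (fun w hw _ => by unfold mkp; rw [h w hw])
  rw [hR]
  have hz : ∀ z ∈ Rch (mkp (WW n Q k (2 * H) ((x.1.val * (4 * H) : ℕ) : ZMod Q) x.2.1) ψ) k
      x.2.2.1 x.2.2.2 v r, φ (insert x.2.2.2 z) = ψ (insert x.2.2.2 z) := by
    intro z hz
    apply h
    obtain ⟨s1, s2⟩ := Rch_inv hab hs r z hz
    have h1 : z ∈ ham v r := by rw [mem_ham]; omega
    have h2 : insert x.2.2.2 z ∈ ham z 1 := by
      rw [← tg_of_notMem s1.2]; exact tg_mem_ham _ _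
    exact ham_mono (by omega) (ham_trans h1 h2)
  apply and_congr_right
  intro _
  constructor
  · intro h2 z hz'
    unfold mkp at h2 ⊢
    have := h2 z hz'
    rwa [hz z hz'] at this
  · intro h2 z hz'
    unfold mkp at h2 ⊢
    have := h2 z hz'
    rwa [← hz z hz'] at this

/-- local connectivity -/
theorem local_conn (hn : n = 2 * k + 1) (hk : 0 < k) (hh : 0 < H) (B r T0 : ℕ)
    (hr : Even r) (hT0 : T0 * r.factorial ≤ B ^ r)
    (ψ : Finset (Fin n) → ZMod Q) (hpar : ∀ v, ¬ BadPar k Q H m (B + r) v ψ)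
    (hstar : ∀ v, ¬ BadStar k Q H v ψ) (hjoin : ∀ v, ¬ BadJoin k Q H m r T0 v ψ) (i : Fin m)
    (S : Finset (Finset (Fin n))) (hS : ∀ u ∈ S, u.card = k) (u : Finset (Fin n)) (hu : u ∈ S)
    (v : Finset (Fin n)) (hv : v.card = k) (hvS : v ∉ S) (huv : (u ∆ v).card = 2) :
    ∃ x ∈ S, ∃ x' : Finset (Fin n), x'.card = k ∧ x' ∉ S ∧
        ∃ y, y ∈ up x ∧ y ∈ up x' ∧ rel (Amid Q (4 * H) i.val) (ψ x) (ψ y) ∧
          rel (Amid Q (4 * H) i.val) (ψ x') (ψ y) ∧ x' ∈ ham u (r + 4) := by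
  classical
  by_contra hcon
  have huc := hS u hu
  set z0 := u ∩ v with hz0
  have hz0c : z0.card + 1 = k := by
    have h1 := card_sdiff_add_card_inter u v
    have h2 := card_sdiff_add_card_inter v u
    rw [inter_comm] at h2
    rw [← hz0] at h1 h2
    have h3 : (u ∆ v).card = (u \ v).card + (v \ u).card := by
      rw [symmDiff_def, sup_eq_union, card_union_of_disjoint disjoint_sdiff_sdiff]
    omega
  have hupmem : ∀ w : Finset (Fin n), w ∈ up z0 ↔ z0 ⊆ w ∧ w.card = k := by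
    intro w
    rw [mem_up, hz0c]
  -- two marked vertices of the star
  have hNC : ∀ c0 : ZMod Q, ∀ w ∈ up z0, ∀ w' ∈ up z0, ψ w ∈ W2 Q (2 * H) c0 →
      ψ w' ∈ W2 Q (2 * H) c0 → w ∈ S → w' ∈ S := by
    intro c0 w hw w' hw' hm hm' hwS
    by_contra hw'S
    rw [hupmem] at hw hw'
    have hne : w ≠ w' := fun h => hw'S (h ▸ hwS)
    have h1 : (w \ z0).card = 1 := by rw [card_sdiff_of_subset hw.1]; omega
    have h2 : (w' \ z0).card = 1 := by rw [card_sdiff_of_subset hw'.1]; omega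
    obtain ⟨a, ha⟩ := card_eq_one.1 h1
    obtain ⟨b, hb⟩ := card_eq_one.1 h2
    have hw1 : w = insert a z0 := by
      rw [← sdiff_union_of_subset hw.1, ha]; rfl
    have hw2 : w' = insert b z0 := by
      rw [← sdiff_union_of_subset hw'.1, hb]; rfl
    have ha0 : a ∉ z0 := by
      have : a ∈ w \ z0 := by rw [ha]; exact mem_singleton_self a
      exact (mem_sdiff.1 this).2
    have hb0 : b ∉ z0 := by
      have : b ∈ w' \ z0 := by rw [hb]; exact mem_singleton_self b
      exact (mem_sdiff.1 this).2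
    have hab : a ≠ b := fun h => hne (by rw [hw1, hw2, h])
    have hs : sep2 a b w := by
      rw [hw1]
      exact ⟨mem_insert_self _ _, fun h => by
        rcases mem_insert.1 h with h | h
        · exact hab h.symm
        · exact hb0 h⟩
    have hsw : w' = sw a b w := by
      rw [sw_eq hab hs, hw1, erase_insert ha0, hw2]
    set Win := WW n Q k (2 * H) ((i.val * (4 * H) : ℕ) : ZMod Q) c0 with hWin
    have hmw : mkp Win ψ w := by
      unfold mkp; rw [hWin]; unfold WW; rw [if_pos hw.2]; exact hm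
    have hmw' : mkp Win ψ (sw a b w) := by
      rw [← hsw]
      unfold mkp; rw [hWin]; unfold WW; rw [if_pos hw'.2]; exact hm'
    have hgood : ∀ z : Finset (Fin n), (z.card = k ∨ z.card = k + 1) → sep2 a b z →
        B + r ≤ (goods (mkp Win ψ) k a b z).card := by
      intro z hz1 hz2
      by_contra hlt
      push Not at hlt
      exact hpar z ⟨(i, c0, a, b), mem_univ _, hz1, hz2, hlt⟩
    have hcard := Rch_card hab hs hw.2 B r hgood r le_rfl
    have hT : T0 ≤ (Rch (mkp Win ψ) k a b w r).card :=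
      Nat.le_of_mul_le_mul_right (hT0.trans hcard) (Nat.factorial_pos r)
    have hj : ∃ z ∈ Rch (mkp Win ψ) k a b w r, mkp Win ψ (insert b z) := by
      by_contra hno
      push Not at hno
      exact hjoin w ⟨(i, c0, a, b), mem_univ _, hw.2, hs, hT, hno⟩
    obtain ⟨x, hx, x', hx'1, hx'2, y, hy, hxy, hx'y, m1, m2, m3, hham⟩ :=
      cross_of_join hab hs hw.2 S hS r hr hmw hmw' hwS (hsw ▸ hw'S) hj
    apply hcon
    refine ⟨x, hx, x', hx'1, hx'2, y, ?_, ?_, ?_, ?_, ?_⟩
    · rw [mem_up, hS x hx]; exact ⟨hxy, hy⟩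
    · rw [mem_up, hx'1]; exact ⟨hx'y, hy⟩
    · exact open_of_marked i.val c0 ψ (hS x hx) hy m1 m3
    · exact open_of_marked i.val c0 ψ hx'1 hy m2 m3
    · have h3 : w ∈ ham u 2 := by
        have h4 : z0 ∈ ham u 1 := by
          rw [mem_ham]
          have : u ∆ z0 = u \ z0 := by
            rw [symmDiff_def, sup_eq_union]
            have : z0 \ u = ∅ := sdiff_eq_empty_iff_subset.2 inter_subset_left
            rw [this, union_empty]
          rw [this, card_sdiff_of_subset (show z0 ⊆ u from inter_subset_left)]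
          omega
        have h5 : w ∈ ham z0 1 := by
          rw [mem_ham]
          exact up_symmDiff ((hupmem w).2 hw)
        exact ham_trans h4 h5
      have := ham_trans h3 hham
      exact ham_mono (by omega) this
  -- go around the windows
  set c := ψ u with hc
  have huup : u ∈ up z0 := (hupmem u).2 ⟨inter_subset_left, huc⟩
  have hvup : v ∈ up z0 := (hupmem v).2 ⟨inter_subset_right, hv⟩
  have key : ∀ j : ℕ, ∀ w ∈ up z0, ψ w ∈ W1 Q H (c + (j * H : ℕ)) → w ∈ S := by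
    intro j
    induction j with
    | zero =>
      intro w hw hm
      rw [zero_mul, Nat.cast_zero, add_zero] at hm
      refine hNC (c + ((2 * H - 1 : ℕ) : ZMod Q)) u huup w hw ?_ ?_ hu
      · apply W1_sub_W2 c _ 0 (by norm_num)
        rw [zero_mul, Nat.cast_zero, add_zero]
        unfold W1
        rw [mem_image]
        exact ⟨0, mem_range.2 hh, by rw [Nat.cast_zero, add_zero]⟩
      · apply W1_sub_W2 c _ 0 (by norm_num)
        rw [zero_mul, Nat.cast_zero, add_zero]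
        exact hm
    | succ j ih =>
      intro w hw hm
      have hex : ∃ w' ∈ up z0, ψ w' ∈ W1 Q H (c + (j * H : ℕ)) := by
        by_contra hno
        push Not at hno
        exact hstar z0 ⟨c + (j * H : ℕ), mem_univ _, hz0c, hno⟩
      obtain ⟨w', hw', hm'⟩ := hex
      refine hNC (c + (j * H : ℕ) + ((2 * H - 1 : ℕ) : ZMod Q)) w' hw' w hw ?_ ?_ (ih w' hw' hm')
      · apply W1_sub_W2 _ _ 0 (by norm_num)
        rw [zero_mul, Nat.cast_zero, add_zero]
        exact hm'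
      · apply W1_sub_W2 _ _ 1 le_rfl
        have : c + ((j * H : ℕ) : ZMod Q) + ((1 * H : ℕ) : ZMod Q)
            = c + (((j + 1) * H : ℕ) : ZMod Q) := by
          push_cast; ring
        rw [this]; exact hm
  apply hvS
  apply key ((ψ v - c).val / H) v hvup
  unfold W1
  rw [mem_image]
  refine ⟨(ψ v - c).val % H, mem_range.2 (Nat.mod_lt _ hh), ?_⟩
  have h1' : ((ψ v - c).val / H) * H + (ψ v - c).val % H = (ψ v - c).val :=
    Nat.div_add_mod' _ _
  have h2 : (((ψ v - c).val / H * H : ℕ) : ZMod Q) + (((ψ v - c).val % H : ℕ) : ZMod Q)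
      = ψ v - c := by
    rw [← Nat.cast_add, h1', ZMod.natCast_zmod_val]
  rw [add_assoc, h2]
  ring

end events

end Pool.Agent.SK
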