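import Pool.Agent.Lib.MP_5fcc10_co.OddE

/-! The middle pair of levels: environment, labels, perfect matching, separation. -/

set_option linter.unusedSectionVars false

namespace Pool.Agent.SK

open Finset
open scoped symmDiff

lemma env_gen {g : ℕ} {β : ℝ} {n t : ℕ} {κ : Type} [AddCommGroup κ] [Fintype κ] (A : Set κ)
    (q : ℕ) (hreg : Reg (rel A) q) (δ : ℝ)
    (hδ : δ = (q : ℝ) / (Fintype.card κ : ℝ)) (hβ : 4 ≤ β) (htn : t < n) (hn : (n:ℝ) + 1 ≤ β ^ g)
    (hn4 : β ^ 4 ≤ n) (h1 : β ^ 4 ≤ δ * ((n - t : ℕ) : ℝ)) (h2 : β ^ 4 ≤ δ * ((t + 1 : ℕ) : ℝ))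
    (h3 : δ * ((n - t : ℕ) : ℝ) ≤ 4 * β ^ 4) (h4 : δ * ((t + 1 : ℕ) : ℝ) ≤ 4 * β ^ 4) :
    Env g β n t κ A (Dn n t δ) := by
  have hβp : 0 < β := by linarith
  have hβ4 : 0 < β ^ 4 := by positivity
  refine ⟨by linarith, by omega, hn, hn4, ?_, ?_, ?_⟩
  · intro c; unfold Dn; split_ifs <;> assumption
  · intro c; unfold Dn; split_ifs <;> assumption
  · intro v hv
    have hexp : ∀ X : ℝ, β ^ 4 ≤ X → 2 * Real.exp (-((1/β) ^ 2 * X / 4)) ≤ 2 * Real.exp (-β) := by
      intro X hX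
      apply mul_le_mul_of_nonneg_left _ (by norm_num)
      apply Real.exp_le_exp.2
      apply neg_le_neg
      rw [le_div_iff₀ (by norm_num), div_pow, one_pow, one_div, inv_mul_eq_div,
        le_div_iff₀ (by positivity)]
      refine le_trans ?_ hX
      have : β * 4 * β ^ 2 = 4 * β ^ 3 := by ring
      rw [this]
      have : β ^ 4 = β * β ^ 3 := by ring
      rw [this]
      exact mul_le_mul_of_nonneg_right hβ (by positivity)
    rcases hv with hv | hv
    · have hpos : 0 < δ * ((lev n t).d1 : ℝ) := lt_of_lt_of_le hβ4 h1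
      have htail := st1_tail (V := Finset (Fin n)) (κ := κ) (lev n t) (rel A) q
        hreg δ hδ v (lev_X.2 hv) (1/β) (by positivity) (by
          rw [div_le_one hβp]; linarith) hpos
      refine le_trans (P_mono (fun ψ hψ => ?_)) (htail.trans (hexp _ h1))
      rw [hv, Dn_low] at hψ
      have hd : (lev n t).d1 = n - t := rfl
      rw [hd]
      rw [hd] at hpos
      have e1 : st1 (lev n t) (rel A) δ ψ v = dg t A ψ v
          - δ * ((n - t : ℕ) : ℝ) := by
        unfold st1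
        rw [sum_sub_distrib, sum_const, (lev n t).c1 v (lev_X.2 hv), nsmul_eq_mul, dg_low ψ hv]
        have : (lev n t).d1 = n - t := rfl
        rw [this]
        change ∑ y ∈ up v, _ - _ = _
        ring
      rw [e1]
      have e2 : dg t A ψ v / (δ * ((n - t : ℕ) : ℝ)) - 1
          = (dg t A ψ v - δ * ((n - t : ℕ) : ℝ)) / (δ * ((n - t : ℕ) : ℝ)) := by
        rw [sub_div, div_self hpos.ne']
      rw [e2, abs_div, abs_of_pos hpos, lt_div_iff₀ hpos] at hψ
      exact hψ
    · have hpos : 0 < δ * ((lev n t).swap.d1 : ℝ) := lt_of_lt_of_le hβ4 h2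
      have htail := st1_tail (V := Finset (Fin n)) (κ := κ) (lev n t).swap
        (fun x y => rel A y x) q
        ⟨hreg.2, hreg.1⟩ δ hδ v (lev_Y.2 hv) (1/β) (by positivity) (by
          rw [div_le_one hβp]; linarith) hpos
      refine le_trans (P_mono (fun ψ hψ => ?_)) (htail.trans (hexp _ h2))
      rw [hv, Dn_high] at hψ
      have hd : (lev n t).swap.d1 = t + 1 := rfl
      rw [hd]
      rw [hd] at hpos
      have e1 : st1 (lev n t).swap (fun x y => rel A y x) δ ψ v
          = dg t A ψ v - δ * ((t + 1 : ℕ) : ℝ) := by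
        unfold st1
        rw [sum_sub_distrib, sum_const, (lev n t).swap.c1 v (lev_Y.2 hv), nsmul_eq_mul,
          dg_high ψ hv]
        have : (lev n t).swap.d1 = t + 1 := rfl
        rw [this]
        change ∑ y ∈ dn v, gg (rel A) ψ y v - _ = _
        ring
      rw [e1]
      have e2 : dg t A ψ v / (δ * ((t + 1 : ℕ) : ℝ)) - 1
          = (dg t A ψ v - δ * ((t + 1 : ℕ) : ℝ)) / (δ * ((t + 1 : ℕ) : ℝ)) := by
        rw [sub_div, div_self hpos.ne']
      rw [e2, abs_div, abs_of_pos hpos, lt_div_iff₀ hpos] at hψ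
      exact hψ

open Classical in
lemma reg_Amid {Q q0 : ℕ} [NeZero Q] (hq : q0 ≤ Q) (i : ℕ) : Reg (rel (Amid Q q0 i)) q0 := by
  have hinj : ∀ r < q0, ∀ r' < q0, ((i * q0 + r : ℕ) : ZMod Q) = ((i * q0 + r' : ℕ) : ZMod Q) →
      r = r' := by
    intro r hr r' hr' h
    push_cast at h
    exact cast_inj_lt (by omega) (by omega) (add_left_cancel h)
  constructor
  · intro a
    have h1 : (univ.filter (fun b : ZMod Q => rel (Amid Q q0 i) a b))
        = (range q0).image (fun r : ℕ => a + ((i * q0 + r : ℕ) : ZMod Q)) := by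
      ext b
      rw [mem_filter, mem_image]
      unfold rel Amid
      constructor
      · rintro ⟨_, r, hr, hb⟩
        exact ⟨r, mem_range.2 hr, by rw [← hb]; abel⟩
      · rintro ⟨r, hr, hb⟩
        exact ⟨mem_univ _, r, mem_range.1 hr, by rw [← hb]; abel⟩
    rw [h1, card_image_of_injOn, card_range]
    intro r hr r' hr' he
    rw [coe_range, Set.mem_Iio] at hr hr'
    exact hinj r hr r' hr' (add_left_cancel he)
  · intro b
    have h1 : (univ.filter (fun a : ZMod Q => rel (Amid Q q0 i) a b))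
        = (range q0).image (fun r : ℕ => b - ((i * q0 + r : ℕ) : ZMod Q)) := by
      ext a
      rw [mem_filter, mem_image]
      unfold rel Amid
      constructor
      · rintro ⟨_, r, hr, hb⟩
        exact ⟨r, mem_range.2 hr, by rw [← hb]; abel⟩
      · rintro ⟨r, hr, hb⟩
        exact ⟨mem_univ _, r, mem_range.1 hr, by rw [← hb]; abel⟩
    rw [h1, card_image_of_injOn, card_range]
    intro r hr r' hr' he
    rw [coe_range, Set.mem_Iio] at hr hr'
    exact hinj r hr r' hr' (sub_right_injective he)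

/-- difference of labels along a path which crosses the middle -/
lemma comp_rel_mid {Q q0 k : ℕ} (i : ℕ) {s t : ℕ} {x y : ZMod Q}
    (h : Comp (fun u => if u = k then rel (Amid Q q0 i) else rel ({(i : ZMod Q)} : Set (ZMod Q)))
      s t x y) :
    (¬ (s ≤ k ∧ k < t) → y - x = (((t - s) * i : ℕ) : ZMod Q)) ∧
    ((s ≤ k ∧ k < t) → ∃ r < q0, y - x = (((t - s - 1) * i + (i * q0 + r) : ℕ) : ZMod Q)) := by
  induction h with
  | refl s =>
    constructor
    · intro _; simp
    · intro h; omega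
  | step t x y z h3 h4 ih =>
    have hst := h3.le
    by_cases htk : t = k
    · rw [if_pos htk] at h4
      obtain ⟨r, hr, h4⟩ := h4
      constructor
      · intro h; omega
      · intro _
        refine ⟨r, hr, ?_⟩
        have h5 := ih.1 (by omega)
        have e1 : t + 1 - s - 1 = t - s := by omega
        rw [e1, Nat.cast_add, ← h5, ← h4]
        abel
    · rw [if_neg htk] at h4
      have h5 : z - y = (i : ZMod Q) := h4
      constructor
      · intro h
        have h6 := ih.1 (by omega)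
        have e1 : t + 1 - s = (t - s) + 1 := by omega
        rw [e1, add_mul, one_mul, Nat.cast_add, ← h6, ← h5]
        abel
      · intro h
        obtain ⟨r, hr, h6⟩ := ih.2 (by omega)
        refine ⟨r, hr, ?_⟩
        have e1 : t + 1 - s - 1 = (t - s - 1) + 1 := by omega
        have e2 : (t - s - 1 + 1) * i + (i * q0 + r) = ((t - s - 1) * i + (i * q0 + r)) + i := by
          ring
        rw [e1, e2, Nat.cast_add, ← h6, ← h5]
        abel

lemma sep_mid (Q q0 k m lo hi : ℕ) (hm : m * (hi - lo + q0) ≤ Q)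
    (hq0 : 0 < q0) (i j : Fin m) (hij : i ≠ j) (s t : ℕ) (hs : lo ≤ s) (hst : s < t) (ht : t ≤ hi)
    (x y : ZMod Q)
    (h1 : Comp (fun u => if u = k then rel (Amid Q q0 i.val)
      else rel ({(i.val : ZMod Q)} : Set (ZMod Q))) s t x y)
    (h2 : Comp (fun u => if u = k then rel (Amid Q q0 j.val)
      else rel ({(j.val : ZMod Q)} : Set (ZMod Q))) s t x y) : False := by
  have c1 := comp_rel_mid _ h1
  have c2 := comp_rel_mid _ h2
  have hi1 := i.2
  have hj1 := j.2
  have hQ : ∀ a : ℕ, a < m → ∀ d : ℕ, d ≤ hi - lo + q0 → (a + 1) * d ≤ Q := by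
    intro a ha d hd
    exact (Nat.mul_le_mul (by omega : a + 1 ≤ m) hd).trans hm
  have inj : ∀ a b : ℕ, a < Q → b < Q → (a : ZMod Q) = (b : ZMod Q) → a = b :=
    fun a b ha hb h => cast_inj_lt ha hb h
  by_cases hc : s ≤ k ∧ k < t
  · obtain ⟨r, hr, e1⟩ := c1.2 hc
    obtain ⟨r', hr', e2⟩ := c2.2 hc
    have hd1 : 0 < t - s - 1 + q0 := by omega
    have hd2 : t - s - 1 + q0 ≤ hi - lo + q0 := by omega
    have f1 : (t - s - 1) * i.val + (i.val * q0 + r) = i.val * (t - s - 1 + q0) + r := by ring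
    have f2 : (t - s - 1) * j.val + (j.val * q0 + r') = j.val * (t - s - 1 + q0) + r' := by ring
    rw [f1] at e1
    rw [f2] at e2
    have b1 : i.val * (t - s - 1 + q0) + r < Q := by
      have := hQ i.val hi1 _ hd2
      rw [add_mul, one_mul] at this
      omega
    have b2 : j.val * (t - s - 1 + q0) + r' < Q := by
      have := hQ j.val hj1 _ hd2
      rw [add_mul, one_mul] at this
      omega
    have e3 := inj _ _ b1 b2 (e1.symm.trans e2)
    have g1 : (i.val * (t - s - 1 + q0) + r) / (t - s - 1 + q0) = i.val := by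
      rw [mul_comm, Nat.mul_add_div hd1, Nat.div_eq_of_lt (by omega), add_zero]
    have g2 : (j.val * (t - s - 1 + q0) + r') / (t - s - 1 + q0) = j.val := by
      rw [mul_comm, Nat.mul_add_div hd1, Nat.div_eq_of_lt (by omega), add_zero]
    rw [e3, g2] at g1
    exact hij (Fin.ext g1.symm)
  · have e1 := c1.1 hc
    have e2 := c2.1 hc
    have hd1 : 0 < t - s := by omega
    have hd2 : t - s ≤ hi - lo + q0 := by omega
    have b1 : (t - s) * i.val < Q := by
      have := hQ i.val hi1 _ hd2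
      rw [add_mul, one_mul] at this
      rw [mul_comm]
      omega
    have b2 : (t - s) * j.val < Q := by
      have := hQ j.val hj1 _ hd2
      rw [add_mul, one_mul] at this
      rw [mul_comm]
      omega
    have e3 := inj _ _ b1 b2 (e1.symm.trans e2)
    exact hij (Fin.ext (Nat.eq_of_mul_eq_mul_left hd1 e3))

theorem exists_labels_odd {n m lo hi : ℕ} {κ : Type} [AddCommGroup κ] [Fintype κ]
    (A : Fin m → ℕ → Set κ) {K : ℝ} {Ms R C : ℕ} (βf : ℕ → ℝ)
    (Dl : ℕ → ℕ → ℝ) (h : Fin m → ℕ → (Finset (Fin n) → κ) → Finset (Fin n) → ℝ)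
    (k : Fin m → ℕ → ℕ → ℝ) (Bd : Fin m → ℕ → Finset (Fin n) → (Finset (Fin n) → κ) → Prop)
    (ho : ∀ i t, lo ≤ t → t < hi →
      Out Ms K R C (βf t) n t κ (A i t) (Dl t) (h i t) (k i t) (Bd i t))
    (pb : ℝ) (hpb0 : 0 ≤ pb)
    (hpb : ∀ t, lo ≤ t → t < hi → βf t ^ C * Real.exp (-(βf t)) ≤ pb)
    (Ex : Finset (Fin n) → (Finset (Fin n) → κ) → Prop) (R' : ℕ) (hRR : R ≤ R')
    (hEx : ∀ v, Dep (Ex v) (ham v R')) (pe : ℝ) (hPE : ∀ v, P (Ex v) ≤ pe)
    (hL : 4 * (m * (2 * pb) + pe) * ((n + 1) ^ (R' + R') : ℕ) ≤ 1) :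
    ∃ ψ : Finset (Fin n) → κ, (∀ i : Fin m, ∀ t, lo ≤ t → t < hi →
      ∀ v, inL t v → ¬ Bd i t v ψ) ∧ ∀ v, ¬ Ex v ψ := by
  classical
  set Av : Finset (Fin n) → (Finset (Fin n) → κ) → Prop := fun v ψ =>
    ∃ i ∈ (univ : Finset (Fin m)), ((lo ≤ v.card ∧ v.card < hi ∧ Bd i v.card v ψ) ∨
      (lo + 1 ≤ v.card ∧ v.card ≤ hi ∧ Bd i (v.card - 1) v ψ)) with hA
  have hPfalse : P (fun _ : Finset (Fin n) → κ => False) = 0 := by
    unfold P
    simp [E_const]
  have hPA : ∀ v, P (Av v) ≤ m * (2 * pb) := by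
    intro v
    have h1 := P_exists (V := Finset (Fin n)) (κ := κ) (univ : Finset (Fin m))
      (fun i ψ => ((lo ≤ v.card ∧ v.card < hi ∧ Bd i v.card v ψ) ∨
      (lo + 1 ≤ v.card ∧ v.card ≤ hi ∧ Bd i (v.card - 1) v ψ)))
    refine h1.trans ?_
    have h2 : ∀ i : Fin m, P (fun ψ : Finset (Fin n) → κ => ((lo ≤ v.card ∧ v.card < hi ∧
        Bd i v.card v ψ) ∨ (lo + 1 ≤ v.card ∧ v.card ≤ hi ∧ Bd i (v.card - 1) v ψ)))
        ≤ 2 * pb := by
      intro i
      refine (P_or _ _).trans ?_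
      have h3 : P (fun ψ : Finset (Fin n) → κ => lo ≤ v.card ∧ v.card < hi ∧
          Bd i v.card v ψ) ≤ pb := by
        by_cases hv : lo ≤ v.card ∧ v.card < hi
        · exact (P_mono (fun ψ h => h.2.2)).trans
            (((ho i v.card hv.1 hv.2).prob v (Or.inl rfl)).trans (hpb _ hv.1 hv.2))
        · refine (P_mono (B := fun _ => False) (fun ψ h => hv ⟨h.1, h.2.1⟩)).trans ?_
          rw [hPfalse]; exact hpb0
      have h4 : P (fun ψ : Finset (Fin n) → κ => lo + 1 ≤ v.card ∧ v.card ≤ hi ∧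
          Bd i (v.card - 1) v ψ) ≤ pb := by
        by_cases hv : lo + 1 ≤ v.card ∧ v.card ≤ hi
        · exact (P_mono (fun ψ h => h.2.2)).trans
            (((ho i (v.card - 1) (by omega) (by omega)).prob v (Or.inr (by omega))).trans
              (hpb _ (by omega) (by omega)))
        · refine (P_mono (B := fun _ => False) (fun ψ h => hv ⟨h.1, h.2.1⟩)).trans ?_
          rw [hPfalse]; exact hpb0
      linarith
    refine (sum_le_sum (fun i _ => h2 i)).trans ?_
    rw [sum_const, card_univ, Fintype.card_fin, nsmul_eq_mul]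
  have hdep : ∀ v, Dep (Av v) (ham v R') := by
    intro v
    have h0 : Dep (Av v) (ham v R) := by
      intro φ ψ hφψ
      simp only [hA]
      apply propext
      constructor
      · rintro ⟨i, hi', h | h⟩
        · refine ⟨i, hi', Or.inl ⟨h.1, h.2.1, ?_⟩⟩
          rw [← (ho i v.card h.1 h.2.1).dep v φ ψ hφψ]; exact h.2.2
        · refine ⟨i, hi', Or.inr ⟨h.1, h.2.1, ?_⟩⟩
          rw [← (ho i (v.card - 1) (by omega) (by omega)).dep v φ ψ hφψ]; exact h.2.2
      · rintro ⟨i, hi', h | h⟩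
        · refine ⟨i, hi', Or.inl ⟨h.1, h.2.1, ?_⟩⟩
          rw [(ho i v.card h.1 h.2.1).dep v φ ψ hφψ]; exact h.2.2
        · refine ⟨i, hi', Or.inr ⟨h.1, h.2.1, ?_⟩⟩
          rw [(ho i (v.card - 1) (by omega) (by omega)).dep v φ ψ hφψ]; exact h.2.2
    exact h0.mono (ham_mono hRR)
  have hdep2 : ∀ v, Dep (fun ψ => Av v ψ ∨ Ex v ψ) (ham v R') := by
    intro v φ ψ hφψ
    have e1 := hdep v φ ψ hφψ
    have e2 := hEx v φ ψ hφψ
    change (Av v φ ∨ Ex v φ) = (Av v ψ ∨ Ex v ψ)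
    rw [e1, e2]
  obtain ⟨ψ, hψ⟩ := lll_local (fun v ψ => Av v ψ ∨ Ex v ψ) R' hdep2 (m * (2 * pb) + pe)
    (fun v => (P_or _ _).trans (add_le_add (hPA v) (hPE v))) hL
  refine ⟨ψ, fun i t ht1 ht2 v hv hbad => ?_, fun v hv => hψ v (Or.inr hv)⟩
  apply hψ v
  left
  refine ⟨i, mem_univ _, ?_⟩
  rcases hv with hv | hv
  · left
    rw [hv]
    exact ⟨ht1, ht2, hbad⟩
  · right
    rw [hv, Nat.add_sub_cancel]
    exact ⟨by omega, by omega, hbad⟩

/-- the middle step -/
theorem mid_step {n k M b : ℕ} (hn : n = 2 * k + 1) {κ : Type} [AddCommGroup κ] [Fintype κ]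
    {A : Set κ}
    {K β : ℝ} {Ms R C : ℕ} {Dl : ℕ → ℝ} {h : (Finset (Fin n) → κ) → Finset (Fin n) → ℝ}
    {kk : ℕ → ℝ} {Bd : Finset (Fin n) → (Finset (Fin n) → κ) → Prop}
    (ho : Out Ms K R C β n k κ A Dl h kk Bd) (ψ : Finset (Fin n) → κ)
    (hψ : ∀ v, inL k v → ¬ Bd v ψ) (Δ : ℝ) (hΔ : 0 < Δ) (hD1 : Dl k = Δ) (hD2 : Dl (k + 1) = Δ)
    (hK : 0 ≤ K) (hβ : 1 ≤ β) (hKβ : K / β ≤ 1 / 8) (R1 : ℕ)
    (hLC : ∀ S : Finset (Finset (Fin n)), (∀ u ∈ S, u.card = k) → ∀ u ∈ S, ∀ v : Finset (Fin n),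
      v.card = k → v ∉ S → (u ∆ v).card = 2 → ∃ x ∈ S, ∃ x' : Finset (Fin n), x'.card = k ∧ x' ∉ S ∧
        ∃ y, y ∈ up x ∧ y ∈ up x' ∧ rel A (ψ x) (ψ y) ∧ rel A (ψ x') (ψ y) ∧ x' ∈ ham u R1)
    (hsmall : 8 * k * ((n + 1) ^ (R1 + 2) : ℕ) * (Δ * (3 * (K / β ^ (Ms + 1)))) < 1) :
    StepOK (lev n k).swap (fun x y => rel A y x) ψ ∅ (below b) M := by
  classical
  have hβp : 0 < β := by linarith
  set η := K / β ^ (Ms + 1) with hηdef
  have hη0 : 0 ≤ η := by positivity
  have hη : η ≤ 1 / 8 := by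
    refine le_trans ?_ hKβ
    apply div_le_div_of_nonneg_left hK hβp
    calc β = β ^ 1 := (pow_one β).symm
      _ ≤ β ^ (Ms+1) := pow_le_pow_right₀ hβ (by omega)
  set W : Finset (Fin n) → Finset (Fin n) → ℝ := fun x y => gg (rel A) ψ x y *
    (1 + h ψ x + h ψ y) with hW
  have hh : ∀ v, inL k v → |h ψ v| ≤ 1 / 8 := fun v hv => (ho.hf ψ hψ v hv).trans hKβ
  have rowS : ∀ x : Finset (Fin n), x.card = k → |∑ y ∈ up x, W x y - Δ * kk k| ≤ Δ * η := by
    intro x hx
    have h1 := ho.sf ψ hψ x (Or.inl hx)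
    rw [Sf_low Dl ψ (h ψ) hx, hx, hD1] at h1
    have e1 : ∑ y ∈ up x, W x y - Δ * kk k = Δ * ((∑ y ∈ up x, W x y) / Δ - kk k) := by
      field_simp
    rw [e1, abs_mul, abs_of_pos hΔ]
    exact mul_le_mul_of_nonneg_left h1 hΔ.le
  have colS : ∀ y : Finset (Fin n), y.card = k + 1 →
      |∑ x ∈ dn y, W x y - Δ * kk (k + 1)| ≤ Δ * η := by
    intro y hy
    have h1 := ho.sf ψ hψ y (Or.inr hy)
    rw [Sf_high Dl ψ (h ψ) hy, hy, hD2] at h1
    have e1 : ∑ x ∈ dn y, W x y - Δ * kk (k + 1) = Δ * ((∑ x ∈ dn y, W x y) / Δ - kk (k+1)) := by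
      field_simp
    rw [e1, abs_mul, abs_of_pos hΔ]
    exact mul_le_mul_of_nonneg_left h1 hΔ.le
  -- the two constants are close
  have hcards : (lev n k).X.card = (lev n k).Y.card := by
    change (powersetCard k (univ : Finset (Fin n))).card
      = (powersetCard (k+1) (univ : Finset (Fin n))).card
    rw [card_powersetCard, card_powersetCard, card_univ, Fintype.card_fin]
    rw [← Nat.choose_symm (by omega : k ≤ n)]
    congr 1
    omega
  have hXne : (lev n k).X.Nonempty := by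
    change (powersetCard k (univ : Finset (Fin n))).Nonempty
    apply powersetCard_nonempty.2
    rw [card_univ, Fintype.card_fin]; omega
  have hXc : (0:ℝ) < (lev n k).X.card := by exact_mod_cast card_pos.2 hXne
  have hcon : |kk (k+1) - kk k| ≤ 2 * η := by
    have h1 := sum_double (lev n k) W
    have h2 : |∑ x ∈ (lev n k).X, ∑ y ∈ (lev n k).N1 x, W x y
        - (lev n k).X.card * (Δ * kk k)| ≤ (lev n k).X.card * (Δ * η) := by
      have e1 : ∑ x ∈ (lev n k).X, ∑ y ∈ (lev n k).N1 x, W x y - (lev n k).X.card * (Δ * kk k)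
          = ∑ x ∈ (lev n k).X, (∑ y ∈ (lev n k).N1 x, W x y - Δ * kk k) := by
        rw [sum_sub_distrib, sum_const, nsmul_eq_mul]
      rw [e1]
      refine (abs_sum_le_sum_abs _ _).trans ?_
      rw [← nsmul_eq_mul, ← sum_const]
      exact sum_le_sum (fun x hx => rowS x (lev_X.1 hx))
    have h3 : |∑ y ∈ (lev n k).Y, ∑ x ∈ (lev n k).N2 y, W x y
        - (lev n k).Y.card * (Δ * kk (k+1))| ≤ (lev n k).Y.card * (Δ * η) := by
      have e1 : ∑ y ∈ (lev n k).Y, ∑ x ∈ (lev n k).N2 y, W x y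
          - (lev n k).Y.card * (Δ * kk (k+1))
          = ∑ y ∈ (lev n k).Y, (∑ x ∈ (lev n k).N2 y, W x y - Δ * kk (k+1)) := by
        rw [sum_sub_distrib, sum_const, nsmul_eq_mul]
      rw [e1]
      refine (abs_sum_le_sum_abs _ _).trans ?_
      rw [← nsmul_eq_mul, ← sum_const]
      exact sum_le_sum (fun y hy => colS y (lev_Y.1 hy))
    rw [← h1, ← hcards] at h3
    have h4 : (lev n k).X.card * Δ * |kk (k+1) - kk k| ≤ (lev n k).X.card * Δ * (2 * η) := by
      have e2 : (lev n k).X.card * Δ * |kk (k+1) - kk k|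
          = |(∑ x ∈ (lev n k).X, ∑ y ∈ (lev n k).N1 x, W x y - (lev n k).X.card * (Δ * kk k))
            - (∑ x ∈ (lev n k).X, ∑ y ∈ (lev n k).N1 x, W x y
              - (lev n k).X.card * (Δ * kk (k+1)))| := by
        have e3 : ((lev n k).X.card * Δ : ℝ) = |((lev n k).X.card * Δ : ℝ)| :=
          (abs_of_pos (mul_pos hXc hΔ)).symm
        rw [e3, ← abs_mul]
        congr 1
        ring
      rw [e2]
      refine (abs_sub _ _).trans ?_
      linarith
    exact le_of_mul_le_mul_left h4 (mul_pos hXc hΔ)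
  have hkk : |kk k - 1| ≤ 1 / 8 := by
    obtain ⟨x0, hx0⟩ := hXne
    have hx0c := lev_X.1 hx0
    have := ho.kf ψ hψ x0 (Or.inl hx0c)
    rw [hx0c] at this
    exact this.trans hKβ
  -- apply the Hall type theorem
  have hW1 : ∀ x y : Finset (Fin n), x.card = k → y ∈ up x → 1 / 2 ≤ 1 + h ψ x + h ψ y := by
    intro x y hx hy
    rw [mem_up, hx] at hy
    have h1 := (abs_le.1 (hh x (Or.inl hx))).1
    have h2 := (abs_le.1 (hh y (Or.inr hy.2))).1
    linarith
  obtain ⟨f0, hf1, hf2⟩ := hall_middle hn (fun x y => rel A (ψ x) (ψ y)) W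
    (fun x y hx hy => mul_nonneg (gg_nonneg (rel A) ψ x y) (by linarith [hW1 x y hx hy]))
    (fun x y hx hy hop => by
      simp only [hW]
      unfold gg
      rw [if_pos hop, one_mul]
      exact hW1 x y hx hy)
    (fun x y hop => by
      simp only [hW]
      unfold gg
      rw [if_neg hop, zero_mul])
    Δ (kk k) (3 * η) hΔ (by positivity) (by
      have := (abs_le.1 hkk).1
      linarith)
    (fun x hx => (rowS x hx).trans (by nlinarith))
    (fun y hy => by
      have h1 := colS y hy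
      have e1 : ∑ x ∈ dn y, W x y - Δ * kk k
          = (∑ x ∈ dn y, W x y - Δ * kk (k+1)) + Δ * (kk (k+1) - kk k) := by ring
      rw [e1]
      refine (abs_add_le _ _).trans ?_
      rw [abs_mul, abs_of_pos hΔ]
      have h2 := mul_le_mul_of_nonneg_left hcon hΔ.le
      linarith)
    R1 hLC hsmall
  -- surjectivity
  have hsurj : ∀ y : Finset (Fin n), y.card = k + 1 → ∃ x : Finset (Fin n), x.card = k ∧ f0 x = y := by
    have h1 : ((lev n k).X.image f0) = (lev n k).Y := by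
      apply eq_of_subset_of_card_le
      · intro y hy
        rw [mem_image] at hy
        obtain ⟨x, hx, rfl⟩ := hy
        have hx' := lev_X.1 hx
        have := (hf1 x hx').1
        rw [mem_up, hx'] at this
        exact lev_Y.2 this.2
      · rw [card_image_of_injOn, hcards]
        intro x hx x' hx' he
        exact hf2 x x' (lev_X.1 (mem_coe.1 hx)) (lev_X.1 (mem_coe.1 hx')) he
    intro y hy
    have h2 : y ∈ (lev n k).X.image f0 := by rw [h1]; exact lev_Y.2 hy
    rw [mem_image] at h2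
    obtain ⟨x, hx, hxy⟩ := h2
    exact ⟨x, lev_X.1 hx, hxy⟩
  choose! fi hfi1 hfi2 using hsurj
  refine ⟨fi, fun v _ => v, ?_, ?_, ?_, ?_, ?_⟩
  · intro y hy
    have hyc : y.card = k + 1 := lev_Y.1 hy
    have h1 := hf1 (fi y) (hfi1 y hyc)
    rw [hfi2 y hyc] at h1
    refine ⟨?_, h1.2⟩
    have h2 := h1.1
    rw [mem_up] at h2
    exact mem_dn.2 h2
  · intro y hy y' hy' he
    have hyc : y.card = k + 1 := lev_Y.1 hy
    have hyc' : y'.card = k + 1 := lev_Y.1 hy'
    rw [← hfi2 y hyc, ← hfi2 y' hyc', he]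
  · intro v hv; simp at hv
  · intro v hv; simp at hv
  · intro x _ v hv; simp at hv

end Pool.Agent.SK
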