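import Pool.Agent.Lib.MP_5fcc10_co.OddF

/-! The odd case with explicit parameters. -/

set_option linter.unusedSectionVars false

namespace Pool.Agent.SK

open Finset
open scoped symmDiff

lemma ax_odd1 {k Q : ℝ} (hQ : 1 ≤ Q) (hk : 4 ≤ k) : k ≤ (2 * k + 1) * (2 * Q) := by
  nlinarith

lemma ax_odd2 {j k : ℝ} (hj : 1 ≤ j) (hjk : j ≤ k) (hk : 4 ≤ k) :
    1 * (k + j + 1) ≤ j * (4 * k) := by
  nlinarith

lemma ax_odd3 {η q load a : ℝ} (hη : 8 * η ≤ a) (h2 : load ≤ a) (hq : a ≤ q)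
    (h3 : 0 ≤ a) (hη0 : 0 ≤ η) :
    (1 + 8 * η) * (1 - 2 * q) ≤ 1 - load := by
  nlinarith [mul_nonneg hη0 (h3.trans hq)]

theorem odd_core (g Ms : ℕ) (K : ℝ) (R C : ℕ) (β0 : ℝ) (hK : 0 ≤ K)
    (hstage : ∀ (β : ℝ) (n t : ℕ) (κ : Type) [AddCommGroup κ]
      [Fintype κ] (A : Set κ) (Dl : ℕ → ℝ), β0 ≤ β → Env g β n t κ A Dl →
      ∃ h k Bd, Out Ms K R C β n t κ A Dl h k Bd)
    (k m J H Q M B r T0 : ℕ) (β1 β2 : ℝ) (hH : 0 < H) (hHQ : 4 * H ≤ Q)
    (hsep : m * (2 * J + 1 + 4 * H) ≤ Q) (hJ1 : 1 ≤ J) (hJk : 2 * J + 2 ≤ k)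
    (hb1 : β0 ≤ β1) (hb2 : β0 ≤ β2) (h41 : 4 ≤ β1) (h42 : 4 ≤ β2) (hK1 : K / β1 ≤ 1 / 8)
    (hK2 : K / β2 ≤ 1 / 8) (hβ1k : β1 ^ 4 = (k:ℝ) / (2 * Q))
    (hβ2k : β2 ^ 4 = ((4 * H : ℕ) : ℝ) / Q * (((k:ℝ) + 1) / 2))
    (hβ1g : 2 * (k:ℝ) + 2 ≤ β1 ^ g) (hβ2g : 2 * (k:ℝ) + 2 ≤ β2 ^ g)
    (hprec : 8 * (K / β1 ^ (Ms + 1)) ≤ 1 / (4 * k))
    (hr : Even r) (hT0 : T0 * r.factorial ≤ B ^ r)
    (hB : ((B + r : ℕ) : ℝ) ≤ k * (((2 * H : ℕ) : ℝ) / Q) ^ 2 / 2)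
    (pb pe : ℝ) (hpb0 : 0 ≤ pb) (hpb1 : β1 ^ C * Real.exp (-β1) ≤ pb)
    (hpb2 : β2 ^ C * Real.exp (-β2) ≤ pb)
    (hpe : m * (Q * (((2 * k + 1 : ℕ) : ℝ) * ((2 * k + 1 : ℕ) : ℝ)))
        * (2 * Real.exp (-(k * (((2 * H : ℕ) : ℝ) / Q) ^ 2 / 16)))
      + Q * Real.exp (-((H:ℝ) / Q * (k + 2)))
      + m * (Q * (((2 * k + 1 : ℕ) : ℝ) * ((2 * k + 1 : ℕ) : ℝ)))
        * Real.exp (-(((2 * H : ℕ) : ℝ) / Q * T0)) ≤ pe)
    (R' : ℕ) (hR1 : R ≤ R') (hR2 : 3 ≤ R') (hR3 : r + 2 ≤ R')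
    (hL : 4 * (m * (2 * pb) + pe) * ((2 * k + 1 + 1) ^ (R' + R') : ℕ) ≤ 1)
    (hsmall : 8 * k * ((2 * k + 1 + 1) ^ (r + 4 + 2) : ℕ)
      * (((4 * H : ℕ) : ℝ) / Q * ((k:ℝ) + 1) * (3 * (K / β2 ^ (Ms + 1)))) < 1)
    (hM : m * (2 * k + 1 + 1) < M)
    (hF : M * (k * Real.exp (-((J:ℝ) ^ 2 / ((2 * k + 1 : ℕ) : ℝ)))) ≤ 1 / (4 * k)) :
    ∃ c : Fin m → Finset (Fin (2 * k + 1)) → Finset (Fin (2 * k + 1)), (∀ i x, (c i x).card = k) ∧
      (∀ i x y, c i x = c i y → x ⊆ y ∨ y ⊆ x) ∧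
      (∀ i j, i ≠ j → ∀ x y, x ≠ y → c i x = c i y → c j x ≠ c j y) := by
  classical
  have hQ0 : 0 < Q := by omega
  have : NeZero Q := ⟨hQ0.ne'⟩
  have hQr : (0:ℝ) < Q := by exact_mod_cast hQ0
  have hHr : (0:ℝ) < ((4 * H : ℕ) : ℝ) := by exact_mod_cast (by omega : 0 < 4 * H)
  have hkr : (4:ℝ) ≤ k := by exact_mod_cast (by omega : 4 ≤ k)
  have hk0 : 0 < k := by omega
  have hβ11 : 1 ≤ β1 := by linarith
  have hβ21 : 1 ≤ β2 := by linarith
  obtain ⟨n, hn⟩ : ∃ n, n = 2 * k + 1 := ⟨_, rfl⟩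
  rw [← hn]
  rw [← hn] at hL hsmall hM hF hpe
  have hnr : (n:ℝ) = 2 * k + 1 := by rw [hn]; push_cast; ring
  -- the densities
  set δ1 : ℝ := 1 / (Q:ℝ) with hδ1
  have hδ10 : 0 < δ1 := by positivity
  set δ2 : ℝ := ((4 * H : ℕ) : ℝ) / Q with hδ2
  have hδ20 : 0 < δ2 := by positivity
  have hδ21 : δ2 ≤ 1 := by
    rw [hδ2, div_le_one hQr]; exact_mod_cast hHQ
  have hδk : β1 ^ 4 = δ1 * (k / 2) := by rw [hβ1k, hδ1]; field_simp
  have hcard : Fintype.card (ZMod Q) = Q := ZMod.card Q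
  have hlow : ∀ d : ℕ, k ≤ 2 * d → β1 ^ 4 ≤ δ1 * (d:ℝ) := by
    intro d hd
    rw [hδk]
    apply mul_le_mul_of_nonneg_left _ hδ10.le
    have : (k:ℝ) ≤ 2 * d := by exact_mod_cast hd
    linarith
  have hhigh : ∀ d : ℕ, d ≤ 2 * k → δ1 * (d:ℝ) ≤ 4 * β1 ^ 4 := by
    intro d hd
    rw [hδk]
    have : (d:ℝ) ≤ 2 * k := by exact_mod_cast hd
    calc δ1 * (d:ℝ) ≤ δ1 * (2 * k) := mul_le_mul_of_nonneg_left this hδ10.le
      _ = 4 * (δ1 * (k / 2)) := by ring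
  have hβ1n : β1 ^ 4 ≤ (n : ℝ) := by
    rw [hβ1k, div_le_iff₀ (by positivity), hnr]
    have : (1:ℝ) ≤ Q := by exact_mod_cast hQ0
    exact ax_odd1 this (by linarith)
  have hβ2n : β2 ^ 4 ≤ (n : ℝ) := by
    rw [hβ2k, hnr]
    have h0 : (0:ℝ) ≤ ((k:ℝ) + 1) / 2 := by positivity
    have := mul_le_mul_of_nonneg_right hδ21 h0
    linarith
  -- the classes
  set A : Fin m → ℕ → Set (ZMod Q) := fun i t =>
    if t = k then Amid Q (4 * H) i.val else {((i.val : ℕ) : ZMod Q)} with hA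
  set βf : ℕ → ℝ := fun t => if t = k then β2 else β1 with hβf
  set Dl : ℕ → ℕ → ℝ := fun t => if t = k then Dn n k δ2 else Dn n t δ1 with hDl
  have henv : ∀ (i : Fin m) (t : ℕ), k - J ≤ t → t < k + 1 + J →
      Env g (βf t) n t (ZMod Q) (A i t) (Dl t) := by
    intro i t h1 h2
    by_cases htk : t = k
    · simp only [hβf, hA, hDl, if_pos htk]
      rw [htk]
      have e1 : ((n - k : ℕ) : ℝ) = (k:ℝ) + 1 := by
        have : n - k = k + 1 := by omega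
        rw [this]; push_cast; ring
      have e2 : ((k + 1 : ℕ) : ℝ) = (k:ℝ) + 1 := by push_cast; ring
      have e3 : δ2 * ((k:ℝ) + 1) = 2 * β2 ^ 4 := by rw [hβ2k]; ring
      have hβ24 : 0 < β2 ^ 4 := by positivity
      refine env_gen _ (4 * H) (reg_Amid hHQ _) δ2 (by rw [hcard]) h42 (by omega)
        (by rw [hnr]; linarith) hβ2n ?_ ?_ ?_ ?_
      · rw [e1, e3]; linarith
      · rw [e2, e3]; linarith
      · rw [e1, e3]; linarith
      · rw [e2, e3]; linarith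
    · simp only [hβf, hA, hDl, if_neg htk]
      refine env_gen _ 1 (rel_reg _) δ1 (by rw [hcard, hδ1]; norm_num) h41 (by omega)
        (by rw [hnr]; linarith) hβ1n ?_ ?_ ?_ ?_
      · exact hlow _ (by omega)
      · exact hlow _ (by omega)
      · exact hhigh _ (by omega)
      · exact hhigh _ (by omega)
  have hβ0f : ∀ t, β0 ≤ βf t := by
    intro t
    simp only [hβf]
    split_ifs
    · exact hb2
    · exact hb1
  have hex : ∀ (i : Fin m) (t : ℕ), ∃ (h : (Finset (Fin n) → ZMod Q) → Finset (Fin n) → ℝ)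
      (kk : ℕ → ℝ) (Bd : Finset (Fin n) → (Finset (Fin n) → ZMod Q) → Prop),
      k - J ≤ t → t < k + 1 + J →
      Out Ms K R C (βf t) n t (ZMod Q) (A i t) (Dl t) h kk Bd := by
    intro i t
    by_cases hb : k - J ≤ t ∧ t < k + 1 + J
    · obtain ⟨h, kk, Bd, ho⟩ := hstage (βf t) n t (ZMod Q) _ _ (hβ0f t) (henv i t hb.1 hb.2)
      exact ⟨h, kk, Bd, fun _ _ => ho⟩
    · exact ⟨fun _ _ => 0, fun _ => 0, fun _ _ => False, fun h1 h2 => absurd ⟨h1, h2⟩ hb⟩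
  choose h kk Bd ho using hex
  -- extra events
  set Ex : Finset (Fin n) → (Finset (Fin n) → ZMod Q) → Prop := fun v ψ =>
    (BadPar k Q H m (B + r) v ψ ∨ BadStar k Q H v ψ) ∨ BadJoin k Q H m r T0 v ψ with hExd
  have hdepEx : ∀ v, Dep (Ex v) (ham v R') := by
    intro v φ ψ hφψ
    have e1 := (dep_BadPar (k := k) (Q := Q) (H := H) (m := m) (B + r) v).mono
      (ham_mono hR2) φ ψ hφψ
    have e2 := (dep_BadStar (k := k) (Q := Q) (H := H) v).mono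
      (ham_mono (by omega : 1 ≤ R')) φ ψ hφψ
    have e3 := (dep_BadJoin (k := k) (Q := Q) (H := H) (m := m) r T0 v).mono
      (ham_mono hR3) φ ψ hφψ
    change ((BadPar k Q H m (B + r) v φ ∨ BadStar k Q H v φ) ∨ BadJoin k Q H m r T0 v φ)
      = ((BadPar k Q H m (B + r) v ψ ∨ BadStar k Q H v ψ) ∨ BadJoin k Q H m r T0 v ψ)
    rw [e1, e2, e3]
  have hPEx : ∀ v, P (Ex v) ≤ pe := by
    intro v
    refine le_trans ?_ hpe
    refine (P_or _ _).trans (add_le_add ((P_or _ _).trans (add_le_add ?_ ?_)) ?_)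
    · exact P_BadPar hn hk0 hH (by omega) (B + r) hB v
    · exact P_BadStar hn (by omega) v
    · exact P_BadJoin (by omega) r T0 v
  obtain ⟨ψ, hψ, hψE⟩ := exists_labels_odd (n := n) (m := m) (lo := k - J) (hi := k + 1 + J)
    A βf Dl h kk Bd ho pb hpb0 (by
      intro t _ _
      simp only [hβf]
      split_ifs
      · exact hpb2
      · exact hpb1) Ex R' hR1 hdepEx pe hPEx hL
  -- local connectivity
  have hLC : ∀ i : Fin m, ∀ S : Finset (Finset (Fin n)), (∀ u ∈ S, u.card = k) → ∀ u ∈ S,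
      ∀ v : Finset (Fin n),
      v.card = k → v ∉ S → (u ∆ v).card = 2 → ∃ x ∈ S, ∃ x' : Finset (Fin n), x'.card = k ∧ x' ∉ S ∧
        ∃ y, y ∈ up x ∧ y ∈ up x' ∧ rel (Amid Q (4 * H) i.val) (ψ x) (ψ y) ∧
          rel (Amid Q (4 * H) i.val) (ψ x') (ψ y) ∧ x' ∈ ham u (r + 4) := by
    intro i S hS u hu v hv hvS huv
    exact local_conn (m := m) hn hk0 hH B r T0 hr hT0 ψ
      (fun v hv => hψE v (Or.inl (Or.inl hv)))
      (fun v hv => hψE v (Or.inl (Or.inr hv))) (fun v hv => hψE v (Or.inr hv)) i S hS u hu v hv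
      hvS huv
  set Bc : ℝ := Real.exp (-((J:ℝ) ^ 2 / (n : ℝ))) with hBdef
  have hBB : ∀ s < k - J, (n.choose s : ℝ) ≤ Bc * n.choose k := by
    intro s hs
    exact choose_far n k J (by omega) s (by omega)
  have hchs : n.choose (k+1) = n.choose k := by
    rw [← Nat.choose_symm (by omega : k ≤ n)]
    congr 1
    omega
  have hBpos : 0 < Bc := Real.exp_pos _
  have hload : (M:ℝ) * (((k - J : ℕ) : ℝ) * Bc) ≤ 1 / (4 * k) := by
    refine le_trans ?_ hF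
    apply mul_le_mul_of_nonneg_left _ (by positivity)
    apply mul_le_mul_of_nonneg_right _ hBpos.le
    exact_mod_cast Nat.sub_le k J
  set η := K / β1 ^ (Ms + 1) with hη
  have hη0 : 0 ≤ η := by positivity
  -- ratio bound
  have hratio : ∀ j : ℕ, 1 ≤ j → j ≤ J → ∀ load : ℝ, load ≤ 1 / (4 * k) →
      (1 + 8 * η) * (((k:ℝ) - j + 1) / ((k:ℝ) + j + 1)) ≤ 1 - load := by
    intro j hj1 hjJ load h2
    have hj1' : (1:ℝ) ≤ j := by exact_mod_cast hj1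
    have hjk : (j:ℝ) ≤ k := by exact_mod_cast (by omega : j ≤ k)
    have hpos : 0 < (k:ℝ) + j + 1 := by linarith
    have e1 : ((k:ℝ) - j + 1) / ((k:ℝ) + j + 1) = 1 - 2 * ((j : ℝ) / ((k : ℝ) + j + 1)) := by
      field_simp
      ring
    set q := (j : ℝ) / ((k : ℝ) + j + 1) with hq
    have hr1 : 1 / (4 * (k:ℝ)) ≤ q := by
      rw [hq, div_le_div_iff₀ (by linarith) (by linarith)]
      exact ax_odd2 hj1' hjk hkr
    rw [e1]
    have h3 : 0 ≤ 1 / (4 * (k:ℝ)) := by positivity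
    exact ax_odd3 hprec h2 hr1 h3 hη0
  obtain ⟨D⟩ := stepdata_of_ok (n := n) (m := m) (a := k) (b := k + 1) (lo := k - J)
    (hi := k + 1 + J) (M := M)
    (fun i t => if t = k then rel (Amid Q (4 * H) i.val)
      else rel ({((i.val : ℕ) : ZMod Q)} : Set (ZMod Q))) ψ (by omega) (by omega) (by omega)
    (by
      intro i t h1 h2
      have h1' : t < k + 1 + J := by omega
      have htk : t ≠ k := by omega
      have ho' := ho i t h1 h1'
      have hψ' := hψ i t h1 h1'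
      simp only [hβf, hA, hDl, if_neg htk] at ho'
      simp only [if_neg htk]
      refine low_step_gos ho' ψ hψ' δ1 hδ10 (Dn_low _ _ _) (Dn_high _ _ _)
        hK hβ11 hK1 (by omega) (by omega) h2 Bc hBB ?_
      have e5 : ((t + 1 : ℕ) : ℝ) = (k:ℝ) - ((k - t : ℕ) : ℝ) + 1 := by
        rw [Nat.cast_sub h2.le]; push_cast; ring
      have e6 : ((n - t : ℕ) : ℝ) = (k:ℝ) + ((k - t : ℕ) : ℝ) + 1 := by
        rw [Nat.cast_sub h2.le, Nat.cast_sub (by omega), hnr]; ring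
      rw [e5, e6]
      apply hratio (k - t) (by omega) (by omega)
      split_ifs with h
      · exact hload
      · positivity)
    (by
      intro i t h1 h2
      have h1' : k - J ≤ t := by omega
      have ho' := ho i t h1' h2
      have hψ' := hψ i t h1' h2
      by_cases htk : t = k
      · simp only [hβf, hA, hDl, if_pos htk] at ho'
        simp only [if_pos htk]
        rw [if_neg (by omega)]
        have hnk : ((n - k : ℕ) : ℝ) = (k:ℝ) + 1 := by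
          have : n - k = k + 1 := by omega
          rw [this]; push_cast; ring
        subst htk
        refine mid_step hn ho' ψ hψ' (δ2 * ((t:ℝ) + 1)) (by positivity) ?_ ?_ hK hβ21 hK2 (r + 4)
          (hLC i) hsmall
        · rw [Dn_low, hnk]
        · rw [Dn_high]; push_cast; ring
      · simp only [hβf, hA, hDl, if_neg htk] at ho'
        simp only [if_neg htk]
        have hsub : n - (k + 1 + J) = k - J := by omega
        refine high_step_gos ho' ψ hψ' δ1 hδ10 (Dn_low _ _ _)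
          (Dn_high _ _ _) hK hβ11 hK1 (by omega) (by omega) h2 Bc
          (by rw [hsub, hchs]; exact hBB) ?_
        have e5 : ((t + 1 : ℕ) : ℝ) = (k:ℝ) + ((t - k : ℕ) : ℝ) + 1 := by
          rw [Nat.cast_sub (by omega)]; push_cast; ring
        have e6 : ((n - t : ℕ) : ℝ) = (k:ℝ) - ((t - k : ℕ) : ℝ) + 1 := by
          rw [Nat.cast_sub (by omega), Nat.cast_sub (by omega), hnr]; ring
        rw [e5, e6, hsub]
        apply hratio (t - k) (by omega) (by omega)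
        split_ifs with h
        · exact hload
        · positivity)
  refine assembly D (by omega) (by omega) (by omega) ?_ hM
  intro i j hij s t hs hst ht x y h1 h2
  refine sep_mid Q (4 * H) k m (k - J) (k + 1 + J) ?_ (by omega) i j hij s t hs hst ht x y h1 h2
  have : k + 1 + J - (k - J) = 2 * J + 1 := by omega
  rw [this]
  exact hsep

end Pool.Agent.SK
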