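import Pool.Agent.Lib.MP_5fcc10_co.OddG
import Pool.Agent.Lib.MP_5fcc10_co.Core3

/-! Asymptotic choice of the parameters in the odd case. -/

set_option linter.unusedSectionVars false

namespace Pool.Agent.SK

open Finset Filter Asymptotics

lemma floor_half {z : ℝ} (hz : 1 ≤ z) : z / 2 ≤ (⌊z⌋₊ : ℝ) := by
  have h1 : (1:ℝ) ≤ (⌊z⌋₊ : ℝ) := by
    have : 1 ≤ ⌊z⌋₊ := Nat.le_floor (by exact_mod_cast hz)
    exact_mod_cast this
  have h2 := Nat.lt_floor_add_one z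
  linarith

lemma self_le_pow' {y : ℝ} (hy : 1 ≤ y) {n : ℕ} (hn : 1 ≤ n) : y ≤ y ^ n := by
  calc y = y ^ 1 := (pow_one y).symm
    _ ≤ y ^ n := pow_le_pow_right₀ hy hn

/-- the integer parameters -/
lemma odd_ints (u y : ℝ) (hy : 256 ≤ y) (hyu : y ^ 32 ≤ u) : ∃ Q0 H J B : ℕ,
    u / y ^ 2 / 2 ≤ (Q0:ℝ) ∧ (Q0:ℝ) ≤ u / y ^ 2 ∧ u / y ^ 6 / 2 ≤ (H:ℝ) ∧ (H:ℝ) ≤ u / y ^ 6 ∧
    u * y ^ 2 ≤ (J:ℝ) ∧ (J:ℝ) ≤ 2 * (u * y ^ 2) ∧ y ^ 2 / 2 ≤ (B:ℝ) ∧ (B:ℝ) ≤ y ^ 2 := by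
  have hy0 : 0 < y := by linarith
  have hy1 : 1 ≤ y := by linarith
  have hu0 : 0 < u := lt_of_lt_of_le (by positivity) hyu
  have hq2 : 1 ≤ u / y ^ 2 := by
    rw [le_div_iff₀ (by positivity), one_mul]
    exact (pow_le_pow_right₀ hy1 (by norm_num)).trans hyu
  have hq6 : 1 ≤ u / y ^ 6 := by
    rw [le_div_iff₀ (by positivity), one_mul]
    exact (pow_le_pow_right₀ hy1 (by norm_num)).trans hyu
  have huy2 : 1 ≤ u * y ^ 2 := by
    have h1 : 1 ≤ y ^ 2 := one_le_pow₀ hy1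
    have h2 : 1 ≤ u := (one_le_pow₀ hy1).trans hyu
    nlinarith
  refine ⟨⌊u / y ^ 2⌋₊, ⌊u / y ^ 6⌋₊, ⌈u * y ^ 2⌉₊, ⌊y ^ 2⌋₊, floor_half hq2,
    Nat.floor_le (by positivity), floor_half hq6, Nat.floor_le (by positivity), Nat.le_ceil _, ?_,
    floor_half (one_le_pow₀ hy1), Nat.floor_le (by positivity)⟩
  have h1 : ((⌈u * y ^ 2⌉₊ : ℕ) : ℝ) < u * y ^ 2 + 1 := Nat.ceil_lt_add_one (by positivity)
  linarith

lemma odd_sep {u y m J H Q : ℝ} (hy : 256 ≤ y) (hyu : y ^ 32 ≤ u) (hm : m ≤ u / y ^ 16)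
    (hH0 : 0 ≤ H) (hJ0 : 0 ≤ J) (hJ : J ≤ 2 * (u * y ^ 2)) (hH : H ≤ u / y ^ 6)
    (hQ : u ^ 2 / y ^ 8 ≤ Q) : m * (2 * J + 1 + 4 * H) ≤ Q := by
  have hy0 : 0 < y := by linarith
  have hy1 : 1 ≤ y := by linarith
  have hu0 : 0 < u := lt_of_lt_of_le (by positivity) hyu
  have hu1 : 1 ≤ u := (one_le_pow₀ hy1).trans hyu
  have h0 : 1 ≤ y ^ 2 := one_le_pow₀ hy1
  have h3 : u / y ^ 6 ≤ u * y ^ 2 := by
    refine (div_le_self hu0.le (one_le_pow₀ hy1)).trans ?_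
    nlinarith
  have h2 : 2 * J + 1 + 4 * H ≤ 9 * (u * y ^ 2) := by
    have : 1 ≤ u * y ^ 2 := by nlinarith
    linarith
  refine le_trans ?_ hQ
  calc m * (2 * J + 1 + 4 * H) ≤ (u / y ^ 16) * (9 * (u * y ^ 2)) :=
        mul_le_mul hm h2 (by positivity) (by positivity)
    _ = 9 * u ^ 2 / y ^ 14 := by field_simp
    _ ≤ u ^ 2 / y ^ 8 := by
        rw [div_le_div_iff₀ (by positivity) (by positivity)]
        have h4 : 9 * y ^ 8 ≤ y ^ 14 := by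
          calc 9 * y ^ 8 ≤ y * y ^ 8 := mul_le_mul_of_nonneg_right (by linarith) (by positivity)
            _ = y ^ 9 := by ring
            _ ≤ y ^ 14 := pow_le_pow_right₀ hy1 (by norm_num)
        calc 9 * u ^ 2 * y ^ 8 = u ^ 2 * (9 * y ^ 8) := by ring
          _ ≤ u ^ 2 * y ^ 14 := mul_le_mul_of_nonneg_left h4 (by positivity)

lemma odd_beta1 {u y k Q : ℝ} (hy : 256 ≤ y) (hQ0 : 0 < Q)
    (hQ : Q ≤ 4 * (u ^ 2 / y ^ 8)) (hk : u ^ 2 / 4 ≤ k) : y ^ 4 ≤ k / (2 * Q) := by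
  have hy0 : 0 < y := by linarith
  have hy1 : 1 ≤ y := by linarith
  rw [le_div_iff₀ (by positivity)]
  calc y ^ 4 * (2 * Q) ≤ y ^ 4 * (2 * (4 * (u ^ 2 / y ^ 8))) :=
        mul_le_mul_of_nonneg_left (by linarith) (by positivity)
    _ = 8 * u ^ 2 / y ^ 4 := by field_simp; ring
    _ ≤ u ^ 2 / 4 := by
        rw [div_le_div_iff₀ (by positivity) (by norm_num)]
        have h1 : y ≤ y ^ 4 := self_le_pow' hy1 (by norm_num)
        have h2 : 32 ≤ y ^ 4 := by linarith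
        calc 8 * u ^ 2 * 4 = u ^ 2 * 32 := by ring
          _ ≤ u ^ 2 * y ^ 4 := mul_le_mul_of_nonneg_left h2 (by positivity)
    _ ≤ k := hk

lemma odd_inv {u y Q0 : ℝ} (hy0 : 0 < y) (hu0 : 0 < u) (hQ0 : 0 < Q0) (h : Q0 ≤ u / y ^ 2) :
    y ^ 2 / u ≤ 1 / Q0 := by
  rw [div_le_div_iff₀ hu0 hQ0, one_mul]
  calc y ^ 2 * Q0 ≤ y ^ 2 * (u / y ^ 2) := mul_le_mul_of_nonneg_left h (by positivity)
    _ = u := by field_simp

lemma odd_beta2 {u y Q0 : ℝ} (hy : 256 ≤ y) (hyu : y ^ 32 ≤ u) (hQ0 : 0 < Q0)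
    (h : y ^ 2 / u ≤ 1 / Q0) : y ^ 4 ≤ 1 / Q0 * (u ^ 2 / 4) := by
  have hy0 : 0 < y := by linarith
  have hy1 : 1 ≤ y := by linarith
  have hu0 : 0 < u := lt_of_lt_of_le (by positivity) hyu
  calc y ^ 4 ≤ y ^ 2 / u * (u ^ 2 / 4) := by
        have h1 : y ^ 2 / u * (u ^ 2 / 4) = y ^ 2 * u / 4 := by field_simp
        rw [h1]
        have h2 : y ^ 2 * 4 ≤ u := by
          calc y ^ 2 * 4 ≤ y ^ 2 * y := mul_le_mul_of_nonneg_left (by linarith) (by positivity)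
            _ = y ^ 3 := by ring
            _ ≤ y ^ 32 := pow_le_pow_right₀ hy1 (by norm_num)
            _ ≤ u := hyu
        have h3 : y ^ 2 * (y ^ 2 * 4) ≤ y ^ 2 * u := mul_le_mul_of_nonneg_left h2 (by positivity)
        linarith
    _ ≤ 1 / Q0 * (u ^ 2 / 4) := mul_le_mul_of_nonneg_right h (by positivity)

lemma odd_theta {u y k Q0 : ℝ} (hy0 : 0 < y) (hu0 : 0 < u) (hQ0 : 0 < Q0)
    (h : y ^ 2 / u ≤ 1 / Q0) (hk : u ^ 2 / 4 ≤ k) : y ^ 4 / 16 ≤ k * (1 / (2 * Q0)) ^ 2 := by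
  have h2 : (y ^ 2 / u / 2) ^ 2 ≤ (1 / (2 * Q0)) ^ 2 := by
    apply pow_le_pow_left₀ (by positivity)
    calc y ^ 2 / u / 2 ≤ (1 / Q0) / 2 := div_le_div_of_nonneg_right h (by norm_num)
      _ = 1 / (2 * Q0) := by field_simp
  calc y ^ 4 / 16 = (u ^ 2 / 4) * (y ^ 2 / u / 2) ^ 2 := by
        field_simp; ring
    _ ≤ k * (1 / (2 * Q0)) ^ 2 := mul_le_mul hk h2 (by positivity) (le_trans (by positivity) hk)

lemma odd_star {u y k Q0 : ℝ} (hy : 256 ≤ y) (hyu : y ^ 32 ≤ u) (hQ0 : 0 < Q0)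
    (h : y ^ 2 / u ≤ 1 / Q0) (hk : u ^ 2 / 4 ≤ k) : y ≤ 1 / (4 * Q0) * (k + 2) := by
  have hy0 : 0 < y := by linarith
  have hy1 : 1 ≤ y := by linarith
  have hu0 : 0 < u := lt_of_lt_of_le (by positivity) hyu
  have hu1 : 1 ≤ u := (one_le_pow₀ hy1).trans hyu
  calc y ≤ y ^ 2 / u / 4 * (u ^ 2 / 4) := by
        have h1 : y ^ 2 / u / 4 * (u ^ 2 / 4) = y * (y * u) / 16 := by
          field_simp; ring
        rw [h1]
        have h2 : 16 ≤ y * u := by nlinarith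
        have h3 : y * 16 ≤ y * (y * u) := mul_le_mul_of_nonneg_left h2 hy0.le
        linarith
    _ ≤ (1 / Q0) / 4 * (k + 2) := by
        apply mul_le_mul (div_le_div_of_nonneg_right h (by norm_num)) (by linarith)
          (by positivity) (by positivity)
    _ = 1 / (4 * Q0) * (k + 2) := by field_simp

lemma odd_T0 {u y D T : ℝ} (hy : 256 ≤ y) (hyu : y ^ 32 ≤ u) (hD0 : 0 < D) (hD : 2 * D ≤ y)
    (hT : u ^ 4 / D ≤ T + 1) : u ^ 3 ≤ T := by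
  have hy0 : 0 < y := by linarith
  have hy1 : 1 ≤ y := by linarith
  have hu0 : 0 < u := lt_of_lt_of_le (by positivity) hyu
  have hu1 : 1 ≤ u := (one_le_pow₀ hy1).trans hyu
  have hyu' : y ≤ u := (self_le_pow' hy1 (by norm_num)).trans hyu
  have h9 : 2 * u ^ 3 ≤ u ^ 4 / D := by
    rw [le_div_iff₀ hD0]
    calc 2 * u ^ 3 * D = u ^ 3 * (2 * D) := by ring
      _ ≤ u ^ 3 * u := mul_le_mul_of_nonneg_left (by linarith) (by positivity)
      _ = u ^ 4 := by ring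
  have h10 : 1 ≤ u ^ 3 := one_le_pow₀ hu1
  linarith

lemma odd_join {u y Q0 T : ℝ} (hy : 256 ≤ y) (hyu : y ^ 32 ≤ u) (hQ0 : 0 < Q0)
    (h : y ^ 2 / u ≤ 1 / Q0) (hT : u ^ 3 ≤ T) : y ≤ 1 / (2 * Q0) * T := by
  have hy0 : 0 < y := by linarith
  have hy1 : 1 ≤ y := by linarith
  have hu0 : 0 < u := lt_of_lt_of_le (by positivity) hyu
  have hu1 : 1 ≤ u := (one_le_pow₀ hy1).trans hyu
  calc y ≤ y ^ 2 / u / 2 * u ^ 3 := by
        have h1 : y ^ 2 / u / 2 * u ^ 3 = y * (y * u ^ 2) / 2 := by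
          field_simp
        rw [h1]
        have h0 : 1 ≤ u ^ 2 := one_le_pow₀ hu1
        have h2 : 2 ≤ y * u ^ 2 := by nlinarith
        have h3 : y * 2 ≤ y * (y * u ^ 2) := mul_le_mul_of_nonneg_left h2 hy0.le
        linarith
    _ ≤ (1 / Q0) / 2 * T :=
        mul_le_mul (div_le_div_of_nonneg_right h (by norm_num)) hT (by positivity) (by positivity)
    _ = 1 / (2 * Q0) * T := by field_simp

lemma odd_div (B g : ℕ) (u y : ℝ) (hy0 : 0 < y) (hBl : y ^ 2 / 2 ≤ (B:ℝ)) (hu : 0 ≤ u)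
    (huy : u ^ 2 ≤ y ^ g) :
    u ^ 4 / (2 ^ g * (g.factorial : ℝ)) ≤ ((B ^ g / g.factorial : ℕ) : ℝ) + 1 := by
  have hfac : (0:ℝ) < (g.factorial : ℝ) := by exact_mod_cast Nat.factorial_pos g
  have h2 : B ^ g < (B ^ g / g.factorial + 1) * g.factorial :=
    (Nat.div_lt_iff_lt_mul (Nat.factorial_pos g)).1 (Nat.lt_succ_self _)
  obtain ⟨T, hT⟩ : ∃ T, T = B ^ g / g.factorial := ⟨_, rfl⟩
  rw [← hT] at h2 ⊢
  have h3 : ((B:ℝ)) ^ g ≤ ((T : ℝ) + 1) * (g.factorial : ℝ) := by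
    exact_mod_cast h2.le
  have h4 : (y ^ 2 / 2) ^ g ≤ (B:ℝ) ^ g := pow_le_pow_left₀ (by positivity) hBl g
  have h5 : u ^ 4 ≤ (y ^ 2) ^ g := by
    rw [← pow_mul, mul_comm 2 g, pow_mul]
    calc u ^ 4 = (u ^ 2) ^ 2 := by ring
      _ ≤ (y ^ g) ^ 2 := pow_le_pow_left₀ (by positivity) huy 2
  rw [div_le_iff₀ (by positivity)]
  rw [div_pow] at h4
  have h7 := h4.trans h3
  rw [div_le_iff₀ (by positivity)] at h7
  calc u ^ 4 ≤ (y ^ 2) ^ g := h5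
    _ ≤ _ := h7
    _ = _ := by ring

lemma odd_extra {x y m Q n1 a b c : ℝ} (hx : 1 ≤ x) (hm0 : 0 ≤ m) (hQ0 : 0 ≤ Q) (hn0 : 0 ≤ n1)
    (hm : m ≤ x) (hQ : Q ≤ x) (hn : n1 ≤ x)
    (ha : y ≤ a) (hb : y ≤ b) (hc : y ≤ c) :
    m * (Q * (n1 * n1)) * (2 * Real.exp (-a)) + Q * Real.exp (-b)
      + m * (Q * (n1 * n1)) * Real.exp (-c) ≤ 4 * (x ^ 4 * Real.exp (-y)) := by
  have hx0 : 0 ≤ x := by linarith
  have hn2 : m * (Q * (n1 * n1)) ≤ x ^ 4 := by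
    calc m * (Q * (n1 * n1)) ≤ x * (x * (x * x)) := by gcongr
      _ = x ^ 4 := by ring
  have hQ4 : Q ≤ x ^ 4 := hQ.trans (self_le_pow' hx (by norm_num))
  have ea : Real.exp (-a) ≤ Real.exp (-y) := Real.exp_le_exp.2 (by linarith)
  have eb : Real.exp (-b) ≤ Real.exp (-y) := Real.exp_le_exp.2 (by linarith)
  have ec : Real.exp (-c) ≤ Real.exp (-y) := Real.exp_le_exp.2 (by linarith)
  have p0 : 0 ≤ Real.exp (-y) := (Real.exp_pos _).le
  have t1 : m * (Q * (n1 * n1)) * (2 * Real.exp (-a)) ≤ x ^ 4 * (2 * Real.exp (-y)) :=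
    mul_le_mul hn2 (by linarith) (by positivity) (by positivity)
  have t2 : Q * Real.exp (-b) ≤ x ^ 4 * Real.exp (-y) :=
    mul_le_mul hQ4 eb (by positivity) (by positivity)
  have t3 : m * (Q * (n1 * n1)) * Real.exp (-c) ≤ x ^ 4 * Real.exp (-y) :=
    mul_le_mul hn2 ec (by positivity) (by positivity)
  linarith

lemma odd_local {x y m : ℝ} {C R2 : ℕ} (hx : 1 ≤ x) (hm : m ≤ x)
    (hbig : 24 * (x ^ (C + 5 + R2) * Real.exp (-y)) ≤ 1) :
    4 * (m * (2 * (x ^ C * Real.exp (-y))) + 4 * (x ^ 4 * Real.exp (-y))) * x ^ R2 ≤ 1 := by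
  have hx0 : 0 ≤ x := by linarith
  have p0 : 0 ≤ Real.exp (-y) := (Real.exp_pos _).le
  have h1 : m * (2 * (x ^ C * Real.exp (-y))) ≤ 2 * (x ^ (C + 5) * Real.exp (-y)) := by
    have h2 : m * x ^ C ≤ x ^ (C + 5) := by
      calc m * x ^ C ≤ x * x ^ C := mul_le_mul_of_nonneg_right hm (by positivity)
        _ = x ^ (C + 1) := by ring
        _ ≤ x ^ (C + 5) := pow_le_pow_right₀ hx (by omega)
    have h3 := mul_le_mul_of_nonneg_right h2 p0
    calc m * (2 * (x ^ C * Real.exp (-y))) = 2 * (m * x ^ C * Real.exp (-y)) := by ring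
      _ ≤ 2 * (x ^ (C + 5) * Real.exp (-y)) := by linarith
  have h3 : x ^ 4 * Real.exp (-y) ≤ x ^ (C + 5) * Real.exp (-y) :=
    mul_le_mul_of_nonneg_right (pow_le_pow_right₀ hx (by omega)) p0
  have hR : 0 ≤ x ^ R2 := by positivity
  calc 4 * (m * (2 * (x ^ C * Real.exp (-y))) + 4 * (x ^ 4 * Real.exp (-y))) * x ^ R2
      ≤ 4 * (6 * (x ^ (C + 5) * Real.exp (-y))) * x ^ R2 := by
        apply mul_le_mul_of_nonneg_right _ hR
        linarith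
    _ = 24 * (x ^ (C + 5 + R2) * Real.exp (-y)) := by
        rw [pow_add x (C + 5) R2]; ring
    _ ≤ 1 := hbig

lemma odd_precmid {x k q K η : ℝ} {g : ℕ} (hx : 1 ≤ x) (hk0 : 0 ≤ k) (hk : k + 1 ≤ x)
    (hq0 : 0 ≤ q) (hq : q ≤ 1) (hK : 0 ≤ K) (hη0 : 0 ≤ η) (hη : η ≤ K / x ^ (g + 9))
    (hxK : 24 * K < x) :
    8 * k * x ^ (g + 4 + 2) * (q * (k + 1) * (3 * η)) < 1 := by
  have hx0 : 0 < x := by linarith
  calc 8 * k * x ^ (g + 4 + 2) * (q * (k + 1) * (3 * η))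
      ≤ 8 * x * x ^ (g + 4 + 2) * (1 * x * (3 * (K / x ^ (g + 9)))) := by
        have h0 : k ≤ x := by linarith
        gcongr
    _ = 24 * K / x := by
        have e1 : x ^ (g + 9) = x ^ g * x ^ 9 := pow_add x g 9
        have e2 : x ^ (g + 4 + 2) = x ^ g * x ^ 6 := by rw [← pow_add]
        rw [e1, e2]
        field_simp
        ring
    _ < 1 := by
        rw [div_lt_one hx0]
        exact hxK

lemma odd_load {x y k Mr J n1 u : ℝ} (hy : 1 ≤ y) (hxu : x = u ^ 2) (hx : 1 ≤ x) (hk0 : 1 ≤ k)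
    (hk : k ≤ x) (hu0 : 0 ≤ u)
    (hM0 : 0 ≤ Mr) (hM : Mr ≤ 2 * x ^ 2) (hn0 : 0 < n1) (hn : n1 ≤ x) (hJ : u * y ^ 2 ≤ J)
    (hbig : 24 * (x ^ 4 * Real.exp (-y)) ≤ 1) :
    Mr * (k * Real.exp (-(J ^ 2 / n1))) ≤ 1 / (4 * k) := by
  have hx0 : 0 < x := by linarith
  have p0 : 0 < Real.exp (-y) := Real.exp_pos _
  have h1 : Real.exp (-(J ^ 2 / n1)) ≤ Real.exp (-y) := by
    apply Real.exp_le_exp.2
    apply neg_le_neg
    rw [le_div_iff₀ hn0]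
    calc y * n1 ≤ y * x := mul_le_mul_of_nonneg_left hn (by linarith)
      _ ≤ y ^ 4 * u ^ 2 := by
          rw [hxu]
          exact mul_le_mul_of_nonneg_right (self_le_pow' hy (by norm_num)) (by positivity)
      _ = (u * y ^ 2) ^ 2 := by ring
      _ ≤ J ^ 2 := pow_le_pow_left₀ (by positivity) hJ 2
  calc Mr * (k * Real.exp (-(J ^ 2 / n1))) ≤ 2 * x ^ 2 * (x * Real.exp (-y)) := by
        apply mul_le_mul hM _ (by positivity) (by positivity)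
        exact mul_le_mul hk h1 (by positivity) hx0.le
    _ = (x ^ 4 * Real.exp (-y)) * (2 / x) := by field_simp
    _ ≤ (1 / 24) * (2 / x) := by
        apply mul_le_mul_of_nonneg_right _ (by positivity)
        linarith
    _ = 1 / (12 * x) := by field_simp; ring
    _ ≤ 1 / (4 * k) := by
        apply one_div_le_one_div_of_le (by positivity)
        linarith

lemma odd_big (g N0 : ℕ) : ∃ b : ℝ, ∀ x y : ℝ, b ≤ y → 3 ≤ y → 0 ≤ x → x ≤ y ^ g →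
    24 * (x ^ N0 * Real.exp (-y)) ≤ 1 := by
  obtain ⟨b1, hb1⟩ := exp_dominates (g * N0 + 1)
  refine ⟨b1, fun x y hb hy hx hxy => ?_⟩
  have h1 := hb1 y hb
  have p0 : 0 < Real.exp (-y) := Real.exp_pos _
  have h2 : x ^ N0 ≤ y ^ (g * N0) := by
    rw [pow_mul]
    exact pow_le_pow_left₀ hx hxy _
  have h4 : 3 * x ^ N0 ≤ y ^ (g * N0 + 1) := by
    rw [pow_succ, mul_comm]
    exact mul_le_mul h2 hy (by norm_num) (by positivity)
  have h5 := mul_le_mul_of_nonneg_right h4 p0.le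
  calc 24 * (x ^ N0 * Real.exp (-y)) = 8 * ((3 * x ^ N0) * Real.exp (-y)) := by ring
    _ ≤ 8 * (y ^ (g * N0 + 1) * Real.exp (-y)) := by linarith
    _ ≤ 1 := h1

theorem odd_params (g : ℕ) (hg : Even g) (hg1 : 1 ≤ g) : ∃ Y0 : ℝ, ∀ (k m : ℕ) (u y : ℝ),
    Y0 ≤ y → y ^ 32 ≤ u → u ^ 2 = 2 * (k:ℝ) + 2 → u ^ 2 ≤ y ^ g → (m:ℝ) ≤ u / y ^ 16 →
    ∃ col : Fin m → Finset (Fin (2 * k + 1)) → Finset (Fin (2 * k + 1)),
      (∀ i x, (col i x).card = k) ∧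
      (∀ i x y, col i x = col i y → x ⊆ y ∨ y ⊆ x) ∧
      (∀ i j, i ≠ j → ∀ x y, x ≠ y → col i x = col i y → col j x ≠ col j y) := by
  obtain ⟨Ms, hMs⟩ : ∃ Ms : ℕ, Ms + 1 = g * (g + 9) :=
    ⟨g * (g + 9) - 1, by have : 1 ≤ g * (g + 9) := Nat.mul_pos hg1 (by omega); omega⟩
  obtain ⟨K, R, C, β0, hK, hstage⟩ := stage g Ms
  obtain ⟨R', hR1, hR2, hR3⟩ : ∃ R' : ℕ, R ≤ R' ∧ 3 ≤ R' ∧ g + 2 ≤ R' :=
    ⟨max (max R 3) (g + 2), (le_max_left _ _).trans (le_max_left _ _),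
      (le_max_right _ _).trans (le_max_left _ _), le_max_right _ _⟩
  obtain ⟨b1, hb1⟩ := odd_big g (C + 5 + (R' + R'))
  obtain ⟨D, hD⟩ : ∃ D : ℝ, D = 2 ^ g * (g.factorial : ℝ) := ⟨_, rfl⟩
  have hD0 : 0 < D := by rw [hD]; positivity
  refine ⟨max (max (max β0 b1) (max 256 (32 * K))) (max (2 * D) (64 * (g:ℝ))),
    fun k m u y hy hyu hux huy hm => ?_⟩
  have y1 : β0 ≤ y := (((le_max_left _ _).trans (le_max_left _ _)).trans (le_max_left _ _)).trans hy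
  have y2 : b1 ≤ y := (((le_max_right _ _).trans (le_max_left _ _)).trans (le_max_left _ _)).trans hy
  have y3 : 256 ≤ y := (((le_max_left _ _).trans (le_max_right _ _)).trans (le_max_left _ _)).trans hy
  have y4 : 32 * K ≤ y :=
    (((le_max_right _ _).trans (le_max_right _ _)).trans (le_max_left _ _)).trans hy
  have y5 : 2 * D ≤ y := ((le_max_left _ _).trans (le_max_right _ _)).trans hy
  have y6 : 64 * (g:ℝ) ≤ y := ((le_max_right _ _).trans (le_max_right _ _)).trans hy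
  clear hy
  have hy0 : 0 < y := by linarith
  have hy1 : 1 ≤ y := by linarith
  have hyle : y ≤ y ^ 32 := self_le_pow' hy1 (by norm_num)
  have hu0 : 0 < u := by linarith
  have hu1 : 1 ≤ u := by linarith
  have huy' : y ≤ u := hyle.trans hyu
  -- the big number
  obtain ⟨x, hx⟩ : ∃ x : ℝ, x = u ^ 2 := ⟨_, rfl⟩
  rw [← hx] at hux huy
  have hx0 : 0 < x := by rw [hx]; positivity
  have hux1 : u ≤ x := by rw [hx]; exact self_le_pow' hu1 (by norm_num)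
  have hx1 : 1 ≤ x := by linarith
  have hyx : y ≤ x := by linarith
  have hkx : (k:ℝ) = x / 2 - 1 := by linarith
  have hk1r : (1:ℝ) ≤ k := by linarith
  have hkx4 : u ^ 2 / 4 ≤ k := by rw [← hx]; linarith
  have hkx1 : (k:ℝ) ≤ x := by linarith
  have hkx2 : (k:ℝ) + 1 ≤ x := by linarith
  have hxN : ((2 * k + 1 + 1 : ℕ) : ℝ) = x := by rw [hux]; push_cast; ring
  have hn0 : (0:ℝ) < ((2 * k + 1 : ℕ) : ℝ) := by positivity
  have hnx : ((2 * k + 1 : ℕ) : ℝ) ≤ x := by rw [hux]; push_cast; linarith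
  have hm0 : (0:ℝ) ≤ m := Nat.cast_nonneg m
  have hmx : (m:ℝ) ≤ x := by
    refine hm.trans ?_
    exact (div_le_self hu0.le (one_le_pow₀ hy1)).trans hux1
  have hbig : 24 * (x ^ (C + 5 + (R' + R')) * Real.exp (-y)) ≤ 1 :=
    hb1 x y y2 (by linarith) hx0.le huy
  -- integers
  obtain ⟨Q0, H, J, B, hQ0l, hQ0u, hHl, hHu, hJl, hJu, hBl, hBu⟩ := odd_ints u y y3 hyu
  have hQ0pos : (0:ℝ) < Q0 := lt_of_lt_of_le (by positivity) hQ0l
  have hHpos : (0:ℝ) < H := lt_of_lt_of_le (by positivity) hHl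
  have hQ0n : 0 < Q0 := by exact_mod_cast hQ0pos
  have hHn : 0 < H := by exact_mod_cast hHpos
  obtain ⟨Q, hQ⟩ : ∃ Q : ℕ, Q = 4 * H * Q0 := ⟨_, rfl⟩
  have hQc : (Q:ℝ) = 4 * H * Q0 := by rw [hQ]; push_cast; ring
  have hQpos : (0:ℝ) < Q := by rw [hQc]; positivity
  have hQl : u ^ 2 / y ^ 8 ≤ (Q:ℝ) := by
    rw [hQc]
    calc u ^ 2 / y ^ 8 = (4:ℝ) * (u / y ^ 6 / 2) * (u / y ^ 2 / 2) := by
          field_simp
          ring
      _ ≤ (4:ℝ) * H * Q0 := by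
          apply mul_le_mul _ hQ0l (by positivity) (by positivity)
          linarith
  have hQu : (Q:ℝ) ≤ 4 * (u ^ 2 / y ^ 8) := by
    rw [hQc]
    calc (4:ℝ) * (H:ℝ) * Q0 ≤ 4 * (u / y ^ 6) * (u / y ^ 2) := by
          apply mul_le_mul _ hQ0u (by positivity) (by positivity)
          linarith
      _ = 4 * (u ^ 2 / y ^ 8) := by
          field_simp
  have hHQ : 4 * H ≤ Q := by
    rw [hQ]
    exact Nat.le_mul_of_pos_right _ hQ0n
  have hQx : (Q:ℝ) ≤ x := by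
    refine hQu.trans ?_
    rw [← mul_div_assoc, div_le_iff₀ (by positivity), mul_comm, ← hx]
    apply mul_le_mul_of_nonneg_left _ hx0.le
    have : y ≤ y ^ 8 := self_le_pow' hy1 (by norm_num)
    linarith
  have hQ1 : (1:ℝ) ≤ Q := by exact_mod_cast (by omega : 1 ≤ Q)
  -- ratios
  have e4 : ((4 * H : ℕ) : ℝ) / Q = 1 / Q0 := by
    rw [hQc]; push_cast; field_simp
  have e2 : ((2 * H : ℕ) : ℝ) / Q = 1 / (2 * Q0) := by
    rw [hQc]; push_cast; field_simp; ring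
  have e1 : (H : ℝ) / Q = 1 / (4 * Q0) := by
    rw [hQc]; field_simp
  have hinvQ0 : y ^ 2 / u ≤ 1 / (Q0:ℝ) := odd_inv hy0 hu0 hQ0pos hQ0u
  have hinvQ01 : 1 / (Q0:ℝ) ≤ 1 := by
    rw [div_le_one hQ0pos]
    exact_mod_cast hQ0n
  have hinvQ00 : 0 ≤ 1 / (Q0:ℝ) := by positivity
  -- betas
  have hk0 : (0:ℝ) < k := by linarith
  have hk1x : ((k:ℝ) + 1) / 2 = x / 4 := by linarith
  have hz1 : 0 < (k:ℝ) / (2 * Q) := by positivity
  have hz2 : 0 < ((4 * H : ℕ) : ℝ) / Q * (((k:ℝ) + 1) / 2) := by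
    rw [e4]; positivity
  obtain ⟨β1, hβ10, hβ14⟩ : ∃ β : ℝ, 0 < β ∧ β ^ 4 = (k:ℝ) / (2 * Q) := by
    refine ⟨((k:ℝ) / (2 * Q)) ^ (1/4 : ℝ), Real.rpow_pos_of_pos hz1 _, ?_⟩
    rw [← Real.rpow_natCast, ← Real.rpow_mul hz1.le]
    norm_num
  obtain ⟨β2, hβ20, hβ24⟩ : ∃ β : ℝ, 0 < β ∧
      β ^ 4 = ((4 * H : ℕ) : ℝ) / Q * (((k:ℝ) + 1) / 2) := by
    refine ⟨(((4 * H : ℕ) : ℝ) / Q * (((k:ℝ) + 1) / 2)) ^ (1/4 : ℝ),
      Real.rpow_pos_of_pos hz2 _, ?_⟩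
    rw [← Real.rpow_natCast, ← Real.rpow_mul hz2.le]
    norm_num
  have hyβ1 : y ≤ β1 := by
    apply le_of_pow_le_pow_left₀ (n := 4) (by norm_num) hβ10.le
    rw [hβ14]
    exact odd_beta1 y3 hQpos hQu hkx4
  have hyβ2 : y ≤ β2 := by
    apply le_of_pow_le_pow_left₀ (n := 4) (by norm_num) hβ20.le
    rw [hβ24, e4, hk1x, hx]
    exact odd_beta2 y3 hyu hQ0pos hinvQ0
  have hβ1x : β1 ≤ x := by
    have h1 : β1 ≤ β1 ^ 4 := self_le_pow' (by linarith) (by norm_num)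
    refine h1.trans ?_
    rw [hβ14, div_le_iff₀ (by positivity)]
    have : (1:ℝ) ≤ 2 * Q := by linarith
    calc (k:ℝ) ≤ x := hkx1
      _ = x * 1 := (mul_one x).symm
      _ ≤ x * (2 * Q) := mul_le_mul_of_nonneg_left this hx0.le
  have hβ2x : β2 ≤ x := by
    have h1 : β2 ≤ β2 ^ 4 := self_le_pow' (by linarith) (by norm_num)
    refine h1.trans ?_
    rw [hβ24, e4, hk1x]
    calc 1 / (Q0:ℝ) * (x / 4) ≤ 1 * (x / 4) :=
          mul_le_mul_of_nonneg_right hinvQ01 (by positivity)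
      _ ≤ x := by linarith
  have hgβ : ∀ β : ℝ, y ≤ β → x ≤ β ^ g := fun β h =>
    huy.trans (pow_le_pow_left₀ hy0.le h g)
  have hKβ : ∀ β : ℝ, y ≤ β → K / β ≤ 1 / 8 := by
    intro β h
    rw [div_le_div_iff₀ (by linarith) (by norm_num)]
    linarith
  have hKM : ∀ β : ℝ, y ≤ β → K / β ^ (Ms + 1) ≤ K / x ^ (g + 9) := by
    intro β h
    refine div_le_div_of_nonneg_left hK (by positivity) ?_
    rw [hMs, pow_mul]
    exact pow_le_pow_left₀ hx0.le (hgβ β h) _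
  obtain ⟨T0, hT0⟩ : ∃ T0 : ℕ, T0 = B ^ g / g.factorial := ⟨_, rfl⟩
  have hT0a : T0 * g.factorial ≤ B ^ g := by rw [hT0]; exact Nat.div_mul_le_self _ _
  have hT0b : u ^ 3 ≤ (T0:ℝ) := by
    apply odd_T0 y3 hyu hD0 y5
    rw [hT0, hD]
    exact odd_div B g u y hy0 hBl hu0.le (by rw [← hx]; exact huy)
  have hth := odd_theta hy0 hu0 hQ0pos hinvQ0 hkx4
  have hy4 : 64 * y ^ 2 ≤ y ^ 4 := by
    calc 64 * y ^ 2 ≤ y ^ 2 * y ^ 2 := by
          apply mul_le_mul_of_nonneg_right _ (by positivity)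
          have := self_le_pow' hy1 (by norm_num : 1 ≤ 2)
          linarith
      _ = y ^ 4 := by ring
  have hy44 : 256 * y ≤ y ^ 4 := by
    have h1 : y ≤ y ^ 3 := self_le_pow' hy1 (by norm_num)
    calc 256 * y ≤ y ^ 3 * y := by
          apply mul_le_mul_of_nonneg_right _ hy0.le
          linarith
      _ = y ^ 4 := by ring
  -- apply
  refine odd_core g Ms K R C β0 hK hstage k m J H Q (m * (2 * k + 1 + 1) + 1) B g
    T0 β1 β2 hHn hHQ ?_ ?_ ?_ (y1.trans hyβ1) (y1.trans hyβ2) (by linarith)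
    (by linarith) (hKβ _ hyβ1) (hKβ _ hyβ2) hβ14 hβ24 ?_ ?_ ?_ hg hT0a ?_
    (x ^ C * Real.exp (-y)) (4 * (x ^ 4 * Real.exp (-y))) (by positivity) ?_ ?_ ?_ R' hR1 hR2 hR3
    ?_ ?_ (by omega) ?_
  · have h1 : ((m * (2 * J + 1 + 4 * H) : ℕ) : ℝ) ≤ Q := by
      push_cast
      exact odd_sep y3 hyu hm hHpos.le (Nat.cast_nonneg J) hJu hHu hQl
    exact_mod_cast h1
  · have : (1:ℝ) ≤ J := by
      refine le_trans ?_ hJl
      exact one_le_mul_of_one_le_of_one_le hu1 (one_le_pow₀ hy1)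
    exact_mod_cast this
  · have h1 : (2:ℝ) * J + 2 ≤ k := by
      have h2 : 16 * (u * y ^ 2) ≤ x := by
        rw [hx]
        have h3 : 16 * y ^ 2 ≤ u := by
          calc 16 * y ^ 2 ≤ y * y ^ 2 := mul_le_mul_of_nonneg_right (by linarith) (by positivity)
            _ = y ^ 3 := by ring
            _ ≤ y ^ 32 := pow_le_pow_right₀ hy1 (by norm_num)
            _ ≤ u := hyu
        calc 16 * (u * y ^ 2) = u * (16 * y ^ 2) := by ring
          _ ≤ u * u := mul_le_mul_of_nonneg_left h3 hu0.le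
          _ = u ^ 2 := by ring
      linarith
    exact_mod_cast h1
  · linarith [hgβ β1 hyβ1]
  · linarith [hgβ β2 hyβ2]
  · have h1 := hKM β1 hyβ1
    have h2 : K / x ^ (g + 9) ≤ K / x ^ 2 :=
      div_le_div_of_nonneg_left hK (by positivity) (pow_le_pow_right₀ hx1 (by omega))
    have h3 : 8 * (K / x ^ 2) ≤ 1 / (4 * k) := by
      rw [← mul_div_assoc, div_le_div_iff₀ (by positivity) (by positivity)]
      have h4 : 4 * (k:ℝ) ≤ 2 * x := by linarith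
      have h5 : 8 * K * (4 * k) ≤ 8 * K * (2 * x) :=
        mul_le_mul_of_nonneg_left h4 (by positivity)
      have h6 : 16 * K * x ≤ x * x := mul_le_mul_of_nonneg_right (by linarith) hx0.le
      calc 8 * K * (4 * k) ≤ 8 * K * (2 * x) := h5
        _ = 16 * K * x := by ring
        _ ≤ x * x := h6
        _ = 1 * x ^ 2 := by ring
    linarith
  · rw [e2]
    push_cast
    have h5 : y ≤ y ^ 4 := self_le_pow' hy1 (by norm_num)
    linarith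
  · exact mul_le_mul (pow_le_pow_left₀ hβ10.le hβ1x C)
      (Real.exp_le_exp.2 (by linarith)) (Real.exp_pos _).le (by positivity)
  · exact mul_le_mul (pow_le_pow_left₀ hβ20.le hβ2x C)
      (Real.exp_le_exp.2 (by linarith)) (Real.exp_pos _).le (by positivity)
  · rw [e2, e1]
    refine odd_extra hx1 hm0 hQpos.le hn0.le hmx hQx hnx ?_ ?_ ?_
    · linarith
    · exact odd_star y3 hyu hQ0pos hinvQ0 hkx4
    · exact odd_join y3 hyu hQ0pos hinvQ0 hT0b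
  · have hpow : (((2 * k + 1 + 1) ^ (R' + R') : ℕ) : ℝ) = x ^ (R' + R') := by
      rw [← hxN]; push_cast; ring
    rw [hpow]
    exact odd_local hx1 hmx hbig
  · have hpow : (((2 * k + 1 + 1) ^ (g + 4 + 2) : ℕ) : ℝ) = x ^ (g + 4 + 2) := by
      rw [← hxN]; push_cast; ring
    rw [hpow, e4]
    exact odd_precmid hx1 hk0.le hkx2 hinvQ00 hinvQ01 hK (by positivity) (hKM β2 hyβ2)
      (by linarith)
  · refine odd_load (u := u) hy1 hx hx1 hk1r hkx1 hu0.le (Nat.cast_nonneg _) ?_ hn0 hnx hJl ?_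
    · have h3 : ((m * (2 * k + 1 + 1) + 1 : ℕ) : ℝ) = m * x + 1 := by
        rw [← hxN]; push_cast; ring
      rw [h3]
      have h4 : (m:ℝ) * x ≤ x * x := mul_le_mul_of_nonneg_right hmx hx0.le
      have h5 : 1 ≤ x * x := one_le_mul_of_one_le_of_one_le hx1 hx1
      have h6 : x * x = x ^ 2 := by ring
      linarith
    · refine le_trans ?_ hbig
      have h7 : x ^ 4 ≤ x ^ (C + 5 + (R' + R')) := pow_le_pow_right₀ hx1 (by omega)
      have h8 := mul_le_mul_of_nonneg_right h7 (Real.exp_pos (-y)).le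
      linarith

theorem odd_asymp (c : ℝ) (hc : c < 1 / 2) : ∃ N : ℕ, ∀ k : ℕ, N ≤ k → ∀ m : ℕ,
    (m : ℝ) ≤ (2 * (k:ℝ) + 1) ^ c →
    ∃ col : Fin m → Finset (Fin (2 * k + 1)) → Finset (Fin (2 * k + 1)),
      (∀ i x, (col i x).card = k) ∧
      (∀ i x y, col i x = col i y → x ⊆ y ∨ y ⊆ x) ∧
      (∀ i j, i ≠ j → ∀ x y, x ≠ y → col i x = col i y → col j x ≠ col j y) := by
  set c' : ℝ := max c (1/4) with hc'
  have hc'1 : c' < 1 / 2 := max_lt hc (by norm_num)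
  have hc'2 : 1 / 4 ≤ c' := le_max_right _ _
  have hcc' : c ≤ c' := le_max_left _ _
  set ε : ℝ := (1 / 2 - c') / 8 with hε
  have hε0 : 0 < ε := by rw [hε]; linarith
  have hε1 : ε ≤ 1 / 32 := by rw [hε]; linarith
  set g' : ℕ := ⌈1 / ε⌉₊ with hg'
  have hg'1 : 1 / ε ≤ g' := Nat.le_ceil _
  have hg'0 : 0 < g' := Nat.ceil_pos.2 (by positivity)
  obtain ⟨Y0, hY⟩ := odd_params (2 * g') (even_two_mul g') (by omega)
  have htx : Tendsto (fun k : ℕ => 2 * (k:ℝ) + 2) atTop atTop := by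
    apply tendsto_atTop_add_const_right
    exact Tendsto.const_mul_atTop (by norm_num) tendsto_natCast_atTop_atTop
  have hpow : Tendsto (fun k : ℕ => (2 * (k:ℝ) + 2) ^ (ε / 2)) atTop atTop :=
    (tendsto_rpow_atTop (by positivity)).comp htx
  obtain ⟨N, hN⟩ := eventually_atTop.1 (hpow.eventually_ge_atTop Y0)
  refine ⟨N, fun k hk m hm => ?_⟩
  have hk0 : (0:ℝ) ≤ k := Nat.cast_nonneg k
  set x : ℝ := 2 * (k:ℝ) + 2 with hx
  have hx0 : 0 < x := by linarith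
  have hx1 : 1 ≤ x := by linarith
  refine hY k m (x ^ (1/2 : ℝ)) (x ^ (ε / 2)) (hN k hk) ?_ ?_ ?_ ?_
  · rw [← Real.rpow_natCast, ← Real.rpow_mul hx0.le]
    apply Real.rpow_le_rpow_of_exponent_le hx1
    push_cast
    linarith
  · rw [← Real.rpow_natCast, ← Real.rpow_mul hx0.le]
    norm_num
    exact hx
  · rw [← Real.rpow_natCast, ← Real.rpow_mul hx0.le, ← Real.rpow_natCast, ← Real.rpow_mul hx0.le]
    apply Real.rpow_le_rpow_of_exponent_le hx1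
    push_cast
    have h1 : ε * (1 / ε) ≤ ε * g' := mul_le_mul_of_nonneg_left hg'1 hε0.le
    have h2 : ε * (1 / ε) = 1 := by field_simp
    linarith
  · refine hm.trans ?_
    have h1 : (2 * (k:ℝ) + 1) ^ c ≤ (2 * (k:ℝ) + 1) ^ c' :=
      Real.rpow_le_rpow_of_exponent_le (by linarith) hcc'
    have h2 : (2 * (k:ℝ) + 1) ^ c' ≤ x ^ c' :=
      Real.rpow_le_rpow (by linarith) (by linarith) (by linarith)
    refine (h1.trans h2).trans (le_of_eq ?_)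
    rw [← Real.rpow_natCast, ← Real.rpow_mul hx0.le, ← Real.rpow_sub hx0]
    congr 1
    push_cast
    rw [hε]
    ring

end Pool.Agent.SK
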