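import Pool.Agent.Lib.MP_5fcc10_co.Prob

/-! Local statistics of a random subgraph of a biregular bipartite graph. -/

set_option linter.unusedSectionVars false

namespace Pool.Agent.SK

open Finset

/-- A bipartite graph (a pair of consecutive levels), biregular, without 4-cycles and with at
most two 3-paths between non-adjacent vertices. -/
structure BG (V : Type*) [DecidableEq V] where
  X : Finset V
  Y : Finset V
  N1 : V → Finset V
  N2 : V → Finset V
  d1 : ℕ
  d2 : ℕ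
  hXY : Disjoint X Y
  h1 : ∀ x ∈ X, N1 x ⊆ Y
  h2 : ∀ y ∈ Y, N2 y ⊆ X
  c1 : ∀ x ∈ X, (N1 x).card = d1
  c2 : ∀ y ∈ Y, (N2 y).card = d2
  sym : ∀ x ∈ X, ∀ y ∈ Y, (y ∈ N1 x ↔ x ∈ N2 y)
  no4 : ∀ x ∈ X, ∀ x' ∈ X, x ≠ x' → ∀ y ∈ N1 x, ∀ y' ∈ N1 x, y ∈ N1 x' → y' ∈ N1 x' → y = y'
  tri1 : ∀ x ∈ X, ∀ z ∈ Y, z ∉ N1 x →
    ((N2 z).filter (fun x' => ∃ y ∈ N1 x, y ∈ N1 x')).card ≤ 2
  tri2 : ∀ y ∈ Y, ∀ w ∈ X, w ∉ N2 y →
    ((N1 w).filter (fun y' => ∃ x ∈ N2 y, x ∈ N2 y')).card ≤ 2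

variable {V κ : Type*} [Fintype V] [DecidableEq V] [Fintype κ] [Nonempty κ]

/-- The same graph seen from the other side. -/
def BG.swap (G : BG V) : BG V where
  X := G.Y
  Y := G.X
  N1 := G.N2
  N2 := G.N1
  d1 := G.d2
  d2 := G.d1
  hXY := G.hXY.symm
  h1 := G.h2
  h2 := G.h1
  c1 := G.c2
  c2 := G.c1
  sym := fun x hx y hy => (G.sym y hy x hx).symm
  no4 := by
    intro y hy y' hy' hne x hx x' hx' hxy' hxy''
    by_contra hcon
    refine hne ?_
    have hX := G.h2 y hy hx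
    have hX' := G.h2 y hy hx'
    exact G.no4 x hX x' hX' hcon y ((G.sym x hX y hy).2 hx) y' ((G.sym x hX y' hy').2 hxy')
      ((G.sym x' hX' y hy).2 hx') ((G.sym x' hX' y' hy').2 hxy'')
  tri1 := G.tri2
  tri2 := G.tri1

open Classical in
/-- indicator of the relation `ρ` between the labels -/
noncomputable def gg (ρ : κ → κ → Prop) (ψ : V → κ) (x y : V) : ℝ :=
  if ρ (ψ x) (ψ y) then 1 else 0

lemma gg_nonneg (ρ : κ → κ → Prop) (ψ : V → κ) (x y : V) : 0 ≤ gg ρ ψ x y := by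
  unfold gg; split_ifs <;> norm_num

lemma gg_le_one (ρ : κ → κ → Prop) (ψ : V → κ) (x y : V) : gg ρ ψ x y ≤ 1 := by
  unfold gg; split_ifs <;> norm_num

lemma gg_sq (ρ : κ → κ → Prop) (ψ : V → κ) (x y : V) : gg ρ ψ x y ^ 2 = gg ρ ψ x y := by
  unfold gg; split_ifs <;> norm_num

lemma gg_mul_self (ρ : κ → κ → Prop) (ψ : V → κ) (x y : V) :
    gg ρ ψ x y * gg ρ ψ x y = gg ρ ψ x y := by
  unfold gg; split_ifs <;> norm_num

open Classical in
/-- regularity of a relation on labels -/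
def Reg (ρ : κ → κ → Prop) (q : ℕ) : Prop :=
  (∀ a, (univ.filter (fun b => ρ a b)).card = q) ∧ (∀ b, (univ.filter (fun a => ρ a b)).card = q)

section stats

variable (G : BG V) (ρ : κ → κ → Prop) (δ : ℝ)

/-- degree from the X side -/
noncomputable def deg (ψ : V → κ) (x : V) : ℝ := ∑ y ∈ G.N1 x, gg ρ ψ x y

/-- degree from the Y side -/
noncomputable def deg' (ψ : V → κ) (y : V) : ℝ := ∑ x ∈ G.N2 y, gg ρ ψ x y

noncomputable def st1 (ψ : V → κ) (x : V) : ℝ := ∑ y ∈ G.N1 x, (gg ρ ψ x y - δ)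

noncomputable def st2 (ψ : V → κ) (x : V) : ℝ :=
  ∑ y ∈ G.N1 x, gg ρ ψ x y * ∑ x' ∈ (G.N2 y).erase x, (gg ρ ψ x' y - δ)

noncomputable def st3 (ψ : V → κ) (x : V) : ℝ :=
  ∑ y ∈ G.N1 x, gg ρ ψ x y * ∑ x' ∈ (G.N2 y).erase x, gg ρ ψ x' y *
    ∑ y' ∈ (G.N1 x').erase y, (gg ρ ψ x' y' - δ)

noncomputable def tt (θ : ℝ) (ψ : V → κ) (x y : V) : ℝ :=
  min ((1 - δ + ∑ x' ∈ (G.N2 y).erase x, (gg ρ ψ x' y - δ)) ^ 2) θ

noncomputable def st4 (θ c4 : ℝ) (ψ : V → κ) (x : V) : ℝ :=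
  ∑ y ∈ G.N1 x, gg ρ ψ x y * (tt G ρ δ θ ψ x y - c4)

end stats

/-- binomial average, defined recursively -/
noncomputable def cst (δ : ℝ) : ℕ → (ℕ → ℝ) → ℝ
  | 0, F => F 0
  | (k+1), F => δ * cst δ k (fun r => F (r + 1)) + (1 - δ) * cst δ k F

lemma cst_bounds (δ : ℝ) (h0 : 0 ≤ δ) (h1 : δ ≤ 1) (θ : ℝ) (k : ℕ) :
    ∀ F : ℕ → ℝ, (∀ r, 0 ≤ F r) → (∀ r, F r ≤ θ) → 0 ≤ cst δ k F ∧ cst δ k F ≤ θ := by
  induction k with
  | zero => intro F hF hF'; exact ⟨hF 0, hF' 0⟩
  | succ k ih =>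
    intro F hF hF'
    have a := ih (fun r => F (r + 1)) (fun r => hF _) (fun r => hF' _)
    have b := ih F hF hF'
    simp only [cst]
    constructor
    · have := mul_nonneg h0 a.1
      have := mul_nonneg (sub_nonneg.2 h1) b.1
      linarith
    · have := mul_le_mul_of_nonneg_left a.2 h0
      have := mul_le_mul_of_nonneg_left b.2 (sub_nonneg.2 h1)
      nlinarith

open Classical in
lemma E_ind (v : V) (p : κ → Prop) (q : ℕ) (hq : (univ.filter (fun b => p b)).card = q) :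
    E (fun φ : V → κ => if p (φ v) then (1:ℝ) else 0) = q / (Fintype.card κ : ℝ) := by
  rw [E_coord v (fun b => if p b then (1:ℝ) else 0)]
  congr 1
  rw [← hq, Finset.card_filter]
  push_cast
  rfl

open Classical in
lemma E_count (δ : ℝ) (q : ℕ) (hδ : δ = q / (Fintype.card κ : ℝ)) (p : V → κ → Prop)
    (S : Finset V) (hp : ∀ v ∈ S, (univ.filter (fun b => p v b)).card = q) :
    ∀ F : ℕ → ℝ, E (fun φ : V → κ => F ((S.filter (fun v => p v (φ v))).card)) = cst δ S.card F := by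
  induction S using Finset.induction_on with
  | empty => intro F; simp [cst, E_const]
  | insert v S hv ih =>
    intro F
    have ih' := ih (fun w hw => hp w (mem_insert_of_mem hw))
    rw [card_insert_of_notMem hv]
    simp only [cst]
    rw [← ih' F, ← ih' (fun r => F (r + 1)), hδ, ← E_ind v (p v) q (hp v (mem_insert_self v S))]
    have hcard : ∀ φ : V → κ, F (((insert v S).filter (fun w => p w (φ w))).card)
        = (if p v (φ v) then (1:ℝ) else 0) * F ((S.filter (fun w => p w (φ w))).card + 1)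
          + (F ((S.filter (fun w => p w (φ w))).card)
            - (if p v (φ v) then (1:ℝ) else 0) * F ((S.filter (fun w => p w (φ w))).card)) := by
      intro φ
      rw [filter_insert]
      by_cases h : p v (φ v)
      · rw [if_pos h, card_insert_of_notMem (fun hh => hv (mem_filter.1 hh).1), if_pos h]
        ring
      · rw [if_neg h, if_neg h]
        ring
    rw [E_congr hcard, E_add, E_sub]
    have hdv : Dep (fun φ : V → κ => if p v (φ v) then (1:ℝ) else 0) {v} := by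
      intro φ ψ h
      simp only [h v (mem_singleton_self v)]
    have hdS : ∀ F' : ℕ → ℝ, Dep (fun φ : V → κ => F' ((S.filter (fun w => p w (φ w))).card)) S := by
      intro F' φ ψ h
      have : S.filter (fun w => p w (φ w)) = S.filter (fun w => p w (ψ w)) := by
        apply filter_congr
        intro w hw
        rw [h w hw]
      simp only [this]
    have hdis : Disjoint ({v} : Finset V) S := by
      rw [disjoint_singleton_left]; exact hv
    rw [E_mul hdv (hdS (fun r => F (r + 1))) hdis, E_mul hdv (hdS F) hdis]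
    ring

end Pool.Agent.SK
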