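import Mathlib

/-! Passing to colourings with values in `Fin (n.choose (n/2))`. -/

namespace Pool.Agent.SK

open Finset

lemma choose_lt_two_pow' (n k : ℕ) (hn : 1 ≤ n) : n.choose k < 2 ^ n := by
  rw [← Nat.sum_range_choose n]
  by_cases hk : k = 0
  · have h1 : ∑ i ∈ ({0, 1} : Finset ℕ), n.choose i ≤ ∑ i ∈ range (n+1), n.choose i := by
      apply sum_le_sum_of_subset
      intro i hi
      rw [mem_insert, mem_singleton] at hi
      rw [mem_range]; omega
    rw [sum_pair (by norm_num), Nat.choose_zero_right, Nat.choose_one_right] at h1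
    rw [hk, Nat.choose_zero_right]
    omega
  · by_cases hkn : k ≤ n
    · have h1 : ∑ i ∈ ({0, k} : Finset ℕ), n.choose i ≤ ∑ i ∈ range (n+1), n.choose i := by
        apply sum_le_sum_of_subset
        intro i hi
        rw [mem_insert, mem_singleton] at hi
        rw [mem_range]; omega
      rw [sum_pair (Ne.symm hk), Nat.choose_zero_right] at h1
      omega
    · rw [Nat.choose_eq_zero_of_lt (by omega)]
      have : 0 < ∑ i ∈ range (n+1), n.choose i := by
        rw [Nat.sum_range_choose]; positivity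
      exact this

theorem transfer {n k m : ℕ} (hn : 1 ≤ n) (hk : n / 2 = k)
    (col : Fin m → Finset (Fin n) → Finset (Fin n)) (h1 : ∀ i x, (col i x).card = k)
    (h2 : ∀ i x y, col i x = col i y → x ⊆ y ∨ y ⊆ x)
    (h3 : ∀ i j, i ≠ j → ∀ x y, x ≠ y → col i x = col i y → col j x ≠ col j y) :
    ∃ c : Fin m → Finset (Fin n) → Fin (n.choose (n / 2)),
      (∀ i x y, c i x = c i y → x ⊆ y ∨ y ⊆ x) ∧
      (∀ i j, i ≠ j →
        (∀ x y, x ≠ y → c i x = c i y → c j x ≠ c j y) ∧
        ¬ (∀ x y, (c i x = c i y ↔ c j x = c j y))) := by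
  have hcard : Fintype.card {s : Finset (Fin n) // s.card = k} = n.choose (n / 2) := by
    rw [Fintype.card_finset_len, Fintype.card_fin, hk]
  let e := Fintype.equivFinOfCardEq hcard
  have key : ∀ i x y, e ⟨col i x, h1 i x⟩ = e ⟨col i y, h1 i y⟩ ↔ col i x = col i y := by
    intro i x y
    rw [e.injective.eq_iff, Subtype.mk_eq_mk]
  refine ⟨fun i x => e ⟨col i x, h1 i x⟩, ?_, ?_⟩
  · intro i x y h
    exact h2 i x y ((key i x y).1 h)
  · intro i j hij
    have h4 : ∀ x y, x ≠ y → e ⟨col i x, h1 i x⟩ = e ⟨col i y, h1 i y⟩ →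
        e ⟨col j x, h1 j x⟩ ≠ e ⟨col j y, h1 j y⟩ := by
      intro x y hxy h h'
      exact h3 i j hij x y hxy ((key i x y).1 h) ((key j x y).1 h')
    refine ⟨h4, fun hall => ?_⟩
    have hinj : Function.Injective (fun x => e ⟨col i x, h1 i x⟩) := by
      intro x y h
      by_contra hne
      exact h4 x y hne h ((hall x y).1 h)
    have h5 := Fintype.card_le_of_injective _ hinj
    rw [Fintype.card_finset, Fintype.card_fin, Fintype.card_fin] at h5
    have := choose_lt_two_pow' n (n/2) hn
    omega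

end Pool.Agent.SK
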